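import Pool.Agent.N616.NH.Stm

set_option autoImplicit false

/-!
# Project NH: the integral closure of a valuation ring has finitely many maximal ideals
-/

namespace Pool.Agent.N616.NH

namespace FIN_

/-- elements of `O` belong to the integral closure -/
lemma mem_RI {K : Type} [Field K] (O : ValuationSubring K) (L : Type) [Field L] [Algebra K L]
    {c : K} (hc : c ∈ O) : algebraMap K L c ∈ RI O L := by
  have h := RingHom.isIntegralElem_map ((algebraMap K L).comp O.subtype) (x := ⟨c, hc⟩)
  exact h

end FIN_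

open FIN_ in
theorem FIN : S_FIN := by
  intro K _ O L _ _ _
  by_contra hinf
  rw [not_finite_iff_infinite] at hinf
  set n := Module.finrank K L with hn
  let e : Fin (n + 1) ↪ MaximalSpectrum (RI O L) :=
    ⟨fun i => Infinite.natEmbedding _ (i : ℕ), fun i j h =>
      Fin.ext ((Infinite.natEmbedding _).injective h)⟩
  have hcop : Pairwise fun i j => IsCoprime (e i).asIdeal (e j).asIdeal := by
    intro i j hij
    rw [Ideal.isCoprime_iff_sup_eq]
    refine (e i).isMaximal.coprime_of_ne (e j).isMaximal fun h => hij (e.injective ?_)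
    exact MaximalSpectrum.ext h
  have hr : ∀ i : Fin (n + 1), ∃ r : RI O L, r - 1 ∈ (e i).asIdeal ∧
      ∀ j, j ≠ i → r ∈ (e j).asIdeal := by
    intro i
    obtain ⟨r, hr⟩ := Ideal.exists_forall_sub_mem_ideal hcop (fun j => if j = i then (1 : RI O L) else 0)
    refine ⟨r, ?_, fun j hj => ?_⟩
    · have := hr i
      rwa [if_pos rfl] at this
    · have := hr j
      rwa [if_neg hj, sub_zero] at this
  choose r hr1 hr0 using hr
  have hli : ¬ LinearIndependent K (fun i => (r i : L)) := by
    intro h
    have := h.fintype_card_le_finrank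
    rw [Fintype.card_fin] at this
    omega
  rw [Fintype.not_linearIndependent_iff] at hli
  obtain ⟨g, hg, i₀, hi₀⟩ := hli
  obtain ⟨j, -, hj⟩ := Finset.exists_max_image Finset.univ (fun i => O.valuation (g i))
    ⟨i₀, Finset.mem_univ _⟩
  have hgj : g j ≠ 0 := by
    intro h
    have h1 := hj i₀ (Finset.mem_univ _)
    rw [h, map_zero, le_zero_iff, map_eq_zero] at h1
    exact hi₀ h1
  have hc : ∀ i, g i / g j ∈ O := by
    intro i
    rw [← O.valuation_le_one_iff, map_div₀]
    exact div_le_one_of_le₀ (hj i (Finset.mem_univ _)) zero_le'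
  have hsum : ∑ i, (⟨_, mem_RI O L (hc i)⟩ : RI O L) * r i = 0 := by
    apply Subtype.ext
    rw [AddSubmonoidClass.coe_finsetSum]
    have h1 : ∑ i, algebraMap K L (g i / g j) * (r i : L) = (g j)⁻¹ • ∑ i, g i • (r i : L) := by
      rw [Finset.smul_sum]
      refine Finset.sum_congr rfl fun i _ => ?_
      rw [smul_smul, Algebra.smul_def, div_eq_inv_mul]
    rw [hg, smul_zero] at h1
    exact h1
  rw [← Finset.add_sum_erase _ _ (Finset.mem_univ j)] at hsum
  have hrest : ∑ i ∈ Finset.univ.erase j, (⟨_, mem_RI O L (hc i)⟩ : RI O L) * r i ∈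
      (e j).asIdeal := by
    refine Ideal.sum_mem _ fun i hi => Ideal.mul_mem_left _ _ ?_
    exact hr0 i j (Finset.ne_of_mem_erase hi).symm
  have hone : (⟨_, mem_RI O L (hc j)⟩ : RI O L) = 1 := by
    apply Subtype.ext
    show algebraMap K L (g j / g j) = 1
    rw [div_self hgj, map_one]
  rw [hone, one_mul] at hsum
  have h2 : r j ∈ (e j).asIdeal := by
    rw [eq_neg_of_add_eq_zero_left hsum]
    exact (Ideal.neg_mem_iff _).2 hrest
  have h3 : (1 : RI O L) ∈ (e j).asIdeal := by
    have := Ideal.sub_mem _ h2 (hr1 j)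
    rwa [sub_sub_cancel] at this
  exact (e j).isMaximal.ne_top ((Ideal.eq_top_iff_one _).2 h3)

end Pool.Agent.N616.NH
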