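import Pool.Agent.N616.NH.Stm

set_option autoImplicit false

/-!
# NH/HEN: a criterion for henselian valuation rings
-/

namespace Pool.Agent.N616.NH

open Polynomial IsLocalRing

namespace HEN_

variable {K : Type} [Field K] (O : ValuationSubring K) (L : Type) [Field L] [Algebra K L]

/-- the valuation ring in its integral closure -/
def bas : O →+* RI O L where
  toFun x := ⟨algebraMap K L x, RingHom.isIntegralElem_map ((algebraMap K L).comp O.subtype)⟩
  map_one' := Subtype.ext (by simp)
  map_mul' x y := Subtype.ext (by simp)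
  map_zero' := Subtype.ext (by simp)
  map_add' x y := Subtype.ext (by simp)

theorem bas_coe (x : O) : ((bas O L x : RI O L) : L) = algebraMap K L x := rfl

theorem bas_integral : (bas O L).IsIntegral := by
  intro z
  obtain ⟨p, hp, h⟩ := z.2
  refine ⟨p, hp, Subtype.ext ?_⟩
  change (RI O L).subtype (eval₂ (bas O L) z p) = 0
  rw [hom_eval₂]
  exact h

theorem mem_jac {x : O} (hx : x ∈ maximalIdeal O) (r : RI O L) :
    bas O L x * r ∈ Jac (RI O L) := by
  change bas O L x * r ∈ sInf {J : Ideal (RI O L) | ⊥ ≤ J ∧ J.IsMaximal}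
  rw [Ideal.mem_sInf]
  rintro M ⟨-, hM⟩
  refine M.mul_mem_right _ ?_
  have h1 := Ideal.isMaximal_comap_of_isIntegral_of_isMaximal' (bas O L) (bas_integral O L) M
  have h2 := IsLocalRing.eq_maximalIdeal h1
  rw [← h2] at hx
  exact hx

theorem norm_mem (z : RI O L) : ∃ o : O, (o : K) = Algebra.norm K (z : L) := by
  let _ : Algebra O L := ((algebraMap K L).comp O.subtype).toAlgebra
  have : IsScalarTower O K L := IsScalarTower.of_algebraMap_eq fun x => rfl
  have h : IsIntegral O (z : L) := z.2
  have h2 := Algebra.isIntegral_norm K h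
  exact IsIntegrallyClosed.isIntegral_iff.1 h2

variable {O L}

theorem unit_of_jac {e : RI O L} (h : e ∈ Jac (RI O L)) : ∃ w : RI O L, (1 - e) * w = 1 := by
  have h1 := (Ideal.mem_jacobson_bot.1 h) (-1)
  rw [mul_neg, mul_one, neg_add_eq_sub] at h1
  exact h1.exists_right_inv

/-- evaluation of polynomials over `O` at elements of the integral closure -/
noncomputable def ev (z : RI O L) (g : O[X]) : RI O L := eval₂ (bas O L) z g

/-- the hypothesis -/
def Hyp (O : ValuationSubring K) : Prop :=
  ∀ (L : Type) [Field L] [Algebra K L] [FiniteDimensional K L] (e : RI O L),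
      e ^ 2 - e ∈ Jac (RI O L) → e ∈ Jac (RI O L) ∨ 1 - e ∈ Jac (RI O L)

/-- the irreducible case -/
theorem irr (H : Hyp O) {f : O[X]} (hf : f.Monic) (hirr : Irreducible f) (h0 : f.coeff 0 ∈ maximalIdeal O)
    (h1 : IsUnit (f.coeff 1)) : f.natDegree = 1 := by
  by_contra hn
  have hn0 : f.natDegree ≠ 0 := by
    intro h
    have := eq_one_of_monic_natDegree_zero hf h
    exact hirr.1 (this ▸ isUnit_one)
  have hn2 : 2 ≤ f.natDegree := by omega
  set F : K[X] := f.map (algebraMap O K) with hF
  have hFm : F.Monic := hf.map _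
  have hFirr : Irreducible F := (hf.irreducible_iff_irreducible_map_fraction_map).1 hirr
  have : Fact (Irreducible F) := ⟨hFirr⟩
  have hfd : FiniteDimensional K (AdjoinRoot F) := (AdjoinRoot.powerBasis hFm.ne_zero).finite
  have hroot : eval₂ ((algebraMap K (AdjoinRoot F)).comp O.subtype) (AdjoinRoot.root F) f = 0 := by
    have e1 := AdjoinRoot.eval₂_root F
    rw [hF, eval₂_map] at e1
    exact e1
  set θ : RI O (AdjoinRoot F) := ⟨AdjoinRoot.root F, f, hf, hroot⟩ with hθ
  have hθ0 : ev θ f = 0 := by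
    apply Subtype.ext
    change (RI O (AdjoinRoot F)).subtype (eval₂ (bas O (AdjoinRoot F)) θ f) = 0
    rw [hom_eval₂]
    exact hroot
  -- the norm of the root
  have hnorm : Algebra.norm K (θ : AdjoinRoot F) = (-1) ^ f.natDegree * (f.coeff 0 : K) := by
    have e1 := Algebra.PowerBasis.norm_gen_eq_coeff_zero_minpoly (AdjoinRoot.powerBasis hFm.ne_zero)
    rw [AdjoinRoot.powerBasis_gen, AdjoinRoot.minpoly_root hFm.ne_zero, hFm.leadingCoeff, inv_one,
      C_1, mul_one, AdjoinRoot.powerBasis_dim, hF, coeff_map, hf.natDegree_map] at e1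
    exact e1
  -- expansion of `f`
  set G := f.divX with hG
  set h := G.divX with hh
  have hfG : f = X * G + C (f.coeff 0) := by rw [hG]; exact (X_mul_divX_add f).symm
  have hGh : G = X * h + C (f.coeff 1) := by
    have e1 := (X_mul_divX_add G).symm
    have e2 : G.coeff 0 = f.coeff 1 := by rw [hG, coeff_divX]
    rw [e2] at e1
    exact e1
  set B := bas O (AdjoinRoot F) with hB
  have evadd : ∀ a b : O[X], ev θ (a + b) = ev θ a + ev θ b := fun a b => eval₂_add _ _
  have evX : ∀ a : O[X], ev θ (X * a) = θ * ev θ a := by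
    intro a
    unfold ev
    rw [eval₂_mul, eval₂_X]
  have evC : ∀ a : O, ev θ (C a) = B a := fun a => eval₂_C _ _
  have r1 : θ * ev θ G + B (f.coeff 0) = 0 := by
    rw [← evX, ← evC, ← evadd, ← hfG, hθ0]
  have r2 : ev θ G = θ * ev θ h + B (f.coeff 1) := by
    rw [← evX, ← evC, ← evadd, ← hGh]
  obtain ⟨u', hu'⟩ := h1.exists_left_inv
  have hB1 : B u' * B (f.coeff 1) = 1 := by rw [← map_mul, hu', map_one]
  have e1 : 1 - B u' * ev θ G = -(B u' * θ * ev θ h) := by
    rw [r2]
    linear_combination (-1 : RI O (AdjoinRoot F)) * hB1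
  have e2 : (B u' * ev θ G) ^ 2 - B u' * ev θ G =
      B (f.coeff 0) * (-(B u' * B u' * ev θ h)) := by
    have : (B u' * ev θ G) ^ 2 - B u' * ev θ G = -(B u' * ev θ G) * (1 - B u' * ev θ G) := by ring
    rw [this, e1]
    linear_combination (B u' * B u' * ev θ h) * r1
  have hj : (B u' * ev θ G) ^ 2 - B u' * ev θ G ∈ Jac (RI O (AdjoinRoot F)) := by
    rw [e2]
    exact mem_jac O (AdjoinRoot F) h0 _
  have hnu : ∀ o : O, f.coeff 0 * o ≠ 1 := by
    intro o ho
    exact (mem_nonunits_iff.1 ((mem_maximalIdeal _).1 h0)) (IsUnit.of_mul_eq_one _ ho)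
  have hsgn : ((-1 : K) ^ f.natDegree) * ((-1 : K) ^ f.natDegree) = 1 := by
    rw [← mul_pow]; norm_num
  have hcoe : ∀ a b : O, (a : K) = b → a = b := fun a b hab => Subtype.ext hab
  rcases H (AdjoinRoot F) _ hj with hA | hA
  · -- `θ` is a unit
    obtain ⟨w, hw⟩ := unit_of_jac hA
    rw [e1] at hw
    have hw2 : θ * (-(B u' * ev θ h) * w) = 1 := by rw [← hw]; ring
    obtain ⟨o, ho⟩ := norm_mem O (AdjoinRoot F) (-(B u' * ev θ h) * w)
    have hN : Algebra.norm K (θ : AdjoinRoot F) *
        Algebra.norm K ((-(B u' * ev θ h) * w : RI O (AdjoinRoot F)) : AdjoinRoot F) = 1 := by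
      rw [← map_mul, ← Subring.coe_mul, hw2, Subring.coe_one, map_one]
    rw [hnorm, ← ho] at hN
    apply hnu ((-1) ^ f.natDegree * o)
    apply hcoe
    push_cast
    linear_combination hN
  · -- `ev θ G` is a unit
    obtain ⟨w, hw⟩ := unit_of_jac hA
    rw [sub_sub_cancel] at hw
    have hw2 : θ * B (f.coeff 1) = -(B (f.coeff 0)) * w := by
      have : θ * B (f.coeff 1) * 1 = -(B (f.coeff 0)) * w := by
        rw [← hw]
        linear_combination (B u' * B (f.coeff 1) * w) * r1 - (B (f.coeff 0) * w) * hB1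
      rwa [mul_one] at this
    obtain ⟨o, ho⟩ := norm_mem O (AdjoinRoot F) w
    have hN := congrArg (fun z : RI O (AdjoinRoot F) => Algebra.norm K (z : AdjoinRoot F)) hw2
    simp only [Subring.coe_mul, Subring.coe_neg, map_mul] at hN
    have hdim : Module.finrank K (AdjoinRoot F) = f.natDegree := by
      rw [(AdjoinRoot.powerBasis hFm.ne_zero).finrank, AdjoinRoot.powerBasis_dim, hF,
        hf.natDegree_map]
    have hNB : ∀ a : O, Algebra.norm K ((B a : RI O (AdjoinRoot F)) : AdjoinRoot F) =
        (a : K) ^ f.natDegree := by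
      intro a
      rw [hB, bas_coe, Algebra.norm_algebraMap, hdim]
    have hNn : Algebra.norm K (-((B (f.coeff 0) : RI O (AdjoinRoot F)) : AdjoinRoot F)) =
        (-1) ^ f.natDegree * (f.coeff 0 : K) ^ f.natDegree := by
      have e3 : -((B (f.coeff 0) : RI O (AdjoinRoot F)) : AdjoinRoot F) =
          algebraMap K (AdjoinRoot F) (-(f.coeff 0 : K)) := by
        rw [map_neg]; rfl
      rw [e3, Algebra.norm_algebraMap, hdim, neg_pow]
    rw [hnorm, hNB, hNn, ← ho] at hN
    have hne : (f.coeff 0 : K) ≠ 0 := by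
      intro hz
      have hz' : f.coeff 0 = 0 := hcoe _ _ hz
      rw [hz', C_0, add_zero] at hfG
      rcases hirr.isUnit_or_isUnit hfG with hx | hx
      · exact not_isUnit_X hx
      · have := natDegree_eq_zero_of_isUnit hx
        rw [hfG, natDegree_X_mul] at hn2
        · omega
        · intro hG0
          rw [hG0, mul_zero] at hfG
          rw [hfG] at hn0
          exact hn0 natDegree_zero
    obtain ⟨k, hk⟩ : ∃ k, f.natDegree = k + 2 := ⟨f.natDegree - 2, by omega⟩
    have hfin : (f.coeff 1 : K) ^ f.natDegree = (f.coeff 0 : K) * ((f.coeff 0 : K) ^ k * o) := by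
      have e4 : (f.coeff 0 : K) ^ f.natDegree = f.coeff 0 * (f.coeff 0 * (f.coeff 0 : K) ^ k) := by
        rw [hk]; ring
      rw [e4] at hN
      have e5 : (f.coeff 0 : K) * ((f.coeff 1 : K) ^ f.natDegree) =
          f.coeff 0 * ((f.coeff 0 : K) * ((f.coeff 0 : K) ^ k * o)) := by
        linear_combination (-1) ^ f.natDegree * hN - ((f.coeff 0 : K) * (f.coeff 1 : K) ^ f.natDegree -
          f.coeff 0 * (f.coeff 0 * (f.coeff 0 : K) ^ k) * o) * hsgn
      exact mul_left_cancel₀ hne e5
    apply hnu (f.coeff 0 ^ k * o * u' ^ f.natDegree)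
    apply hcoe
    have hu2 : (u' : K) * (f.coeff 1 : K) = 1 := by
      have := congrArg (fun x : O => (x : K)) hu'
      simpa using this
    have hu3 : (u' : K) ^ f.natDegree * (f.coeff 1 : K) ^ f.natDegree = 1 := by
      rw [← mul_pow, hu2, one_pow]
    push_cast
    linear_combination hu3 - (u' : K) ^ f.natDegree * hfin

/-- roots in the maximal ideal -/
theorem root (H : Hyp O) : ∀ (n : ℕ) (f : O[X]), f.natDegree ≤ n → f.Monic →
    f.coeff 0 ∈ maximalIdeal O → IsUnit (f.coeff 1) → ∃ a : O, f.IsRoot a ∧ a ∈ maximalIdeal O := by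
  intro n
  induction n with
  | zero =>
    intro f hn hf h0 _
    have h2 := eq_one_of_monic_natDegree_zero hf (Nat.le_zero.1 hn)
    rw [h2, coeff_one_zero] at h0
    exact absurd (isUnit_one) (mem_nonunits_iff.1 ((mem_maximalIdeal _).1 h0))
  | succ n ih =>
    intro f hn hf h0 h1
    by_cases hirr : Irreducible f
    · have hd := irr H hf hirr h0 h1
      refine ⟨-f.coeff 0, ?_, neg_mem h0⟩
      have e1 := hf.eq_X_add_C hd
      rw [e1, IsRoot.def, eval_add, eval_X, eval_C]
      rw [coeff_add, coeff_X_zero, zero_add, coeff_C_zero]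
      ring
    · have hne : f ≠ 1 := by
        rintro rfl
        rw [coeff_one_zero] at h0
        exact absurd (isUnit_one) (mem_nonunits_iff.1 ((mem_maximalIdeal _).1 h0))
      rw [hf.irreducible_iff_natDegree'] at hirr
      push Not at hirr
      obtain ⟨g, h, hg, hh, hgh, hdeg⟩ := hirr hne
      rw [Finset.mem_Ioc] at hdeg
      have hsum : f.natDegree = g.natDegree + h.natDegree := by
        rw [← hgh, hg.natDegree_mul hh]
      have hc0 : f.coeff 0 = g.coeff 0 * h.coeff 0 := by rw [← hgh, mul_coeff_zero]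
      have hc1 : f.coeff 1 = g.coeff 0 * h.coeff 1 + g.coeff 1 * h.coeff 0 := by
        rw [← hgh, mul_coeff_one]
      have hmax : (maximalIdeal O).IsPrime := inferInstance
      have hunit : ∀ x : O, x ∉ maximalIdeal O → IsUnit x := fun x hx => by
        by_contra hc
        exact hx ((mem_maximalIdeal _).2 hc)
      have hnotmem : f.coeff 1 ∉ maximalIdeal O := fun hc =>
        (mem_nonunits_iff.1 ((mem_maximalIdeal _).1 hc)) h1
      rw [hc0] at h0
      rcases hmax.mem_or_mem h0 with hm | hm
      · have hu : IsUnit (g.coeff 1) := by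
          apply hunit
          intro hc
          apply hnotmem
          rw [hc1]
          exact Ideal.add_mem _ (Ideal.mul_mem_right _ _ hm) (Ideal.mul_mem_right _ _ hc)
        obtain ⟨a, ha, ha2⟩ := ih g (by omega) hg hm hu
        refine ⟨a, ?_, ha2⟩
        rw [← hgh, IsRoot.def, eval_mul, ha.eq_zero, zero_mul]
      · have hu : IsUnit (h.coeff 1) := by
          apply hunit
          intro hc
          apply hnotmem
          rw [hc1]
          exact Ideal.add_mem _ (Ideal.mul_mem_left _ _ hc) (Ideal.mul_mem_left _ _ hm)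
        obtain ⟨a, ha, ha2⟩ := ih h (by omega) hh hm hu
        refine ⟨a, ?_, ha2⟩
        rw [← hgh, IsRoot.def, eval_mul, ha.eq_zero, mul_zero]

end HEN_

theorem HEN : S_HEN := by
  intro K _ O H
  refine { is_henselian := ?_ }
  intro f hf a₀ h0 h1
  obtain ⟨a, ha, ha2⟩ := HEN_.root H _ (taylor a₀ f) le_rfl (by rw [Monic, leadingCoeff_taylor]; exact hf)
    (by rw [taylor_coeff_zero]; exact h0) (by rw [taylor_coeff_one]; exact h1)
  refine ⟨a + a₀, ?_, by rw [add_sub_cancel_right]; exact ha2⟩
  rw [IsRoot.def, taylor_eval] at ha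
  exact ha

end Pool.Agent.N616.NH
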