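import Pool.Agent.N616.NH.FR3
import Pool.Agent.N616.NH.HEN
import Pool.Agent.N616.NH.FIN

set_option autoImplicit false

/-! Project NH: residue fields of the integral closure of a valuation ring in a finite extension, and
definability of its maximal ideals. -/

namespace Pool.Agent.N616.NH

open FirstOrder Pool.Agent.W882.Nip3 DJ_ Polynomial

namespace AL_

section residue

variable {K : Type} [Field K] (O : ValuationSubring K) (L : Type) [Field L] [Algebra K L]
  (M : Ideal (RI O L)) [hM : M.IsMaximal]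

theorem comap_eq : M.comap (HEN_.bas O L) = IsLocalRing.maximalIdeal O :=
  IsLocalRing.eq_maximalIdeal
    (Ideal.isMaximal_comap_of_isIntegral_of_isMaximal' (HEN_.bas O L) (HEN_.bas_integral O L) M)

/-- the embedding of the residue fields -/
noncomputable def kmap : IsLocalRing.ResidueField O →+* (RI O L ⧸ M) :=
  Ideal.quotientMap M (HEN_.bas O L) (comap_eq O L M).ge

theorem kmap_residue (x : O) :
    kmap O L M (IsLocalRing.residue O x) = Ideal.Quotient.mk M (HEN_.bas O L x) := rfl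

theorem exists_poly [FiniteDimensional K L] (z : RI O L ⧸ M) :
    ∃ f : (IsLocalRing.ResidueField O)[X], f.Monic ∧ f.natDegree ≤ Module.finrank K L ∧
      f.eval₂ (kmap O L M) z = 0 := by
  obtain ⟨r, rfl⟩ := Ideal.Quotient.mk_surjective z
  obtain ⟨a, ha, h⟩ := (mem_RI O (r : L)).1 r.2
  generalize Module.finrank K L = n at a ha h ⊢
  choose y hy hya using ha
  set q : (IsLocalRing.ResidueField O)[X] :=
    ∑ i : Fin n, C (IsLocalRing.residue O ⟨y i, hy i⟩) * X ^ (i : ℕ) with hq
  have hdeg : q.degree < n := degree_sum_fin_lt _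
  refine ⟨X ^ n + q, monic_X_pow_add hdeg, ?_, ?_⟩
  · exact natDegree_le_of_degree_le ((degree_add_le _ _).trans
      (max_le (degree_X_pow_le n) hdeg.le))
  · have h1 : (r ^ n + ∑ i : Fin n, HEN_.bas O L ⟨y i, hy i⟩ * r ^ (i : ℕ) : RI O L) = 0 := by
      apply Subtype.ext
      have h2 : ((∑ i : Fin n, HEN_.bas O L ⟨y i, hy i⟩ * r ^ (i : ℕ) : RI O L) : L) =
          ∑ i : Fin n, a i * (r : L) ^ (i : ℕ) := by
        rw [AddSubmonoidClass.coe_finsetSum]
        refine Finset.sum_congr rfl fun i _ => ?_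
        rw [← hya i]
        rfl
      show (r : L) ^ n + ((∑ i : Fin n, HEN_.bas O L ⟨y i, hy i⟩ * r ^ (i : ℕ) : RI O L) : L) = 0
      rw [h2]
      exact h
    have h3 := congrArg (Ideal.Quotient.mk M) h1
    rw [map_add, map_pow, map_sum, map_zero] at h3
    rw [eval₂_add, eval₂_X_pow, hq, eval₂_finsetSum, ← h3]
    congr 1
    refine Finset.sum_congr rfl fun i _ => ?_
    rw [eval₂_mul, eval₂_C, eval₂_X_pow, kmap_residue, map_mul, map_pow]

end residue

/-- elements algebraic over a field which is algebraic over the prime field -/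
theorem pow_fixed {k κ : Type} [Field k] [Field κ] (p : ℕ) [Fact p.Prime] [CharP k p] [CharP κ p]
    (φ : k →+* κ) (halg : ∀ a : k, ∃ n : ℕ, 0 < n ∧ a ^ p ^ n = a) (z : κ) (f : k[X])
    (hf : f.Monic) (hz : f.eval₂ φ z = 0) : ∃ n : ℕ, 0 < n ∧ z ^ p ^ n = z := by
  classical
  choose e he1 he2 using halg
  have hmul : ∀ (a : k) (m : ℕ), a ^ p ^ (e a * m) = a := by
    intro a m
    induction m with
    | zero => simp
    | succ m ih => rw [Nat.mul_succ, pow_add, pow_mul, ih, he2]
  set N := ∏ i ∈ Finset.range (f.natDegree + 1), e (f.coeff i) with hN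
  have hN0 : 0 < N := Finset.prod_pos fun i _ => he1 _
  have hfix : ∀ i, f.coeff i ^ p ^ N = f.coeff i := by
    intro i
    by_cases hi : i ∈ Finset.range (f.natDegree + 1)
    · rw [hN, ← Finset.mul_prod_erase _ _ hi]
      exact hmul _ _
    · rw [Finset.mem_range, not_lt] at hi
      rw [coeff_eq_zero_of_natDegree_lt (by omega), zero_pow]
      exact (pow_pos (Fact.out : p.Prime).pos _).ne'
  have hroot : ∀ z : κ, f.eval₂ φ z = 0 → f.eval₂ φ (z ^ p ^ N) = 0 := by
    intro z hz
    have h1 := congrArg (iterateFrobenius κ p N) hz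
    rw [map_zero, hom_eval₂, iterateFrobenius_def] at h1
    rw [← h1]
    rw [eval₂_eq_sum_range, eval₂_eq_sum_range]
    refine Finset.sum_congr rfl fun i _ => ?_
    congr 1
    rw [RingHom.comp_apply, iterateFrobenius_def, ← map_pow, hfix]
  have hroots : ∀ m : ℕ, f.eval₂ φ (z ^ p ^ (N * m)) = 0 := by
    intro m
    induction m with
    | zero => simpa using hz
    | succ m ih =>
      have := hroot _ ih
      rwa [← pow_mul, ← pow_add, ← Nat.mul_succ] at this
  have hf0 : f.map φ ≠ 0 := (hf.map φ).ne_zero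
  have hninj : ¬ Function.Injective (fun m : ℕ => z ^ p ^ (N * m)) := by
    intro hinj
    have h1 : Set.range (fun m : ℕ => z ^ p ^ (N * m)) ⊆ ((f.map φ).roots.toFinset : Set κ) := by
      rintro _ ⟨m, rfl⟩
      rw [Finset.mem_coe, Multiset.mem_toFinset, mem_roots hf0, IsRoot.def, eval_map]
      exact hroots m
    exact (Set.infinite_range_of_injective hinj) ((Finset.finite_toSet _).subset h1)
  rw [Function.Injective] at hninj
  push Not at hninj
  obtain ⟨i, j, hij, hne⟩ := hninj
  have key : ∀ i j : ℕ, i < j → z ^ p ^ (N * i) = z ^ p ^ (N * j) →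
      ∃ n : ℕ, 0 < n ∧ z ^ p ^ n = z := by
    intro i j hlt h
    refine ⟨N * (j - i), Nat.mul_pos hN0 (by omega), ?_⟩
    apply (iterateFrobenius κ p (N * i)).injective
    rw [iterateFrobenius_def, iterateFrobenius_def, ← pow_mul, ← pow_add, ← Nat.mul_add,
      Nat.sub_add_cancel hlt.le]
    exact h.symm
  rcases lt_or_gt_of_ne hne with h | h
  · exact key i j h hij
  · exact key j i h hij.symm

section def_

/-- the integral closure is definable -/
theorem D_RI (K : Type) [Field K] [FirstOrder.Ring.CompatibleRing K] (O : ValuationSubring K)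
    (hO : Dfb O) (L : Type) [Field L] [Algebra K L] [FiniteDimensional K L] :
    D K (fun v : Fin 1 → L => v 0 ∈ RI O L) := by
  have hA := DFA
  have hB := DFB
  set n := Module.finrank K L with hn
  have hAO : D K (fun v : Fin 1 → L => AO O L (v 0)) := (hB K L).2 O hO
  have h1 : D K (fun v : Fin 1 ⊕ Fin n → L => (∀ i, AO O L (v (Sum.inr i))) ∧
      MvPolynomial.eval v (MvPolynomial.X (Sum.inl 0) ^ n + ∑ i : Fin n,
        MvPolynomial.X (Sum.inr i) * MvPolynomial.X (Sum.inl 0) ^ (i : ℕ)) = 0) :=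
    D_and hA (D_forall hA hB fun i => D_mem hA hAO _) (D_poly hB _)
  refine D_congr (fun v => ?_) (D_ex hA h1)
  rw [mem_RI]
  simp only [map_add, map_pow, MvPolynomial.eval_X, map_sum, map_mul, Sum.elim_inl, Sum.elim_inr]
  rfl

/-- the Jacobson radical is definable -/
theorem D_AJ (K : Type) [Field K] [FirstOrder.Ring.CompatibleRing K] (L : Type) [Field L]
    [Algebra K L] [FiniteDimensional K L] (R : Subring L)
    (hR : D K (fun v : Fin 1 → L => v 0 ∈ R)) : D K (fun v : Fin 1 → L => AJ R (v 0)) := by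
  have hA := DFA
  have hB := DFB
  have h1 : D K (fun v : (Fin 1 ⊕ Fin 1) ⊕ Fin 1 → L => v (Sum.inr 0) ∈ R ∧
      MvPolynomial.eval v ((MvPolynomial.X (Sum.inl (Sum.inl 0)) *
        MvPolynomial.X (Sum.inl (Sum.inr 0)) + 1) * MvPolynomial.X (Sum.inr 0) - 1) = 0) :=
    D_and hA (D_mem hA hR _) (D_poly hB _)
  have h2 : D K (fun v : Fin 1 ⊕ Fin 1 → L => v (Sum.inr 0) ∈ R →
      ∃ s : L, s ∈ R ∧ (v (Sum.inl 0) * v (Sum.inr 0) + 1) * s - 1 = 0) := by
    refine D_imp hA (D_mem hA hR _) (D_congr (fun v => ?_) (D_ex1 hA h1))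
    simp only [map_add, map_sub, map_one, MvPolynomial.eval_X, map_mul, Sum.elim_inl,
      Sum.elim_inr]
  refine D_congr (fun v => ?_) (D_and hA hR (D_all1 hA h2))
  rw [mem_AJ]
  simp only [Sum.elim_inl, Sum.elim_inr]

/-- membership in an ideal -/
def MM {L : Type} [Field L] (R : Subring L) (M : Ideal R) (z : L) : Prop := ∃ h : z ∈ R, (⟨z, h⟩ : R) ∈ M

theorem exists_e {L : Type} [Field L] (R : Subring L) [Finite (MaximalSpectrum R)] (M : Ideal R)
    (hM : M.IsMaximal) : ∃ e : R, ∀ z : R, z ∈ M ↔ z * e ∈ Jac R := by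
  classical
  have hcop : Pairwise (Function.onFun IsCoprime fun M : MaximalSpectrum R => M.asIdeal) := by
    intro M M' hne
    exact Ideal.isCoprime_of_isMaximal (ne := fun h => hne (MaximalSpectrum.ext h))
  obtain ⟨e, he⟩ := Ideal.pi_quotient_surjective hcop
    (fun M' => if M'.asIdeal = M then 1 else 0)
  refine ⟨e, fun z => ?_⟩
  have h1 : e ∉ M := by
    intro h
    have h2 := he ⟨M, hM⟩
    simp only [if_true] at h2
    rw [Ideal.Quotient.eq_zero_iff_mem.2 h] at h2
    have : Nontrivial (R ⧸ M) := Ideal.Quotient.nontrivial_iff.2 hM.ne_top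
    exact zero_ne_one h2
  constructor
  · intro hz
    change z * e ∈ sInf {J : Ideal R | ⊥ ≤ J ∧ J.IsMaximal}
    rw [Ideal.mem_sInf]
    rintro M' ⟨-, hM'⟩
    by_cases h : M' = M
    · rw [h]
      exact M.mul_mem_right _ hz
    · refine M'.mul_mem_left _ ?_
      have h2 := he ⟨M', hM'⟩
      simp only [if_neg h] at h2
      exact Ideal.Quotient.eq_zero_iff_mem.1 h2
  · intro hz
    change z * e ∈ sInf {J : Ideal R | ⊥ ≤ J ∧ J.IsMaximal} at hz
    rw [Ideal.mem_sInf] at hz
    exact (hM.isPrime.mem_or_mem (hz ⟨bot_le, hM⟩)).resolve_right h1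

/-- the maximal ideals are definable -/
theorem D_MM (K : Type) [Field K] [FirstOrder.Ring.CompatibleRing K] (L : Type) [Field L]
    [Algebra K L] [FiniteDimensional K L] (R : Subring L)
    (hR : D K (fun v : Fin 1 → L => v 0 ∈ R)) [Finite (MaximalSpectrum R)] (M : Ideal R)
    (hM : M.IsMaximal) : D K (fun v : Fin 1 → L => MM R M (v 0)) := by
  obtain ⟨e, he⟩ := exists_e R M hM
  have h1 : D K (fun v : Fin 1 ⊕ Fin 1 → L => MvPolynomial.eval v
      (MvPolynomial.X (Sum.inr 0) - MvPolynomial.X (Sum.inl 0) * MvPolynomial.C (e : L) :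
        MvPolynomial (Fin 1 ⊕ Fin 1) L) = 0) := D_poly DFB _
  have h2 : D K (fun v : Fin 1 ⊕ Fin 1 → L => AJ R (v (Sum.inr 0))) :=
    D_re DFA (fun _ : Fin 1 => Sum.inr 0) (D_AJ K L R hR)
  refine D_congr (fun v => ?_) (D_and DFA hR (D_ex1 DFA (D_and DFA h1 h2)))
  simp only [map_sub, map_mul, MvPolynomial.eval_X, MvPolynomial.eval_C, Sum.elim_inr,
    Sum.elim_inl, sub_eq_zero]
  constructor
  · rintro ⟨h3, w, rfl, h4, h5⟩
    exact ⟨h3, (he _).2 h5⟩
  · rintro ⟨h3, h4⟩
    exact ⟨h3, _, rfl, R.mul_mem h3 e.2, (he ⟨v 0, h3⟩).1 h4⟩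

end def_

end AL_

end Pool.Agent.N616.NH
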