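import Pool.Agent.N616.NH.Stm4
import Pool.Agent.H435R3.Weil.Main

/-!
# NH/FFP: all patterns of `ℓ`-th powers in large finite fields, from Weil's bound
-/

set_option autoImplicit false

namespace Pool.Agent.N616.NH

namespace FFP_

open Polynomial Finset

/-- the coefficients of the factors -/
noncomputable def w (ℓ : ℕ) (b : Prop) [Decidable b] (j : ℕ) : ℂ :=
  if b then 1 else (if j = 0 then (ℓ : ℂ) - 1 else -1)

section

variable {ℓ : ℕ} (hℓ : ℓ.Prime)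
include hℓ

lemma w_norm (b : Prop) [Decidable b] (j : ℕ) : ‖w ℓ b j‖ ≤ ℓ := by
  have h2 : (2 : ℝ) ≤ ℓ := by exact_mod_cast hℓ.two_le
  unfold w
  split_ifs
  · rw [norm_one]; linarith
  · have : (ℓ : ℂ) - 1 = ((ℓ - 1 : ℝ) : ℂ) := by push_cast; ring
    rw [this, Complex.norm_real, Real.norm_eq_abs, abs_of_nonneg (by linarith)]
    linarith
  · rw [norm_neg, norm_one]; linarith

lemma w_zero (b : Prop) [Decidable b] : 1 ≤ ‖w ℓ b 0‖ := by
  have h2 : (2 : ℝ) ≤ ℓ := by exact_mod_cast hℓ.two_le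
  unfold w
  rw [if_pos rfl]
  split_ifs
  · rw [norm_one]
  · have : (ℓ : ℂ) - 1 = ((ℓ - 1 : ℝ) : ℂ) := by push_cast; ring
    rw [this, Complex.norm_real, Real.norm_eq_abs, abs_of_nonneg (by linarith)]
    linarith

lemma w_sum (b : Prop) [Decidable b] (z : ℂ) : ∑ j ∈ range ℓ, w ℓ b j * z ^ j =
    if b then ∑ j ∈ range ℓ, z ^ j else ℓ - ∑ j ∈ range ℓ, z ^ j := by
  unfold w
  split_ifs with hb
  · simp
  · have h1 : ∀ j ∈ range ℓ, (if j = 0 then (ℓ : ℂ) - 1 else -1) * z ^ j =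
        (if j = 0 then (ℓ : ℂ) else 0) - z ^ j := by
      intro j _
      split_ifs with hj
      · rw [hj]; ring
      · ring
    rw [Finset.sum_congr rfl h1, Finset.sum_sub_distrib, Finset.sum_ite_eq' (range ℓ) 0,
      if_pos (Finset.mem_range.2 hℓ.pos)]

lemma geo {z : ℂ} (hz : z ^ ℓ = 1) : ∑ j ∈ range ℓ, z ^ j = if z = 1 then (ℓ : ℂ) else 0 := by
  split_ifs with h
  · rw [h]; simp
  · rw [geom_sum_eq h, hz, sub_self, zero_div]

end

section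

variable {F : Type} [Field F] [Fintype F] [DecidableEq F] {ℓ : ℕ} (hℓ : ℓ.Prime)
  {χ : MulChar F ℂ} (hχ : orderOf χ = ℓ)

include hχ in
lemma chi_pow {z : F} (hz : z ≠ 0) : χ z ^ ℓ = 1 := by
  have h1 : χ ^ ℓ = 1 := by rw [← hχ, pow_orderOf_eq_one]
  have h2 : (χ ^ ℓ) z = 1 := by
    rw [h1]
    exact MulChar.one_apply (isUnit_iff_ne_zero.2 hz)
  rwa [MulChar.pow_apply' χ (by rw [← hχ]; exact (orderOf_pos χ).ne')] at h2

include hχ hℓ in
lemma chi_iff {z : F} (hz : z ≠ 0) : χ z = 1 ↔ ∃ y : F, y ^ ℓ = z := by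
  constructor
  · intro h
    obtain ⟨g, hg⟩ := IsCyclic.exists_generator (α := Fˣ)
    obtain ⟨u, rfl⟩ : ∃ u : Fˣ, (u : F) = z := ⟨Units.mk0 z hz, rfl⟩
    obtain ⟨k, hk⟩ : ∃ k : ℕ, g ^ k = u := by
      have := hg u
      rw [← mem_powers_iff_mem_zpowers] at this
      exact this
    have h1 : χ (g : F) ^ k = 1 := by
      rw [← map_pow, ← Units.val_pow_eq_pow_val, hk, h]
    have h2 : χ ^ k = 1 := by
      rw [MulChar.eq_iff hg]
      rcases Nat.eq_zero_or_pos k with h0 | h0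
      · rw [h0, pow_zero]
      · rw [MulChar.pow_apply' χ h0.ne', h1, MulChar.one_apply g.isUnit]
    have h3 := orderOf_dvd_of_pow_eq_one h2
    rw [hχ] at h3
    obtain ⟨r, hr⟩ := h3
    refine ⟨(g : F) ^ r, ?_⟩
    rw [← hk, hr, Units.val_pow_eq_pow_val, ← pow_mul, mul_comm r ℓ]
  · rintro ⟨y, hy⟩
    have hy0 : y ≠ 0 := by
      rintro rfl
      rw [zero_pow hℓ.pos.ne'] at hy
      exact hz hy.symm
    rw [← hy, map_pow]
    exact chi_pow hχ hy0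

variable {N : ℕ} (c : Fin N → F)

/-- the polynomials -/
noncomputable def P (a : Fin N → ℕ) : F[X] := ∏ i, (X + C (c i)) ^ a i

lemma P_monic (a : Fin N → ℕ) : (P c a).Monic :=
  monic_prod_of_monic _ _ fun i _ => (monic_X_add_C _).pow _

lemma P_deg (a : Fin N → ℕ) : (P c a).natDegree = ∑ i, a i := by
  unfold P
  rw [natDegree_prod_of_monic _ _ fun i _ => (monic_X_add_C _).pow _]
  refine Finset.sum_congr rfl fun i _ => ?_
  rw [(monic_X_add_C _).natDegree_pow, natDegree_X_add_C, mul_one]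

lemma P_eval (χ : MulChar F ℂ) (a : Fin N → ℕ) (x : F) :
    χ ((P c a).eval x) = ∏ i, χ (x + c i) ^ a i := by
  unfold P
  rw [eval_prod, map_prod]
  refine Finset.prod_congr rfl fun i _ => ?_
  rw [eval_pow, eval_add, eval_X, eval_C, map_pow]

include hℓ in
lemma P_cop (hc : Function.Injective c) {a : Fin N → ℕ} (ha : ∀ i, a i < ℓ) {i₀ : Fin N}
    (h0 : a i₀ ≠ 0) : Pool.Agent.H435R3.Weil.Cop ℓ (P c a) := by
  refine ⟨-c i₀, ?_⟩
  have h1 : P c a = (X - C (-c i₀)) ^ a i₀ * ∏ i ∈ univ.erase i₀, (X + C (c i)) ^ a i := by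
    unfold P
    rw [← Finset.mul_prod_erase univ _ (Finset.mem_univ i₀), map_neg, sub_neg_eq_add]
  have h2 : ¬ IsRoot (∏ i ∈ univ.erase i₀, (X + C (c i)) ^ a i) (-c i₀) := by
    rw [IsRoot.def, eval_prod, Finset.prod_eq_zero_iff]
    push Not
    intro i hi
    rw [eval_pow, eval_add, eval_X, eval_C]
    apply pow_ne_zero
    intro h3
    apply Finset.ne_of_mem_erase hi
    apply hc
    have : c i = c i₀ := by linear_combination h3
    exact this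
  have h3 : (P c a) ≠ 0 := (P_monic c a).ne_zero
  rw [h1] at h3 ⊢
  rw [rootMultiplicity_mul h3, rootMultiplicity_X_sub_C_pow, rootMultiplicity_eq_zero h2, add_zero]
  exact ((Nat.Prime.coprime_iff_not_dvd hℓ).2
    (Nat.not_dvd_of_pos_of_lt (Nat.pos_of_ne_zero h0) (ha i₀))).symm

open Classical in
/-- the weight of `x` -/
noncomputable def G (ℓ : ℕ) (χ : MulChar F ℂ) (c : Fin N → F) (T : Finset (Fin N)) (x : F) : ℂ :=
  ∏ i, ∑ j ∈ range ℓ, w ℓ (i ∈ T) j * χ (x + c i) ^ j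

lemma chi_norm (χ : MulChar F ℂ) (z : F) : ‖χ z‖ ≤ 1 := by
  by_cases hz : z = 0
  · rw [hz, MulChar.map_zero, norm_zero]
    exact zero_le_one
  · have h1 : χ z ^ (Fintype.card F - 1) = 1 := by
      rw [← map_pow, FiniteField.pow_card_sub_one_eq_one z hz, map_one]
    have h2 : Fintype.card F - 1 ≠ 0 := by
      have := Fintype.one_lt_card (α := F)
      omega
    exact (Complex.norm_eq_one_of_pow_eq_one h1 h2).le

include hℓ in
lemma G_norm (T : Finset (Fin N)) (x : F) : ‖G ℓ χ c T x‖ ≤ ((ℓ : ℝ) ^ 2) ^ N := by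
  unfold G
  rw [norm_prod]
  have h1 : ∏ i : Fin N, ‖∑ j ∈ range ℓ, w ℓ (i ∈ T) j * χ (x + c i) ^ j‖ ≤
      ∏ _i : Fin N, (ℓ : ℝ) ^ 2 := by
    refine Finset.prod_le_prod (fun _ _ => norm_nonneg _) fun i _ => ?_
    refine (norm_sum_le _ _).trans ?_
    have h2 : ∑ j ∈ range ℓ, ‖w ℓ (i ∈ T) j * χ (x + c i) ^ j‖ ≤ ∑ _j ∈ range ℓ, (ℓ : ℝ) := by
      refine Finset.sum_le_sum fun j _ => ?_
      rw [norm_mul, norm_pow]
      have h3 := w_norm hℓ (i ∈ T) j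
      have h4 : ‖χ (x + c i)‖ ^ j ≤ 1 := pow_le_one₀ (norm_nonneg _) (chi_norm χ _)
      calc ‖w ℓ (i ∈ T) j‖ * ‖χ (x + c i)‖ ^ j ≤ ℓ * 1 := by gcongr
        _ = ℓ := mul_one _
    refine h2.trans ?_
    rw [Finset.sum_const, Finset.card_range, nsmul_eq_mul, sq]
  refine h1.trans ?_
  rw [Finset.prod_const, Finset.card_univ, Fintype.card_fin]

include hℓ hχ in
lemma G_zero {T : Finset (Fin N)} {x : F} (hx : ∀ i, x + c i ≠ 0)
    (hT : ∃ i : Fin N, ¬ ((∃ y : F, y ^ ℓ = x + c i) ↔ i ∈ T)) : G ℓ χ c T x = 0 := by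
  obtain ⟨i, hi⟩ := hT
  unfold G
  apply Finset.prod_eq_zero (Finset.mem_univ i)
  rw [w_sum hℓ, geo hℓ (chi_pow hχ (hx i))]
  rw [← chi_iff hℓ hχ (hx i)] at hi
  by_cases h1 : i ∈ T
  · rw [if_pos h1, if_neg (fun h => hi ⟨fun _ => h1, fun _ => h⟩)]
  · have h2 : χ (x + c i) = 1 := by
      by_contra h
      exact hi ⟨fun h' => absurd h' h, fun h' => absurd h' h1⟩
    rw [if_neg h1, if_pos h2, sub_self]

/-- the expansion -/
lemma G_sum (T : Finset (Fin N)) : ∑ x, G ℓ χ c T x =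
    ∑ a ∈ Fintype.piFinset (fun _ : Fin N => range ℓ),
      (∏ i, w ℓ (i ∈ T) (a i)) * ∑ x : F, χ ((P c a).eval x) := by
  have h1 : ∀ x : F, G ℓ χ c T x = ∑ a ∈ Fintype.piFinset (fun _ : Fin N => range ℓ),
      (∏ i, w ℓ (i ∈ T) (a i)) * χ ((P c a).eval x) := by
    intro x
    unfold G
    rw [Finset.prod_univ_sum]
    refine Finset.sum_congr rfl fun a _ => ?_
    rw [P_eval, ← Finset.prod_mul_distrib]
  rw [Finset.sum_congr rfl fun x _ => h1 x, Finset.sum_comm]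
  refine Finset.sum_congr rfl fun a _ => ?_
  rw [Finset.mul_sum]

include hℓ hχ in
lemma S_bound (hc : Function.Injective c) {a : Fin N → ℕ} (ha : ∀ i, a i < ℓ) (h0 : a ≠ 0) :
    ‖∑ x : F, χ ((P c a).eval x)‖ ≤ (N * ℓ : ℕ) * Real.sqrt (Fintype.card F) := by
  obtain ⟨i₀, hi₀⟩ := Function.ne_iff.1 h0
  have hχ1 : χ ≠ 1 := by
    rintro rfl
    rw [orderOf_one] at hχ
    exact hℓ.one_lt.ne hχ
  have h1 := Pool.Agent.H435R3.Weil.weil ℓ hℓ.two_le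
    (by rw [← hχ]; exact MulChar.orderOf_dvd_card_sub_one F χ) χ hχ1
    (by rw [← hχ]; exact pow_orderOf_eq_one χ) (P c a) 1 (P_monic c a) monic_one
    (by rw [one_pow, mul_one]; exact P_cop hℓ c hc ha hi₀)
  simp only [eval_one, map_one, mul_one, natDegree_one, add_zero] at h1
  refine h1.trans ?_
  refine mul_le_mul_of_nonneg_right ?_ (Real.sqrt_nonneg _)
  rw [P_deg]
  have h2 : ∑ i, a i ≤ N * ℓ := by
    calc ∑ i, a i ≤ ∑ _i : Fin N, ℓ := Finset.sum_le_sum fun i _ => (ha i).le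
      _ = N * ℓ := by rw [Finset.sum_const, Finset.card_univ, Fintype.card_fin, smul_eq_mul]
  exact_mod_cast h2

lemma S_zero : ∑ x : F, χ ((P c 0).eval x) = (Fintype.card F : ℂ) := by
  have h1 : ∀ x : F, χ ((P c 0).eval x) = 1 := by
    intro x
    rw [P_eval]
    simp
  rw [Finset.sum_congr rfl fun x _ => h1 x, Finset.sum_const, Finset.card_univ, nsmul_eq_mul,
    mul_one]

include hℓ hχ in
lemma main_bound (hc : Function.Injective c) (T : Finset (Fin N)) :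
    (Fintype.card F : ℝ) ≤ ‖∑ x, G ℓ χ c T x‖ +
      (ℓ : ℝ) ^ N * ((ℓ : ℝ) ^ N * ((N * ℓ : ℕ) * Real.sqrt (Fintype.card F))) := by
  obtain ⟨U, hU⟩ : ∃ U, U = Fintype.piFinset (fun _ : Fin N => range ℓ) := ⟨_, rfl⟩
  have h0 : (0 : Fin N → ℕ) ∈ U := by
    rw [hU, Fintype.mem_piFinset]
    intro i
    exact Finset.mem_range.2 hℓ.pos
  have h1 := G_sum (ℓ := ℓ) (χ := χ) c T
  rw [← hU, ← Finset.add_sum_erase U _ h0, S_zero] at h1
  have h2 : ‖∑ a ∈ U.erase 0, (∏ i, w ℓ (i ∈ T) (a i)) * ∑ x : F, χ ((P c a).eval x)‖ ≤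
      (ℓ : ℝ) ^ N * ((ℓ : ℝ) ^ N * ((N * ℓ : ℕ) * Real.sqrt (Fintype.card F))) := by
    refine (norm_sum_le _ _).trans ?_
    have h3 : ∑ a ∈ U.erase 0, ‖(∏ i, w ℓ (i ∈ T) (a i)) * ∑ x : F, χ ((P c a).eval x)‖ ≤
        ∑ _a ∈ U.erase 0, ((ℓ : ℝ) ^ N * ((N * ℓ : ℕ) * Real.sqrt (Fintype.card F))) := by
      refine Finset.sum_le_sum fun a ha => ?_
      obtain ⟨ha0, haU⟩ := Finset.mem_erase.1 ha
      rw [hU, Fintype.mem_piFinset] at haU
      rw [norm_mul, norm_prod]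
      have h4 : ∏ i, ‖w ℓ (i ∈ T) (a i)‖ ≤ (ℓ : ℝ) ^ N := by
        calc ∏ i, ‖w ℓ (i ∈ T) (a i)‖ ≤ ∏ _i : Fin N, (ℓ : ℝ) :=
              Finset.prod_le_prod (fun _ _ => norm_nonneg _) fun i _ => w_norm hℓ _ _
          _ = (ℓ : ℝ) ^ N := by rw [Finset.prod_const, Finset.card_univ, Fintype.card_fin]
      have h5 := S_bound hℓ hχ c hc (fun i => Finset.mem_range.1 (haU i)) ha0
      gcongr
    refine h3.trans ?_
    rw [Finset.sum_const, nsmul_eq_mul]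
    have h6 : ((U.erase 0).card : ℝ) ≤ (ℓ : ℝ) ^ N := by
      have h7 : (U.erase 0).card ≤ ℓ ^ N := by
        refine (Finset.card_erase_le).trans ?_
        rw [hU, Fintype.card_piFinset, Finset.prod_const, Finset.card_range, Finset.card_univ,
          Fintype.card_fin]
      exact_mod_cast h7
    gcongr
  have h3 : 1 ≤ ‖∏ i : Fin N, w ℓ (i ∈ T) ((0 : Fin N → ℕ) i)‖ := by
    rw [norm_prod]
    calc (1 : ℝ) = ∏ _i : Fin N, (1 : ℝ) := by rw [Finset.prod_const_one]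
      _ ≤ ∏ i : Fin N, ‖w ℓ (i ∈ T) ((0 : Fin N → ℕ) i)‖ :=
        Finset.prod_le_prod (fun _ _ => zero_le_one) fun i _ => w_zero hℓ _
  have h4 : (Fintype.card F : ℝ) ≤
      ‖(∏ i : Fin N, w ℓ (i ∈ T) ((0 : Fin N → ℕ) i)) * (Fintype.card F : ℂ)‖ := by
    rw [norm_mul, Complex.norm_natCast]
    calc (Fintype.card F : ℝ) = 1 * Fintype.card F := (one_mul _).symm
      _ ≤ _ := by gcongr
  have h5 : (∏ i : Fin N, w ℓ (i ∈ T) ((0 : Fin N → ℕ) i)) * (Fintype.card F : ℂ) =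
      ∑ x, G ℓ χ c T x -
        ∑ a ∈ U.erase 0, (∏ i, w ℓ (i ∈ T) (a i)) * ∑ x : F, χ ((P c a).eval x) := by
    rw [h1]; ring
  rw [h5] at h4
  exact h4.trans ((norm_sub_le _ _).trans (by linarith))

include hℓ hχ in
lemma no_pattern {T : Finset (Fin N)}
    (hT : ∀ x : F, ∃ i : Fin N, ¬ ((∃ y : F, y ^ ℓ = x + c i) ↔ i ∈ T)) :
    ‖∑ x, G ℓ χ c T x‖ ≤ N * ((ℓ : ℝ) ^ 2) ^ N := by
  obtain ⟨V, hV⟩ : ∃ V : Finset F, V = univ.image fun i => -c i := ⟨_, rfl⟩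
  have h1 : ∑ x, G ℓ χ c T x = ∑ x ∈ V, G ℓ χ c T x := by
    symm
    apply Finset.sum_subset (Finset.subset_univ V)
    intro x _ hx
    refine G_zero hℓ hχ c (fun i hi => hx ?_) (hT x)
    rw [hV, Finset.mem_image]
    exact ⟨i, Finset.mem_univ i, by linear_combination -hi⟩
  rw [h1]
  refine (norm_sum_le _ _).trans ?_
  calc ∑ x ∈ V, ‖G ℓ χ c T x‖ ≤ ∑ _x ∈ V, ((ℓ : ℝ) ^ 2) ^ N :=
        Finset.sum_le_sum fun x _ => G_norm hℓ c T x
    _ = V.card * ((ℓ : ℝ) ^ 2) ^ N := by rw [Finset.sum_const, nsmul_eq_mul]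
    _ ≤ N * ((ℓ : ℝ) ^ 2) ^ N := by
        have h2 : (V.card : ℝ) ≤ N := by
          have h3 : V.card ≤ N := by
            rw [hV]
            refine Finset.card_image_le.trans ?_
            rw [Finset.card_univ, Fintype.card_fin]
          exact_mod_cast h3
        gcongr

end

end FFP_

open FFP_ in
theorem FFP : S_FFP := by
  intro ℓ hℓ N
  obtain ⟨A, hA⟩ : ∃ A : ℕ, A = N * (ℓ ^ 2) ^ N + ℓ ^ N * (ℓ ^ N * (N * ℓ)) := ⟨_, rfl⟩
  refine ⟨A ^ 2 + 1, ?_⟩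
  intro F _ _ hdvd hB c hc T
  have _ : Fintype F := Fintype.ofFinite F
  classical
  rw [Nat.card_eq_fintype_card] at hdvd hB
  obtain ⟨χ, hχ⟩ := MulChar.exists_mulChar_orderOf F hdvd
    (Complex.isPrimitiveRoot_exp ℓ hℓ.pos.ne')
  by_contra hcon
  have hT : ∀ x : F, ∃ i : Fin N, ¬ ((∃ y : F, y ^ ℓ = x + c i) ↔ i ∈ T) := fun x =>
    not_forall.1 fun h => hcon ⟨x, h⟩
  have h1 := main_bound hℓ hχ c hc T
  have h2 := no_pattern hℓ hχ c hT
  obtain ⟨q, hq⟩ : ∃ q, q = Fintype.card F := ⟨_, rfl⟩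
  rw [← hq] at h1 hB
  have hq1 : (1 : ℝ) ≤ q := by
    have : 1 ≤ q := by omega
    exact_mod_cast this
  have h3 : (q : ℝ) ≤ A * Real.sqrt q := by
    have h4 : 1 ≤ Real.sqrt q := by rwa [Real.one_le_sqrt]
    have h5 : (A : ℝ) = N * ((ℓ : ℝ) ^ 2) ^ N + (ℓ : ℝ) ^ N * ((ℓ : ℝ) ^ N * (N * ℓ : ℕ)) := by
      rw [hA]; push_cast; ring
    have h6 : (N : ℝ) * ((ℓ : ℝ) ^ 2) ^ N ≤ N * ((ℓ : ℝ) ^ 2) ^ N * Real.sqrt q :=
      le_mul_of_one_le_right (by positivity) h4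
    rw [h5]
    calc (q : ℝ) ≤ N * ((ℓ : ℝ) ^ 2) ^ N +
          (ℓ : ℝ) ^ N * ((ℓ : ℝ) ^ N * ((N * ℓ : ℕ) * Real.sqrt q)) := by linarith
      _ ≤ N * ((ℓ : ℝ) ^ 2) ^ N * Real.sqrt q +
          (ℓ : ℝ) ^ N * ((ℓ : ℝ) ^ N * ((N * ℓ : ℕ) * Real.sqrt q)) := by linarith
      _ = _ := by ring
  have h4 : Real.sqrt q * Real.sqrt q = q := Real.mul_self_sqrt (by linarith)
  have h5 : 0 < Real.sqrt q := Real.sqrt_pos.2 (by linarith)
  have h6 : Real.sqrt q ≤ A := by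
    rw [← h4] at h3
    exact le_of_mul_le_mul_right (by
      have : Real.sqrt (Real.sqrt q * Real.sqrt q) = Real.sqrt q := by rw [h4]
      rw [this] at h3
      exact h3) h5
  have h7 : (q : ℝ) ≤ (A : ℝ) ^ 2 := by
    rw [← h4, sq]
    exact mul_le_mul h6 h6 h5.le (h5.le.trans h6)
  have h8 : q ≤ A ^ 2 := by exact_mod_cast h7
  omega

end Pool.Agent.N616.NH
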