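import Pool.Agent.N616.NH.Stm4

set_option autoImplicit false

/-!
# Project NH: patterns of `ℓ`-th powers in infinite algebraic extensions of finite fields
-/

namespace Pool.Agent.N616.NH.KUM_

section
variable {κ : Type} [Field κ]

/-- the elements fixed by a power of the Frobenius map -/
def Fx (p : ℕ) [Fact p.Prime] [CharP κ p] (n : ℕ) : Subfield κ :=
  RingHom.eqLocusField (iterateFrobenius κ p n) (RingHom.id κ)

lemma mem_Fx {p : ℕ} [Fact p.Prime] [CharP κ p] {n : ℕ} {x : κ} :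
    x ∈ Fx (κ := κ) p n ↔ x ^ p ^ n = x := by
  unfold Fx
  rw [← iterateFrobenius_def (R := κ) (p := p)]
  rfl

lemma Fx_finite {p : ℕ} [Fact p.Prime] [CharP κ p] {n : ℕ} (hn : 0 < n) :
    ((Fx (κ := κ) p n : Subfield κ) : Set κ).Finite := by
  classical
  have hp : p.Prime := Fact.out
  have h1 : (Polynomial.X ^ p ^ n - Polynomial.X : Polynomial κ) ≠ 0 :=
    FiniteField.X_pow_card_pow_sub_X_ne_zero κ hn.ne' hp.one_lt
  refine (Polynomial.X ^ p ^ n - Polynomial.X : Polynomial κ).roots.toFinset.finite_toSet.subset ?_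
  intro x hx
  have hx' : x ^ p ^ n = x := mem_Fx.1 hx
  rw [Finset.mem_coe, Multiset.mem_toFinset, Polynomial.mem_roots h1]
  simp [hx']

lemma fix_mul {p a : ℕ} {x : κ} (h : x ^ p ^ a = x) (b : ℕ) : x ^ p ^ (a * b) = x := by
  induction b with
  | zero => simp
  | succ b ih => rw [Nat.mul_succ, pow_add, pow_mul, ih, h]

lemma fix_all {p : ℕ} (h : ∀ a : κ, ∃ n : ℕ, 0 < n ∧ a ^ p ^ n = a) (s : Finset κ) :
    ∃ n : ℕ, 0 < n ∧ ∀ a ∈ s, a ^ p ^ n = a := by
  classical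
  induction s using Finset.induction_on with
  | empty => exact ⟨1, one_pos, by simp⟩
  | insert b s _ ih =>
    obtain ⟨n, hn, hs⟩ := ih
    obtain ⟨m, hm, hb⟩ := h b
    refine ⟨n * m, Nat.mul_pos hn hm, fun a ha => ?_⟩
    rcases Finset.mem_insert.1 ha with rfl | ha
    · rw [mul_comm]
      exact fix_mul hb n
    · exact fix_mul (hs a ha) m

lemma exists_u [Infinite κ] (N : ℕ) : ∃ u : κ, u ≠ 0 ∧ ∀ m, 0 < m → m < N → u ^ m ≠ 1 := by
  classical
  obtain ⟨P, hP⟩ : ∃ P : Polynomial κ, P = Polynomial.X *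
    ∏ m ∈ Finset.Ioo 0 N, (Polynomial.X ^ m - Polynomial.C 1) := ⟨_, rfl⟩
  have h0 : P ≠ 0 := by
    rw [hP]
    refine mul_ne_zero Polynomial.X_ne_zero (Finset.prod_ne_zero_iff.2 fun m hm => ?_)
    exact Polynomial.X_pow_sub_C_ne_zero (Finset.mem_Ioo.1 hm).1 1
  obtain ⟨u, hu⟩ := Infinite.exists_notMem_finset P.roots.toFinset
  rw [Multiset.mem_toFinset, Polynomial.mem_roots h0, Polynomial.IsRoot.def, hP,
    Polynomial.eval_mul, Polynomial.eval_prod, mul_eq_zero, not_or, Finset.prod_eq_zero_iff] at hu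
  push Not at hu
  refine ⟨u, by simpa using hu.1, fun m h1 h2 h3 => hu.2 m (Finset.mem_Ioo.2 ⟨h1, h2⟩) ?_⟩
  simp [h3]

/-- an `ℓ`-th power of `κ` in a finite subfield is an `ℓ`-th power there -/
lemma descend {ℓ : ℕ} (hℓ : ℓ.Prime) (F : Subfield κ) [Finite F] {a : κ} (haF : a ∈ F)
    (ha : ∀ y : κ, y ^ ℓ ≠ a) {z : F} {y : κ} (hy : y ^ ℓ = (z : κ)) : ∃ w : F, w ^ ℓ = z := by
  by_cases hz : z = 0
  · exact ⟨0, by rw [hz, zero_pow hℓ.ne_zero]⟩
  by_contra hcon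
  have ha0 : (⟨a, haF⟩ : F) ≠ 0 := by
    intro h
    have h' : a = 0 := congrArg Subtype.val h
    exact ha 0 (by rw [h', zero_pow hℓ.ne_zero])
  obtain ⟨g, hg⟩ := IsCyclic.exists_generator (α := (F)ˣ)
  obtain ⟨s, hs⟩ := Subgroup.mem_zpowers_iff.1 (hg (Units.mk0 _ ha0))
  obtain ⟨t, ht⟩ := Subgroup.mem_zpowers_iff.1 (hg (Units.mk0 _ hz))
  have hlt : ¬ (ℓ : ℤ) ∣ t := by
    rintro ⟨m, rfl⟩
    apply hcon
    refine ⟨((g ^ m : (F)ˣ) : F), ?_⟩
    have h1 : ((g ^ ((ℓ : ℤ) * m) : (F)ˣ) : F) = z := by rw [ht]; rfl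
    rw [← h1, mul_comm (ℓ : ℤ) m, zpow_mul, zpow_natCast, Units.val_pow_eq_pow_val]
  have hco : IsCoprime t (ℓ : ℤ) :=
    ((Nat.prime_iff_prime_int.1 hℓ).coprime_iff_not_dvd.2 hlt).symm
  obtain ⟨α, β, hab⟩ := hco
  have hy0 : y ≠ 0 := by
    rintro rfl
    rw [zero_pow hℓ.ne_zero] at hy
    exact hz (Subtype.ext hy.symm)
  have e1 : Units.mk0 (⟨a, haF⟩ : F) ha0 = (Units.mk0 z hz) ^ (s * α) * (g ^ (s * β)) ^ (ℓ : ℤ) := by
    rw [← hs, ← ht, ← zpow_mul, ← zpow_mul, ← zpow_add]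
    congr 1
    linear_combination (-s) * hab
  have e2 : a = ((z : κ)) ^ (s * α) * (((g ^ (s * β) : (F)ˣ) : F) : κ) ^ ℓ := by
    have h := congrArg (fun v : (F)ˣ => ((v : F) : κ)) e1
    simp only [Units.val_mul, Units.val_zpow_eq_zpow_val, Units.val_mk0, zpow_natCast,
      Units.val_pow_eq_pow_val] at h
    push_cast at h ⊢
    exact h
  apply ha (y ^ (s * α) * (((g ^ (s * β) : (F)ˣ) : F) : κ))
  rw [mul_pow, e2, ← hy, ← zpow_natCast (y ^ (s * α)) ℓ, ← zpow_natCast y ℓ, ← zpow_mul, ← zpow_mul,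
    mul_comm (s * α)]

end

end Pool.Agent.N616.NH.KUM_

namespace Pool.Agent.N616.NH

open KUM_

/-- patterns of `ℓ`-th powers in infinite algebraic extensions of finite fields -/
theorem KUM (hF : S_FFP) : S_KUM := by
  classical
  intro p ℓ _ hℓ κ _ _ _ halg hζ ha N
  obtain ⟨ζ, hζ⟩ := hζ
  obtain ⟨a, ha⟩ := ha
  obtain ⟨B, hB⟩ := hF ℓ hℓ N
  obtain ⟨u, hu0, hu⟩ := exists_u (κ := κ) N
  obtain ⟨t, ht⟩ := Infinite.exists_subset_card_eq κ B
  obtain ⟨n, hn, hfix⟩ := fix_all halg (insert ζ (insert a (insert u t)))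
  have hmem : ∀ x ∈ insert ζ (insert a (insert u t)), x ∈ Fx (κ := κ) p n :=
    fun x hx => mem_Fx.2 (hfix x hx)
  have hζF : ζ ∈ Fx (κ := κ) p n := hmem _ (by simp)
  have haF : a ∈ Fx (κ := κ) p n := hmem _ (by simp)
  have huF : u ∈ Fx (κ := κ) p n := hmem _ (by simp)
  have hfin := Fx_finite (κ := κ) (p := p) hn
  haveI : Finite (Fx (κ := κ) p n) := hfin.to_subtype
  have hcard : B ≤ Nat.card (Fx (κ := κ) p n) := by
    have h1 : ((t : Finset κ) : Set κ) ⊆ ((Fx (κ := κ) p n : Subfield κ) : Set κ) := by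
      intro x hx
      exact hmem x (by
        have : x ∈ t := hx
        simp [this])
    have h2 := Set.ncard_le_ncard h1 hfin
    rw [Set.ncard_coe_finset, ht] at h2
    exact h2
  have hdvd : ℓ ∣ Nat.card (Fx (κ := κ) p n) - 1 := by
    haveI := Fintype.ofFinite (Fx (κ := κ) p n)
    have h1 : (⟨ζ, hζF⟩ : Fx (κ := κ) p n) ≠ 0 := by
      intro h
      exact hζ.ne_zero hℓ.ne_zero (congrArg Subtype.val h)
    have h2 := FiniteField.pow_card_sub_one_eq_one _ h1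
    rw [← Nat.card_eq_fintype_card] at h2
    have h3 : ζ ^ (Nat.card (Fx (κ := κ) p n) - 1) = 1 := by
      have := congrArg Subtype.val h2
      simpa using this
    exact hζ.dvd_of_pow_eq_one _ h3
  have hinj : Function.Injective fun i : Fin N => (⟨u, huF⟩ : Fx (κ := κ) p n) ^ (i : ℕ) := by
    have key : ∀ i j : ℕ, i < j → j < N → u ^ i ≠ u ^ j := by
      intro i j hij hj h
      refine hu (j - i) (by omega) (by omega) ?_
      have h1 : u ^ i * u ^ (j - i) = u ^ i * 1 := by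
        rw [← pow_add, Nat.add_sub_cancel' hij.le, mul_one, h]
      exact mul_left_cancel₀ (pow_ne_zero i hu0) h1
    intro i j hij
    have h : u ^ (i : ℕ) = u ^ (j : ℕ) := by
      have := congrArg Subtype.val hij
      simpa using this
    rcases lt_trichotomy (i : ℕ) (j : ℕ) with h1 | h1 | h1
    · exact absurd h (key _ _ h1 j.2)
    · exact Fin.ext h1
    · exact absurd h.symm (key _ _ h1 i.2)
  refine ⟨u, fun T => ?_⟩
  obtain ⟨x, hx⟩ := hB (Fx (κ := κ) p n) hdvd hcard _ hinj T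
  refine ⟨(x : κ), fun i => ?_⟩
  rw [← hx i]
  constructor
  · rintro ⟨y, hy⟩
    exact descend hℓ (Fx (κ := κ) p n) haF ha (y := y) (by rw [hy]; push_cast; rfl)
  · rintro ⟨y, hy⟩
    refine ⟨(y : κ), ?_⟩
    have := congrArg Subtype.val hy
    simpa using this

end Pool.Agent.N616.NH
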