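import Mathlib

set_option autoImplicit false

/-! Project NH: statements about algebraic extensions of finite fields. -/

namespace Pool.Agent.N616.NH

/-- FFP: patterns of `ℓ`-th powers in finite fields. -/
def S_FFP : Prop :=
  ∀ ℓ : ℕ, ℓ.Prime → ∀ N : ℕ, ∃ B : ℕ, ∀ (F : Type) [Field F] [Finite F],
    ℓ ∣ Nat.card F - 1 → B ≤ Nat.card F → ∀ c : Fin N → F, Function.Injective c →
      ∀ T : Finset (Fin N), ∃ x : F, ∀ i : Fin N, (∃ y : F, y ^ ℓ = x + c i) ↔ i ∈ T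

/-- KUM: patterns of `ℓ`-th powers in infinite algebraic extensions of finite fields which contain
the `ℓ`-th roots of unity. -/
def S_KUM : Prop :=
  ∀ (p ℓ : ℕ) [Fact p.Prime], ℓ.Prime → ∀ (κ : Type) [Field κ] [CharP κ p] [Infinite κ],
    (∀ a : κ, ∃ n : ℕ, 0 < n ∧ a ^ p ^ n = a) → (∃ ζ : κ, IsPrimitiveRoot ζ ℓ) →
      (∃ a : κ, ∀ y : κ, y ^ ℓ ≠ a) → ∀ N : ℕ, ∃ u : κ, ∀ T : Finset (Fin N), ∃ x : κ,
        ∀ i : Fin N, (∃ y : κ, y ^ ℓ = x + u ^ (i : ℕ)) ↔ i ∈ T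

/-- RFA: an algebraic extension `k` of the prime field which has no Artin-Schreier extensions and is
not algebraically closed has a prime number `ℓ` such that the `ℓ`-th powers do not become all
elements in extensions of degree less than `ℓ`. -/
def S_RFA : Prop :=
  ∀ (p : ℕ) [Fact p.Prime] (k : Type) [Field k] [CharP k p],
    (∀ a : k, ∃ n : ℕ, 0 < n ∧ a ^ p ^ n = a) → (∀ a : k, ∃ y : k, y ^ p - y = a) →
      ¬ IsAlgClosed k → ∃ ℓ : ℕ, ℓ.Prime ∧ ℓ ≠ p ∧ ∀ (κ : Type) [Field κ] [Algebra k κ],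
        (∀ z : κ, ∃ f : Polynomial k, f.Monic ∧ f.natDegree < ℓ ∧ Polynomial.aeval z f = 0) →
          (∃ ζ : κ, IsPrimitiveRoot ζ ℓ) → ∃ a : κ, ∀ y : κ, y ^ ℓ ≠ a

end Pool.Agent.N616.NH
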