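import Mathlib
import Pool.Agent.N616.NH.Stm4

set_option autoImplicit false

/-! Project NH: `RFA`. -/

namespace Pool.Agent.N616.NH.RFA_

open Polynomial Function

variable (L : Type*) [Field L] (p : ℕ) [Fact p.Prime] [CharP L p]

/-- the subfield fixed by the `n`-th iterate of Frobenius -/
def A (n : ℕ) : Subfield L := RingHom.eqLocusField (iterateFrobenius L p n) (RingHom.id L)

variable {L} {p}

lemma mem_A {n : ℕ} {x : L} : x ∈ A L p n ↔ x ^ p ^ n = x := Iff.rfl

/-- the degree over the prime field -/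
noncomputable def dg (p : ℕ) [Fact p.Prime] [CharP L p] (x : L) : ℕ :=
  minimalPeriod (frobenius L p) x

lemma mem_A_iff {n : ℕ} {x : L} : x ∈ A L p n ↔ dg p x ∣ n := by
  rw [mem_A, dg, ← isPeriodicPt_iff_minimalPeriod_dvd, IsPeriodicPt, IsFixedPt,
    iterate_frobenius]

open Classical in
lemma roots_A (n : ℕ) (hn : n ≠ 0) (x : L) :
    x ∈ A L p n ↔ x ∈ (X ^ p ^ n - X : L[X]).roots.toFinset := by
  rw [Multiset.mem_toFinset, mem_roots
    (FiniteField.X_pow_card_pow_sub_X_ne_zero L hn (Fact.out : p.Prime).one_lt), mem_A]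
  simp [sub_eq_zero]

open Classical in
lemma finite_A (n : ℕ) (hn : n ≠ 0) : Finite (A L p n) := by
  have : (A L p n : Set L) ⊆ ((X ^ p ^ n - X : L[X]).roots.toFinset : Set L) :=
    fun x hx => (roots_A n hn x).1 hx
  exact (Finset.finite_toSet _).subset this

open Classical in
lemma card_A_le (n : ℕ) (hn : n ≠ 0) : Nat.card (A L p n) ≤ p ^ n := by
  have h : (A L p n : Set L) ⊆ ((X ^ p ^ n - X : L[X]).roots.toFinset : Set L) :=
    fun x hx => (roots_A n hn x).1 hx
  have h2 := Set.ncard_le_ncard h (Finset.finite_toSet _)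
  rw [Set.ncard_coe_finset] at h2
  refine (le_trans (le_of_eq ?_) h2).trans ?_
  · rfl
  · refine (Multiset.toFinset_card_le _).trans ((card_roots' _).trans ?_)
    rw [FiniteField.X_pow_card_pow_sub_X_natDegree_eq L hn (Fact.out : p.Prime).one_lt]

variable (L) (p)

/-- `L` contains the field with `p ^ n` elements -/
def Full (n : ℕ) : Prop := n ≠ 0 ∧ Nat.card (A L p n) = p ^ n

variable {L} {p}

lemma ML (n : ℕ) (hn : n ≠ 0) : ∃ r, Full L p r ∧ r ≤ n ∧ A L p n = A L p r := by
  have := finite_A (L := L) (p := p) n hn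
  have := Fintype.ofFinite (A L p n)
  have : CharP (A L p n) p := inferInstance
  obtain ⟨r, -, hr⟩ := FiniteField.card (A L p n) p
  have hp := (Fact.out : p.Prime)
  have hr0 : (r : ℕ) ≠ 0 := r.ne_zero
  rw [← Nat.card_eq_fintype_card] at hr
  have hle : A L p n ≤ A L p r := by
    intro x hx
    rw [mem_A, ← hr]
    have := FiniteField.pow_card (⟨x, hx⟩ : A L p n)
    rw [← Nat.card_eq_fintype_card] at this
    exact congrArg Subtype.val this
  have := finite_A (L := L) (p := p) r hr0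
  have heq : A L p n = A L p r := by
    apply SetLike.coe_injective
    refine Set.eq_of_subset_of_ncard_le hle ?_ (Set.toFinite _)
    refine (card_A_le (L := L) (p := p) r hr0).trans ?_
    rw [← hr]
    exact le_of_eq rfl
  refine ⟨r, ⟨hr0, by rw [← heq]; exact hr⟩, ?_, heq⟩
  have := card_A_le (L := L) (p := p) n hn
  rw [hr] at this
  exact (Nat.pow_le_pow_iff_right hp.one_lt).1 this

lemma full_of_dg (x : L) (hx : dg p x ≠ 0) : Full L p (dg p x) := by
  obtain ⟨r, hr, hle, h⟩ := ML (L := L) (p := p) _ hx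
  have h1 : x ∈ A L p (dg p x) := mem_A_iff.2 dvd_rfl
  rw [h, mem_A_iff] at h1
  have : dg p x = r := le_antisymm (Nat.le_of_dvd (Nat.pos_of_ne_zero hr.1) h1) hle
  rwa [this]

/-- elements with `orderOf = p ^ d - 1` have degree `d` -/
lemma dg_of_order (x : L) (d : ℕ) (hd : d ≠ 0) (hx : orderOf x = p ^ d - 1) : dg p x = d := by
  have hp := (Fact.out : p.Prime)
  have h1 : ∀ m, m ≠ 0 → (x ∈ A L p m ↔ p ^ d - 1 ∣ p ^ m - 1) := by
    intro m hm
    rw [mem_A, ← hx, orderOf_dvd_iff_pow_eq_one]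
    have hx0 : x ≠ 0 := by
      rintro rfl
      have hpos : 0 < p ^ d - 1 := Nat.sub_pos_of_lt (Nat.one_lt_pow hd hp.one_lt)
      have := orderOf_pos_iff.1 (by rw [hx]; exact hpos)
      rw [isOfFinOrder_iff_pow_eq_one] at this
      obtain ⟨n, hn, h⟩ := this
      rw [zero_pow hn.ne'] at h
      exact zero_ne_one h
    have h2 : x ^ p ^ m = x ^ (p ^ m - 1) * x := by
      rw [← pow_succ, Nat.sub_add_cancel (Nat.one_le_pow _ _ hp.pos)]
    rw [h2]
    constructor
    · intro h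
      exact mul_right_cancel₀ hx0 (by rw [h, one_mul])
    · intro h
      rw [h, one_mul]
  have h2 : dg p x ∣ d := mem_A_iff.1 ((h1 d hd).2 dvd_rfl)
  have h3 : dg p x ≠ 0 := fun h => hd (by rw [h] at h2; exact Nat.eq_zero_of_zero_dvd h2)
  have h4 := (h1 _ h3).1 (mem_A_iff.2 dvd_rfl)
  have h5 : p ^ d - 1 ≤ p ^ dg p x - 1 :=
    Nat.le_of_dvd (Nat.sub_pos_of_lt (Nat.one_lt_pow h3 hp.one_lt)) h4
  have h6 : p ^ d ≤ p ^ dg p x := by
    have := Nat.one_le_pow d p hp.pos
    have := Nat.one_le_pow (dg p x) p hp.pos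
    omega
  exact le_antisymm (Nat.le_of_dvd (Nat.pos_of_ne_zero hd) h2)
    ((Nat.pow_le_pow_iff_right hp.one_lt).1 h6)

lemma exists_gen (n : ℕ) (h : Full L p n) : ∃ x : L, orderOf x = p ^ n - 1 := by
  have := finite_A (L := L) (p := p) n h.1
  have := Fintype.ofFinite (A L p n)
  obtain ⟨g, hg⟩ := IsCyclic.exists_generator (α := (A L p n)ˣ)
  refine ⟨((g : A L p n) : L), ?_⟩
  have h1 : orderOf g = Nat.card (A L p n)ˣ := orderOf_eq_card_of_forall_mem_zpowers hg
  rw [Nat.card_units, h.2] at h1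
  rw [← h1, ← orderOf_units]
  exact orderOf_injective ((A L p n).subtype : A L p n →* L) Subtype.val_injective _

lemma full_dvd (n d : ℕ) (h : Full L p n) (hd : d ∣ n) : Full L p d := by
  have hp := (Fact.out : p.Prime)
  obtain ⟨x, hx⟩ := exists_gen n h
  have hd0 : d ≠ 0 := fun h0 => h.1 (by rw [h0] at hd; exact Nat.eq_zero_of_zero_dvd hd)
  have hdv : p ^ d - 1 ∣ p ^ n - 1 := Nat.pow_sub_one_dvd_pow_sub_one p hd
  obtain ⟨c, hc⟩ := hdv
  have hpos : 0 < p ^ n - 1 := Nat.sub_pos_of_lt (Nat.one_lt_pow h.1 hp.one_lt)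
  have hc0 : c ≠ 0 := by
    rintro rfl
    omega
  have h1 : orderOf (x ^ c) = p ^ d - 1 := by
    rw [orderOf_pow_of_dvd hc0 (by rw [hx, hc]; exact Dvd.intro_left _ rfl), hx, hc,
      Nat.mul_div_cancel _ (Nat.pos_of_ne_zero hc0)]
  have h2 := dg_of_order (x ^ c) d hd0 h1
  rw [← h2]
  exact full_of_dg _ (by rw [h2]; exact hd0)

lemma dvd_of_le (d r : ℕ) (hd : Full L p d) (h : A L p d ≤ A L p r) : d ∣ r := by
  obtain ⟨x, hx⟩ := exists_gen d hd
  have h2 := dg_of_order x d hd.1 hx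
  rw [← h2]
  exact mem_A_iff.1 (h (mem_A_iff.2 (by rw [h2])))

lemma A_mono (d n : ℕ) (h : d ∣ n) : A L p d ≤ A L p n := fun _ hx =>
  mem_A_iff.2 ((mem_A_iff.1 hx).trans h)

/-- if some `n` is not full then some prime power is not full -/
lemma exists_prime_pow (h : ∃ n, n ≠ 0 ∧ ¬ Full L p n) :
    ∃ ℓ j : ℕ, ℓ.Prime ∧ j ≠ 0 ∧ ¬ Full L p (ℓ ^ j) := by
  classical
  have hp := (Fact.out : p.Prime)
  set n := Nat.find h with hn
  obtain ⟨hn0, hnF⟩ := Nat.find_spec h
  have hmin : ∀ m, m < n → m ≠ 0 → Full L p m := by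
    intro m hm hm0
    by_contra hF
    exact Nat.find_min h hm ⟨hm0, hF⟩
  rw [← hn] at hn0 hnF
  obtain ⟨r, hr, hrn, hA⟩ := ML (L := L) (p := p) n hn0
  have hrlt : r < n := lt_of_le_of_ne hrn (by rintro rfl; exact hnF hr)
  have hdvd : ∀ d, d ∣ n → d < n → d ∣ r := by
    intro d hd hlt
    have hd0 : d ≠ 0 := fun h0 => hn0 (by rw [h0] at hd; exact Nat.eq_zero_of_zero_dvd hd)
    exact dvd_of_le d r (hmin d hlt hd0) (by rw [← hA]; exact A_mono d n hd)
  have hn1 : n ≠ 1 := by
    intro h1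
    rw [h1] at hrlt
    exact hr.1 (by omega)
  -- prime power
  obtain ⟨ℓ, hℓ, hℓn⟩ := Nat.exists_prime_and_dvd hn1
  obtain ⟨j, m, hm, hnm⟩ := Nat.exists_eq_pow_mul_and_not_dvd hn0 ℓ hℓ.ne_one
  have hj : j ≠ 0 := by
    rintro rfl
    rw [pow_zero, one_mul] at hnm
    exact hm (hnm ▸ hℓn)
  refine ⟨ℓ, j, hℓ, hj, ?_⟩
  by_cases hm1 : m = 1
  · rw [hm1, mul_one] at hnm
    rw [← hnm]
    exact hnF
  · exfalso
    have hm0 : m ≠ 0 := by
      rintro rfl
      exact hm (dvd_zero _)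
    have h1 : ℓ ^ j ∣ r := by
      refine hdvd _ ⟨m, hnm⟩ ?_
      rw [hnm]
      exact lt_mul_of_one_lt_right (Nat.pow_pos hℓ.pos) (by omega)
    have h2 : m ∣ r := by
      refine hdvd _ ⟨ℓ ^ j, by rw [hnm, mul_comm]⟩ ?_
      rw [hnm]
      exact lt_mul_of_one_lt_left (by omega) (Nat.one_lt_pow hj hℓ.one_lt)
    have hco : Nat.Coprime (ℓ ^ j) m := by
      apply Nat.Coprime.pow_left
      exact (Nat.Prime.coprime_iff_not_dvd hℓ).2 hm
    have h3 : n ∣ r := by
      rw [hnm]
      exact hco.mul_dvd_of_dvd_of_dvd h1 h2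
    exact absurd (Nat.le_of_dvd (Nat.pos_of_ne_zero hr.1) h3) (by omega)

/-- Artin-Schreier closed fields contain the fields with `p ^ (p ^ j)` elements -/
lemma full_p_pow (hAS : ∀ a : L, ∃ y : L, y ^ p - y = a)
    (halg : ∀ a : L, dg p a ≠ 0) (j : ℕ) : Full L p (p ^ j) := by
  have hp := (Fact.out : p.Prime)
  rcases Nat.eq_zero_or_pos j with rfl | hj
  · rw [pow_zero]
    have h1 : dg p (1 : L) ∣ 1 := mem_A_iff.1 (by rw [mem_A]; simp)
    have h2 : dg p (1 : L) = 1 := Nat.dvd_one.1 h1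
    have h3 := full_of_dg (L := L) (p := p) 1 (by rw [h2]; exact one_ne_zero)
    rwa [h2] at h3
  obtain ⟨i, rfl⟩ : ∃ i, j = i + 1 := ⟨j - 1, by omega⟩
  set n := p ^ i with hn
  have hn0 : n ≠ 0 := pow_ne_zero _ hp.ne_zero
  have := finite_A (L := L) (p := p) n hn0
  -- the map `y ^ p - y` on `A n`
  let f : A L p n → A L p n := fun y => y ^ p - y
  have hninj : ¬ Function.Injective f := by
    intro h
    have := @h 0 1 (by simp [f, hp.ne_zero])
    exact zero_ne_one this
  have hnsurj : ¬ Function.Surjective f := fun h => hninj (Finite.injective_iff_surjective.2 h)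
  rw [Function.Surjective] at hnsurj
  push Not at hnsurj
  obtain ⟨⟨a, ha⟩, hna⟩ := hnsurj
  obtain ⟨y, hy⟩ := hAS a
  have hyn : y ∉ A L p n := by
    intro h
    apply hna ⟨y, h⟩
    apply Subtype.ext
    simpa [f] using hy
  have hc1 : (y ^ p ^ n - y) ^ p = y ^ p ^ n - y := by
    have e1 : (y ^ p - y) ^ p ^ n = y ^ p - y := by rw [hy]; exact mem_A.1 ha
    rw [sub_pow_char_pow] at e1
    rw [sub_pow_char]
    rw [← pow_mul, mul_comm, pow_mul] at e1
    linear_combination e1
  have hiter : ∀ m : ℕ, y ^ p ^ (n * m) = y + m * (y ^ p ^ n - y) := by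
    intro m
    induction m with
    | zero => simp
    | succ m ih =>
      have e2 : y ^ p ^ (n * (m + 1)) = (y ^ p ^ (n * m)) ^ p ^ n := by
        rw [← pow_mul, ← pow_add]; ring_nf
      have e3 : ∀ s : ℕ, (y ^ p ^ n - y) ^ p ^ s = y ^ p ^ n - y := by
        intro s
        induction s with
        | zero => simp
        | succ s ihs => rw [pow_succ, pow_mul, ihs, hc1]
      have e4 : ((m : L)) ^ p ^ n = (m : L) := by
        have := map_natCast (iterateFrobenius L p n) m
        rwa [iterateFrobenius_def] at this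
      rw [e2, ih, add_pow_char_pow, mul_pow, e3, e4]
      push_cast
      ring
  have hmem : y ∈ A L p (n * p) := by
    rw [mem_A, hiter p, CharP.cast_eq_zero, zero_mul, add_zero]
  rw [mem_A_iff] at hmem hyn
  have hnp : n * p = p ^ (i + 1) := by rw [hn, pow_succ]
  rw [hnp] at hmem
  obtain ⟨s, hs, hds⟩ := (Nat.dvd_prime_pow hp).1 hmem
  have hs1 : s = i + 1 := by
    by_contra hne
    apply hyn
    rw [hds, hn]
    exact pow_dvd_pow p (by omega)
  rw [hs1] at hds
  rw [← hds]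
  exact full_of_dg y (halg y)

lemma alg_of_dg {L : Type*} [Field L] {p : ℕ} [Fact p.Prime] [CharP L p] [Algebra (ZMod p) L]
    (h : ∀ a : L, ∃ n : ℕ, 0 < n ∧ a ^ p ^ n = a) : Algebra.IsAlgebraic (ZMod p) L := by
  have hp := (Fact.out : p.Prime)
  constructor
  intro a
  obtain ⟨n, hn, ha⟩ := h a
  refine ⟨X ^ p ^ n - X, FiniteField.X_pow_card_pow_sub_X_ne_zero _ hn.ne' hp.one_lt, ?_⟩
  simp [ha]

lemma dg_ne_of_alg {L : Type*} [Field L] {p : ℕ} [Fact p.Prime] [CharP L p] [Algebra (ZMod p) L]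
    [Algebra.IsAlgebraic (ZMod p) L] (a : L) : dg p a ≠ 0 := by
  have hp := (Fact.out : p.Prime)
  have hint : IsIntegral (ZMod p) a := Algebra.IsIntegral.isIntegral a
  have : FiniteDimensional (ZMod p) (IntermediateField.adjoin (ZMod p) {a}) :=
    IntermediateField.adjoin.finiteDimensional hint
  have : Finite (IntermediateField.adjoin (ZMod p) {a}) := Module.finite_of_finite (ZMod p)
  have := Fintype.ofFinite (IntermediateField.adjoin (ZMod p) {a})
  have : CharP (IntermediateField.adjoin (ZMod p) {a}) p := inferInstance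
  obtain ⟨r, -, hr⟩ := FiniteField.card (IntermediateField.adjoin (ZMod p) {a}) p
  have h1 := FiniteField.pow_card
    (⟨a, IntermediateField.mem_adjoin_simple_self (ZMod p) a⟩ :
      IntermediateField.adjoin (ZMod p) {a})
  rw [hr] at h1
  have h2 : a ^ p ^ (r : ℕ) = a := congrArg Subtype.val h1
  have h3 : dg p a ∣ r := mem_A_iff.1 (mem_A.2 h2)
  intro h0
  rw [h0] at h3
  exact r.ne_zero (Nat.eq_zero_of_zero_dvd h3)

lemma exists_not_full {k : Type*} [Field k] {p : ℕ} [Fact p.Prime] [CharP k p]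
    (h : ∀ a : k, ∃ n : ℕ, 0 < n ∧ a ^ p ^ n = a) (hk : ¬ IsAlgClosed k) :
    ∃ n, n ≠ 0 ∧ ¬ Full k p n := by
  by_contra hcon
  push Not at hcon
  apply hk
  let : Algebra (ZMod p) k := ZMod.algebra k p
  have : CharP (AlgebraicClosure k) p := charP_of_injective_algebraMap'  k p
  have := alg_of_dg h
  have : Algebra.IsAlgebraic (ZMod p) (AlgebraicClosure k) := Algebra.IsAlgebraic.trans _ k _
  have hsurj : Function.Surjective (algebraMap k (AlgebraicClosure k)) := by
    intro b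
    have hb := dg_ne_of_alg (p := p) b
    have hF := hcon _ hb
    -- the image of `A k n` in `A Ω n`
    have := finite_A (L := AlgebraicClosure k) (p := p) _ hb
    have h1 : (algebraMap k (AlgebraicClosure k)) '' (A k p (dg p b) : Set k) =
        (A (AlgebraicClosure k) p (dg p b) : Set (AlgebraicClosure k)) := by
      refine Set.eq_of_subset_of_ncard_le ?_ ?_ (Set.toFinite _)
      · rintro _ ⟨x, hx, rfl⟩
        exact mem_A.2 (by rw [← map_pow, mem_A.1 hx])
      · rw [Set.ncard_image_of_injective _ (algebraMap k (AlgebraicClosure k)).injective]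
        refine (card_A_le (L := AlgebraicClosure k) (p := p) _ hb).trans ?_
        rw [← hF.2]
        exact le_of_eq rfl
    have h2 : b ∈ (A (AlgebraicClosure k) p (dg p b) : Set (AlgebraicClosure k)) :=
      mem_A_iff.2 dvd_rfl
    rw [← h1] at h2
    obtain ⟨x, -, hx⟩ := h2
    exact ⟨x, hx⟩
  exact IsAlgClosed.of_ringEquiv (AlgebraicClosure k) k
    (RingEquiv.ofBijective (algebraMap k (AlgebraicClosure k))
      ⟨(algebraMap k (AlgebraicClosure k)).injective, hsurj⟩).symm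

/-- a common period of finitely many elements -/
lemma common_period {k : Type*} [Field k] {p : ℕ} [Fact p.Prime] [CharP k p]
    (h : ∀ a : k, ∃ n : ℕ, 0 < n ∧ a ^ p ^ n = a) (s : Finset k) :
    ∃ n, n ≠ 0 ∧ ∀ a ∈ s, a ∈ A k p n := by
  classical
  induction s using Finset.induction with
  | empty => exact ⟨1, one_ne_zero, by simp⟩
  | insert a s ha ih =>
    obtain ⟨n, hn, hs⟩ := ih
    obtain ⟨m, hm, ha⟩ := h a
    refine ⟨n * m, mul_ne_zero hn hm.ne', ?_⟩
    intro b hb
    rcases Finset.mem_insert.1 hb with rfl | hb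
    · exact A_mono m _ (Dvd.intro_left _ rfl) (mem_A.2 ha)
    · exact A_mono n _ (Dvd.intro _ rfl) (hs b hb)

/-- elements of `κ` which are roots of polynomials of small degree over `k` -/
lemma no_small_degree {k κ : Type*} [Field k] [Field κ] [Algebra k κ] {p : ℕ} [Fact p.Prime]
    [CharP k p] [CharP κ p] (h : ∀ a : k, ∃ n : ℕ, 0 < n ∧ a ^ p ^ n = a) (ℓ j : ℕ)
    (hℓ : ℓ.Prime) (hF : ¬ Full k p (ℓ ^ j)) (z : κ) (hz : ℓ ^ j ∣ dg p z)
    (f : k[X]) (hf : f.Monic) (hdeg : f.natDegree < ℓ) (hfz : aeval z f = 0) : False := by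
  classical
  obtain ⟨N, hN, hcN⟩ := common_period h f.coeffs
  obtain ⟨R, hR, -, hA⟩ := ML (L := k) (p := p) N hN
  have hcoeff : ∀ i, (f.coeff i) ^ p ^ R = f.coeff i := by
    intro i
    by_cases hi : f.coeff i = 0
    · rw [hi, zero_pow (pow_ne_zero _ (Fact.out : p.Prime).ne_zero)]
    · have := hcN _ (Polynomial.coeff_mem_coeffs hi)
      rw [hA] at this
      exact mem_A.1 this
  have hmap : f.map (iterateFrobenius k p R) = f := by
    ext i
    rw [coeff_map, iterateFrobenius_def, hcoeff]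
  have hroot : ∀ i : ℕ, aeval (z ^ p ^ (R * i)) f = 0 := by
    intro i
    induction i with
    | zero => simpa using hfz
    | succ i ih =>
      have e1 : z ^ p ^ (R * (i + 1)) = iterateFrobenius κ p R (z ^ p ^ (R * i)) := by
        rw [iterateFrobenius_def, ← pow_mul, ← pow_add]; ring_nf
      rw [e1]
      have e2 : iterateFrobenius κ p R (aeval (z ^ p ^ (R * i)) f) =
          aeval (iterateFrobenius κ p R (z ^ p ^ (R * i))) f := by
        conv_rhs => rw [← hmap]
        rw [aeval_def, hom_eval₂, aeval_def, eval₂_map]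
        congr 1
        ext x
        simp [iterateFrobenius_def]
      rw [← e2, ih, map_zero]
  -- the elements are different
  have hinj : Set.InjOn (fun i : ℕ => z ^ p ^ (R * i)) (Finset.range ℓ : Set ℕ) := by
    have key : ∀ i i' : ℕ, i < i' → i' < ℓ → z ^ p ^ (R * i) ≠ z ^ p ^ (R * i') := by
      intro i i' hii hi' heq
      have e1 : z ^ p ^ (R * i') = iterateFrobenius κ p (R * i) (z ^ p ^ (R * (i' - i))) := by
        rw [iterateFrobenius_def, ← pow_mul, ← pow_add, ← mul_add, Nat.sub_add_cancel hii.le]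
      have e2 : z ^ p ^ (R * i) = iterateFrobenius κ p (R * i) z := rfl
      rw [e1, e2] at heq
      have e3 := (iterateFrobenius κ p (R * i)).injective heq
      have e4 : dg p z ∣ R * (i' - i) := mem_A_iff.1 (mem_A.2 e3.symm)
      have e5 : ℓ ^ j ∣ R * (i' - i) := hz.trans e4
      have hco : Nat.Coprime (ℓ ^ j) (i' - i) := by
        apply Nat.Coprime.pow_left
        refine (Nat.Prime.coprime_iff_not_dvd hℓ).2 fun hd => ?_
        have := Nat.le_of_dvd (by omega) hd
        omega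
      exact hF (full_dvd R _ hR (hco.dvd_of_dvd_mul_right e5))
    intro i hi i' hi' heq
    simp only [Finset.coe_range, Set.mem_Iio] at hi hi'
    rcases lt_trichotomy i i' with h1 | h1 | h1
    · exact absurd heq (key i i' h1 hi')
    · exact h1
    · exact absurd heq.symm (key i' i h1 hi)
  have hsub : (Finset.range ℓ).image (fun i : ℕ => z ^ p ^ (R * i)) ⊆
      (f.map (algebraMap k κ)).roots.toFinset := by
    intro w hw
    obtain ⟨i, -, rfl⟩ := Finset.mem_image.1 hw
    rw [Multiset.mem_toFinset, mem_roots (hf.map _).ne_zero, IsRoot.def, eval_map_algebraMap]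
    exact hroot i
  have h1 := Finset.card_le_card hsub
  rw [Finset.card_image_of_injOn hinj, Finset.card_range] at h1
  have h2 := (Multiset.toFinset_card_le (f.map (algebraMap k κ)).roots).trans (card_roots' _)
  rw [hf.natDegree_map] at h2
  omega

end Pool.Agent.N616.NH.RFA_

namespace Pool.Agent.N616.NH

open Polynomial RFA_

theorem RFA : S_RFA := by
  intro p _ k _ _ hper hAS hk
  have hp := (Fact.out : p.Prime)
  let : Algebra (ZMod p) k := ZMod.algebra k p
  have := alg_of_dg hper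
  obtain ⟨ℓ, j, hℓ, hj, hF⟩ := exists_prime_pow (exists_not_full hper hk)
  have hℓp : ℓ ≠ p := by
    rintro rfl
    exact hF (full_p_pow hAS (fun a => dg_ne_of_alg a) j)
  refine ⟨ℓ, hℓ, hℓp, ?_⟩
  intro κ _ _ hsmall ⟨ζ, hζ⟩
  by_contra hcon
  push Not at hcon
  have : CharP κ p := charP_of_injective_algebraMap' k p
  let : Algebra (ZMod p) κ := ((algebraMap k κ).comp (algebraMap (ZMod p) k)).toAlgebra
  have : IsScalarTower (ZMod p) k κ := IsScalarTower.of_algebraMap_eq' rfl
  have : Algebra.IsAlgebraic k κ := by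
    constructor
    intro z
    obtain ⟨f, hf, -, hz⟩ := hsmall z
    exact ⟨f, hf.ne_zero, hz⟩
  have : Algebra.IsAlgebraic (ZMod p) κ := Algebra.IsAlgebraic.trans _ k _
  -- roots of unity of order `ℓ ^ i`
  have hroots : ∀ i : ℕ, ∃ ξ : κ, orderOf ξ = ℓ ^ (i + 1) := by
    intro i
    induction i with
    | zero => exact ⟨ζ, by rw [← hζ.eq_orderOf]; simp⟩
    | succ i ih =>
      obtain ⟨ξ, hξ⟩ := ih
      obtain ⟨η, hη⟩ := hcon ξ
      refine ⟨η, ?_⟩
      have := Fact.mk hℓ
      apply orderOf_eq_prime_pow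
      · rw [pow_succ', pow_mul, hη]
        intro h1
        have h2 := orderOf_dvd_of_pow_eq_one h1
        rw [hξ] at h2
        have h3 := (Nat.pow_dvd_pow_iff_le_right hℓ.one_lt).1 h2
        omega
      · rw [pow_succ', pow_mul, hη, ← hξ, pow_orderOf_eq_one]
  -- a root of unity of large order
  set B := p ^ (ℓ ^ (j - 1) * (ℓ - 1)) with hB
  obtain ⟨ξ, hξ⟩ := hroots B
  have hlt : B < ℓ ^ (B + 1) :=
    (Nat.lt_pow_self hℓ.one_lt).trans (Nat.pow_lt_pow_right hℓ.one_lt (Nat.lt_succ_self B))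
  have hξ0 : ξ ≠ 0 := by
    rintro rfl
    have := orderOf_pos_iff.1 (by rw [hξ]; exact Nat.pow_pos hℓ.pos)
    rw [isOfFinOrder_iff_pow_eq_one] at this
    obtain ⟨n, hn, h⟩ := this
    rw [zero_pow hn.ne'] at h
    exact zero_ne_one h
  have hmem : ∀ m : ℕ, ξ ∈ A κ p m ↔ ℓ ^ (B + 1) ∣ p ^ m - 1 := by
    intro m
    rw [mem_A, ← hξ, orderOf_dvd_iff_pow_eq_one]
    have h2 : ξ ^ p ^ m = ξ ^ (p ^ m - 1) * ξ := by
      rw [← pow_succ, Nat.sub_add_cancel (Nat.one_le_pow _ _ hp.pos)]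
    rw [h2]
    constructor
    · intro h
      exact mul_right_cancel₀ hξ0 (by rw [h, one_mul])
    · intro h
      rw [h, one_mul]
  have hd1 : dg p ξ ∣ ℓ ^ B * (ℓ - 1) := by
    rw [← mem_A_iff, hmem]
    have hco : Nat.Coprime p (ℓ ^ (B + 1)) :=
      Nat.Coprime.pow_right _ ((Nat.coprime_primes hp hℓ).2 (Ne.symm hℓp))
    have h3 := Nat.ModEq.pow_totient hco
    rw [Nat.totient_prime_pow_succ hℓ] at h3
    exact (Nat.modEq_iff_dvd' (Nat.one_le_pow _ _ hp.pos)).1 h3.symm
  have hd2 : ℓ ^ j ∣ dg p ξ := by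
    by_contra hnd
    obtain ⟨d1, d2, h1, h2, h3⟩ := (Nat.dvd_mul).1 hd1
    obtain ⟨s, hs, hds⟩ := (Nat.dvd_prime_pow hℓ).1 h1
    have hsj : s < j := by
      by_contra hge
      apply hnd
      rw [← h3, hds]
      exact (pow_dvd_pow ℓ (by omega)).mul_right _
    have h4 : dg p ξ ∣ ℓ ^ (j - 1) * (ℓ - 1) := by
      rw [← h3, hds]
      exact mul_dvd_mul (pow_dvd_pow ℓ (by omega)) h2
    have h5 := (hmem _).1 (mem_A_iff.2 h4)
    have h6 := Nat.le_of_dvd (Nat.sub_pos_of_lt (Nat.one_lt_pow (by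
      have := hℓ.two_le
      exact mul_ne_zero (pow_ne_zero _ hℓ.ne_zero) (by omega)) hp.one_lt)) h5
    omega
  obtain ⟨f, hf, hdeg, hz⟩ := hsmall ξ
  exact no_small_degree hper ℓ j hℓ hF ξ hd2 f hf hdeg hz

end Pool.Agent.N616.NH
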