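import Pool.Agent.N616.NH.AL1
import Pool.Agent.N616.NH.KUM
import Pool.Agent.N616.NH.FFP
import Pool.Agent.N616.NH.RFA

set_option autoImplicit false

/-! Project NH: residue fields which are algebraic over a finite field. -/

namespace Pool.Agent.N616.NH

open FirstOrder Pool.Agent.W882.Nip3 DJ_ Polynomial

namespace AL_

theorem infinite_of_as {k : Type} [Field k] (p : ℕ) [hp : Fact p.Prime]
    (hs : ∀ a : k, ∃ y : k, y ^ p - y = a) : Infinite k := by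
  by_contra hfin
  rw [not_infinite_iff_finite] at hfin
  have hiM := Finite.injective_iff_surjective.2 (show Function.Surjective (fun c : k => c ^ p - c)
    from hs)
  have h01 : (0 : k) = 1 := by
    apply hiM
    simp only [one_pow, sub_self, zero_pow hp.out.ne_zero]
  exact zero_ne_one h01

/-- a finite extension of small degree with a primitive root of unity -/
theorem exists_root (K : Type) [Field K] (ℓ : ℕ) (hℓ : ℓ.Prime) (hℓK : (ℓ : K) ≠ 0) :
    ∃ (L : Type) (_ : Field L) (_ : Algebra K L) (_ : FiniteDimensional K L),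
      Module.finrank K L < ℓ ∧ ∃ ζ : L, IsPrimitiveRoot ζ ℓ := by
  have hdeg : (cyclotomic ℓ K).natDegree = ℓ - 1 := by
    rw [natDegree_cyclotomic, Nat.totient_prime hℓ]
  have hne : cyclotomic ℓ K ≠ 0 := cyclotomic_ne_zero ℓ K
  have hnu : ¬ IsUnit (cyclotomic ℓ K) := by
    intro h
    have := natDegree_eq_zero_of_isUnit h
    have := hℓ.two_le
    omega
  obtain ⟨g, hg, hdvd⟩ := WfDvdMonoid.exists_irreducible_factor hnu hne
  have : Fact (Irreducible g) := ⟨hg⟩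
  have hgd : g.natDegree ≤ ℓ - 1 := hdeg ▸ natDegree_le_of_dvd hdvd hne
  have hfin : FiniteDimensional K (AdjoinRoot g) := (AdjoinRoot.powerBasis hg.ne_zero).finite
  refine ⟨AdjoinRoot g, inferInstance, inferInstance, hfin, ?_, AdjoinRoot.root g, ?_⟩
  · rw [(AdjoinRoot.powerBasis hg.ne_zero).finrank, AdjoinRoot.powerBasis_dim]
    have := hℓ.two_le
    omega
  · have hne' : NeZero ((ℓ : ℕ) : AdjoinRoot g) := ⟨by
      rw [← map_natCast (algebraMap K (AdjoinRoot g))]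
      exact (_root_.map_ne_zero _).2 hℓK⟩
    rw [← isRoot_cyclotomic_iff, IsRoot.def, ← map_cyclotomic ℓ (algebraMap K (AdjoinRoot g)),
      eval_map]
    obtain ⟨h, hh⟩ := hdvd
    rw [hh, eval₂_mul]
    have : eval₂ (algebraMap K (AdjoinRoot g)) (AdjoinRoot.root g) g = 0 := AdjoinRoot.eval₂_root g
    rw [this, zero_mul]

theorem alg_closed (K : Type) [Field K] [FirstOrder.Ring.CompatibleRing K] (n : ℕ)
    (hK : NIPnField n K) (O : ValuationSubring K) (hO : Dfb O) (p : ℕ) [hp : Fact p.Prime]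
    [CharP (IsLocalRing.ResidueField O) p]
    (halg : ∀ a : IsLocalRing.ResidueField O, ∃ m : ℕ, 0 < m ∧ a ^ p ^ m = a)
    (hAS : ∀ a : IsLocalRing.ResidueField O, ∃ y, y ^ p - y = a) :
    IsAlgClosed (IsLocalRing.ResidueField O) := by
  classical
  by_contra hcl
  obtain ⟨ℓ, hℓ, hℓp, hR⟩ := RFA p (IsLocalRing.ResidueField O) halg hAS hcl
  have hℓk : ∀ (k : Type) [Field k] [CharP k p], (ℓ : k) ≠ 0 := by
    intro k _ _ h
    have h1 := (CharP.cast_eq_zero_iff k p ℓ).1 h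
    exact hℓp ((Nat.prime_dvd_prime_iff_eq hp.out hℓ).1 h1).symm
  have hℓK : (ℓ : K) ≠ 0 := by
    intro h
    apply hℓk (IsLocalRing.ResidueField O)
    rw [← map_natCast (IsLocalRing.residue O)]
    have h1 : ((ℓ : ℕ) : O) = 0 := Subtype.ext (by push_cast; exact h)
    rw [h1, map_zero]
  obtain ⟨L, _, _, _, hdeg, ζ, hζ⟩ := exists_root K ℓ hℓ hℓK
  set R := RI O L with hRdef
  have hfin : Finite (MaximalSpectrum R) := FIN K O L
  obtain ⟨M, hM⟩ := Ideal.exists_maximal R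
  let _ : Field (R ⧸ M) := Ideal.Quotient.field M
  let φ : IsLocalRing.ResidueField O →+* (R ⧸ M) := kmap O L M
  have hch : CharP (R ⧸ M) p := charP_of_injective_ringHom φ.injective p
  have hinf : Infinite (IsLocalRing.ResidueField O) := infinite_of_as p hAS
  have hinf' : Infinite (R ⧸ M) := Infinite.of_injective φ φ.injective
  have halg' : ∀ z : R ⧸ M, ∃ m : ℕ, 0 < m ∧ z ^ p ^ m = z := by
    intro z
    obtain ⟨f, hf, -, hz⟩ := exists_poly O L M z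
    exact pow_fixed p φ halg z f hf hz
  -- the root of unity
  have hζR : ζ ∈ R := by
    refine ⟨X ^ ℓ - C 1, monic_X_pow_sub_C 1 hℓ.ne_zero, ?_⟩
    rw [eval₂_sub, eval₂_X_pow, eval₂_C, map_one, hζ.pow_eq_one, sub_self]
  let ζ₁ : R := ⟨ζ, hζR⟩
  have hζ1 : ζ₁ ^ ℓ = 1 := Subtype.ext hζ.pow_eq_one
  have hζ2 : ∑ i ∈ Finset.range ℓ, ζ₁ ^ i = 0 := by
    apply Subtype.ext
    rw [AddSubmonoidClass.coe_finsetSum]
    exact hζ.geom_sum_eq_zero hℓ.one_lt
  have hζ3 : Ideal.Quotient.mk M ζ₁ ≠ 1 := by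
    intro h
    have h1 := congrArg (Ideal.Quotient.mk M) hζ2
    rw [map_sum, map_zero] at h1
    simp only [map_pow, h, one_pow, Finset.sum_const, Finset.card_range, nsmul_eq_mul,
      mul_one] at h1
    exact hℓk (R ⧸ M) h1
  have hζ4 : IsPrimitiveRoot (Ideal.Quotient.mk M ζ₁) ℓ := by
    have : Fact ℓ.Prime := ⟨hℓ⟩
    have h1 : orderOf (Ideal.Quotient.mk M ζ₁) = ℓ := by
      refine orderOf_eq_prime ?_ hζ3
      rw [← map_pow, hζ1, map_one]
    rw [← h1]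
    exact IsPrimitiveRoot.orderOf _
  have hpow : ∃ a : R ⧸ M, ∀ y : R ⧸ M, y ^ ℓ ≠ a := by
    let _ : Algebra (IsLocalRing.ResidueField O) (R ⧸ M) := φ.toAlgebra
    refine hR (R ⧸ M) (fun z => ?_) ⟨_, hζ4⟩
    obtain ⟨f, hf, hf1, hz⟩ := exists_poly O L M z
    exact ⟨f, hf, hf1.trans_lt hdeg, hz⟩
  have hpat := KUM FFP p ℓ hℓ (R ⧸ M) halg' ⟨_, hζ4⟩ hpow
  -- definability
  have hDR : D K (fun v : Fin 1 → L => v 0 ∈ R) := D_RI K O hO L
  have hDM : D K (fun v : Fin 1 → L => MM R M (v 0)) := D_MM K L R hDR M hM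
  have hq : D K (fun v : Fin 1 ⊕ Fin n → L => ∃ y : L, y ∈ R ∧
      MM R M (v (Sum.inl 0) + ∏ k, v (Sum.inr k) - y ^ ℓ)) := by
    have h1 : D K (fun v : ((Fin 1 ⊕ Fin n) ⊕ Fin 1) ⊕ Fin 1 → L => MvPolynomial.eval v
        (MvPolynomial.X (Sum.inr 0) - (MvPolynomial.X (Sum.inl (Sum.inl (Sum.inl 0))) +
          (∏ k : Fin n, MvPolynomial.X (Sum.inl (Sum.inl (Sum.inr k)))) -
          MvPolynomial.X (Sum.inl (Sum.inr 0)) ^ ℓ) :
          MvPolynomial (((Fin 1 ⊕ Fin n) ⊕ Fin 1) ⊕ Fin 1) L) = 0) := D_poly DFB _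
    have h2 : D K (fun v : ((Fin 1 ⊕ Fin n) ⊕ Fin 1) ⊕ Fin 1 → L => MM R M (v (Sum.inr 0))) :=
      D_re DFA (fun _ : Fin 1 => Sum.inr 0) hDM
    have h3 : D K (fun v : (Fin 1 ⊕ Fin n) ⊕ Fin 1 → L => v (Sum.inr 0) ∈ R) :=
      D_re DFA (fun _ : Fin 1 => Sum.inr 0) hDR
    refine D_congr (fun v => ?_) (D_ex1 DFA (D_and DFA h3 (D_ex1 DFA (D_and DFA h1 h2))))
    simp only [map_sub, map_add, map_prod, map_pow, MvPolynomial.eval_X, Sum.elim_inr,
      Sum.elim_inl, sub_eq_zero]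
    constructor
    · rintro ⟨y, hy, w, rfl, hw⟩
      exact ⟨y, hy, hw⟩
    · rintro ⟨y, hy, hw⟩
      exact ⟨y, hy, _, rfl, hw⟩
  refine NP_.nipnL K n hK L _ hq fun m => ?_
  obtain ⟨u₀, hu⟩ := hpat (m ^ n)
  obtain ⟨u, rfl⟩ := Ideal.Quotient.mk_surjective u₀
  let E : (Fin n → Fin m) → Fin (m ^ n) := fun i => ⟨NP_.ex n m i, NP_.ex_lt n m i⟩
  have hE : Function.Injective E := fun i j h => NP_.ex_inj n m (congrArg Fin.val h)
  refine ⟨fun k i => ((u ^ ((i : ℕ) * m ^ (k : ℕ)) : R) : L), fun T => ?_⟩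
  let U : Finset (Fin (m ^ n)) := Finset.univ.filter fun e => ∃ i, i ∈ T ∧ E i = e
  obtain ⟨x₀, hx⟩ := hu U
  obtain ⟨x, rfl⟩ := Ideal.Quotient.mk_surjective x₀
  refine ⟨(x : L), fun i => ?_⟩
  have hU : E i ∈ U ↔ i ∈ T := by
    simp only [U, Finset.mem_filter, Finset.mem_univ, true_and]
    constructor
    · rintro ⟨j, hj, hij⟩
      rwa [← hE hij]
    · intro h
      exact ⟨i, h, rfl⟩
  have hprod : ∏ k : Fin n, ((u ^ (((i k : Fin m) : ℕ) * m ^ (k : ℕ)) : R) : L) =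
      ((u ^ ((E i : Fin (m ^ n)) : ℕ) : R) : L) := by
    have h9 := map_prod R.subtype (fun k : Fin n => u ^ (((i k : Fin m) : ℕ) * m ^ (k : ℕ)))
      Finset.univ
    rw [Finset.prod_pow_eq_pow_sum] at h9
    exact h9.symm
  simp only [Sum.elim_inl, Sum.elim_inr]
  rw [hprod, ← hU, ← hx (E i)]
  constructor
  · rintro ⟨y, hy, h1, h2⟩
    refine ⟨Ideal.Quotient.mk M ⟨y, hy⟩, ?_⟩
    have h3 : Ideal.Quotient.mk M (x + u ^ ((E i : Fin (m ^ n)) : ℕ) - ⟨y, hy⟩ ^ ℓ) = 0 :=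
      Ideal.Quotient.eq_zero_iff_mem.2 h2
    rw [map_sub, map_add, map_pow, map_pow, sub_eq_zero] at h3
    exact h3.symm
  · rintro ⟨y₀, hy₀⟩
    obtain ⟨y, rfl⟩ := Ideal.Quotient.mk_surjective y₀
    refine ⟨(y : L), y.2, ?_⟩
    have h3 : Ideal.Quotient.mk M (x + u ^ ((E i : Fin (m ^ n)) : ℕ) - y ^ ℓ) = 0 := by
      rw [map_sub, map_add, map_pow, map_pow, hy₀, sub_self]
    exact ⟨(x + u ^ ((E i : Fin (m ^ n)) : ℕ) - y ^ ℓ : R).2, Ideal.Quotient.eq_zero_iff_mem.1 h3⟩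

end AL_

end Pool.Agent.N616.NH
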