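import Pool.Agent.N616.NH.Stm3
import Pool.Agent.W882.Nip3.Main3

/-!
# Bounded number of incomparable non-tame valuation rings, without a condition on the residue
characteristic (adapted from `BND.lean` by helper216)
-/

set_option autoImplicit false

namespace Pool.Agent.N616.NH.BND2_

open Pool.Agent.W882.Nip3

variable {K : Type} [Field K]

theorem w_eq {O : ValuationSubring K} {P : Place K} {w : Valuation P.F O.ValueGroup}
    (hP : PD O P w) {c : P.F} (hc : c ≠ 0) : ∃ x : K, w c = O.valuation x := by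
  obtain ⟨x, hx⟩ := hP.near c hc
  have h1 : w (P.res x) = w c := by
    have h2 : P.res x = c - (c - P.res x) := by ring
    rw [h2]
    exact Valuation.map_sub_eq_of_lt_left w hx
  have h2 : P.res x ≠ 0 := by
    intro h3
    rw [h3, map_zero] at h1
    exact hc ((map_eq_zero w).1 h1.symm)
  exact ⟨x, by rw [← h1, hP.val x h2]⟩

/-- The place attached to a non-tame valuation ring. -/
theorem exists_place (hPL : S_PL) (hN1 : S_N1) (hN2 : S_N2) (hN3 : S_N3) (O : ValuationSubring K) (D : ℕ)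
    (hO : NT' D O) (e : K) (he : e ≠ 0) (he1 : O.valuation e < 1) :
    ∃ P : Place K, ¬ DimLeOneUpTo P.F D ∧ ∀ x : K, O.valuation x ≤ O.valuation e → P.Small x := by
  have hv0 : ∀ x : K, O.valuation e ≤ O.valuation x → x ≠ 0 := by
    rintro x hx rfl
    rw [map_zero, le_zero_iff, map_eq_zero] at hx
    exact he hx
  rcases hO with ⟨d, hd, t, h⟩ | ⟨l, hl, t₁, t₂, h⟩
  · obtain ⟨y, hy1, hy2⟩ := h.small e he he1
    obtain ⟨P, w, hP, hs, hr⟩ := hPL K O (t * y ^ d) (hv0 _ hy1) hy2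
    refine ⟨P, ?_, fun x hx => hs x (hx.trans hy1)⟩
    obtain ⟨hm, hne⟩ := hr (t * y ^ d) le_rfl hy2.le
    refine hN1 K O P w hP d _ hm hne (fun z hz => ?_) h.two_le h.ext D hd
    have hy0 : y ≠ 0 := by
      rintro rfl
      apply hv0 _ hy1
      rw [zero_pow (by have := h.two_le; omega), mul_zero]
    apply h.nd (z / y)
    have hvy : O.valuation y ≠ 0 := (map_ne_zero _).2 hy0
    rw [map_mul, map_pow] at hz
    rw [map_div₀, div_pow, ← hz, mul_div_cancel_right₀ _ (pow_ne_zero d hvy)]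
  · have hl0 : l ≠ 0 := h.prime.ne_zero
    obtain ⟨y₁, ha1, ha2⟩ := h.small₁ e he he1
    obtain ⟨y₂, hb1, hb2⟩ := h.small₂ e he he1
    -- the smaller one
    obtain ⟨δ, hδe, hδ1, hδa, hδb⟩ : ∃ δ : K, O.valuation e ≤ O.valuation δ ∧
        O.valuation δ < 1 ∧ O.valuation δ ≤ O.valuation (t₁ * y₁ ^ l) ∧
        O.valuation δ ≤ O.valuation (t₂ * y₂ ^ l) := by
      rcases le_total (O.valuation (t₁ * y₁ ^ l)) (O.valuation (t₂ * y₂ ^ l)) with h1 | h1
      · exact ⟨_, ha1, ha2, le_rfl, h1⟩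
      · exact ⟨_, hb1, hb2, h1, le_rfl⟩
    obtain ⟨P, w, hP, hs, hr⟩ := hPL K O δ (hv0 _ hδe) hδ1
    refine ⟨P, ?_, fun x hx => hs x (hx.trans hδe)⟩
    obtain ⟨hma, hna⟩ := hr (t₁ * y₁ ^ l) hδa ha2.le
    obtain ⟨hmb, hnb⟩ := hr (t₂ * y₂ ^ l) hδb hb2.le
    have hy1 : y₁ ≠ 0 := by
      rintro rfl
      apply hv0 _ ha1
      rw [zero_pow hl0, mul_zero]
    have hy2 : y₂ ≠ 0 := by
      rintro rfl
      apply hv0 _ hb1
      rw [zero_pow hl0, mul_zero]
    have hvy1 : O.valuation y₁ ≠ 0 := (map_ne_zero _).2 hy1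
    have hvy2 : O.valuation y₂ ≠ 0 := (map_ne_zero _).2 hy2
    have hwa : w (P.res ⟨_, hma⟩) = O.valuation t₁ * O.valuation y₁ ^ l := by
      rw [hP.val _ hna, map_mul, map_pow]
    have hwb : w (P.res ⟨_, hmb⟩) = O.valuation t₂ * O.valuation y₂ ^ l := by
      rw [hP.val _ hnb, map_mul, map_pow]
    have hgo : (∀ c : P.F, w (P.res ⟨_, hma⟩) ≠ w c ^ l) →
        (∀ (c : P.F) (i : ℕ), w (P.res ⟨_, hmb⟩) ≠ w c ^ l * w (P.res ⟨_, hma⟩) ^ i) →
        ¬ DimLeOneUpTo P.F D := by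
      intro h1 h2
      by_cases hlF : (l : P.F) = 0
      · refine hN3 P.F O.ValueGroup w l h.prime hlF (P.res ⟨_, hma⟩) (P.res ⟨_, hmb⟩) ?_ h1 h2 D hl
        rw [hP.val _ hna]
        exact ha2
      · exact hN2 P.F O.ValueGroup w l h.prime hlF (P.res ⟨_, hma⟩) (P.res ⟨_, hmb⟩) h1 h2 D hl
    refine hgo ?_ ?_
    · intro c hc
      by_cases hc0 : c = 0
      · rw [hc0, map_zero, zero_pow hl0, map_eq_zero] at hc
        exact hna hc
      obtain ⟨x, hx⟩ := w_eq hP hc0
      rw [hwa, hx] at hc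
      apply h.nd (x / y₁)
      rw [map_div₀, div_pow, ← hc, mul_div_cancel_right₀ _ (pow_ne_zero l hvy1)]
    · intro c i hc
      by_cases hc0 : c = 0
      · rw [hc0, map_zero, zero_pow hl0, zero_mul, map_eq_zero] at hc
        exact hnb hc
      obtain ⟨x, hx⟩ := w_eq hP hc0
      rw [hwb, hwa, hx] at hc
      apply h.indep (x * y₁ ^ i / y₂) i
      rw [map_div₀, map_mul, map_pow]
      have h1 : O.valuation t₂ = O.valuation x ^ l * (O.valuation t₁ * O.valuation y₁ ^ l) ^ i /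
          O.valuation y₂ ^ l := by
        rw [← hc, mul_div_cancel_right₀ _ (pow_ne_zero l hvy2)]
      rw [h1, div_pow, mul_pow, mul_pow, ← pow_mul, ← pow_mul, mul_comm l i, div_mul_eq_mul_div,
        mul_assoc, mul_comm (O.valuation t₁ ^ i)]

theorem nontriv {O : ValuationSubring K} {d : ℕ} (hd : d ≠ 0) {t : K}
    (h : ∀ y : K, O.valuation t ≠ O.valuation y ^ d) : ∃ e : K, e ≠ 0 ∧ O.valuation e < 1 := by
  have ht : t ≠ 0 := by
    rintro rfl
    apply h 0
    rw [map_zero, zero_pow hd]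
  have ht1 : O.valuation t ≠ 1 := by
    intro h1
    apply h 1
    rw [h1, map_one, one_pow]
  rcases lt_or_gt_of_ne ht1 with h1 | h1
  · exact ⟨t, ht, h1⟩
  · refine ⟨t⁻¹, inv_ne_zero ht, ?_⟩
    rw [map_inv₀]
    exact inv_lt_one_of_one_lt₀ h1

theorem exists_small {O : ValuationSubring K} {D : ℕ} (hO : NT' D O) :
    ∃ e : K, e ≠ 0 ∧ O.valuation e < 1 := by
  rcases hO with ⟨d, _, t, h⟩ | ⟨l, _, t₁, t₂, h⟩
  · exact nontriv (by have := h.two_le; omega) h.nd
  · exact nontriv h.prime.ne_zero h.nd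

theorem exists_sep (O O' : ValuationSubring K) (h : ¬ O ≤ O') (h' : ¬ O' ≤ O) :
    ∃ x : K, x ≠ 0 ∧ O.valuation x < 1 ∧ 1 < O'.valuation x := by
  obtain ⟨a, ha, ha'⟩ := SetLike.not_le_iff_exists.1 h'
  obtain ⟨b, hb, hb'⟩ := SetLike.not_le_iff_exists.1 h
  have h1 : 1 < O.valuation a := by
    rw [← not_le, ValuationSubring.valuation_le_one_iff]
    exact ha'
  have h2 : O.valuation b ≤ 1 := (ValuationSubring.valuation_le_one_iff O b).2 hb
  have h3 : 1 < O'.valuation b := by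
    rw [← not_le, ValuationSubring.valuation_le_one_iff]
    exact hb'
  have h4 : O'.valuation a ≤ 1 := (ValuationSubring.valuation_le_one_iff O' a).2 ha
  have ha0 : a ≠ 0 := by
    rintro rfl
    rw [map_zero] at h1
    exact absurd h1 (not_lt.2 zero_le_one)
  have hb0 : b ≠ 0 := by
    rintro rfl
    rw [map_zero] at h3
    exact absurd h3 (not_lt.2 zero_le_one)
  refine ⟨b / a, div_ne_zero hb0 ha0, ?_, ?_⟩
  · rw [map_div₀, div_lt_one₀ (zero_lt_one.trans h1)]
    exact h2.trans_lt h1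
  · rw [map_div₀, one_lt_div₀ (zero_lt_iff.2 ((map_ne_zero _).2 ha0))]
    exact h4.trans_lt h3

end Pool.Agent.N616.NH.BND2_

namespace Pool.Agent.N616.NH

open Pool.Agent.W882.Nip3 BND2_

theorem BND' (hPL : S_PL) (hN1 : S_N1) (hN2 : S_N2) (hN3 : S_N3) : S_BND' := by
  classical
  intro K _ _ hK D
  obtain ⟨N, hN⟩ := main_general (fun e d => boundedG_of_tame hK e d) D
  refine ⟨N, fun K' _ _ hKK' O hO => ?_⟩
  by_contra hcon
  push Not at hcon
  have hsep : ∀ i j, i ≠ j → ∃ x : K', x ≠ 0 ∧ (O i).valuation x < 1 ∧ 1 < (O j).valuation x :=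
    fun i j hij => exists_sep _ _ (hcon i j hij) (hcon j i hij.symm)
  choose x hx0 hx1 hx2 using hsep
  choose e₀ he₀ he₀1 using fun i => exists_small (hO i)
  have hmax : ∀ i, ∃ e : K', e ≠ 0 ∧ (O i).valuation e < 1 ∧
      (∀ j (hij : i ≠ j), (O i).valuation (x i j hij) ≤ (O i).valuation e) ∧
      ∀ j (hij : j ≠ i), (O i).valuation (x j i hij)⁻¹ ≤ (O i).valuation e := by
    intro i
    let u : Option (Fin N × Bool) → K' := fun k => match k with
      | none => e₀ i
      | some (j, true) => if hij : i ≠ j then x i j hij else e₀ i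
      | some (j, false) => if hij : j ≠ i then (x j i hij)⁻¹ else e₀ i
    have hu : ∀ k, u k ≠ 0 ∧ (O i).valuation (u k) < 1 := by
      intro k
      rcases k with _ | ⟨j, _ | _⟩
      · exact ⟨he₀ i, he₀1 i⟩
      · by_cases hij : j ≠ i
        · simp only [u]
          rw [dif_pos hij]
          refine ⟨inv_ne_zero (hx0 _ _ _), ?_⟩
          rw [map_inv₀]
          exact inv_lt_one_of_one_lt₀ (hx2 _ _ _)
        · simp only [u]
          rw [dif_neg hij]
          exact ⟨he₀ i, he₀1 i⟩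
      · by_cases hij : i ≠ j
        · simp only [u]
          rw [dif_pos hij]
          exact ⟨hx0 _ _ _, hx1 _ _ _⟩
        · simp only [u]
          rw [dif_neg hij]
          exact ⟨he₀ i, he₀1 i⟩
    obtain ⟨k₀, hk₀⟩ := Finite.exists_max (fun k => (O i).valuation (u k))
    refine ⟨u k₀, (hu k₀).1, (hu k₀).2, fun j hij => ?_, fun j hij => ?_⟩
    · have h1 := hk₀ (some (j, true))
      simp only [u] at h1
      rw [dif_pos hij] at h1
      exact h1
    · have h1 := hk₀ (some (j, false))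
      simp only [u] at h1
      rw [dif_pos hij] at h1
      exact h1
  choose e he0 he1 he2 he3 using hmax
  choose P hP1 hP2 using fun i => exists_place hPL hN1 hN2 hN3 (O i) D (hO i) (e i) (he0 i) (he1 i)
  obtain ⟨i, hi⟩ := hN K' hKK' P (fun i j hij =>
    ⟨x i j hij, hx0 i j hij, hP2 i _ (he2 i j hij), hP2 j _ (he3 j i hij)⟩)
  exact hP1 i hi

end Pool.Agent.N616.NH
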