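import Pool.Agent.N616.NH.Stm6

set_option autoImplicit false

/-! Project NH: a valuation ring which is not tame has a non-tame coarsening. -/

namespace Pool.Agent.N616.NH

namespace CO_

variable {K : Type} [Field K]

theorem mem_of_val (O : ValuationSubring K) {x : K} (h : O.valuation x ≤ 1) : x ∈ O :=
  (O.valuation_le_one_iff x).1 h

/-- nonunits of a coarsening are nonunits -/
theorem val_lt_of_le {O A : ValuationSubring K} (h : O ≤ A) {x : K} (hx : A.valuation x < 1) :
    O.valuation x < 1 := by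
  by_contra h1
  rw [not_lt] at h1
  have hx0 : x ≠ 0 := by
    rintro rfl
    rw [map_zero] at h1
    exact absurd h1 (not_le.2 zero_lt_one)
  have h2 : x⁻¹ ∈ O := mem_of_val O (by rw [map_inv₀]; exact inv_le_one_of_one_le₀ h1)
  have h3 := (A.valuation_le_one_iff _).2 (h h2)
  rw [map_inv₀] at h3
  have h4 : A.valuation x ≠ 0 := (Valuation.ne_zero_iff _).2 hx0
  exact absurd ((one_lt_inv₀ (zero_lt_iff.2 h4)).2 hx) (not_lt.2 h3)

/-- comparison of values for a coarsening -/
theorem val_le_of_le {O A : ValuationSubring K} (h : O ≤ A) {x y : K} (hy : y ≠ 0)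
    (hxy : O.valuation x ≤ O.valuation y) : A.valuation x ≤ A.valuation y := by
  have hy0 : O.valuation y ≠ 0 := (Valuation.ne_zero_iff _).2 hy
  have hy1 : A.valuation y ≠ 0 := (Valuation.ne_zero_iff _).2 hy
  have h1 : x / y ∈ O := mem_of_val O (by rw [map_div₀]; exact div_le_one_of_le₀ hxy zero_le)
  have h2 := (A.valuation_le_one_iff _).2 (h h1)
  rw [map_div₀] at h2
  calc A.valuation x = A.valuation x / A.valuation y * A.valuation y := by
        rw [div_mul_cancel₀ _ hy1]
    _ ≤ 1 * A.valuation y := by gcongr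
    _ = _ := one_mul _

/-- the coarsening -/
def AA (O : ValuationSubring K) (d : ℕ) (t : K) : ValuationSubring K where
  carrier := {x | ∀ (n : ℕ) (y : K), O.valuation (t * y ^ d) < 1 →
    O.valuation x ^ n * O.valuation (t * y ^ d) < 1}
  mul_mem' := by
    intro x x' hx hx' n y hy
    rcases le_total (O.valuation x) (O.valuation x') with h | h
    · refine lt_of_le_of_lt ?_ (hx' (2 * n) y hy)
      rw [map_mul, mul_pow, two_mul, pow_add]
      gcongr
    · refine lt_of_le_of_lt ?_ (hx (2 * n) y hy)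
      rw [map_mul, mul_pow, two_mul, pow_add]
      gcongr
  one_mem' := by
    intro n y hy
    rwa [map_one, one_pow, one_mul]
  add_mem' := by
    intro x x' hx hx' n y hy
    rcases le_total (O.valuation x) (O.valuation x') with h | h
    · refine lt_of_le_of_lt ?_ (hx' n y hy)
      have := (O.valuation.map_add x x').trans (max_le h le_rfl)
      gcongr
    · refine lt_of_le_of_lt ?_ (hx n y hy)
      have := (O.valuation.map_add x x').trans (max_le le_rfl h)
      gcongr
  zero_mem' := by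
    intro n y hy
    rw [map_zero]
    rcases Nat.eq_zero_or_pos n with h | h
    · rwa [h, pow_zero, one_mul]
    · rw [zero_pow h.ne', zero_mul]
      exact zero_lt_one
  neg_mem' := by
    intro x hx n y hy
    rw [Valuation.map_neg]
    exact hx n y hy
  mem_or_inv_mem' := by
    intro x
    rcases le_total (O.valuation x) 1 with h | h
    · left
      intro n y hy
      refine lt_of_le_of_lt ?_ hy
      exact mul_le_of_le_one_left' (pow_le_one₀ zero_le h)
    · right
      intro n y hy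
      refine lt_of_le_of_lt ?_ hy
      refine mul_le_of_le_one_left' (pow_le_one₀ zero_le ?_)
      rw [map_inv₀]
      exact inv_le_one_of_one_le₀ h

variable (O : ValuationSubring K) {d : ℕ} {t : K}

theorem le_AA (d : ℕ) (t : K) : O ≤ AA O d t := by
  intro x hx n y hy
  refine lt_of_le_of_lt ?_ hy
  exact mul_le_of_le_one_left' (pow_le_one₀ zero_le ((O.valuation_le_one_iff x).2 hx))

/-- small elements of the coset are nonunits -/
theorem L1 {y : K} (h : O.valuation (t * y ^ d) < 1) : (AA O d t).valuation (t * y ^ d) < 1 := by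
  by_cases h0 : t * y ^ d = 0
  · rw [h0, map_zero]
    exact zero_lt_one
  · by_contra h1
    rw [not_lt] at h1
    have h2 : (t * y ^ d)⁻¹ ∈ AA O d t := mem_of_val _ (by
      rw [map_inv₀]
      exact inv_le_one_of_one_le₀ h1)
    have h3 := h2 1 y h
    rw [pow_one, map_inv₀, inv_mul_cancel₀ ((Valuation.ne_zero_iff _).2 h0)] at h3
    exact lt_irrefl _ h3

theorem ne_zero_of_nd (hd : 2 ≤ d) (hnd : ∀ y : K, O.valuation t ≠ O.valuation y ^ d) : t ≠ 0 := by
  rintro rfl
  apply hnd 0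
  rw [map_zero, zero_pow (by omega)]

/-- the value of `t` is not divisible in the coarsening -/
theorem L2 (hd : 2 ≤ d) (hnd : ∀ y : K, O.valuation t ≠ O.valuation y ^ d) :
    ∀ y : K, (AA O d t).valuation t ≠ (AA O d t).valuation y ^ d := by
  intro y h
  have ht := ne_zero_of_nd O hd hnd
  have hy : y ≠ 0 := by
    rintro rfl
    rw [map_zero, zero_pow (by omega), map_eq_zero] at h
    exact ht h
  have hs : (AA O d t).valuation (t * y⁻¹ ^ d) = 1 := by
    rw [map_mul, map_pow, map_inv₀, h, inv_pow,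
      mul_inv_cancel₀ (pow_ne_zero _ ((Valuation.ne_zero_iff _).2 hy))]
  have hvt : O.valuation t ≠ 0 := (Valuation.ne_zero_iff _).2 ht
  have hvy : O.valuation y ≠ 0 := (Valuation.ne_zero_iff _).2 hy
  have hs0 : O.valuation (t * y⁻¹ ^ d) ≠ 0 :=
    (Valuation.ne_zero_iff _).2 (mul_ne_zero ht (pow_ne_zero _ (inv_ne_zero hy)))
  rcases lt_trichotomy (O.valuation (t * y⁻¹ ^ d)) 1 with h1 | h1 | h1
  · exact absurd hs (L1 O h1).ne
  · apply hnd y
    rw [map_mul, map_pow, map_inv₀, inv_pow] at h1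
    exact (mul_inv_eq_one₀ (pow_ne_zero _ hvy)).1 h1
  · have h2 : t * (y⁻¹ * (t * y⁻¹ ^ d)⁻¹) ^ d = (t * y⁻¹ ^ d) * ((t * y⁻¹ ^ d)⁻¹) ^ d := by
      rw [mul_pow, mul_assoc]
    have h3 : O.valuation (t * (y⁻¹ * (t * y⁻¹ ^ d)⁻¹) ^ d) =
        (O.valuation (t * y⁻¹ ^ d) ^ (d - 1))⁻¹ := by
      rw [h2, map_mul, map_pow _ (t * y⁻¹ ^ d)⁻¹, map_inv₀]
      generalize O.valuation (t * y⁻¹ ^ d) = g at hs0
      obtain ⟨m, rfl⟩ : ∃ m, d = m + 1 := ⟨d - 1, by omega⟩
      rw [Nat.add_sub_cancel, inv_pow, pow_succ, mul_inv_rev, ← mul_assoc, mul_inv_cancel₀ hs0,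
        one_mul]
    have h4 : O.valuation (t * (y⁻¹ * (t * y⁻¹ ^ d)⁻¹) ^ d) < 1 := by
      rw [h3]
      exact inv_lt_one_of_one_lt₀ (one_lt_pow₀ h1 (by omega))
    have h5 : t * y⁻¹ ^ d ∈ AA O d t := mem_of_val _ hs.le
    have h6 := h5 (d - 1) _ h4
    rw [h3, mul_inv_cancel₀ (pow_ne_zero _ hs0)] at h6
    exact lt_irrefl _ h6

/-- small elements of the coset -/
theorem L4 (hd : 1 ≤ d) {e : K} (he : e ≠ 0) (he1 : (AA O d t).valuation e < 1) :
    ∃ y : K, O.valuation (t * y ^ d) < 1 ∧ O.valuation e ^ d ≤ O.valuation (t * y ^ d) := by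
  classical
  have hv1 : O.valuation e < 1 := val_lt_of_le (le_AA O d t) he1
  have hv0 : O.valuation e ≠ 0 := (Valuation.ne_zero_iff _).2 he
  have hex : ∃ n : ℕ, ∃ y : K, O.valuation (t * y ^ d) < 1 ∧
      O.valuation e ^ n ≤ O.valuation (t * y ^ d) := by
    have h1 : e⁻¹ ∉ AA O d t := by
      intro h
      have h2 := ((AA O d t).valuation_le_one_iff _).2 h
      rw [map_inv₀] at h2
      exact absurd ((one_lt_inv₀ (zero_lt_iff.2 ((Valuation.ne_zero_iff _).2 he))).2 he1)
        (not_lt.2 h2)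
    have h2 : ¬ ∀ (n : ℕ) (y : K), O.valuation (t * y ^ d) < 1 →
        O.valuation e⁻¹ ^ n * O.valuation (t * y ^ d) < 1 := h1
    push Not at h2
    obtain ⟨n, y, h3, h4⟩ := h2
    refine ⟨n, y, h3, ?_⟩
    rw [map_inv₀, inv_pow] at h4
    calc O.valuation e ^ n = O.valuation e ^ n * 1 := (mul_one _).symm
      _ ≤ O.valuation e ^ n * ((O.valuation e ^ n)⁻¹ * O.valuation (t * y ^ d)) := by gcongr
      _ = _ := mul_inv_cancel_left₀ (pow_ne_zero _ hv0) _
  obtain ⟨y, h1, h2⟩ := Nat.find_spec hex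
  by_cases hn : Nat.find hex ≤ d
  · exact ⟨y, h1, (pow_le_pow_of_le_one zero_le hv1.le hn).trans h2⟩
  · rw [not_le] at hn
    exfalso
    have h3 := Nat.find_min hex (m := Nat.find hex - 1) (by omega)
    push Not at h3
    have h4 := h3 y h1
    have h5 : O.valuation (t * y ^ d) < O.valuation e ^ d :=
      h4.trans_le (pow_le_pow_of_le_one zero_le hv1.le (by omega))
    have hed : O.valuation e ^ d ≠ 0 := pow_ne_zero _ hv0
    have h6 : O.valuation (t * (y * e⁻¹) ^ d) = O.valuation (t * y ^ d) * (O.valuation e ^ d)⁻¹ := by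
      rw [mul_pow, ← mul_assoc, map_mul, map_pow _ e⁻¹, map_inv₀, inv_pow]
    refine Nat.find_min hex (m := Nat.find hex - d) (by omega) ⟨y * e⁻¹, ?_, ?_⟩
    · rw [h6]
      calc O.valuation (t * y ^ d) * (O.valuation e ^ d)⁻¹
          < O.valuation e ^ d * (O.valuation e ^ d)⁻¹ := by
            gcongr
            exact zero_lt_iff.2 (inv_ne_zero hed)
        _ = 1 := mul_inv_cancel₀ hed
    · rw [h6]
      have h7 : O.valuation e ^ (Nat.find hex - d) =
          O.valuation e ^ (Nat.find hex) * (O.valuation e ^ d)⁻¹ := by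
        rw [eq_mul_inv_iff_mul_eq₀ hed, ← pow_add, Nat.sub_add_cancel hn.le]
      rw [h7]
      gcongr

theorem L5 (hd : 1 ≤ d) (ht : t ≠ 0) {e : K} (he : e ≠ 0) (he1 : (AA O d t).valuation e < 1) :
    ∃ y : K, (AA O d t).valuation (t * y ^ d) < 1 ∧
      (AA O d t).valuation e ^ d ≤ (AA O d t).valuation (t * y ^ d) := by
  obtain ⟨y, h1, h2⟩ := L4 O hd he he1
  refine ⟨y, L1 O h1, ?_⟩
  have h0 : t * y ^ d ≠ 0 := by
    intro h
    rw [h, map_zero, ← map_pow, le_zero_iff, map_eq_zero] at h2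
    exact he (pow_eq_zero_iff (by omega) |>.1 h2)
  rw [← map_pow]
  rw [← map_pow] at h2
  exact val_le_of_le (le_AA O d t) h0 h2

section dense

variable (A : ValuationSubring K)

/-- there is no least positive value -/
def Dense : Prop := ∀ e : K, e ≠ 0 → A.valuation e < 1 → ∃ e' : K, A.valuation e < A.valuation e' ∧
  A.valuation e' < 1

variable {A}

theorem dense_pow (h : Dense A) (k : ℕ) : ∀ e : K, e ≠ 0 → A.valuation e < 1 →
    ∃ e' : K, e' ≠ 0 ∧ A.valuation e' < 1 ∧ A.valuation e ≤ A.valuation e' ^ 2 ^ k := by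
  induction k with
  | zero =>
    intro e he he1
    exact ⟨e, he, he1, by rw [pow_zero, pow_one]⟩
  | succ k ih =>
    intro e he he1
    obtain ⟨e₁, h1, h2⟩ := h e he he1
    have hv : A.valuation e ≠ 0 := (Valuation.ne_zero_iff _).2 he
    have he₁ : e₁ ≠ 0 := by
      rintro rfl
      rw [map_zero] at h1
      exact absurd h1 (not_lt.2 zero_le)
    have hv₁ : A.valuation e₁ ≠ 0 := (Valuation.ne_zero_iff _).2 he₁
    have hq : A.valuation (e / e₁) < 1 := by
      rw [map_div₀]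
      exact (div_lt_one₀ (zero_lt_iff.2 hv₁)).2 h1
    have hprod : A.valuation e = A.valuation (e / e₁) * A.valuation e₁ := by
      rw [map_div₀, div_mul_cancel₀ _ hv₁]
    obtain ⟨e₂, h3, h4, h5⟩ : ∃ e₂ : K, e₂ ≠ 0 ∧ A.valuation e₂ < 1 ∧
        A.valuation e ≤ A.valuation e₂ ^ 2 := by
      rcases le_total (A.valuation (e / e₁)) (A.valuation e₁) with h6 | h6
      · refine ⟨e₁, he₁, h2, ?_⟩
        rw [hprod, sq]
        gcongr
      · refine ⟨e / e₁, div_ne_zero he he₁, hq, ?_⟩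
        rw [hprod, sq]
        gcongr
    obtain ⟨e₃, h6, h7, h8⟩ := ih e₂ h3 h4
    refine ⟨e₃, h6, h7, h5.trans ?_⟩
    rw [pow_succ (2 : ℕ) k, pow_mul]
    exact pow_le_pow_left₀ zero_le h8 2

theorem dense_pow' (h : Dense A) (d : ℕ) (e : K) (he : e ≠ 0) (he1 : A.valuation e < 1) :
    ∃ e' : K, e' ≠ 0 ∧ A.valuation e' < 1 ∧ A.valuation e ≤ A.valuation e' ^ d := by
  obtain ⟨e', h1, h2, h3⟩ := dense_pow h d e he he1
  exact ⟨e', h1, h2, h3.trans (pow_le_pow_of_le_one zero_le h2.le Nat.lt_two_pow_self.le)⟩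

theorem unif_of_not_dense (h : ¬ Dense A) : ∃ ϖ : K, ϖ ≠ 0 ∧ A.valuation ϖ < 1 ∧
    ∀ e : K, A.valuation e < 1 → A.valuation e ≤ A.valuation ϖ := by
  unfold Dense at h
  push Not at h
  obtain ⟨ϖ, h1, h2, h3⟩ := h
  refine ⟨ϖ, h1, h2, fun e he => ?_⟩
  by_contra h4
  rw [not_le] at h4
  exact absurd (h3 e h4) (not_le.2 he)

theorem pow_unif {ϖ : K} (h1 : ϖ ≠ 0) (h3 : ∀ e : K, A.valuation e < 1 → A.valuation e ≤ A.valuation ϖ)
    (m : ℕ) : ∀ x : K, A.valuation ϖ ^ m ≤ A.valuation x → A.valuation x ≤ 1 →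
      ∃ i ≤ m, A.valuation x = A.valuation ϖ ^ i := by
  have hv : A.valuation ϖ ≠ 0 := (Valuation.ne_zero_iff _).2 h1
  induction m with
  | zero =>
    intro x hx hx1
    exact ⟨0, le_rfl, le_antisymm (by rwa [pow_zero]) hx⟩
  | succ m ih =>
    intro x hx hx1
    rcases hx1.lt_or_eq with h4 | h4
    · have h5 := h3 x h4
      obtain ⟨i, hi, h6⟩ := ih (x / ϖ) (by
        rw [map_div₀]
        calc A.valuation ϖ ^ m = A.valuation ϖ ^ (m + 1) / A.valuation ϖ := by
              rw [pow_succ, mul_div_cancel_right₀ _ hv]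
          _ ≤ A.valuation x / A.valuation ϖ := div_le_div_of_nonneg_right hx zero_le) (by
        rw [map_div₀]
        exact div_le_one_of_le₀ h5 zero_le)
      refine ⟨i + 1, by omega, ?_⟩
      rw [pow_succ, ← h6, map_div₀, div_mul_cancel₀ _ hv]
    · exact ⟨0, Nat.zero_le _, by rw [h4, pow_zero]⟩

end dense

/-- density gives small elements -/
theorem L7 (hd : 1 ≤ d) (ht : t ≠ 0) (hdense : Dense (AA O d t)) : SmallMod (AA O d t) d t := by
  intro e he he1
  obtain ⟨e', h1, h2, h3⟩ := dense_pow' hdense d e he he1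
  obtain ⟨y, h4, h5⟩ := L5 O hd ht h1 h2
  exact ⟨y, h3.trans h5, h4⟩

theorem L8 {A : ValuationSubring K} (hd : 2 ≤ d) {ϖ : K} (h1 : ϖ ≠ 0) (h2 : A.valuation ϖ < 1)
    (h3 : ∀ e : K, A.valuation e < 1 → A.valuation e ≤ A.valuation ϖ) (hext : ResExt d A) :
    NT1 A d ϖ := by
  refine ⟨hd, ?_, ?_, hext⟩
  · intro y h
    have hy : A.valuation y < 1 := by
      by_contra h4
      rw [not_lt] at h4
      have h5 := one_le_pow₀ h4 (n := d)
      rw [← h] at h5
      exact absurd h2 (not_lt.2 h5)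
    have hv : 0 < A.valuation ϖ := zero_lt_iff.2 ((Valuation.ne_zero_iff _).2 h1)
    have h4 : A.valuation y ^ d ≤ A.valuation ϖ ^ d := by
      have := h3 y hy
      gcongr
    rw [← h] at h4
    exact absurd h4 (not_le.2 (pow_lt_self_of_lt_one₀ hv h2 (by omega)))
  · intro e he he1
    refine ⟨1, ?_, ?_⟩
    · rw [one_pow, mul_one]
      exact h3 e he1
    · rw [one_pow, mul_one]
      exact h2

theorem NT1A (hd : 2 ≤ d) (hnd : ∀ y : K, O.valuation t ≠ O.valuation y ^ d)
    (hext : ResExt d (AA O d t)) : ∃ t', NT1 (AA O d t) d t' := by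
  by_cases hdense : Dense (AA O d t)
  · exact ⟨t, hd, L2 O hd hnd, L7 O (by omega) (ne_zero_of_nd O hd hnd) hdense, hext⟩
  · obtain ⟨ϖ, h1, h2, h3⟩ := unif_of_not_dense hdense
    exact ⟨ϖ, L8 hd h1 h2 h3 hext⟩

/-- comparison of the coarsenings -/
theorem AA_le (t t' : K) (A : ValuationSubring K) (hA : O ≤ A)
    (h : ∀ y : K, A.valuation (t' * y ^ d) ≠ 1) : A ≤ AA O d t' := by
  intro x hx n y hy
  have h1 : A.valuation (t' * y ^ d) < 1 :=
    lt_of_le_of_ne ((A.valuation_le_one_iff _).2 (hA (mem_of_val O hy.le))) (h y)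
  have h2 : A.valuation (x ^ n * (t' * y ^ d)) < 1 := by
    rw [map_mul, map_pow]
    refine lt_of_le_of_lt ?_ h1
    exact mul_le_of_le_one_left' (pow_le_one₀ zero_le ((A.valuation_le_one_iff x).2 hx))
  have h3 := val_lt_of_le hA h2
  rwa [map_mul, map_pow] at h3

end CO_

open CO_

theorem CO (hRX1 : S_RX1) (hRX2 : S_RX2) : S_CO := by
  intro K _ D O hO
  rcases hO with ⟨d, hd, hdD, ⟨t, ht⟩, hext⟩ | ⟨ℓ, hℓ, hℓD, hcyc⟩
  · obtain ⟨t', ht'⟩ := NT1A O hd ht (hRX1 K O _ (le_AA O d t) d hd hext)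
    exact ⟨AA O d t, le_AA O d t, Or.inl ⟨d, hdD, t', ht'⟩⟩
  · push Not at hcyc
    obtain ⟨t₁, h1⟩ := hcyc 1 one_ne_zero
    have hnd₁ : ∀ y : K, O.valuation t₁ ≠ O.valuation y ^ ℓ := by
      intro y hy
      apply h1 y 0
      rw [hy, pow_zero, mul_one]
    have ht₁ : t₁ ≠ 0 := ne_zero_of_nd O hℓ.two_le hnd₁
    obtain ⟨t₂, h2⟩ := hcyc t₁ ht₁
    have hnd₂ : ∀ y : K, O.valuation t₂ ≠ O.valuation y ^ ℓ := by
      intro y hy
      apply h2 y 0
      rw [hy, pow_zero, mul_one]
    have ht₂ : t₂ ≠ 0 := ne_zero_of_nd O hℓ.two_le hnd₂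
    have hv₁ : O.valuation t₁ ≠ 0 := (Valuation.ne_zero_iff _).2 ht₁
    set A₁ := AA O ℓ t₁ with hA₁
    set A₂ := AA O ℓ t₂ with hA₂
    have hle₁ : O ≤ A₁ := le_AA O ℓ t₁
    have hle₂ : O ≤ A₂ := le_AA O ℓ t₂
    have hw₁ : A₁.valuation t₁ ≠ 0 := (Valuation.ne_zero_iff _).2 ht₁
    by_cases hc1 : ∃ (y : K) (i : ℕ), A₁.valuation t₂ = A₁.valuation y ^ ℓ * A₁.valuation t₁ ^ i
    · -- a unit of `A₁`
      obtain ⟨y, i, hy⟩ := hc1
      have hy0 : y ≠ 0 := by
        rintro rfl
        rw [map_zero, zero_pow hℓ.ne_zero, zero_mul, map_eq_zero] at hy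
        exact ht₂ hy
      have hvy : O.valuation y ≠ 0 := (Valuation.ne_zero_iff _).2 hy0
      have hwy : A₁.valuation y ≠ 0 := (Valuation.ne_zero_iff _).2 hy0
      have hs : A₁.valuation (t₂ / (y ^ ℓ * t₁ ^ i)) = 1 := by
        rw [map_div₀, map_mul, map_pow, map_pow, hy]
        exact div_self (mul_ne_zero (pow_ne_zero _ hwy) (pow_ne_zero _ hw₁))
      have hext := hRX2 K O A₁ hle₁ ℓ hℓ _ hs (by
        intro z hz
        apply h2 (z * y) i
        rw [map_div₀, map_mul, map_pow, map_pow, div_eq_iff (mul_ne_zero (pow_ne_zero _ hvy)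
          (pow_ne_zero _ hv₁))] at hz
        rw [hz, map_mul, mul_pow, mul_assoc])
      obtain ⟨t', ht'⟩ := NT1A O hℓ.two_le hnd₁ hext
      exact ⟨A₁, hle₁, Or.inl ⟨ℓ, hℓD, t', ht'⟩⟩
    · push Not at hc1
      by_cases hc2 : ∃ y : K, A₂.valuation (t₁ * y ^ ℓ) = 1
      · obtain ⟨y, hy⟩ := hc2
        have hy0 : y ≠ 0 := by
          rintro rfl
          rw [zero_pow hℓ.ne_zero, mul_zero, map_zero] at hy
          exact zero_ne_one hy
        have hvy : O.valuation y ≠ 0 := (Valuation.ne_zero_iff _).2 hy0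
        have hext := hRX2 K O A₂ hle₂ ℓ hℓ _ hy (by
          intro z hz
          apply hnd₁ (z / y)
          rw [map_mul, map_pow] at hz
          rw [map_div₀, div_pow, ← hz, mul_div_cancel_right₀ _ (pow_ne_zero _ hvy)])
        obtain ⟨t', ht'⟩ := NT1A O hℓ.two_le hnd₂ hext
        exact ⟨A₂, hle₂, Or.inl ⟨ℓ, hℓD, t', ht'⟩⟩
      · push Not at hc2
        have hc1' : ∀ y : K, A₁.valuation (t₂ * y ^ ℓ) ≠ 1 := by
          intro y hy
          have hy0 : y ≠ 0 := by
            rintro rfl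
            rw [zero_pow hℓ.ne_zero, mul_zero, map_zero] at hy
            exact zero_ne_one hy
          apply hc1 y⁻¹ 0
          rw [map_mul, map_pow] at hy
          rw [pow_zero, mul_one, map_inv₀, inv_pow]
          exact eq_inv_of_mul_eq_one_left hy
        have h12 : A₁ ≤ A₂ := AA_le O t₁ t₂ A₁ hle₁ hc1'
        have h21 : A₂ ≤ A₁ := AA_le O t₂ t₁ A₂ hle₂ hc2
        have heq : A₂ = A₁ := le_antisymm h21 h12
        have hL2 := L2 O hℓ.two_le hnd₁
        by_cases hdense : Dense A₁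
        · refine ⟨A₁, hle₁, Or.inr ⟨ℓ, hℓD, t₁, t₂, hℓ, hL2, fun y i => hc1 y i,
            L7 O hℓ.one_le ht₁ hdense, ?_⟩⟩
          have h3 := L7 O hℓ.one_le ht₂ (by rw [← hA₂, heq]; exact hdense)
          rw [← hA₂, heq] at h3
          exact h3
        · exfalso
          obtain ⟨ϖ, h3, h4, h5⟩ := unif_of_not_dense hdense
          have hvϖ : A₁.valuation ϖ ≠ 0 := (Valuation.ne_zero_iff _).2 h3
          obtain ⟨y₁, h6, h7⟩ := L5 O hℓ.one_le ht₁ h3 h4
          obtain ⟨y₂, h8, h9⟩ := L5 O hℓ.one_le ht₂ h3 (by rw [← hA₂, heq]; exact h4)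
          rw [← hA₂, heq] at h8 h9
          obtain ⟨i, hi, h10⟩ := pow_unif h3 h5 ℓ _ h7 h6.le
          obtain ⟨j, hj, h11⟩ := pow_unif h3 h5 ℓ _ h9 h8.le
          have hnz : ∀ (t y : K) (m : ℕ), A₁.valuation (t * y ^ ℓ) = A₁.valuation ϖ ^ m → y ≠ 0 := by
            rintro t y m h rfl
            rw [zero_pow hℓ.ne_zero, mul_zero, map_zero] at h
            exact pow_ne_zero _ hvϖ h.symm
          have hy₁ := hnz _ _ _ h10
          have hy₂ := hnz _ _ _ h11
          have hwy₁ : A₁.valuation y₁ ≠ 0 := (Valuation.ne_zero_iff _).2 hy₁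
          have hwy₂ : A₁.valuation y₂ ≠ 0 := (Valuation.ne_zero_iff _).2 hy₂
          have hi0 : i ≠ 0 := by
            rintro rfl
            rw [pow_zero] at h10
            exact h6.ne h10
          have hil : i ≠ ℓ := by
            rintro rfl
            apply hL2 (ϖ / y₁)
            rw [map_mul, map_pow] at h10
            rw [map_div₀, div_pow, ← h10, mul_div_cancel_right₀ _ (pow_ne_zero _ hwy₁)]
          have hcop : Nat.Coprime i ℓ := by
            rw [Nat.coprime_comm]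
            exact (Nat.Prime.coprime_iff_not_dvd hℓ).2
              (Nat.not_dvd_of_pos_of_lt (Nat.pos_of_ne_zero hi0) (by omega))
          -- `i * u = j + ℓ * w`
          obtain ⟨u, w, huw⟩ : ∃ u w : ℕ, i * u = j + ℓ * w := by
            obtain ⟨u, hu1, hu2⟩ := Nat.exists_mul_mod_eq_one_of_coprime hcop hℓ.one_lt
            refine ⟨u * j, (i * (u * j) - j) / ℓ, ?_⟩
            have h12 : ℓ ∣ i * (u * j) - j := by
              have h13 : i * (u * j) - j = (i * u - 1) * j := by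
                rw [Nat.sub_mul, one_mul, mul_assoc]
              rw [h13]
              refine Dvd.dvd.mul_right ?_ _
              exact (Nat.modEq_iff_dvd' (Nat.pos_of_ne_zero (by
                intro h
                rw [h] at hu2
                simp at hu2))).1 (by
                  unfold Nat.ModEq
                  rw [hu2, Nat.mod_eq_of_lt hℓ.one_lt])
            rw [Nat.mul_div_cancel' h12]
            have h14 : j ≤ i * (u * j) := by
              rcases Nat.eq_zero_or_pos (i * u) with h | h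
              · rw [h] at hu2
                simp at hu2
              · rw [← mul_assoc]
                exact Nat.le_mul_of_pos_left j h
            omega
          apply hc1 (y₁ ^ u / (y₂ * ϖ ^ w)) u
          have h12 : (A₁.valuation t₁ * A₁.valuation y₁ ^ ℓ) ^ u =
              (A₁.valuation t₂ * A₁.valuation y₂ ^ ℓ) * (A₁.valuation ϖ ^ w) ^ ℓ := by
            rw [map_mul, map_pow] at h10 h11
            rw [h10, h11, ← pow_mul, ← pow_mul, ← pow_add, huw, mul_comm w ℓ]
          rw [map_div₀, map_mul, map_pow, map_pow, div_pow, mul_pow, div_mul_eq_mul_div,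
            eq_div_iff (mul_ne_zero (pow_ne_zero _ hwy₂) (pow_ne_zero _ (pow_ne_zero _ hvϖ)))]
          rw [← mul_assoc, ← h12, mul_pow, ← pow_mul, ← pow_mul, mul_comm ℓ u, mul_comm]

end Pool.Agent.N616.NH
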