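import Pool.Agent.N616.NH.Stm
import Pool.Agent.R492.DW.W2
import Pool.Agent.R492.DV.Kueker

set_option autoImplicit false

/-!
# Project NH, task DEF1 (helper227): non-tame valuation rings of the first type are definable

Adapted from the starting files `Pool/Agent/R492/DW/W2.lean`, `W3.lean`, `DV/E2.lean`, `DV/Fin2.lean`.
-/

namespace Pool.Agent.N616.NH.DEF1_

open FirstOrder FirstOrder.Language FirstOrder.Ring NNReal Polynomial
open Pool.Agent.R492.DV Pool.Agent.R492.DW Pool.Agent.W882.Nip3 Pool.Agent.N616.NH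

/-- The residue ring of `Q` has a separable extension of degree `d`. -/
def ExtP {K : Type} [Field K] (d : ℕ) (Q : Set K) : Prop :=
  ∃ a : Fin d → K, (∀ i, a i ∈ Q) ∧
    (∃ (k : Fin d) (z : K), z ∈ Q ∧ (((k : ℕ) + 1 : ℕ) : K) * mc a ((k : ℕ) + 1) * z = 1) ∧
    ∀ e : Fin d, 0 < (e : ℕ) → ∀ (b : Fin (e : ℕ) → K) (c : Fin (d - (e : ℕ)) → K),
      (∀ i, b i ∈ Q) → (∀ i, c i ∈ Q) →
      ∃ (k : Fin d) (z : K), z ∈ Q ∧
        (mc a (k : ℕ) - ∑ j ∈ Finset.range ((k : ℕ) + 1), mc b j * mc c ((k : ℕ) - j)) * z = 1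

/-- `Q` is a valuation ring of the field `K`, non-tame of the first type with `d` and `t`. -/
structure QSet {K : Type} [Field K] (d : ℕ) (t : K) (Q : Set K) : Prop where
  one : (1 : K) ∈ Q
  add : ∀ x ∈ Q, ∀ y ∈ Q, x + y ∈ Q
  neg : ∀ x ∈ Q, -x ∈ Q
  mul : ∀ x ∈ Q, ∀ y ∈ Q, x * y ∈ Q
  total : ∀ x y : K, x * y = 1 → x ∈ Q ∨ y ∈ Q
  val : t ≠ 0 ∧ (∀ y z : K, t * y ^ d ∈ Q → z ∈ Q → t * y ^ d * z ≠ 1) ∧
    ∀ e ∈ Q, e ≠ 0 → (∀ z ∈ Q, e * z ≠ 1) →
      ∃ y z : K, t * y ^ d ∈ Q ∧ z ∈ Q ∧ e = t * y ^ d * z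
  ext : ExtP d Q

section fo

open F1 E1

/-- The formula for `val`. -/
def vF (d : ℕ) : BF 1 :=
  (eqF (F1.var 0) 0).not ⊓
    ((∀' ∀' ((inP (n := 3) (F1.var 0 * powT (F1.var 1) d)).imp ((inP (n := 3) (F1.var 2)).imp
      (eqF (n := 3) (F1.var 0 * powT (F1.var 1) d * F1.var 2) 1).not))) ⊓
    (∀' ((inP (n := 2) (F1.var 1)).imp ((eqF (n := 2) (F1.var 1) 0).not.imp
      ((∀' ((inP (n := 3) (F1.var 2)).imp (eqF (n := 3) (F1.var 1 * F1.var 2) 1).not)).imp
        (∃' ∃' (inP (n := 4) (F1.var 0 * powT (F1.var 2) d) ⊓ (inP (n := 4) (F1.var 3) ⊓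
          eqF (n := 4) (F1.var 1) (F1.var 0 * powT (F1.var 2) d * F1.var 3)))))))))

variable {K : Type} [Field K] [CompatibleRing K]

theorem realize_vF (Q : Fin 1 → Set K) (d : ℕ) (v : Empty → K) (t : Fin 1 → K) :
    (letI := ul Q; (vF d).Realize v t) ↔ (t 0 ≠ 0 ∧
      (∀ y z : K, t 0 * y ^ d ∈ Q 0 → z ∈ Q 0 → t 0 * y ^ d * z ≠ 1) ∧
      ∀ e ∈ Q 0, e ≠ 0 → (∀ z ∈ Q 0, e * z ≠ 1) →
        ∃ y z : K, t 0 * y ^ d ∈ Q 0 ∧ z ∈ Q 0 ∧ e = t 0 * y ^ d * z) := by
  let _ := ul Q
  show (vF d).Realize v t ↔ _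
  have hE : ∀ {n : ℕ} (t₁ t₂ : RT n) (v : Empty → K) (xs : Fin n → K),
      (eqF t₁ t₂).Realize v xs ↔
      t₁.realize (Sum.elim v xs) = t₂.realize (Sum.elim v xs) := realize_eqF Q
  have hP : ∀ {n : ℕ} (t : RT n) (v : Empty → K) (xs : Fin n → K),
      (inP t).Realize v xs ↔ t.realize (Sum.elim v xs) ∈ Q 0 := realize_inP Q
  simp only [vF, BoundedFormula.realize_all, BoundedFormula.realize_imp,
      BoundedFormula.realize_ex, BoundedFormula.realize_inf, BoundedFormula.realize_not,
      hP, hE, realize_mul, realize_var', realize_powT, realize_one, realize_zero]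
  exact Iff.rfl

/-- The property `QSet` is first order. -/
theorem qSet_transfer {K' : Type} [Field K'] [CompatibleRing K'] {d : ℕ} {t : Fin 1 → K}
    {t' : Fin 1 → K'} {P : Set K} {Q : Set K'} (hP : QSet d (t 0) P)
    (hS : SameC FirstOrder.Language.ring t t' P Q) : QSet d (t' 0) Q := by
  obtain ⟨hS0, hS1⟩ := hS
  have h := (@elementarilyEquivalent_iff _ K K' (@sumStructure _ _ K _ (ul fun _ : Fin 1 => P))
    (@sumStructure _ _ K' _ (ul fun _ : Fin 1 => Q))).1 hS0 (rF d)
  have h1 := realize_rF (fun _ : Fin 1 => P) d default default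
  have h2 := realize_rF (fun _ : Fin 1 => Q) d default default
  have h3 := h2.1 (h.1 (h1.2 ⟨hP.one, hP.add, hP.neg, hP.mul, hP.total, hP.ext⟩))
  have h4 := (realize_vF (fun _ : Fin 1 => Q) d default t').1
    ((hS1 (vF d)).1 ((realize_vF (fun _ : Fin 1 => P) d default t).2 hP.val))
  exact ⟨h3.1, h3.2.1, h3.2.2.1, h3.2.2.2.1, h3.2.2.2.2.1, h4, h3.2.2.2.2.2⟩

end fo

/-! ### From `ExtP` to an extension of the residue field -/

/-- `Q` is closed under the ring operations. -/
structure RG {K : Type} [Field K] (Q : Set K) : Prop where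
  one : (1 : K) ∈ Q
  add : ∀ x ∈ Q, ∀ y ∈ Q, x + y ∈ Q
  neg : ∀ x ∈ Q, -x ∈ Q
  mul : ∀ x ∈ Q, ∀ y ∈ Q, x * y ∈ Q

theorem RG.zero {K : Type} [Field K] {Q : Set K} (h : RG Q) : (0 : K) ∈ Q := by
  have := h.add 1 h.one (-1) (h.neg 1 h.one)
  simpa using this

section

variable {K : Type} [Field K] {Q : Set K} {k : Type} [Field k] {R : K → k}

theorem RHneg (h : RG Q) (hR : RH Q R) {x : K} (hx : x ∈ Q) : R (-x) = -R x := by
  have := hR.add x hx (-x) (h.neg x hx)
  rw [add_neg_cancel, hR.zero] at this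
  linear_combination -this

theorem RHnatCast (h : RG Q) (hR : RH Q R) (n : ℕ) : (n : K) ∈ Q ∧ R n = n := by
  induction n with
  | zero => exact ⟨by simpa using h.zero, by simpa using hR.zero⟩
  | succ n ih =>
    refine ⟨?_, ?_⟩
    · rw [Nat.cast_succ]; exact h.add _ ih.1 _ h.one
    · rw [Nat.cast_succ, hR.add _ ih.1 _ h.one, ih.2, hR.one, Nat.cast_succ]

theorem RHsum (h : RG Q) (hR : RH Q R) {ι : Type} (s : Finset ι) (F : ι → K)
    (hF : ∀ i ∈ s, F i ∈ Q) : ∑ i ∈ s, F i ∈ Q ∧ R (∑ i ∈ s, F i) = ∑ i ∈ s, R (F i) := by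
  classical
  induction s using Finset.induction_on with
  | empty => exact ⟨by simpa using h.zero, by simpa using hR.zero⟩
  | insert a s ha ih =>
    have ih' := ih fun i hi => hF i (Finset.mem_insert_of_mem hi)
    have h1 := hF a (Finset.mem_insert_self a s)
    rw [Finset.sum_insert ha, Finset.sum_insert ha]
    exact ⟨h.add _ h1 _ ih'.1, by rw [hR.add _ h1 _ ih'.1, ih'.2]⟩

theorem mcMem (h : RG Q) {d : ℕ} {a : Fin d → K} (ha : ∀ i, a i ∈ Q) (j : ℕ) : mc a j ∈ Q := by
  unfold mc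
  split_ifs
  · exact ha _
  · exact h.one
  · exact h.zero

/-- The algebraic part. -/
theorem extOfRH (h : RG Q) (hR : RH Q R) {d : ℕ} (hd : 2 ≤ d) {a : Fin d → K}
    (ha : ∀ i, a i ∈ Q)
    (hder : ∃ (k : Fin d) (z : K), z ∈ Q ∧ (((k : ℕ) + 1 : ℕ) : K) * mc a ((k : ℕ) + 1) * z = 1)
    (hfac : ∀ e : Fin d, 0 < (e : ℕ) → ∀ (b : Fin (e : ℕ) → K) (c : Fin (d - (e : ℕ)) → K),
      (∀ i, b i ∈ Q) → (∀ i, c i ∈ Q) →
      ∃ (k : Fin d) (z : K), z ∈ Q ∧
        (mc a (k : ℕ) - ∑ j ∈ Finset.range ((k : ℕ) + 1), mc b j * mc c ((k : ℕ) - j)) * z = 1) :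
    ∃ (L : Type) (_ : Field L) (_ : Algebra k L),
      Algebra.IsSeparable k L ∧ Module.finrank k L = d := by
  classical
  set f : k[X] := X ^ d + ∑ i : Fin d, C (R (a i)) * X ^ (i : ℕ) with hf
  have hlow : (∑ i : Fin d, C (R (a i)) * X ^ (i : ℕ)).degree < ((d : ℕ) : WithBot ℕ) := by
    apply lt_of_le_of_lt (degree_sum_le _ _)
    rw [Finset.sup_lt_iff (by exact_mod_cast WithBot.bot_lt_coe d)]
    intro i _
    refine lt_of_le_of_lt (degree_C_mul_X_pow_le _ _) ?_
    exact_mod_cast i.2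
  have hmon : f.Monic := monic_X_pow_add hlow
  have hdeg : f.natDegree = d := by
    apply natDegree_eq_of_degree_eq_some
    rw [hf, degree_add_eq_left_of_degree_lt (by rwa [degree_X_pow]), degree_X_pow]
  have hcoef : ∀ i : Fin d, R (a i) = f.coeff i := by
    intro i
    rw [hf, coeff_add, coeff_X_pow, if_neg (by omega), zero_add, finsetSum_coeff]
    simp only [coeff_C_mul, coeff_X_pow]
    rw [Finset.sum_eq_single i]
    · simp
    · intro b _ hb
      have : (i : ℕ) ≠ (b : ℕ) := fun hh => hb (Fin.ext hh.symm)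
      simp [this]
    · simp
  have hmc := R_mc hR hmon hdeg hcoef
  have hunit : ∀ x ∈ Q, ∀ z ∈ Q, x * z = 1 → R x ≠ 0 := by
    intro x hx z hz hxz h0
    have := hR.mul x hx z hz
    rw [hxz, hR.one, h0, zero_mul] at this
    exact one_ne_zero this
  have hirr : Irreducible f := by
    rw [hmon.irreducible_iff_natDegree]
    refine ⟨fun h1 => ?_, ?_⟩
    · rw [h1, natDegree_one] at hdeg
      omega
    · intro g g' hg hg' hgg
      by_contra hcon
      push Not at hcon
      have h1 : g.natDegree + g'.natDegree = d := by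
        rw [← hdeg, ← hgg, hg.natDegree_mul hg']
      have he : g.natDegree < d := by omega
      have h2 : g'.natDegree = d - g.natDegree := by omega
      choose b hb hbg using fun i : Fin g.natDegree => hR.surj (g.coeff i)
      choose c hc hcg using fun i : Fin (d - g.natDegree) => hR.surj (g'.coeff i)
      obtain ⟨j, z, hz, hjz⟩ := hfac ⟨g.natDegree, he⟩ (Nat.pos_of_ne_zero hcon.1) b c hb hc
      have hmb := R_mc hR hg rfl hbg
      have hmc' := R_mc hR hg' h2 hcg
      have hS := RHsum h hR (Finset.range ((j : ℕ) + 1))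
        (fun i => mc b i * mc c ((j : ℕ) - i))
        (fun i _ => h.mul _ (mcMem h hb _) _ (mcMem h hc _))
      apply hunit _ (h.add _ (mcMem h ha (j : ℕ)) _ (h.neg _ hS.1)) z hz
        (by rw [← sub_eq_add_neg]; exact hjz)
      rw [hR.add _ (mcMem h ha (j : ℕ)) _ (h.neg _ hS.1), RHneg h hR hS.1, hS.2, hmc, ← hgg,
        coeff_mul, Finset.Nat.sum_antidiagonal_eq_sum_range_succ_mk, ← sub_eq_add_neg, sub_eq_zero]
      refine Finset.sum_congr rfl fun i _ => ?_
      rw [hR.mul _ (mcMem h hb _) _ (mcMem h hc _), hmb, hmc']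
  have hsep : f.Separable := by
    rw [separable_iff_derivative_ne_zero hirr]
    intro h0
    obtain ⟨j, z, hz, hjz⟩ := hder
    have hn := RHnatCast h hR ((j : ℕ) + 1)
    apply hunit _ (h.mul _ hn.1 _ (mcMem h ha ((j : ℕ) + 1))) z hz hjz
    rw [hR.mul _ hn.1 _ (mcMem h ha _), hn.2, hmc]
    have := congrArg (fun g => coeff g (j : ℕ)) h0
    simp only [coeff_derivative, coeff_zero] at this
    push_cast
    rw [mul_comm]
    exact this
  obtain ⟨L, i1, i2, h1, h2⟩ := exists_ext_poly k f hirr hmon hsep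
  exact ⟨L, i1, i2, h1, h2.trans hdeg⟩

end

/-! ### From an extension of the residue field to `ExtP` -/

section pol

variable {K : Type} [Field K] {O : ValuationSubring K}

/-- the coefficients of a monic polynomial over `O` -/
def mo {d : ℕ} (a : Fin d → O) (k : ℕ) : O :=
  if h : k < d then a ⟨k, h⟩ else if k = d then 1 else 0

theorem coe_mo {d : ℕ} (a : Fin d → O) (k : ℕ) :
    ((mo a k : O) : K) = mc (fun i => (a i : K)) k := by
  unfold mo mc
  split_ifs <;> rfl

/-- the reduction -/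
noncomputable def pol {d : ℕ} (a : Fin d → O) : (IsLocalRing.ResidueField O)[X] :=
  ∑ j ∈ Finset.range (d + 1), C (IsLocalRing.residue O (mo a j)) * X ^ j

theorem coeff_pol {d : ℕ} (a : Fin d → O) (k : ℕ) :
    (pol a).coeff k = IsLocalRing.residue O (mo a k) := by
  unfold pol
  simp only [finsetSum_coeff, coeff_C_mul, coeff_X_pow, mul_ite, mul_one, mul_zero]
  rw [Finset.sum_ite_eq]
  split_ifs with h
  · rfl
  · rw [Finset.mem_range, not_lt] at h
    have h1 : mo a k = 0 := by
      unfold mo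
      rw [dif_neg (by omega), if_neg (by omega)]
    rw [h1, map_zero]

theorem natDegree_pol {d : ℕ} (a : Fin d → O) : (pol a).natDegree = d := by
  apply natDegree_eq_of_le_of_coeff_ne_zero
  · rw [natDegree_le_iff_coeff_eq_zero]
    intro k hk
    have h1 : mo a k = 0 := by
      unfold mo
      rw [dif_neg (by omega), if_neg (by omega)]
    rw [coeff_pol, h1, map_zero]
  · have h1 : mo a d = 1 := by
      unfold mo
      rw [dif_neg (by omega), if_pos rfl]
    rw [coeff_pol, h1, map_one]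
    exact one_ne_zero

theorem monic_pol {d : ℕ} (a : Fin d → O) : (pol a).Monic := by
  have h1 : mo a d = 1 := by
    unfold mo
    rw [dif_neg (by omega), if_pos rfl]
  rw [Monic, leadingCoeff, natDegree_pol, coeff_pol, h1, map_one]

theorem exists_pol {d : ℕ} (f : (IsLocalRing.ResidueField O)[X]) (hf : f.Monic)
    (hd : f.natDegree = d) : ∃ a : Fin d → O, f = pol a := by
  choose g hg using fun x => IsLocalRing.residue_surjective (R := O) x
  refine ⟨fun i => g (f.coeff i), ?_⟩
  ext k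
  rw [coeff_pol]
  unfold mo
  split_ifs with h1 h2
  · exact (hg _).symm
  · rw [map_one, h2, ← hd]
    exact hf
  · rw [map_zero]
    exact coeff_eq_zero_of_natDegree_lt (by omega)

theorem exists_mul_eq_one {x : O} (hx : IsLocalRing.residue O x ≠ 0) :
    ∃ z : K, z ∈ (O : Set K) ∧ (x : K) * z = 1 := by
  have h1 : IsUnit x := by
    by_contra h2
    exact hx ((IsLocalRing.residue_eq_zero_iff _).2 h2)
  obtain ⟨w, rfl⟩ := h1
  refine ⟨((w⁻¹ : Oˣ) : O), ((w⁻¹ : Oˣ) : O).2, ?_⟩
  rw [← MulMemClass.coe_mul, Units.mul_inv]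
  rfl

end pol

theorem extP_of {K : Type} [Field K] {O : ValuationSubring K} {d : ℕ} (hd : 2 ≤ d)
    (hE : ResExt d O) : ExtP d (O : Set K) := by
  obtain ⟨L, _, _, hsep, hfin⟩ := hE
  have : FiniteDimensional (IsLocalRing.ResidueField O) L :=
    FiniteDimensional.of_finrank_pos (by omega)
  obtain ⟨α, hα⟩ := Field.exists_primitive_element (IsLocalRing.ResidueField O) L
  have hint : IsIntegral (IsLocalRing.ResidueField O) α := Algebra.IsIntegral.isIntegral α
  have hdeg : (minpoly (IsLocalRing.ResidueField O) α).natDegree = d := by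
    rw [(Field.primitive_element_iff_minpoly_natDegree_eq _ α).1 hα, hfin]
  obtain ⟨a, ha⟩ := exists_pol _ (minpoly.monic hint) hdeg
  have hirr := minpoly.irreducible hint
  have hs : (minpoly (IsLocalRing.ResidueField O) α).Separable := hsep.isSeparable' α
  rw [ha] at hirr hs
  refine ⟨fun i => (a i : K), fun i => (a i).2, ?_, ?_⟩
  · have h1 : derivative (pol a) ≠ 0 := by
      intro h2
      have h3 := hs
      rw [separable_def, h2] at h3
      have h4 := isCoprime_zero_right.1 h3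
      exact hirr.not_isUnit h4
    obtain ⟨k, hk⟩ : ∃ k, (derivative (pol a)).coeff k ≠ 0 := by
      by_contra hcon
      push Not at hcon
      exact h1 (Polynomial.ext fun k => by rw [hcon k, coeff_zero])
    rw [coeff_derivative, coeff_pol] at hk
    have hkd : k < d := by
      by_contra hcon
      have h3 : mo a (k + 1) = 0 := by
        unfold mo
        rw [dif_neg (by omega), if_neg (by omega)]
      rw [h3, map_zero, zero_mul] at hk
      exact hk rfl
    obtain ⟨z, hz, hz1⟩ := exists_mul_eq_one (O := O) (x := ((k + 1 : ℕ) : O) * mo a (k + 1)) (by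
      rw [map_mul, map_natCast]
      intro h5
      apply hk
      rw [mul_comm]
      push_cast at h5
      exact h5)
    refine ⟨⟨k, hkd⟩, z, hz, ?_⟩
    rw [← coe_mo]
    rw [← hz1]
    push_cast
    rfl
  · intro e he b c hb hc
    let b' : Fin (e : ℕ) → O := fun i => ⟨b i, hb i⟩
    let c' : Fin (d - (e : ℕ)) → O := fun i => ⟨c i, hc i⟩
    have hne : pol a ≠ pol b' * pol c' := by
      intro h1
      rcases hirr.isUnit_or_isUnit h1 with h2 | h2
      · have := natDegree_eq_zero_of_isUnit h2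
        rw [natDegree_pol] at this
        omega
      · have := natDegree_eq_zero_of_isUnit h2
        rw [natDegree_pol] at this
        have := e.2
        omega
    obtain ⟨k, hk⟩ : ∃ k, (pol a).coeff k ≠ (pol b' * pol c').coeff k := by
      by_contra hcon
      push Not at hcon
      exact hne (Polynomial.ext hcon)
    have hm : (pol b' * pol c').Monic := (monic_pol b').mul (monic_pol c')
    have hmd : (pol b' * pol c').natDegree = d := by
      rw [(monic_pol b').natDegree_mul (monic_pol c'), natDegree_pol, natDegree_pol]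
      have := e.2
      omega
    have hkd : k < d := by
      by_contra hcon
      apply hk
      rcases (not_lt.1 hcon).eq_or_lt with h3 | h3
      · have h4 : (pol a).coeff k = 1 := by
          have := monic_pol a
          rw [Monic, leadingCoeff, natDegree_pol] at this
          rw [← h3]
          exact this
        have h5 : (pol b' * pol c').coeff k = 1 := by
          rw [Monic, leadingCoeff, hmd] at hm
          rw [← h3]
          exact hm
        rw [h4, h5]
      · rw [coeff_eq_zero_of_natDegree_lt (by rw [natDegree_pol]; exact h3),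
          coeff_eq_zero_of_natDegree_lt (by rw [hmd]; exact h3)]
    rw [coeff_pol, coeff_mul, Finset.Nat.sum_antidiagonal_eq_sum_range_succ
      (fun i j => (pol b').coeff i * (pol c').coeff j)] at hk
    obtain ⟨z, hz, hz1⟩ := exists_mul_eq_one (O := O)
      (x := mo a k - ∑ j ∈ Finset.range (k + 1), mo b' j * mo c' (k - j)) (by
      intro h6
      rw [map_sub, map_sum, sub_eq_zero] at h6
      apply hk
      rw [h6]
      refine Finset.sum_congr rfl fun j _ => ?_
      rw [coeff_pol, coeff_pol, map_mul])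
    refine ⟨⟨k, hkd⟩, z, hz, ?_⟩
    rw [← hz1]
    congr 1
    rw [AddSubgroupClass.coe_sub, coe_mo, AddSubmonoidClass.coe_finsetSum]
    congr 1
    refine Finset.sum_congr rfl fun j _ => ?_
    rw [MulMemClass.coe_mul, coe_mo, coe_mo]

theorem resExt_of {K : Type} [Field K] {O : ValuationSubring K} {d : ℕ} (hd : 2 ≤ d)
    (hE : ExtP d (O : Set K)) : ResExt d O := by
  classical
  obtain ⟨a, ha, hder, hfac⟩ := hE
  have h : RG (O : Set K) := ⟨O.one_mem, fun x hx y hy => O.add_mem _ _ hx hy,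
    fun x hx => O.neg_mem _ hx, fun x hx y hy => O.mul_mem _ _ hx hy⟩
  set R : K → IsLocalRing.ResidueField O := fun x =>
    if hx : x ∈ O then IsLocalRing.residue O ⟨x, hx⟩ else 0 with hRdef
  have hRx : ∀ (x : K) (hx : x ∈ O), R x = IsLocalRing.residue O ⟨x, hx⟩ := by
    intro x hx
    simp only [hRdef]
    rw [dif_pos hx]
  have hR : RH (O : Set K) R := by
    refine ⟨?_, ?_, ?_, ?_, ?_⟩
    · intro x hx y hy
      rw [hRx x hx, hRx y hy, hRx _ (O.add_mem _ _ hx hy), ← map_add]
      congr 1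
    · intro x hx y hy
      rw [hRx x hx, hRx y hy, hRx _ (O.mul_mem _ _ hx hy), ← map_mul]
      congr 1
    · rw [hRx 1 O.one_mem, ← map_one (IsLocalRing.residue O)]
      congr 1
    · rw [hRx 0 O.zero_mem, ← map_zero (IsLocalRing.residue O)]
      congr 1
    · intro c
      obtain ⟨⟨x, hx⟩, rfl⟩ := IsLocalRing.residue_surjective c
      exact ⟨x, hx, hRx x hx⟩
  exact extOfRH h hR hd ha hder hfac

/-! ### Valuation rings -/

section val

variable {K : Type} [Field K] {O O' : ValuationSubring K} {d : ℕ} {t : K}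

theorem unit_of_val {x : K} (h : O.valuation x = 1) :
    x ∈ O ∧ ∃ z ∈ (O : Set K), x * z = 1 := by
  have hx0 : x ≠ 0 := by
    rintro rfl
    rw [map_zero] at h
    exact zero_ne_one h
  refine ⟨(O.valuation_le_one_iff x).1 h.le, x⁻¹, ?_, mul_inv_cancel₀ hx0⟩
  apply (O.valuation_le_one_iff x⁻¹).1
  rw [map_inv₀, h, inv_one]

theorem val_of_unit {x z : K} (hx : x ∈ O) (hz : z ∈ O) (h : x * z = 1) : O.valuation x = 1 := by
  have h1 := (O.valuation_le_one_iff x).2 hx
  have h2 := (O.valuation_le_one_iff z).2 hz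
  have h3 : O.valuation x * O.valuation z = 1 := by rw [← map_mul, h, map_one]
  apply le_antisymm h1
  calc (1 : O.ValueGroup) = O.valuation x * O.valuation z := h3.symm
    _ ≤ O.valuation x * 1 := mul_le_mul' le_rfl h2
    _ = O.valuation x := mul_one _

theorem nt1_ne_zero (h : NT1 O d t) : t ≠ 0 := by
  rintro rfl
  apply h.nd 0
  rw [map_zero, zero_pow (by have := h.two_le; omega)]

theorem nt1_ne_one (h : NT1 O d t) (y : K) : O.valuation (t * y ^ d) ≠ 1 := by
  intro h1
  have hy : y ≠ 0 := by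
    rintro rfl
    rw [zero_pow (by have := h.two_le; omega), mul_zero, map_zero] at h1
    exact zero_ne_one h1
  apply h.nd y⁻¹
  have hvy : O.valuation y ≠ 0 := (Valuation.ne_zero_iff _).2 hy
  rw [map_mul, map_pow] at h1
  rw [map_inv₀, inv_pow]
  exact eq_inv_of_mul_eq_one_left h1

/-- A non-tame valuation ring is described by `QSet`. -/
theorem qSet_of (h : NT1 O d t) : QSet d t (O : Set K) := by
  refine ⟨O.one_mem, fun x hx y hy => O.add_mem _ _ hx hy, fun x hx => O.neg_mem _ hx,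
    fun x hx y hy => O.mul_mem _ _ hx hy, ?_, ⟨nt1_ne_zero h, ?_, ?_⟩, extP_of h.two_le h.ext⟩
  · intro x y hxy
    rcases O.mem_or_inv_mem x with h1 | h1
    · exact Or.inl h1
    · right
      have : y = x⁻¹ := eq_inv_of_mul_eq_one_right hxy
      rw [this]
      exact h1
  · intro y z hy hz h1
    exact nt1_ne_one h y (val_of_unit hy hz h1)
  · intro e he he0 hen
    have hlt : O.valuation e < 1 := by
      apply lt_of_le_of_ne ((O.valuation_le_one_iff e).2 he)
      intro h1
      obtain ⟨-, z, hz, hez⟩ := unit_of_val h1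
      exact hen z hz hez
    obtain ⟨y, hy1, hy2⟩ := h.small e he0 hlt
    have hve : O.valuation e ≠ 0 := (Valuation.ne_zero_iff _).2 he0
    have hw0 : t * y ^ d ≠ 0 := by
      intro h0
      rw [h0, map_zero] at hy1
      exact hve (le_antisymm hy1 zero_le)
    refine ⟨y, (t * y ^ d)⁻¹ * e, (O.valuation_le_one_iff _).1 hy2.le, ?_, ?_⟩
    · apply (O.valuation_le_one_iff _).1
      rw [map_mul, map_inv₀]
      have hvw : O.valuation (t * y ^ d) ≠ 0 := (Valuation.ne_zero_iff _).2 hw0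
      calc (O.valuation (t * y ^ d))⁻¹ * O.valuation e
          ≤ (O.valuation (t * y ^ d))⁻¹ * O.valuation (t * y ^ d) := mul_le_mul' le_rfl hy1
        _ = 1 := inv_mul_cancel₀ hvw
    · rw [← mul_assoc, mul_inv_cancel₀ hw0, one_mul]

/-- The valuation ring of a set with `QSet`. -/
def vs {Q : Set K} (h : QSet d t Q) : ValuationSubring K where
  carrier := Q
  mul_mem' hx hy := h.mul _ hx _ hy
  one_mem' := h.one
  add_mem' hx hy := h.add _ hx _ hy
  zero_mem' := RG.zero ⟨h.one, h.add, h.neg, h.mul⟩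
  neg_mem' hx := h.neg _ hx
  mem_or_inv_mem' x := by
    by_cases hx0 : x = 0
    · left
      rw [hx0]
      exact RG.zero ⟨h.one, h.add, h.neg, h.mul⟩
    · exact h.total x x⁻¹ (mul_inv_cancel₀ hx0)

theorem mem_vs {Q : Set K} (h : QSet d t Q) (x : K) : x ∈ vs h ↔ x ∈ Q := Iff.rfl

theorem coe_vs {Q : Set K} (h : QSet d t Q) : (vs h : Set K) = Q := rfl

/-- Such a valuation ring is non-tame. -/
theorem nt1_vs {Q : Set K} (hd : 2 ≤ d) (h : QSet d t Q) : NT1 (vs h) d t := by
  have hne : ∀ y : K, (vs h).valuation (t * y ^ d) ≠ 1 := by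
    intro y hy
    obtain ⟨h1, z, hz, h2⟩ := unit_of_val hy
    exact h.val.2.1 y z h1 hz h2
  refine ⟨hd, ?_, ?_, resExt_of hd (by rw [coe_vs]; exact h.ext)⟩
  · intro y hy
    have hvt : (vs h).valuation t ≠ 0 := (Valuation.ne_zero_iff _).2 h.val.1
    apply hne y⁻¹
    rw [map_mul, map_pow, map_inv₀, inv_pow, ← hy, mul_inv_cancel₀ hvt]
  · intro e he0 hlt
    have heQ : e ∈ Q := (mem_vs h e).1 (((vs h).valuation_le_one_iff e).1 hlt.le)
    obtain ⟨y, z, hy, hz, hyz⟩ := h.val.2.2 e heQ he0 (by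
      intro z hz hez
      exact hlt.ne (val_of_unit (O := vs h) heQ hz hez))
    refine ⟨y, ?_, lt_of_le_of_ne (((vs h).valuation_le_one_iff _).2 hy) (hne y)⟩
    calc (vs h).valuation e = (vs h).valuation (t * y ^ d) * (vs h).valuation z := by
          rw [← map_mul, ← hyz]
      _ ≤ (vs h).valuation (t * y ^ d) * 1 :=
          mul_le_mul' le_rfl (((vs h).valuation_le_one_iff z).2 hz)
      _ = _ := mul_one _

/-- Non-tame valuation rings with the same `d`, `t` are incomparable. -/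
theorem eq_of_le (h : NT1 O d t) (h' : NT1 O' d t) (hle : O ≤ O') : O = O' := by
  apply le_antisymm hle
  intro x hx
  by_contra hxO
  have hx0 : x ≠ 0 := by
    rintro rfl
    exact hxO O.zero_mem
  have hlt : O.valuation x⁻¹ < 1 := by
    rw [map_inv₀]
    have h1 : 1 < O.valuation x := by
      by_contra hcon
      exact hxO ((O.valuation_le_one_iff x).1 (not_lt.1 hcon))
    exact inv_lt_one_of_one_lt₀ h1
  obtain ⟨y, hy1, hy2⟩ := h.small x⁻¹ (inv_ne_zero hx0) hlt
  have hve : O.valuation x⁻¹ ≠ 0 := (Valuation.ne_zero_iff _).2 (inv_ne_zero hx0)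
  have hw0 : t * y ^ d ≠ 0 := by
    intro h0
    rw [h0, map_zero] at hy1
    exact hve (le_antisymm hy1 zero_le)
  have hvw : O.valuation (t * y ^ d) ≠ 0 := (Valuation.ne_zero_iff _).2 hw0
  have hw : (t * y ^ d)⁻¹ * x⁻¹ ∈ O := by
    apply (O.valuation_le_one_iff _).1
    rw [map_mul, map_inv₀ _ (t * y ^ d)]
    calc (O.valuation (t * y ^ d))⁻¹ * O.valuation x⁻¹
        ≤ (O.valuation (t * y ^ d))⁻¹ * O.valuation (t * y ^ d) := mul_le_mul' le_rfl hy1
      _ = 1 := inv_mul_cancel₀ hvw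
  apply nt1_ne_one h' y
  apply val_of_unit (z := x * ((t * y ^ d)⁻¹ * x⁻¹))
    (hle ((O.valuation_le_one_iff _).1 hy2.le)) (O'.mul_mem _ _ hx (hle hw))
  rw [mul_left_comm x, mul_inv_cancel₀ hx0, mul_one, mul_inv_cancel₀ hw0]

end val

theorem eqv_of_same' {L : FirstOrder.Language.{0, 0}} {m : ℕ} {M M' : Type} [L.Structure M]
    [L.Structure M'] {Q : Fin m → Set M} {Q' : Fin m → Set M'} (h : Same L Q Q') :
    L.ElementarilyEquivalent M M' := by
  let _ := ul Q
  let _ := ul Q'
  have h' : (L.sum (UL m)).ElementarilyEquivalent M M' := h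
  rw [elementarilyEquivalent_iff] at h' ⊢
  intro φ
  have h1 := h' (LHom.sumInl.onSentence φ)
  rwa [LHom.realize_onSentence, LHom.realize_onSentence] at h1

end Pool.Agent.N616.NH.DEF1_

namespace Pool.Agent.N616.NH

open FirstOrder FirstOrder.Language
open Pool.Agent.R492.DV Pool.Agent.R492.DW Pool.Agent.W882.Nip3

/-- Non-tame valuation rings of the first type are definable. -/
theorem DEF1 (hB : S_BND) : S_DEF1 := by
  intro K _ _ hK O d t h
  obtain ⟨N, hN⟩ := hB K hK d
  have hQ0 := DEF1_.qSet_of h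
  refine kueker_const kueker FirstOrder.Language.ring K (O : Set K) N 1 (fun _ => t) ?_
  intro M' _ _ t' Q hQ hinj
  rcases Nat.eq_zero_or_pos N with rfl | hNpos
  · obtain ⟨i, -⟩ := hN K (by rw [elementarilyEquivalent_iff]; intro φ; rfl)
      (fun i => i.elim0) (fun i => i.elim0)
    exact i.elim0
  · have he := DEF1_.eqv_of_same' (hQ ⟨0, hNpos⟩).1
    have : FirstOrder.Language.Theory.field.Model M' := by
      have h1 : FirstOrder.Language.Theory.field.Model K := inferInstance
      exact he.theory_model_iff.1 h1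
    let _ := FirstOrder.Field.fieldOfModelField M'
    let _ := FirstOrder.Field.compatibleRingOfModelField M'
    have hq : ∀ i, DEF1_.QSet d (t' 0) (Q i) := fun i => DEF1_.qSet_transfer hQ0 (hQ i)
    have hnt : ∀ i, NT1 (DEF1_.vs (hq i)) d (t' 0) := fun i => DEF1_.nt1_vs h.two_le (hq i)
    obtain ⟨i, j, hij, hle⟩ := hN M' he (fun i => DEF1_.vs (hq i))
      (fun i => Or.inl ⟨d, le_rfl, t' 0, hnt i⟩)
    have h1 := DEF1_.eq_of_le (hnt i) (hnt j) hle
    apply hij
    apply hinj
    rw [← DEF1_.coe_vs (hq i), ← DEF1_.coe_vs (hq j), h1]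

end Pool.Agent.N616.NH
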