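import Pool.Agent.N616.NH.Stm
import Pool.Agent.R492.DW.W1
import Pool.Agent.R492.DV.F1
import Pool.Agent.R492.DV.Fin
import Pool.Agent.R492.DV.Kueker

set_option autoImplicit false

/-!
# Project NH: non-tame valuation rings of the second type are definable
-/

namespace Pool.Agent.N616.NH.DEF2_

open FirstOrder FirstOrder.Language FirstOrder.Ring Pool.Agent.W882.Nip3
open Pool.Agent.R492.DV Pool.Agent.R492.DW

/-- `Q` is a valuation ring, `l` is a unit of `Q`, and `t₁`, `t₂` have independent values modulo `l`,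
congruent to arbitrarily small positive values. -/
structure QSet {K : Type} [Field K] (l : ℕ) (t₁ t₂ : K) (Q : Set K) : Prop where
  one : (1 : K) ∈ Q
  add : ∀ x ∈ Q, ∀ y ∈ Q, x + y ∈ Q
  neg : ∀ x ∈ Q, -x ∈ Q
  mul : ∀ x ∈ Q, ∀ y ∈ Q, x * y ∈ Q
  total : ∀ x y : K, x * y = 1 → x ∈ Q ∨ y ∈ Q
  char : ∃ z ∈ Q, (l : K) * z = 1
  nz₁ : t₁ ≠ 0
  nz₂ : t₂ ≠ 0
  nd : ∀ y z : K, t₁ * y ^ l ∈ Q → z ∈ Q → t₁ * y ^ l * z ≠ 1
  indep : ∀ (i : Fin l) (y z : K), t₂ * t₁ ^ (i : ℕ) * y ^ l ∈ Q → z ∈ Q →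
    t₂ * t₁ ^ (i : ℕ) * y ^ l * z ≠ 1
  sm₁ : ∀ e ∈ Q, e ≠ 0 → (∀ z ∈ Q, e * z ≠ 1) →
    ∃ y z : K, t₁ * y ^ l ∈ Q ∧ z ∈ Q ∧ e = t₁ * y ^ l * z
  sm₂ : ∀ e ∈ Q, e ≠ 0 → (∀ z ∈ Q, e * z ≠ 1) →
    ∃ y z : K, t₂ * y ^ l ∈ Q ∧ z ∈ Q ∧ e = t₂ * y ^ l * z

section fo

open F1

/-- the clauses without constants -/
noncomputable def rF (l : ℕ) : BF 0 :=
  sOne ⊓ (sAdd ⊓ (sNeg ⊓ (sMul ⊓ (sTotal ⊓ sInv l))))

/-- a clause about unit multiples -/
def ndF {n : ℕ} (l : ℕ) (t : RT (n + 2)) : BF n :=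
  ∀' ∀' ((inP (n := n + 2) (t * powT (F1.var ⟨n, by omega⟩) l)).imp
    ((inP (n := n + 2) (F1.var ⟨n + 1, by omega⟩)).imp
      (eqF (n := n + 2) (t * powT (F1.var ⟨n, by omega⟩) l * F1.var ⟨n + 1, by omega⟩) 1).not))

/-- a clause about small values -/
def smF (l : ℕ) (i : Fin 2) : BF 2 :=
  ∀' ((inP (n := 3) (F1.var 2)).imp ((eqF (n := 3) (F1.var 2) 0).not.imp
    ((∀' ((inP (n := 4) (F1.var 3)).imp (eqF (n := 4) (F1.var 2 * F1.var 3) 1).not)).imp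
      (∃' ∃' (inP (n := 5) (F1.var ⟨i, by omega⟩ * powT (F1.var 3) l) ⊓
        (inP (n := 5) (F1.var 4) ⊓
          eqF (n := 5) (F1.var 2) (F1.var ⟨i, by omega⟩ * powT (F1.var 3) l * F1.var 4)))))))

/-- the clauses with constants -/
noncomputable def uF (l : ℕ) : BF 2 :=
  (eqF (n := 2) (F1.var 0) 0).not ⊓ ((eqF (n := 2) (F1.var 1) 0).not ⊓
    (ndF l (F1.var 0) ⊓ ((BoundedFormula.iInf fun i : Fin l =>
      ndF (n := 2) l (F1.var 1 * powT (F1.var 0) (i : ℕ))) ⊓ (smF l 0 ⊓ smF l 1))))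

variable {K : Type} [Field K] [CompatibleRing K]

theorem realize_uF (Q : Fin 1 → Set K) (l : ℕ) (v : Empty → K) (t : Fin 2 → K) :
    (letI := ul Q; (uF l).Realize v t) ↔ (t 0 ≠ 0 ∧ t 1 ≠ 0 ∧
      (∀ y z : K, t 0 * y ^ l ∈ Q 0 → z ∈ Q 0 → t 0 * y ^ l * z ≠ 1) ∧
      (∀ (i : Fin l) (y z : K), t 1 * t 0 ^ (i : ℕ) * y ^ l ∈ Q 0 → z ∈ Q 0 →
        t 1 * t 0 ^ (i : ℕ) * y ^ l * z ≠ 1) ∧
      (∀ e : K, e ∈ Q 0 → e ≠ 0 → (∀ z : K, z ∈ Q 0 → e * z ≠ 1) →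
        ∃ y z : K, t 0 * y ^ l ∈ Q 0 ∧ z ∈ Q 0 ∧ e = t 0 * y ^ l * z) ∧
      (∀ e : K, e ∈ Q 0 → e ≠ 0 → (∀ z : K, z ∈ Q 0 → e * z ≠ 1) →
        ∃ y z : K, t 1 * y ^ l ∈ Q 0 ∧ z ∈ Q 0 ∧ e = t 1 * y ^ l * z)) := by
  let _ := ul Q
  show (uF l).Realize v t ↔ _
  have hE : ∀ {n : ℕ} (t₁ t₂ : RT n) (v : Empty → K) (xs : Fin n → K),
      (eqF t₁ t₂).Realize v xs ↔
      t₁.realize (Sum.elim v xs) = t₂.realize (Sum.elim v xs) := realize_eqF Q
  have hP : ∀ {n : ℕ} (t : RT n) (v : Empty → K) (xs : Fin n → K),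
      (inP t).Realize v xs ↔ t.realize (Sum.elim v xs) ∈ Q 0 := realize_inP Q
  simp only [uF, ndF, smF, BoundedFormula.realize_all, BoundedFormula.realize_imp,
      BoundedFormula.realize_ex, BoundedFormula.realize_inf, BoundedFormula.realize_not,
      BoundedFormula.realize_iInf, realize_powT,
      hP, hE, realize_mul, realize_var', realize_one, realize_zero]
  exact Iff.rfl

theorem realize_rF (Q : Fin 1 → Set K) (l : ℕ) (v : Empty → K) (xs : Fin 0 → K) :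
    (letI := ul Q; (rF l).Realize v xs) ↔ ((1 : K) ∈ Q 0 ∧ (∀ x ∈ Q 0, ∀ y ∈ Q 0, x + y ∈ Q 0) ∧
      (∀ x ∈ Q 0, -x ∈ Q 0) ∧ (∀ x ∈ Q 0, ∀ y ∈ Q 0, x * y ∈ Q 0) ∧
      (∀ x y : K, x * y = 1 → x ∈ Q 0 ∨ y ∈ Q 0) ∧ ∃ z ∈ Q 0, (l : K) * z = 1) := by
  let _ := ul Q
  show (rF l).Realize v xs ↔ _
  have hE : ∀ {n : ℕ} (t₁ t₂ : RT n) (v : Empty → K) (xs : Fin n → K),
      (eqF t₁ t₂).Realize v xs ↔
      t₁.realize (Sum.elim v xs) = t₂.realize (Sum.elim v xs) := realize_eqF Q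
  have hP : ∀ {n : ℕ} (t : RT n) (v : Empty → K) (xs : Fin n → K),
      (inP t).Realize v xs ↔ t.realize (Sum.elim v xs) ∈ Q 0 := realize_inP Q
  have h1 : (sOne).Realize v xs ↔ (1 : K) ∈ Q 0 := by
    simp [sOne, hP]
  have h2 : (sAdd).Realize v xs ↔ ∀ x ∈ Q 0, ∀ y ∈ Q 0, x + y ∈ Q 0 := by
    simp only [sAdd, BoundedFormula.realize_all, BoundedFormula.realize_imp, hP, realize_add,
      realize_var']
    exact ⟨fun h x hx y hy => h x y hx hy, fun h x y hx hy => h x hx y hy⟩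
  have h3 : (sNeg).Realize v xs ↔ ∀ x ∈ Q 0, -x ∈ Q 0 := by
    simp only [sNeg, BoundedFormula.realize_all, BoundedFormula.realize_imp, hP, realize_neg,
      realize_var']
    exact ⟨fun h x hx => h x hx, fun h x hx => h x hx⟩
  have h4 : (sMul).Realize v xs ↔ ∀ x ∈ Q 0, ∀ y ∈ Q 0, x * y ∈ Q 0 := by
    simp only [sMul, BoundedFormula.realize_all, BoundedFormula.realize_imp, hP, realize_mul,
      realize_var']
    exact ⟨fun h x hx y hy => h x y hx hy, fun h x y hx hy => h x hx y hy⟩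
  have h5 : (sTotal).Realize v xs ↔ ∀ x y : K, x * y = 1 → x ∈ Q 0 ∨ y ∈ Q 0 := by
    simp only [sTotal, BoundedFormula.realize_all, BoundedFormula.realize_imp,
      BoundedFormula.realize_sup, hP, hE, realize_mul, realize_var', realize_one]
    exact ⟨fun h x y => h x y, fun h x y => h x y⟩
  have h8 : (sInv l).Realize v xs ↔ ∃ z ∈ Q 0, (l : K) * z = 1 := by
    simp only [sInv, BoundedFormula.realize_ex, BoundedFormula.realize_inf, realize_castT,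
      hP, hE, realize_mul, realize_var', realize_one]
    exact Iff.rfl
  simp only [rF, BoundedFormula.realize_inf, h1, h2, h3, h4, h5, h8]

/-- The property `QSet` is first order. -/
theorem qSet_transfer {K' : Type} [Field K'] [CompatibleRing K'] {l : ℕ} {t : Fin 2 → K}
    {t' : Fin 2 → K'} {P : Set K} {Q : Set K'} (hP : QSet l (t 0) (t 1) P)
    (hS : SameC FirstOrder.Language.ring t t' P Q) : QSet l (t' 0) (t' 1) Q := by
  obtain ⟨hS0, hS1⟩ := hS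
  have h := (@elementarilyEquivalent_iff _ K K' (@sumStructure _ _ K _ (ul fun _ : Fin 1 => P))
    (@sumStructure _ _ K' _ (ul fun _ : Fin 1 => Q))).1 hS0 (rF l)
  have h1 := realize_rF (fun _ : Fin 1 => P) l default default
  have h2 := realize_rF (fun _ : Fin 1 => Q) l default default
  have h3 := h2.1 (h.1 (h1.2 ⟨hP.one, hP.add, hP.neg, hP.mul, hP.total, hP.char⟩))
  have h4 := (realize_uF (fun _ : Fin 1 => Q) l default t').1
    ((hS1 (uF l)).1 ((realize_uF (fun _ : Fin 1 => P) l default t).2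
      ⟨hP.nz₁, hP.nz₂, hP.nd, hP.indep, hP.sm₁, hP.sm₂⟩))
  exact ⟨h3.1, h3.2.1, h3.2.2.1, h3.2.2.2.1, h3.2.2.2.2.1, h3.2.2.2.2.2, h4.1, h4.2.1, h4.2.2.1,
    h4.2.2.2.1, h4.2.2.2.2.1, h4.2.2.2.2.2⟩

end fo

section val

variable {K : Type} [Field K]

theorem val_one_iff (O : ValuationSubring K) (x : K) :
    O.valuation x = 1 ↔ x ∈ O ∧ ∃ z ∈ O, x * z = 1 := by
  constructor
  · intro h
    have hx0 : x ≠ 0 := by
      rintro rfl
      rw [map_zero] at h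
      exact zero_ne_one h
    refine ⟨(O.valuation_le_one_iff x).1 h.le, x⁻¹, (O.valuation_le_one_iff _).1 ?_,
      mul_inv_cancel₀ hx0⟩
    rw [map_inv₀, h, inv_one]
  · rintro ⟨h1, z, h2, h3⟩
    have e1 := (O.valuation_le_one_iff x).2 h1
    have e2 := (O.valuation_le_one_iff z).2 h2
    have e3 : O.valuation x * O.valuation z = 1 := by rw [← map_mul, h3, map_one]
    refine le_antisymm e1 ?_
    calc (1 : O.ValueGroup) = O.valuation x * O.valuation z := e3.symm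
      _ ≤ O.valuation x * 1 := by gcongr
      _ = O.valuation x := mul_one _

theorem val_lt_iff (O : ValuationSubring K) (x : K) :
    O.valuation x < 1 ↔ x ∈ O ∧ ∀ z ∈ O, x * z ≠ 1 := by
  rw [lt_iff_le_and_ne, O.valuation_le_one_iff]
  constructor
  · rintro ⟨h1, h2⟩
    exact ⟨h1, fun z hz h3 => h2 ((val_one_iff O x).2 ⟨h1, z, hz, h3⟩)⟩
  · rintro ⟨h1, h2⟩
    exact ⟨h1, fun h3 => by
      obtain ⟨-, z, hz, h4⟩ := (val_one_iff O x).1 h3
      exact h2 z hz h4⟩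

theorem val_le_iff' (O : ValuationSubring K) (x y : K) (hy : y ≠ 0) :
    O.valuation x ≤ O.valuation y ↔ ∃ z ∈ O, x = y * z := by
  constructor
  · intro h
    refine ⟨x / y, (O.valuation_le_one_iff _).1 ?_, ?_⟩
    · rw [map_div₀]
      exact div_le_one_of_le₀ h zero_le
    · rw [mul_div_cancel₀ _ hy]
  · rintro ⟨z, hz, rfl⟩
    rw [map_mul]
    exact mul_le_of_le_one_right' ((O.valuation_le_one_iff z).2 hz)

/-- the valuation ring of `QSet` -/
def ring {l : ℕ} {t₁ t₂ : K} {Q : Set K} (h : QSet l t₁ t₂ Q) : ValuationSubring K where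
  carrier := Q
  mul_mem' := fun ha hb => h.mul _ ha _ hb
  one_mem' := h.one
  add_mem' := fun ha hb => h.add _ ha _ hb
  zero_mem' := by
    have h1 := h.add 1 h.one (-1) (h.neg 1 h.one)
    rwa [add_neg_cancel] at h1
  neg_mem' := fun ha => h.neg _ ha
  mem_or_inv_mem' := by
    intro x
    by_cases hx0 : x = 0
    · left
      rw [hx0]
      have h1 := h.add 1 h.one (-1) (h.neg 1 h.one)
      rwa [add_neg_cancel] at h1
    · exact h.total x x⁻¹ (mul_inv_cancel₀ hx0)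

theorem qSet_of {O : ValuationSubring K} {l : ℕ} {t₁ t₂ : K} (h : NT2 O l t₁ t₂) :
    QSet l t₁ t₂ (O : Set K) := by
  have hl : 0 < l := h.prime.pos
  have ht₁ : t₁ ≠ 0 := by
    rintro rfl
    apply h.nd 0
    rw [map_zero, zero_pow hl.ne']
  have ht₂ : t₂ ≠ 0 := by
    rintro rfl
    apply h.indep 0 0
    rw [map_zero, zero_pow hl.ne', zero_mul]
  have hv₁ : O.valuation t₁ ≠ 0 := (Valuation.ne_zero_iff _).2 ht₁
  have hsm : ∀ t : K, SmallMod O l t → ∀ e ∈ (O : Set K), e ≠ 0 → (∀ z ∈ (O : Set K), e * z ≠ 1) →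
      ∃ y z : K, t * y ^ l ∈ (O : Set K) ∧ z ∈ (O : Set K) ∧ e = t * y ^ l * z := by
    intro t ht e he he0 hez
    obtain ⟨y, h1, h2⟩ := ht e he0 ((val_lt_iff O e).2 ⟨he, hez⟩)
    have hy0 : t * y ^ l ≠ 0 := by
      intro h3
      rw [h3, map_zero] at h1
      exact (Valuation.ne_zero_iff _).2 he0 (le_antisymm h1 zero_le)
    obtain ⟨z, hz, h4⟩ := (val_le_iff' O _ _ hy0).1 h1
    exact ⟨y, z, ((val_lt_iff O _).1 h2).1, hz, h4⟩
  refine ⟨O.one_mem, fun x hx y hy => O.add_mem _ _ hx hy, fun x hx => O.neg_mem _ hx,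
    fun x hx y hy => O.mul_mem _ _ hx hy, ?_, ?_, ht₁, ht₂, ?_, ?_, hsm t₁ h.small₁,
    hsm t₂ h.small₂⟩
  · intro x y hxy
    rcases O.mem_or_inv_mem x with h1 | h1
    · exact Or.inl h1
    · right
      have : y = x⁻¹ := eq_inv_of_mul_eq_one_right hxy
      rw [this]
      exact h1
  · exact ((val_one_iff O _).1 h.char).2
  · intro y z hy hz h1
    have h2 := (val_one_iff O (t₁ * y ^ l)).2 ⟨hy, z, hz, h1⟩
    rw [map_mul, map_pow] at h2
    apply h.nd y⁻¹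
    rw [map_inv₀, inv_pow]
    exact eq_inv_of_mul_eq_one_left h2
  · intro i y z hy hz h1
    have h2 := (val_one_iff O _).2 ⟨hy, z, hz, h1⟩
    rw [map_mul, map_mul, map_pow, map_pow] at h2
    apply h.indep (y⁻¹ * t₁⁻¹) (l - i)
    rw [map_mul, map_inv₀, map_inv₀, mul_pow, inv_pow, inv_pow, mul_assoc]
    have hy0 : O.valuation y ^ l ≠ 0 := by
      intro h3
      rw [h3, mul_zero] at h2
      exact zero_ne_one h2
    have e1 : O.valuation t₁ ^ l = O.valuation t₁ ^ (l - (i : ℕ)) * O.valuation t₁ ^ (i : ℕ) := by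
      rw [← pow_add, Nat.sub_add_cancel i.2.le]
    have h3 : O.valuation t₁ ^ (i : ℕ) ≠ 0 := pow_ne_zero _ hv₁
    have h4 : O.valuation t₁ ^ (l - (i : ℕ)) ≠ 0 := pow_ne_zero _ hv₁
    rw [e1, mul_inv_rev, mul_assoc, inv_mul_cancel₀ h4, mul_one]
    rw [mul_assoc] at h2
    have h5 := eq_inv_of_mul_eq_one_left h2
    rw [h5, mul_inv_rev]

theorem nt2_of {l : ℕ} (hl : l.Prime) {t₁ t₂ : K} {Q : Set K} (h : QSet l t₁ t₂ Q) :
    NT2 (ring h) l t₁ t₂ := by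
  have hmem : ∀ x : K, x ∈ ring h ↔ x ∈ Q := fun x => Iff.rfl
  have hl0 : 0 < l := hl.pos
  have hv₁ : (ring h).valuation t₁ ≠ 0 := (Valuation.ne_zero_iff _).2 h.nz₁
  have hv₂ : (ring h).valuation t₂ ≠ 0 := (Valuation.ne_zero_iff _).2 h.nz₂
  have hsm : ∀ t : K, t ≠ 0 → (∀ y : K, (ring h).valuation (t * y ^ l) ≠ 1) →
      (∀ e ∈ Q, e ≠ 0 → (∀ z ∈ Q, e * z ≠ 1) →
      ∃ y z : K, t * y ^ l ∈ Q ∧ z ∈ Q ∧ e = t * y ^ l * z) → SmallMod (ring h) l t := by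
    intro t ht hne hs e he0 he1
    obtain ⟨h1, h2⟩ := (val_lt_iff _ e).1 he1
    obtain ⟨y, z, h3, h4, h5⟩ := hs e h1 he0 h2
    refine ⟨y, ?_, lt_of_le_of_ne (((ring h).valuation_le_one_iff _).2 h3) (hne y)⟩
    have h6 : t * y ^ l ≠ 0 := by
      intro h7
      rw [h7, zero_mul] at h5
      exact he0 h5
    exact (val_le_iff' _ _ _ h6).2 ⟨z, h4, h5⟩
  have hne₁ : ∀ y : K, (ring h).valuation (t₁ * y ^ l) ≠ 1 := by
    intro y h1
    obtain ⟨h2, z, h3, h4⟩ := (val_one_iff _ _).1 h1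
    exact h.nd y z h2 h3 h4
  have hne₂ : ∀ (i : Fin l) (y : K), (ring h).valuation (t₂ * t₁ ^ (i : ℕ) * y ^ l) ≠ 1 := by
    intro i y h1
    obtain ⟨h2, z, h3, h4⟩ := (val_one_iff _ _).1 h1
    exact h.indep i y z h2 h3 h4
  have hne₃ : ∀ y : K, (ring h).valuation (t₂ * y ^ l) ≠ 1 := by
    intro y
    have := hne₂ ⟨0, hl0⟩ y
    simpa using this
  refine ⟨hl, ?_, ?_, ?_, hsm t₁ h.nz₁ hne₁ h.sm₁, hsm t₂ h.nz₂ hne₃ h.sm₂⟩
  · obtain ⟨z, hz, h1⟩ := h.char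
    exact (val_one_iff _ _).2 ⟨natCast_mem _ l, z, hz, h1⟩
  · intro y h1
    have hy0 : (ring h).valuation y ^ l ≠ 0 := by rw [← h1]; exact hv₁
    apply hne₁ y⁻¹
    rw [map_mul, map_pow, map_inv₀, h1, inv_pow, mul_inv_cancel₀ hy0]
  · intro y j h1
    have hy0 : (ring h).valuation y ^ l * (ring h).valuation t₁ ^ j ≠ 0 := by
      rw [← h1]; exact hv₂
    -- `i + j = l * m`
    obtain ⟨i, m, him⟩ : ∃ (i : Fin l) (m : ℕ), (i : ℕ) + j = l * m := by
      refine ⟨⟨(l - j % l) % l, Nat.mod_lt _ hl0⟩, (((l - j % l) % l) + j) / l, ?_⟩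
      rw [Nat.mul_div_cancel']
      have hj := Nat.mod_lt j hl0
      have h3 : (l - j % l + j) % l = 0 := by
        have h4 : l - j % l + j = l + (j - j % l) := by
          have := Nat.mod_le j l
          omega
        rw [h4, Nat.add_mod_left]
        exact Nat.sub_mod_eq_zero_of_mod_eq (by rw [Nat.mod_mod])
      apply Nat.dvd_of_mod_eq_zero
      rw [Nat.mod_add_mod]
      exact h3
    apply hne₂ i (y * t₁ ^ m)⁻¹
    have e1 : (ring h).valuation (t₂ * t₁ ^ (i : ℕ)) = (ring h).valuation ((y * t₁ ^ m) ^ l) := by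
      simp only [map_mul, map_pow]
      rw [h1, mul_assoc, ← pow_add, add_comm j, him, mul_pow, ← pow_mul, mul_comm m l]
    have e2 : (ring h).valuation ((y * t₁ ^ m) ^ l) ≠ 0 := by
      rw [← e1, map_mul, map_pow]
      exact mul_ne_zero hv₂ (pow_ne_zero _ hv₁)
    rw [map_mul, e1, inv_pow, map_inv₀, mul_inv_cancel₀ e2]

/-- If one of the rings contains the other one, they are equal. -/
theorem antichain {l : ℕ} {t₁ t₂ : K} {O O' : ValuationSubring K} (h : NT2 O l t₁ t₂)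
    (h' : NT2 O' l t₁ t₂) (hle : O ≤ O') : O' ≤ O := by
  intro x hx'
  by_contra hx
  have hx0 : x ≠ 0 := by
    rintro rfl
    exact hx O.zero_mem
  have hxi : x⁻¹ ∈ O := (O.mem_or_inv_mem x).resolve_left hx
  have h1 : O.valuation x⁻¹ < 1 := by
    rw [val_lt_iff]
    refine ⟨hxi, fun z hz h2 => hx ?_⟩
    have : z = x := by
      have h3 := eq_inv_of_mul_eq_one_right h2
      rwa [inv_inv] at h3
    rwa [← this]
  obtain ⟨y, h2, h3⟩ := h.small₁ x⁻¹ (inv_ne_zero hx0) h1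
  have hy0 : t₁ * y ^ l ≠ 0 := by
    intro h4
    rw [h4, map_zero] at h2
    exact (Valuation.ne_zero_iff _).2 (inv_ne_zero hx0) (le_antisymm h2 zero_le)
  obtain ⟨z, hz, h4⟩ := (val_le_iff' O _ _ hy0).1 h2
  have h5 : O'.valuation (t₁ * y ^ l) = 1 := by
    rw [val_one_iff]
    refine ⟨hle ((val_lt_iff O _).1 h3).1, z * x, O'.mul_mem _ _ (hle hz) hx', ?_⟩
    rw [← mul_assoc, ← h4, inv_mul_cancel₀ hx0]
  apply h'.nd y⁻¹
  rw [map_mul, map_pow] at h5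
  rw [map_inv₀, inv_pow]
  exact eq_inv_of_mul_eq_one_left h5

end val

end Pool.Agent.N616.NH.DEF2_

namespace Pool.Agent.N616.NH

open FirstOrder FirstOrder.Language FirstOrder.Ring Pool.Agent.W882.Nip3
open Pool.Agent.R492.DV Pool.Agent.R492.DW DEF2_

theorem DEF2 (hB : S_BND) : S_DEF2 := by
  intro K _ _ hK O l t₁ t₂ hO
  obtain ⟨N, hN⟩ := hB K hK l
  have hD := qSet_of hO
  have hl := hO.prime
  refine kueker_const kueker FirstOrder.Language.ring K (O : Set K) N 2 ![t₁, t₂] ?_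
  intro M' _ _ t' Q hQ hinj
  rcases Nat.eq_zero_or_pos N with rfl | hNpos
  · obtain ⟨i, -⟩ := hN K (by rw [elementarilyEquivalent_iff]; intro φ; rfl)
      (fun i => i.elim0) (fun i => i.elim0)
    exact i.elim0
  · have he := eqv_of_same (hQ ⟨0, hNpos⟩).1
    have : FirstOrder.Language.Theory.field.Model M' := by
      have h1 : FirstOrder.Language.Theory.field.Model K := inferInstance
      exact he.theory_model_iff.1 h1
    let _ := FirstOrder.Field.fieldOfModelField M'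
    let _ := FirstOrder.Field.compatibleRingOfModelField M'
    have hQ' : ∀ i, QSet l (t' 0) (t' 1) (Q i) := fun i =>
      qSet_transfer (t := ![t₁, t₂]) hD (hQ i)
    obtain ⟨i, j, hij, hle⟩ := hN M' he (fun i => ring (hQ' i)) (fun i =>
      Or.inr ⟨l, le_rfl, t' 0, t' 1, nt2_of hl (hQ' i)⟩)
    have h1 := antichain (nt2_of hl (hQ' i)) (nt2_of hl (hQ' j)) hle
    apply hij
    apply hinj
    exact Set.Subset.antisymm (fun x hx => hle hx) (fun x hx => h1 hx)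

end Pool.Agent.N616.NH
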