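import Mathlib
import Pool.Agent.W882.Nip3.Defs

set_option autoImplicit false

/-!
# Project NH: statements of the pieces

Every non-tame valuation of a NIP field is definable; in positive characteristic it is henselian.
-/

namespace Pool.Agent.N616.NH

open FirstOrder Polynomial Pool.Agent.W882.Nip3

/-! ## Non-tame valuation rings (arbitrary value groups) -/

section NT

variable {K : Type} [Field K]

/-- The residue field of `O` has a separable extension of degree `d`. -/
def ResExt (d : ℕ) (O : ValuationSubring K) : Prop :=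
  ∃ (L : Type) (_ : Field L) (_ : Algebra (IsLocalRing.ResidueField O) L),
    Algebra.IsSeparable (IsLocalRing.ResidueField O) L ∧
      Module.finrank (IsLocalRing.ResidueField O) L = d

/-- The value of `t` is congruent to arbitrarily small positive values modulo `d`. -/
def SmallMod (O : ValuationSubring K) (d : ℕ) (t : K) : Prop :=
  ∀ e : K, e ≠ 0 → O.valuation e < 1 →
    ∃ y : K, O.valuation e ≤ O.valuation (t * y ^ d) ∧ O.valuation (t * y ^ d) < 1

/-- Non-tame of the first type: the value of `t` is not divisible by `d`, but it is congruent to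
arbitrarily small positive values modulo `d`, and the residue field has a separable extension of
degree `d`. -/
structure NT1 (O : ValuationSubring K) (d : ℕ) (t : K) : Prop where
  two_le : 2 ≤ d
  nd : ∀ y : K, O.valuation t ≠ O.valuation y ^ d
  small : SmallMod O d t
  ext : ResExt d O

/-- Non-tame of the second type: `ℓ` is a prime number, not the residue characteristic, the values of
`t₁` and `t₂` are independent modulo `ℓ`, and congruent to arbitrarily small positive values modulo
`ℓ`. -/
structure NT2 (O : ValuationSubring K) (ℓ : ℕ) (t₁ t₂ : K) : Prop where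
  prime : ℓ.Prime
  char : O.valuation (ℓ : K) = 1
  nd : ∀ y : K, O.valuation t₁ ≠ O.valuation y ^ ℓ
  indep : ∀ (y : K) (i : ℕ), O.valuation t₂ ≠ O.valuation y ^ ℓ * O.valuation t₁ ^ i
  small₁ : SmallMod O ℓ t₁
  small₂ : SmallMod O ℓ t₂

/-- Non-tame up to `D`. -/
def NT (D : ℕ) (O : ValuationSubring K) : Prop :=
  (∃ d ≤ D, ∃ t : K, NT1 O d t) ∨ ∃ ℓ ≤ D, ∃ t₁ t₂ : K, NT2 O ℓ t₁ t₂

/-- `w` is a valuation of the complete field of the place `P`, which extends the valuation of `O`. -/
structure PD (O : ValuationSubring K) (P : Place K) (w : Valuation P.F O.ValueGroup) : Prop where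
  le : ∀ x ∈ O, x ∈ P.O
  val : ∀ x : P.O, P.res x ≠ 0 → w (P.res x) = O.valuation (x : K)
  near : ∀ y : P.F, y ≠ 0 → ∃ x : P.O, w (y - P.res x) < w y

end NT

/-- PL: the place of rank one near `δ`. -/
def S_PL : Prop :=
  ∀ (K : Type) [Field K] (O : ValuationSubring K) (δ : K), δ ≠ 0 → O.valuation δ < 1 →
    ∃ (P : Place K) (w : Valuation P.F O.ValueGroup), PD O P w ∧
      (∀ x : K, O.valuation x ≤ O.valuation δ → P.Small x) ∧
      ∀ x : K, O.valuation δ ≤ O.valuation x → O.valuation x ≤ 1 →
        ∃ h : x ∈ P.O, P.res ⟨x, h⟩ ≠ 0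

/-- N1: norms from the unramified extension. -/
def S_N1 : Prop :=
  ∀ (K : Type) [Field K] (O : ValuationSubring K) (P : Place K) (w : Valuation P.F O.ValueGroup),
    PD O P w → ∀ (d : ℕ) (s : K) (hs : s ∈ P.O), P.res ⟨s, hs⟩ ≠ 0 →
      (∀ y : K, O.valuation s ≠ O.valuation y ^ d) → 2 ≤ d → ResExt d O →
      ∀ D : ℕ, d ≤ D → ¬ DimLeOneUpTo P.F D

/-- N2: norms from the extension by an `ℓ`-th root. -/
def S_N2 : Prop :=
  ∀ (F : Type) [Field F] (Γ₀ : Type) [LinearOrderedCommGroupWithZero Γ₀] (w : Valuation F Γ₀)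
    (ℓ : ℕ), ℓ.Prime → (ℓ : F) ≠ 0 → ∀ a b : F, (∀ c : F, w a ≠ w c ^ ℓ) →
      (∀ (c : F) (i : ℕ), w b ≠ w c ^ ℓ * w a ^ i) → ∀ D : ℕ, ℓ ≤ D → ¬ DimLeOneUpTo F D

/-- BND: bounded number of pairwise incomparable non-tame valuation rings. -/
def S_BND : Prop :=
  ∀ (K : Type) [Field K] [FirstOrder.Ring.CompatibleRing K],
    (NIPField K ∨ (∃ n, NIPnField n K) ∨ NTP2Field K) → ∀ D : ℕ, ∃ N : ℕ,
      ∀ (K' : Type) [Field K'] [FirstOrder.Ring.CompatibleRing K'],
        FirstOrder.Language.ring.ElementarilyEquivalent K K' →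
        ∀ O : Fin N → ValuationSubring K', (∀ i, NT D (O i)) → ∃ i j, i ≠ j ∧ O i ≤ O j

/-- `O` is definable with parameters in the language of rings. -/
def Dfb {K : Type} [Field K] [FirstOrder.Ring.CompatibleRing K] (O : ValuationSubring K) : Prop :=
  ∃ (p : ℕ) (ψ : FirstOrder.Language.ring.Formula (Fin 1 ⊕ Fin p)) (c : Fin p → K),
    ∀ x : K, x ∈ O ↔ ψ.Realize (Sum.elim (fun _ => x) c)

/-- DEF1: non-tame valuation rings of the first type are definable. -/
def S_DEF1 : Prop :=
  ∀ (K : Type) [Field K] [FirstOrder.Ring.CompatibleRing K],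
    (NIPField K ∨ (∃ n, NIPnField n K) ∨ NTP2Field K) →
      ∀ (O : ValuationSubring K) (d : ℕ) (t : K), NT1 O d t → Dfb O

/-- DEF2: non-tame valuation rings of the second type are definable. -/
def S_DEF2 : Prop :=
  ∀ (K : Type) [Field K] [FirstOrder.Ring.CompatibleRing K],
    (NIPField K ∨ (∃ n, NIPnField n K) ∨ NTP2Field K) →
      ∀ (O : ValuationSubring K) (ℓ : ℕ) (t₁ t₂ : K), NT2 O ℓ t₁ t₂ → Dfb O

/-! ## Positive characteristic -/

/-- KSW: the pairing `L × L → L / ℘(L)` is independent (Kaplan, Scanlon, Wagner). -/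
def S_KSW : Prop :=
  ∀ (L : Type) [Field L] (p : ℕ) [Fact p.Prime] [CharP L p] [Infinite L] (a : L) (n : ℕ),
    ∃ c b : Fin n → L, ∀ i j, ∃ x : L, c i * b j - (if i = j then a else 0) = x ^ p - x

/-- A subset of a power of `K` which is definable with finitely many parameters. -/
def DfK {K : Type} [Field K] [FirstOrder.Ring.CompatibleRing K] {α : Type} (S : Set (α → K)) :
    Prop :=
  ∃ (p : ℕ) (ψ : FirstOrder.Language.ring.Formula (α ⊕ Fin p)) (c : Fin p → K),
    ∀ u : α → K, u ∈ S ↔ ψ.Realize (Sum.elim u c)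

/-- The element of the finite extension `L` with the coordinates `u`. -/
noncomputable def co (K : Type) [Field K] (L : Type) [Field L] [Algebra K L]
    [FiniteDimensional K L] (u : Fin (Module.finrank K L) → K) : L :=
  ∑ j, u j • Module.finBasis K L j

/-- A subset of a power of the finite extension `L` of `K` which is definable in `K`. -/
def DfL (K : Type) [Field K] [FirstOrder.Ring.CompatibleRing K] (L : Type) [Field L] [Algebra K L]
    [FiniteDimensional K L] {ι : Type} (S : Set (ι → L)) : Prop :=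
  DfK {u : ι × Fin (Module.finrank K L) → K | (fun i => co K L fun j => u (i, j)) ∈ S}

/-- DFA: Boolean operations, change of variables, projections. -/
def S_DFA : Prop :=
  ∀ (K : Type) [Field K] [FirstOrder.Ring.CompatibleRing K] (L : Type) [Field L] [Algebra K L]
    [FiniteDimensional K L],
    (∀ (ι : Type) (S T : Set (ι → L)), DfL K L S → DfL K L T → DfL K L (S ∩ T)) ∧
    (∀ (ι : Type) (S : Set (ι → L)), DfL K L S → DfL K L Sᶜ) ∧
    (∀ (ι κ : Type) (f : κ → ι) (S : Set (κ → L)), DfL K L S →
      DfL K L {v : ι → L | (fun k => v (f k)) ∈ S}) ∧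
    ∀ (ι κ : Type) [Finite κ] (S : Set (ι ⊕ κ → L)), DfL K L S →
      DfL K L {v : ι → L | ∃ w : κ → L, Sum.elim v w ∈ S}

/-- DFB: zero sets of polynomials, and definable subsets of `K`. -/
def S_DFB : Prop :=
  ∀ (K : Type) [Field K] [FirstOrder.Ring.CompatibleRing K] (L : Type) [Field L] [Algebra K L]
    [FiniteDimensional K L],
    (∀ (ι : Type) [Finite ι] (P : MvPolynomial ι L), DfL K L {v : ι → L | MvPolynomial.eval v P = 0})
    ∧ ∀ O : ValuationSubring K, Dfb O →
      DfL K L {v : Fin 1 → L | ∃ x ∈ O, algebraMap K L x = v 0}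

/-- NIPL: the independence property for definable relations of finite extensions. -/
def S_NIPL : Prop :=
  ∀ (K : Type) [Field K] [FirstOrder.Ring.CompatibleRing K], NIPField K → ∀ (L : Type) [Field L]
    [Algebra K L] [FiniteDimensional K L] (S : Set (Fin 2 → L)), DfL K L S →
    ∃ n : ℕ, ∀ (c : Fin n → L) (b : Finset (Fin n) → L), ∃ (i : Fin n) (J : Finset (Fin n)),
      ¬ (![c i, b J] ∈ S ↔ i ∈ J)

/-- The integral closure of `O` in `L`. -/
def RI {K : Type} [Field K] (O : ValuationSubring K) (L : Type) [Field L] [Algebra K L] :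
    Subring L where
  carrier := {z | ((algebraMap K L).comp O.subtype).IsIntegralElem z}
  mul_mem' hx hy := RingHom.IsIntegralElem.mul _ hx hy
  one_mem' := RingHom.isIntegralElem_one _
  add_mem' hx hy := RingHom.IsIntegralElem.add _ hx hy
  zero_mem' := RingHom.isIntegralElem_zero _
  neg_mem' hx := RingHom.IsIntegralElem.neg _ hx

/-- The Jacobson radical of a ring. -/
abbrev Jac (R : Type) [CommRing R] : Ideal R := (⊥ : Ideal R).jacobson

/-- FIN: the integral closure of a valuation ring in a finite extension has finitely many maximal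
ideals. -/
def S_FIN : Prop :=
  ∀ (K : Type) [Field K] (O : ValuationSubring K) (L : Type) [Field L] [Algebra K L]
    [FiniteDimensional K L], Finite (MaximalSpectrum (RI O L))

/-- HEN: if the integral closures of `O` in the finite extensions of `K` have no nontrivial
idempotents modulo their Jacobson radicals, then `O` is henselian. -/
def S_HEN : Prop :=
  ∀ (K : Type) [Field K] (O : ValuationSubring K),
    (∀ (L : Type) [Field L] [Algebra K L] [FiniteDimensional K L] (e : RI O L),
      e ^ 2 - e ∈ Jac (RI O L) → e ∈ Jac (RI O L) ∨ 1 - e ∈ Jac (RI O L)) →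
    HenselianLocalRing O

/-- `r * x` is in `℘(J)`, where `J` is the Jacobson radical of `R`. -/
def JS {L : Type} [Field L] (p : ℕ) (R : Subring L) (r x : L) : Prop :=
  ∃ (hr : r ∈ R) (hx : x ∈ R) (y : R), (⟨x, hx⟩ : R) ∈ Jac R ∧ y ∈ Jac R ∧
    (⟨r, hr⟩ : R) * ⟨x, hx⟩ = y ^ p - y

/-- JOH: Johnson's argument. -/
def S_JOH : Prop :=
  ∀ (L : Type) [Field L] (p : ℕ) [Fact p.Prime] [CharP L p] (R : Subring L),
    (∀ a : L, ∃ x : L, x ^ p - x = a) → (∀ y : L, y ^ p - y ∈ R → y ∈ R) →
    Finite (MaximalSpectrum R) →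
    (∃ n : ℕ, ∀ (c : Fin n → L) (b : Finset (Fin n) → L), ∃ (i : Fin n) (T : Finset (Fin n)),
      ¬ (JS p R (c i) (b T) ↔ i ∈ T)) →
    ∀ e : R, e ^ 2 - e ∈ Jac R → e ∈ Jac R ∨ 1 - e ∈ Jac R

/-- DJ: the relation `JS` is definable for the integral closure of a definable valuation ring. -/
def S_DJ : Prop :=
  ∀ (K : Type) [Field K] [FirstOrder.Ring.CompatibleRing K] (O : ValuationSubring K), Dfb O →
    ∀ (L : Type) [Field L] [Algebra K L] [FiniteDimensional K L] (p : ℕ),
      DfL K L {v : Fin 2 → L | JS p (RI O L) (v 0) (v 1)}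

/-- HP: on a NIP field of characteristic `p` every definable valuation ring is henselian. -/
def S_HP : Prop :=
  ∀ (K : Type) [Field K] [FirstOrder.Ring.CompatibleRing K] (p : ℕ) [Fact p.Prime] [CharP K p],
    Infinite K → NIPField K → ∀ O : ValuationSubring K, Dfb O → HenselianLocalRing O

end Pool.Agent.N616.NH
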