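import Mathlib
import Pool.Agent.N616.NH.Stm

set_option autoImplicit false

/-!
# Project NH, part DFA

Definable sets in finite extensions: Boolean operations, change of variables, projections.
-/

namespace Pool.Agent.N616.NH

namespace DFA_

open FirstOrder FirstOrder.Language

variable {K : Type} [Field K] [FirstOrder.Ring.CompatibleRing K]

lemma dfK_inter {α : Type} {S T : Set (α → K)} (hS : DfK S) (hT : DfK T) : DfK (S ∩ T) := by
  obtain ⟨p, ψ, c, h⟩ := hS
  obtain ⟨q, χ, d, h'⟩ := hT
  refine ⟨p + q, (ψ.relabel (Sum.map id (Fin.castAdd q))) ⊓ (χ.relabel (Sum.map id (Fin.natAdd p))),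
    Fin.append c d, fun u => ?_⟩
  rw [Set.mem_inter_iff, h, h', Formula.realize_inf, Formula.realize_relabel,
    Formula.realize_relabel]
  have e1 : (Sum.elim u (Fin.append c d)) ∘ (Sum.map id (Fin.castAdd q)) = Sum.elim u c := by
    funext x
    rcases x with x | x <;> simp
  have e2 : (Sum.elim u (Fin.append c d)) ∘ (Sum.map id (Fin.natAdd p)) = Sum.elim u d := by
    funext x
    rcases x with x | x <;> simp
  rw [e1, e2]

lemma dfK_compl {α : Type} {S : Set (α → K)} (hS : DfK S) : DfK Sᶜ := by
  obtain ⟨p, ψ, c, h⟩ := hS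
  refine ⟨p, ψ.not, c, fun u => ?_⟩
  rw [Set.mem_compl_iff, h, Formula.realize_not]

lemma dfK_pre {α β : Type} (f : α → β) {S : Set (α → K)} (hS : DfK S) :
    DfK {v : β → K | (fun a => v (f a)) ∈ S} := by
  obtain ⟨p, ψ, c, h⟩ := hS
  refine ⟨p, ψ.relabel (Sum.map f id), c, fun u => ?_⟩
  rw [Set.mem_setOf_eq, h, Formula.realize_relabel]
  have e1 : (Sum.elim u c) ∘ (Sum.map f id) = Sum.elim (fun a => u (f a)) c := by
    funext x
    rcases x with x | x <;> simp
  rw [e1]

lemma dfK_proj {α β : Type} [Finite β] {S : Set (α ⊕ β → K)} (hS : DfK S) :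
    DfK {v : α → K | ∃ w : β → K, Sum.elim v w ∈ S} := by
  obtain ⟨p, ψ, c, h⟩ := hS
  let g : (α ⊕ β) ⊕ Fin p → (α ⊕ Fin p) ⊕ β :=
    Sum.elim (Sum.elim (fun a => Sum.inl (Sum.inl a)) Sum.inr) (fun i => Sum.inl (Sum.inr i))
  refine ⟨p, (ψ.relabel g).iExs β, c, fun u => ?_⟩
  rw [Set.mem_setOf_eq, Formula.realize_iExs]
  refine exists_congr fun w => ?_
  rw [h, Formula.realize_relabel]
  have e1 : (Sum.elim (Sum.elim u c) w) ∘ g = Sum.elim (Sum.elim u w) c := by
    funext x
    rcases x with (x | x) | x <;> simp [g]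
  rw [e1]

lemma co_surj (K : Type) [Field K] (L : Type) [Field L] [Algebra K L] [FiniteDimensional K L]
    (z : L) : co K L (fun j => (Module.finBasis K L).repr z j) = z := by
  unfold co
  exact (Module.finBasis K L).sum_repr z

end DFA_

open DFA_ in
/-- DFA: Boolean operations, change of variables, projections. -/
theorem DFA : S_DFA := by
  intro K _ _ L _ _ _
  refine ⟨?_, ?_, ?_, ?_⟩
  · intro ι S T hS hT
    exact dfK_inter hS hT
  · intro ι S hS
    exact dfK_compl hS
  · intro ι κ f S hS
    exact dfK_pre (fun x : κ × Fin (Module.finrank K L) => (f x.1, x.2)) hS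
  · intro ι κ _ S hS
    have h1 : DfK {u : (ι × Fin (Module.finrank K L)) ⊕ (κ × Fin (Module.finrank K L)) → K |
        (fun x : ι ⊕ κ => co K L fun j => u (Sum.elim (fun i => Sum.inl (i, j))
          (fun k => Sum.inr (k, j)) x)) ∈ S} := by
      have := dfK_pre (K := K) (fun x : (ι ⊕ κ) × Fin (Module.finrank K L) =>
        (Sum.elim (fun i => Sum.inl (i, x.2)) (fun k => Sum.inr (k, x.2)) x.1 :
          (ι × Fin (Module.finrank K L)) ⊕ (κ × Fin (Module.finrank K L)))) hS
      exact this
    have h2 := dfK_proj h1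
    show DfK _
    convert h2 using 1
    ext u
    simp only [Set.mem_setOf_eq]
    constructor
    · rintro ⟨w, hw⟩
      refine ⟨fun x => (Module.finBasis K L).repr (w x.1) x.2, ?_⟩
      convert hw using 1
      funext x
      rcases x with x | x
      · simp
      · simp [co_surj]
    · rintro ⟨w, hw⟩
      refine ⟨fun k => co K L fun j => w (k, j), ?_⟩
      convert hw using 1
      funext x
      rcases x with x | x
      · simp
      · simp

end Pool.Agent.N616.NH
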