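import Mathlib
import Pool.Agent.N616.NH.Stm

set_option autoImplicit false

/-!
# Project NH: DFB, polynomial equations and subsets of `K` are definable in finite extensions
-/

set_option linter.unusedSectionVars false

namespace Pool.Agent.N616.NH.DFB_

open FirstOrder FirstOrder.Language Pool.Agent.N616.NH

variable {K : Type} [Field K] [FirstOrder.Ring.CompatibleRing K] {α : Type}

/-- `F` is given by a term with parameters. -/
def Tm (F : (α → K) → K) : Prop :=
  ∃ (p : ℕ) (τ : Language.ring.Term (α ⊕ Fin p)) (c : Fin p → K),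
    ∀ u, τ.realize (Sum.elim u c) = F u

theorem Tm.var (i : α) : Tm (fun u : α → K => u i) :=
  ⟨0, Term.var (Sum.inl i), Fin.elim0, fun _ => rfl⟩

theorem Tm.const (a : K) : Tm (fun _ : α → K => a) :=
  ⟨1, Term.var (Sum.inr 0), fun _ => a, fun _ => rfl⟩

theorem elim_left {p q : ℕ} (u : α → K) (c : Fin p → K) (d : Fin q → K) :
    Sum.elim u (Fin.append c d) ∘ Sum.map id (Fin.castAdd q) = Sum.elim u c := by
  funext x
  rcases x with x | x
  · rfl
  · exact Fin.append_left c d x

theorem elim_right {p q : ℕ} (u : α → K) (c : Fin p → K) (d : Fin q → K) :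
    Sum.elim u (Fin.append c d) ∘ Sum.map id (Fin.natAdd p) = Sum.elim u d := by
  funext x
  rcases x with x | x
  · rfl
  · exact Fin.append_right c d x

theorem Tm.add {F G : (α → K) → K} (hF : Tm F) (hG : Tm G) : Tm (fun u => F u + G u) := by
  obtain ⟨p, τ, c, h⟩ := hF
  obtain ⟨q, σ, d, h'⟩ := hG
  refine ⟨p + q, τ.relabel (Sum.map id (Fin.castAdd q)) + σ.relabel (Sum.map id (Fin.natAdd p)),
    Fin.append c d, fun u => ?_⟩
  rw [FirstOrder.Ring.realize_add, Term.realize_relabel, Term.realize_relabel, elim_left,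
    elim_right, h, h']

theorem Tm.mul {F G : (α → K) → K} (hF : Tm F) (hG : Tm G) : Tm (fun u => F u * G u) := by
  obtain ⟨p, τ, c, h⟩ := hF
  obtain ⟨q, σ, d, h'⟩ := hG
  refine ⟨p + q, τ.relabel (Sum.map id (Fin.castAdd q)) * σ.relabel (Sum.map id (Fin.natAdd p)),
    Fin.append c d, fun u => ?_⟩
  rw [FirstOrder.Ring.realize_mul, Term.realize_relabel, Term.realize_relabel, elim_left,
    elim_right, h, h']

theorem Tm.sum {β : Type} (s : Finset β) {F : β → (α → K) → K} (hF : ∀ b, Tm (F b)) :
    Tm (fun u => ∑ b ∈ s, F b u) := by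
  classical
  induction s using Finset.induction_on with
  | empty =>
    simp only [Finset.sum_empty]
    exact Tm.const 0
  | insert b s hb ih =>
    simp only [Finset.sum_insert hb]
    exact (hF b).add ih

theorem dfk_inter {S T : Set (α → K)} (hS : DfK S) (hT : DfK T) : DfK (S ∩ T) := by
  obtain ⟨p, ψ, c, h⟩ := hS
  obtain ⟨q, φ, d, h'⟩ := hT
  refine ⟨p + q, ψ.relabel (Sum.map id (Fin.castAdd q)) ⊓ φ.relabel (Sum.map id (Fin.natAdd p)),
    Fin.append c d, fun u => ?_⟩
  rw [Formula.realize_inf, Formula.realize_relabel, Formula.realize_relabel, elim_left,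
    elim_right, ← h, ← h']
  exact Iff.rfl

theorem dfk_univ : DfK (Set.univ : Set (α → K)) :=
  ⟨0, ⊤, Fin.elim0, fun _ => ⟨fun _ => Formula.realize_top.2 trivial, fun _ => trivial⟩⟩

theorem dfk_eq {F G : (α → K) → K} (hF : Tm F) (hG : Tm G) : DfK {u : α → K | F u = G u} := by
  obtain ⟨p, τ, c, h⟩ := hF
  obtain ⟨q, σ, d, h'⟩ := hG
  refine ⟨p + q, Term.equal (τ.relabel (Sum.map id (Fin.castAdd q)))
    (σ.relabel (Sum.map id (Fin.natAdd p))), Fin.append c d, fun u => ?_⟩
  rw [Formula.realize_equal, Term.realize_relabel, Term.realize_relabel, elim_left,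
    elim_right, h, h']
  exact Iff.rfl

theorem dfk_all {β : Type} (s : Finset β) {S : β → Set (α → K)} (hS : ∀ b, DfK (S b)) :
    DfK {u : α → K | ∀ b ∈ s, u ∈ S b} := by
  classical
  induction s using Finset.induction_on with
  | empty =>
    have h : {u : α → K | ∀ b ∈ (∅ : Finset β), u ∈ S b} = Set.univ := by
      ext u
      simp
    rw [h]
    exact dfk_univ
  | insert b s hb ih =>
    have h : {u : α → K | ∀ b' ∈ insert b s, u ∈ S b'} = S b ∩ {u : α → K | ∀ b ∈ s, u ∈ S b} := by
      ext u
      simp
    rw [h]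
    exact dfk_inter (hS b) ih

theorem dfk_subst {O : ValuationSubring K} (hO : Dfb O) {F : (α → K) → K} (hF : Tm F) :
    DfK {u : α → K | F u ∈ O} := by
  obtain ⟨p, ψ, c, h⟩ := hO
  obtain ⟨q, σ, d, h'⟩ := hF
  refine ⟨p + q, BoundedFormula.subst ψ (Sum.elim
    (fun _ => σ.relabel (Sum.map id (Fin.natAdd p)))
    (fun i => Term.var (Sum.inr (Fin.castAdd q i)))), Fin.append c d, fun u => ?_⟩
  change F u ∈ O ↔ _
  rw [h (F u)]
  unfold Formula.Realize
  rw [BoundedFormula.realize_subst]
  have e : (Sum.elim (fun _ => F u) c : Fin 1 ⊕ Fin p → K) = fun a => Term.realize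
      (Sum.elim u (Fin.append c d)) ((Sum.elim
    (fun _ => σ.relabel (Sum.map id (Fin.natAdd p)))
    (fun i => Term.var (Sum.inr (Fin.castAdd q i))) :
      Fin 1 ⊕ Fin p → Language.ring.Term (α ⊕ Fin (p + q))) a) := by
    funext a
    rcases a with a | a
    · change F u = (σ.relabel (Sum.map id (Fin.natAdd p))).realize _
      rw [Term.realize_relabel, elim_right, h']
    · change c a = Fin.append c d (Fin.castAdd q a)
      rw [Fin.append_left]
  rw [← e]

variable {L : Type} [Field L] [Algebra K L] [FiniteDimensional K L]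

open Module in
theorem tm_repr {ι : Type} (P : MvPolynomial ι L) : ∀ k : Fin (finrank K L),
    Tm (fun u : ι × Fin (finrank K L) → K =>
      (finBasis K L).repr (MvPolynomial.eval (fun i => co K L fun j => u (i, j)) P) k) := by
  induction P using MvPolynomial.induction_on with
  | C a =>
    intro k
    simp only [MvPolynomial.eval_C]
    exact Tm.const _
  | add P Q hP hQ =>
    intro k
    simp only [map_add, Finsupp.add_apply]
    exact (hP k).add (hQ k)
  | mul_X P i hP =>
    intro k
    have key : (fun u : ι × Fin (finrank K L) → K => (finBasis K L).repr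
        (MvPolynomial.eval (fun i => co K L fun j => u (i, j)) (P * MvPolynomial.X i)) k) =
        fun u => ∑ a : Fin (finrank K L), ∑ j : Fin (finrank K L),
          (finBasis K L).repr (MvPolynomial.eval (fun i => co K L fun j => u (i, j)) P) a *
            (u (i, j) * (finBasis K L).repr (finBasis K L a * finBasis K L j) k) := by
      funext u
      rw [map_mul, MvPolynomial.eval_X]
      have h1 := (finBasis K L).sum_repr (MvPolynomial.eval (fun i => co K L fun j => u (i, j)) P)
      conv_lhs => rw [← h1]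
      unfold co
      rw [Finset.sum_mul, map_sum, Finsupp.finsetSum_apply]
      refine Finset.sum_congr rfl fun a _ => ?_
      rw [Finset.mul_sum, map_sum, Finsupp.finsetSum_apply]
      refine Finset.sum_congr rfl fun j _ => ?_
      rw [smul_mul_smul_comm, map_smul, Finsupp.smul_apply, smul_eq_mul, mul_assoc]
    rw [key]
    exact Tm.sum _ fun a => Tm.sum _ fun j => (hP a).mul ((Tm.var (i, j)).mul (Tm.const _))

open Module in
theorem dfl_poly {ι : Type} (P : MvPolynomial ι L) :
    DfL K L {v : ι → L | MvPolynomial.eval v P = 0} := by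
  unfold DfL
  have h : {u : ι × Fin (finrank K L) → K | (fun i => co K L fun j => u (i, j)) ∈
      {v : ι → L | MvPolynomial.eval v P = 0}} = {u : ι × Fin (finrank K L) → K |
      ∀ k ∈ (Finset.univ : Finset (Fin (finrank K L))), u ∈ {u : ι × Fin (finrank K L) → K |
        (finBasis K L).repr (MvPolynomial.eval (fun i => co K L fun j => u (i, j)) P) k = 0}} := by
    ext u
    simp only [Set.mem_ofPred_eq, Finset.mem_univ, forall_const]
    constructor
    · intro h k
      rw [h]
      simp
    · intro h
      apply (finBasis K L).repr.injective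
      rw [map_zero]
      exact Finsupp.ext h
  rw [h]
  exact dfk_all _ fun k => dfk_eq (tm_repr P k) (Tm.const 0)

open Module in
theorem dfl_sub {O : ValuationSubring K} (hO : Dfb O) :
    DfL K L {v : Fin 1 → L | ∃ x ∈ O, algebraMap K L x = v 0} := by
  unfold DfL
  obtain ⟨j₀, hj₀⟩ : ∃ j₀, (finBasis K L).repr (1 : L) j₀ ≠ 0 := by
    by_contra hcon
    push Not at hcon
    have h1 : (finBasis K L).repr (1 : L) = 0 := Finsupp.ext hcon
    exact one_ne_zero ((finBasis K L).repr.map_eq_zero_iff.1 h1)
  have hco : ∀ (u : Fin (finrank K L) → K) (j), (finBasis K L).repr (co K L u) j = u j := by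
    intro u j
    unfold co
    rw [map_sum, Finsupp.finsetSum_apply, Finset.sum_eq_single j]
    · rw [map_smul, Finsupp.smul_apply, Basis.repr_self, Finsupp.single_eq_same, smul_eq_mul,
        mul_one]
    · intro i _ hij
      rw [map_smul, Finsupp.smul_apply, Basis.repr_self, Finsupp.single_eq_of_ne hij.symm, smul_zero]
    · intro h
      exact absurd (Finset.mem_univ j) h
  have h : {u : Fin 1 × Fin (finrank K L) → K | (fun i => co K L fun j => u (i, j)) ∈
      {v : Fin 1 → L | ∃ x ∈ O, algebraMap K L x = v 0}} =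
      {u : Fin 1 × Fin (finrank K L) → K |
        u (0, j₀) * ((finBasis K L).repr (1 : L) j₀)⁻¹ ∈ O} ∩
      {u : Fin 1 × Fin (finrank K L) → K |
      ∀ k ∈ (Finset.univ : Finset (Fin (finrank K L))), u ∈ {u : Fin 1 × Fin (finrank K L) → K |
        u (0, k) * (finBasis K L).repr (1 : L) j₀ = u (0, j₀) * (finBasis K L).repr (1 : L) k}} := by
    ext u
    simp only [Set.mem_ofPred_eq, Set.mem_inter_iff, Finset.mem_univ, forall_const]
    constructor
    · rintro ⟨x, hx, he⟩
      have h1 : ∀ k, u (0, k) = x * (finBasis K L).repr (1 : L) k := by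
        intro k
        have h2 := hco (fun j => u (0, j)) k
        rw [← he, Algebra.algebraMap_eq_smul_one, map_smul, Finsupp.smul_apply, smul_eq_mul] at h2
        exact h2.symm
      refine ⟨?_, fun k => ?_⟩
      · rw [h1, mul_inv_cancel_right₀ hj₀]
        exact hx
      · rw [h1 k, h1 j₀]
        ring
    · rintro ⟨h1, h2⟩
      refine ⟨_, h1, ?_⟩
      apply (finBasis K L).repr.injective
      refine Finsupp.ext fun k => ?_
      rw [hco (fun j => u (0, j)) k, Algebra.algebraMap_eq_smul_one, map_smul, Finsupp.smul_apply,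
        smul_eq_mul]
      have h3 := h2 k
      field_simp
      linear_combination -h3
  rw [h]
  exact dfk_inter (dfk_subst hO ((Tm.var (0, j₀)).mul (Tm.const _))) (dfk_all _ fun k =>
    dfk_eq ((Tm.var (0, k)).mul (Tm.const _)) ((Tm.var (0, j₀)).mul (Tm.const _)))

end Pool.Agent.N616.NH.DFB_

namespace Pool.Agent.N616.NH

/-- **Polynomial equations and subsets of `K` are definable in finite extensions.** -/
theorem DFB : S_DFB := fun _ _ _ _ _ _ _ =>
  ⟨fun _ _ P => DFB_.dfl_poly P, fun _ hO => DFB_.dfl_sub hO⟩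

end Pool.Agent.N616.NH
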