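import Mathlib
import Pool.Agent.N616.NH.Stm

/-!
Project NH, part DJ: the relation `JS` is definable in finite extensions.
-/

set_option autoImplicit false

namespace Pool.Agent.N616.NH

open FirstOrder Polynomial Pool.Agent.W882.Nip3

namespace DJ_

section calc_

variable {K : Type} [Field K] [FirstOrder.Ring.CompatibleRing K] {L : Type} [Field L] [Algebra K L]
    [FiniteDimensional K L]

/-- definable predicates -/
def D (K : Type) [Field K] [FirstOrder.Ring.CompatibleRing K] {L : Type} [Field L] [Algebra K L]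
    [FiniteDimensional K L] {ι : Type} (p : (ι → L) → Prop) : Prop :=
  DfL K L {v : ι → L | p v}

theorem D_congr {ι : Type} {p q : (ι → L) → Prop} (h : ∀ v, p v ↔ q v) (hp : D K p) : D K q := by
  have : q = p := funext fun v => propext (h v).symm
  rw [this]
  exact hp

theorem D_and (hA : S_DFA) {ι : Type} {p q : (ι → L) → Prop} (hp : D K p) (hq : D K q) :
    D K (fun v => p v ∧ q v) := (hA K L).1 ι _ _ hp hq

theorem D_not (hA : S_DFA) {ι : Type} {p : (ι → L) → Prop} (hp : D K p) :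
    D K (fun v => ¬ p v) := (hA K L).2.1 ι _ hp

theorem D_re (hA : S_DFA) {ι κ : Type} (f : κ → ι) {p : (κ → L) → Prop} (hp : D K p) :
    D K (fun v : ι → L => p (fun k => v (f k))) := (hA K L).2.2.1 ι κ f _ hp

theorem D_ex (hA : S_DFA) {ι κ : Type} [Finite κ] {p : (ι ⊕ κ → L) → Prop} (hp : D K p) :
    D K (fun v : ι → L => ∃ w : κ → L, p (Sum.elim v w)) := (hA K L).2.2.2 ι κ _ hp

theorem D_ex1 (hA : S_DFA) {ι : Type} {p : (ι ⊕ Fin 1 → L) → Prop} (hp : D K p) :
    D K (fun v : ι → L => ∃ w : L, p (Sum.elim v (fun _ => w))) := by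
  refine D_congr (fun v => ⟨?_, ?_⟩) (D_ex hA hp)
  · rintro ⟨w, hw⟩
    refine ⟨w 0, ?_⟩
    have : (fun _ : Fin 1 => w 0) = w := by
      ext i
      rw [Subsingleton.elim i 0]
    rwa [this]
  · rintro ⟨w, hw⟩
    exact ⟨_, hw⟩

theorem D_all1 (hA : S_DFA) {ι : Type} {p : (ι ⊕ Fin 1 → L) → Prop} (hp : D K p) :
    D K (fun v : ι → L => ∀ w : L, p (Sum.elim v (fun _ => w))) := by
  refine D_congr (fun v => ?_) (D_not hA (D_ex1 hA (D_not hA hp)))
  push Not
  rfl

theorem D_imp (hA : S_DFA) {ι : Type} {p q : (ι → L) → Prop} (hp : D K p) (hq : D K q) :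
    D K (fun v => p v → q v) := by
  refine D_congr (fun v => ?_) (D_not hA (D_and hA hp (D_not hA hq)))
  tauto

theorem D_poly (hB : S_DFB) {ι : Type} [Finite ι] (P : MvPolynomial ι L) :
    D K (fun v => MvPolynomial.eval v P = 0) := (hB K L).1 ι P

theorem D_true (hB : S_DFB) {ι : Type} [Finite ι] : D K (fun _ : ι → L => True) := by
  refine D_congr (fun v => ?_) (D_poly hB (0 : MvPolynomial ι L))
  simp

theorem D_forall (hA : S_DFA) (hB : S_DFB) {ι : Type} [Finite ι] {J : Type} [Fintype J]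
    {p : J → (ι → L) → Prop} (hp : ∀ j, D K (p j)) : D K (fun v => ∀ j, p j v) := by
  classical
  have h : ∀ s : Finset J, D K (fun v => ∀ j ∈ s, p j v) := by
    intro s
    induction s using Finset.induction_on with
    | empty => exact D_congr (fun v => by simp) (D_true hB)
    | insert a s _ ih =>
      refine D_congr (fun v => ?_) (D_and hA (hp a) ih)
      simp
  exact D_congr (fun v => by simp) (h Finset.univ)

theorem D_mem (hA : S_DFA) {A : L → Prop} (h : D K (fun v : Fin 1 → L => A (v 0))) {ι : Type}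
    (i : ι) : D K (fun v : ι → L => A (v i)) := D_re hA (fun _ : Fin 1 => i) h

end calc_

section ri

variable {K : Type} [Field K] (O : ValuationSubring K) {L : Type} [Field L] [Algebra K L]
    [FiniteDimensional K L]

/-- the image of the valuation ring -/
def AO (O : ValuationSubring K) (L : Type) [Field L] [Algebra K L] (x : L) : Prop :=
  ∃ y ∈ O, algebraMap K L y = x

theorem mem_RI (z : L) : z ∈ RI O L ↔ ∃ a : Fin (Module.finrank K L) → L, (∀ i, AO O L (a i)) ∧
    z ^ Module.finrank K L + ∑ i, a i * z ^ (i : ℕ) = 0 := by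
  set n := Module.finrank K L with hn
  let _ : Algebra O L := ((algebraMap K L).comp O.subtype).toAlgebra
  have _ : IsScalarTower O K L := IsScalarTower.of_algebraMap_eq fun _ => rfl
  constructor
  · intro hz
    have hz' : IsIntegral O z := hz
    have h1 := minpoly.isIntegrallyClosed_eq_field_fractions' K hz'
    have h2 : (minpoly K z).natDegree ≤ n := minpoly.natDegree_le z
    have hm := minpoly.monic hz'
    have h3 : (minpoly K z).natDegree = (minpoly O z).natDegree := by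
      rw [h1, hm.natDegree_map]
    set q : O[X] := minpoly O z * X ^ (n - (minpoly O z).natDegree) with hq
    have hqm : q.Monic := hm.mul (monic_X_pow _)
    have hqn : q.natDegree = n := by
      rw [hq, hm.natDegree_mul (monic_X_pow _), natDegree_X_pow]
      omega
    have hq0 : aeval z q = 0 := by
      rw [hq, map_mul, minpoly.aeval, zero_mul]
    refine ⟨fun i => algebraMap K L (q.coeff i : O), fun i => ⟨_, (q.coeff i).2, rfl⟩, ?_⟩
    rw [aeval_eq_sum_range, hqn, Finset.sum_range_succ, ← hqn, hqm.coeff_natDegree, one_smul, hqn,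
      add_comm, Finset.sum_range] at hq0
    rw [← hq0]
    congr 1
  · rintro ⟨a, ha, h⟩
    choose y hy hya using ha
    set r : O[X] := ∑ i : Fin n, C (⟨y i, hy i⟩ : O) * X ^ (i : ℕ) with hr
    have hdeg : r.degree < n := degree_sum_fin_lt _
    refine ⟨X ^ n + r, monic_X_pow_add hdeg, ?_⟩
    rw [eval₂_add, eval₂_X_pow, hr, eval₂_finsetSum, ← h]
    congr 1
    refine Finset.sum_congr rfl fun i _ => ?_
    rw [eval₂_mul, eval₂_C, eval₂_X_pow]
    congr 1
    exact hya i

/-- the Jacobson radical as a subset of `L` -/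
def AJ (R : Subring L) (x : L) : Prop := ∃ hx : x ∈ R, (⟨x, hx⟩ : R) ∈ Jac R

theorem mem_AJ (R : Subring L) (x : L) :
    AJ R x ↔ x ∈ R ∧ ∀ r : L, r ∈ R → ∃ s : L, s ∈ R ∧ (x * r + 1) * s - 1 = 0 := by
  constructor
  · rintro ⟨hx, h⟩
    refine ⟨hx, fun r hr => ?_⟩
    rw [Ideal.mem_jacobson_bot] at h
    obtain ⟨s, hs⟩ := isUnit_iff_exists_inv.1 (h ⟨r, hr⟩)
    refine ⟨s, s.2, ?_⟩
    have := congrArg (Subtype.val) hs
    rw [sub_eq_zero]
    exact this
  · rintro ⟨hx, h⟩
    refine ⟨hx, ?_⟩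
    rw [Ideal.mem_jacobson_bot]
    intro r
    obtain ⟨s, hs, h1⟩ := h r r.2
    refine isUnit_iff_exists_inv.2 ⟨⟨s, hs⟩, ?_⟩
    refine Subtype.ext ?_
    exact sub_eq_zero.1 h1

theorem JS_iff (p : ℕ) (R : Subring L) (r x : L) :
    JS p R r x ↔ r ∈ R ∧ AJ R x ∧ ∃ y : L, AJ R y ∧ r * x - (y ^ p - y) = 0 := by
  constructor
  · rintro ⟨hr, hx, y, h1, h2, h3⟩
    refine ⟨hr, ⟨hx, h1⟩, y, ⟨y.2, h2⟩, ?_⟩
    have := congrArg (Subtype.val) h3
    rw [sub_eq_zero]
    exact this
  · rintro ⟨hr, ⟨hx, h1⟩, y, ⟨hy, h2⟩, h3⟩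
    exact ⟨hr, hx, ⟨y, hy⟩, h1, h2, Subtype.ext (sub_eq_zero.1 h3)⟩

end ri

end DJ_

open DJ_

/-- the relation `JS` is definable in finite extensions -/
theorem DJ (hA : S_DFA) (hB : S_DFB) : S_DJ := by
  intro K _ _ O hO L _ _ _ p
  set n := Module.finrank K L with hn
  have hAO : D K (fun v : Fin 1 → L => AO O L (v 0)) := (hB K L).2 O hO
  -- the integral closure
  have hR : D K (fun v : Fin 1 → L => v 0 ∈ RI O L) := by
    have h1 : D K (fun v : Fin 1 ⊕ Fin n → L => (∀ i, AO O L (v (Sum.inr i))) ∧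
        MvPolynomial.eval v (MvPolynomial.X (Sum.inl 0) ^ n + ∑ i : Fin n, MvPolynomial.X (Sum.inr i) * MvPolynomial.X (Sum.inl 0) ^ (i : ℕ)) = 0) :=
      D_and hA (D_forall hA hB fun i => D_mem hA hAO _) (D_poly hB _)
    refine D_congr (fun v => ?_) (D_ex hA h1)
    rw [mem_RI]
    simp only [map_add, map_pow, MvPolynomial.eval_X, map_sum, map_mul, Sum.elim_inl, Sum.elim_inr]
    rfl
  -- the Jacobson radical
  have hJ : D K (fun v : Fin 1 → L => AJ (RI O L) (v 0)) := by
    have h1 : D K (fun v : (Fin 1 ⊕ Fin 1) ⊕ Fin 1 → L => v (Sum.inr 0) ∈ RI O L ∧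
        MvPolynomial.eval v ((MvPolynomial.X (Sum.inl (Sum.inl 0)) * MvPolynomial.X (Sum.inl (Sum.inr 0)) + 1) * MvPolynomial.X (Sum.inr 0) - 1) = 0) :=
      D_and hA (D_mem hA hR _) (D_poly hB _)
    have h2 : D K (fun v : Fin 1 ⊕ Fin 1 → L => v (Sum.inr 0) ∈ RI O L →
        ∃ s : L, s ∈ RI O L ∧ (v (Sum.inl 0) * v (Sum.inr 0) + 1) * s - 1 = 0) := by
      refine D_imp hA (D_mem hA hR _) (D_congr (fun v => ?_) (D_ex1 hA h1))
      simp only [map_add, map_sub, map_one, MvPolynomial.eval_X, map_mul, Sum.elim_inl, Sum.elim_inr]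
    refine D_congr (fun v => ?_) (D_and hA hR (D_all1 hA h2))
    rw [mem_AJ]
    simp only [Sum.elim_inl, Sum.elim_inr]
  -- the relation
  have h1 : D K (fun v : Fin 2 ⊕ Fin 1 → L => AJ (RI O L) (v (Sum.inr 0)) ∧
      MvPolynomial.eval v (MvPolynomial.X (Sum.inl 0) * MvPolynomial.X (Sum.inl 1) - (MvPolynomial.X (Sum.inr 0) ^ p - MvPolynomial.X (Sum.inr 0))) = 0) :=
    D_and hA (D_mem hA hJ _) (D_poly hB _)
  refine D_congr (fun v => ?_) (D_and hA (D_mem hA hR 0) (D_and hA (D_mem hA hJ 1) (D_ex1 hA h1)))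
  rw [JS_iff]
  simp only [map_sub, map_pow, MvPolynomial.eval_X, map_mul, Sum.elim_inl, Sum.elim_inr]

end Pool.Agent.N616.NH
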