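import Pool.Agent.N616.NH.NP3

set_option autoImplicit false

/-! Project NH: the Artin-Schreier pattern modulo the maximal ideal of a valuation ring. -/

namespace Pool.Agent.N616.NH

open FirstOrder Pool.Agent.W882.Nip3

namespace FR_

/-- `z` is of the form `y ^ p - y` modulo the maximal ideal of `O`. -/
def AS {F : Type} [Field F] (O : ValuationSubring F) (p : ℕ) (z : F) : Prop :=
  ∃ y : F, O.valuation (z - (y ^ p - y)) < 1

variable {F : Type} [Field F]

theorem val_lt_of_residue (V V1 : ValuationSubring F) (hle : V ≤ V1) (z : V1)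
    (hz : IsLocalRing.residue V1 z = 0) : V.valuation (z : F) < 1 := by
  by_contra h
  rw [not_lt] at h
  have hz0 : (z : F) ≠ 0 := by
    intro h0
    rw [h0, map_zero] at h
    exact absurd h (not_le.2 zero_lt_one)
  have h1 : (z : F)⁻¹ ∈ V := by
    rw [← V.valuation_le_one_iff, map_inv₀]
    exact inv_le_one_of_one_le₀ h
  have h2 : IsUnit z := isUnit_iff_exists_inv.2 ⟨⟨(z : F)⁻¹, hle h1⟩, Subtype.ext (mul_inv_cancel₀ hz0)⟩
  exact (IsLocalRing.residue_ne_zero_iff_isUnit z).2 h2 hz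

theorem patternA (V V1 : ValuationSubring F) (hle : V ≤ V1) (p : ℕ) [hp : Fact p.Prime]
    [CharP (IsLocalRing.ResidueField V1) p] [Infinite (IsLocalRing.ResidueField V1)] (a : F)
    (ha : a ∈ V) (hna : ¬ AS V p a) (N : ℕ) :
    ∃ u : F, ∀ U : Finset (Fin N), ∃ x : F, ∀ i : Fin N, AS V p (u ^ (i : ℕ) * x) ↔ i ∉ U := by
  classical
  let a₁ : V1 := ⟨a, hle ha⟩
  obtain ⟨u₀, b₀, h₀⟩ := NP_.dual (L := IsLocalRing.ResidueField V1) p (IsLocalRing.residue V1 a₁) N
  choose x₀ hx₀ using h₀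
  obtain ⟨u, rfl⟩ := IsLocalRing.residue_surjective u₀
  choose b hb using fun j => IsLocalRing.residue_surjective (b₀ j)
  choose x hx using fun i j => IsLocalRing.residue_surjective (x₀ i j)
  refine ⟨(u : F), fun U => ⟨((∑ j ∈ U, b j : V1) : F), fun i => ?_⟩⟩
  have hpow : ∀ y z : V1, IsLocalRing.residue V1 ((y - z) ^ p) =
      IsLocalRing.residue V1 (y ^ p - z ^ p) := by
    intro y z
    rw [map_pow, map_sub, map_sub, map_pow, map_pow, sub_pow_char]
  have hsum : IsLocalRing.residue V1 (u ^ (i : ℕ) * (∑ j ∈ U, b j) - (if i ∈ U then a₁ else 0)) =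
      IsLocalRing.residue V1 ((∑ j ∈ U, x i j) ^ p - ∑ j ∈ U, x i j) := by
    have h1 : (∑ j ∈ U, x₀ i j) ^ p = ∑ j ∈ U, x₀ i j ^ p := by
      have := map_sum (frobenius (IsLocalRing.ResidueField V1) p) (fun j => x₀ i j) U
      simpa only [frobenius_def] using this
    have h2 : ∀ j ∈ U, x₀ i j ^ p - x₀ i j =
        IsLocalRing.residue V1 u ^ (i : ℕ) * b₀ j -
          (if i = j then IsLocalRing.residue V1 a₁ else 0) := fun j _ => (hx₀ i j).symm
    have h3 : IsLocalRing.residue V1 (if i ∈ U then a₁ else 0) =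
        if i ∈ U then IsLocalRing.residue V1 a₁ else 0 := by
      split_ifs
      · rfl
      · exact map_zero _
    rw [map_sub, map_mul, map_pow, map_sum, h3, map_sub, map_pow, map_sum]
    simp only [hb, hx]
    rw [h1, ← Finset.sum_sub_distrib, Finset.sum_congr rfl h2, Finset.sum_sub_distrib,
      ← Finset.mul_sum, Finset.sum_ite_eq]
  constructor
  · rintro ⟨y, hy⟩ hi
    rw [if_pos hi] at hsum
    -- `y` is in `V1`
    have h1 : (u : F) ^ (i : ℕ) * ((∑ j ∈ U, b j : V1) : F) - (y ^ p - y) ∈ V1 :=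
      hle ((V.valuation_le_one_iff _).1 hy.le)
    have h2 : y ^ p - y ∈ V1 := by
      have h3 : (u : F) ^ (i : ℕ) * ((∑ j ∈ U, b j : V1) : F) ∈ V1 :=
        (u ^ (i : ℕ) * (∑ j ∈ U, b j) : V1).2
      have h4 := sub_mem h3 h1
      rwa [sub_sub_cancel] at h4
    have h3 : y ∈ V1 := NP_.mem_of_pow_sub V1 hp.out.two_le h2
    let y₁ : V1 := ⟨y, h3⟩
    set X : V1 := ∑ j ∈ U, x i j
    have h5 : IsLocalRing.residue V1 (u ^ (i : ℕ) * (∑ j ∈ U, b j) - a₁ - (X ^ p - X)) = 0 := by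
      rw [map_sub, hsum, sub_self]
    have h6 : IsLocalRing.residue V1 ((y₁ - X) ^ p - (y₁ ^ p - X ^ p)) = 0 := by
      rw [map_sub, hpow, sub_self]
    have h7 := val_lt_of_residue V V1 hle _ h5
    have h8 := val_lt_of_residue V V1 hle _ h6
    apply hna
    refine ⟨y - X, ?_⟩
    have h9 : a - ((y - X) ^ p - (y - X)) =
        ((u : F) ^ (i : ℕ) * ((∑ j ∈ U, b j : V1) : F) - (y ^ p - y)) -
        ((u ^ (i : ℕ) * (∑ j ∈ U, b j) - a₁ - (X ^ p - X) : V1) : F) -
        (((y₁ - X) ^ p - (y₁ ^ p - X ^ p) : V1) : F) := by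
      push_cast
      ring
    rw [h9]
    exact (Valuation.map_sub _ _ _).trans_lt (max_lt ((Valuation.map_sub _ _ _).trans_lt
      (max_lt hy h7)) h8)
  · intro hi
    rw [if_neg hi, sub_zero] at hsum
    set X : V1 := ∑ j ∈ U, x i j
    have h5 : IsLocalRing.residue V1 (u ^ (i : ℕ) * (∑ j ∈ U, b j) - (X ^ p - X)) = 0 := by
      rw [map_sub, hsum, sub_self]
    have h7 := val_lt_of_residue V V1 hle _ h5
    refine ⟨X, ?_⟩
    have h9 : (u : F) ^ (i : ℕ) * ((∑ j ∈ U, b j : V1) : F) - ((X : F) ^ p - X) =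
        ((u ^ (i : ℕ) * (∑ j ∈ U, b j) - (X ^ p - X) : V1) : F) := by
      push_cast
      ring
    rw [h9]
    exact h7

end FR_

end Pool.Agent.N616.NH
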