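import Pool.Agent.N616.NH.Stm
import Pool.Agent.Results.MP_3554b5_lc.UnramifiedNorms

/-!
Project NH: the place of rank one near a small element of a valuation ring.
-/

set_option autoImplicit false

namespace Pool.Agent.N616.NH.PL_

open Pool.Agent.W882.Nip3 Pool.Agent.TH686.NF NNReal
open Pool.Agent.Results.MP_3554b5_lc.UnramifiedNorms (ValuedPlace toPlace)

/-! ## Archimedean groups with zero -/

open WithZero in
lemma arch_embed (Γ : Type) [LinearOrderedCommGroupWithZero Γ] [MulArchimedean Γ] :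
    ∃ f : Γ →*₀ ℝ≥0, StrictMono f := by
  obtain ⟨f, hf⟩ :=
    Archimedean.exists_orderAddMonoidHom_real_injective (Additive Γˣ)
  let e := AddMonoidHom.toMultiplicativeRight (α := Γˣ) (β := ℝ) f
  have he : StrictMono e := by
    simp only [AddMonoidHom.coe_toMultiplicativeRight, AddMonoidHom.coe_coe, e]
    exact StrictMono.comp strictMono_id (f.monotone'.strictMono_of_injective hf)
  let rf : Multiplicative ℝ →* ℝ≥0ˣ := {
    toFun x := Units.mk0 (.mk ((2 : ℝ) ^ (x.toAdd)) (by positivity)) <| by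
      simp only [ne_eq, NNReal.eq_iff, NNReal.coe_mk, NNReal.coe_zero]
      positivity
    map_one' := by ext; simp
    map_mul' _ _ := by ext; simp [Real.rpow_add]
    }
  have H : StrictMono (map' (rf.comp e)) := by
    refine map'_strictMono ?_
    intro a b h
    simpa [← Units.val_lt_val, ← NNReal.coe_lt_coe, rf] using he h
  exact ⟨withZeroUnitsEquiv.toMonoidWithZeroHom.comp <| (map' (rf.comp e)).comp
      withZeroUnitsEquiv.symm.toMonoidWithZeroHom,
    withZeroUnitsEquiv_strictMono.comp <| H.comp withZeroUnitsEquiv_symm_strictMono⟩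

/-! ## A coarsening of rank one -/

section rank

variable {k : Type} [Field k] {Γ : Type} [LinearOrderedCommGroupWithZero Γ]

/-- the coarsening -/
def V0 (vb : Valuation k Γ) (γ : Γ) (h1 : γ < 1) : ValuationSubring k where
  carrier := {z | ∀ n : ℕ, γ * vb z ^ n ≤ 1}
  mul_mem' := by
    intro x y hx hy n
    rcases le_total (vb x) (vb y) with h | h
    · refine le_trans ?_ (hy (2 * n))
      rw [map_mul, mul_pow, two_mul, pow_add]
      gcongr
    · refine le_trans ?_ (hx (2 * n))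
      rw [map_mul, mul_pow, two_mul, pow_add]
      gcongr
  one_mem' := by
    intro n
    rw [map_one, one_pow, mul_one]
    exact h1.le
  add_mem' := by
    intro x y hx hy n
    rcases le_total (vb x) (vb y) with h | h
    · refine le_trans ?_ (hy n)
      have := (vb.map_add x y).trans (max_le h le_rfl)
      gcongr
    · refine le_trans ?_ (hx n)
      have := (vb.map_add x y).trans (max_le le_rfl h)
      gcongr
  zero_mem' := by
    intro n
    rw [map_zero]
    rcases Nat.eq_zero_or_pos n with h | h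
    · rw [h, pow_zero, mul_one]
      exact h1.le
    · rw [zero_pow h.ne', mul_zero]
      exact zero_le_one
  neg_mem' := by
    intro x hx n
    rw [Valuation.map_neg]
    exact hx n
  mem_or_inv_mem' := by
    intro x
    by_cases hx : vb x ≤ 1
    · left
      intro n
      calc γ * vb x ^ n ≤ 1 * 1 := by
            gcongr
            exact pow_le_one₀ zero_le hx
        _ = 1 := one_mul 1
    · right
      intro n
      push Not at hx
      have hx' : vb x⁻¹ ≤ 1 := by
        rw [map_inv₀]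
        exact inv_le_one_of_one_le₀ hx.le
      calc γ * vb x⁻¹ ^ n ≤ 1 * 1 := by
            gcongr
            exact pow_le_one₀ zero_le hx'
        _ = 1 := one_mul 1

lemma mem_V0 {vb : Valuation k Γ} {γ : Γ} {h1 : γ < 1} {z : k} :
    z ∈ V0 vb γ h1 ↔ ∀ n : ℕ, γ * vb z ^ n ≤ 1 := Iff.rfl

lemma mem_V0_of_le {vb : Valuation k Γ} {γ : Γ} {h1 : γ < 1} {z : k} (hz : vb z ≤ 1) :
    z ∈ V0 vb γ h1 := by
  intro n
  calc γ * vb z ^ n ≤ 1 * 1 := by
        gcongr
        exact pow_le_one₀ zero_le hz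
    _ = 1 := one_mul 1

lemma V0_mono {vb : Valuation k Γ} {γ : Γ} {h1 : γ < 1} {x y : k} (h : vb x ≤ vb y) :
    (V0 vb γ h1).valuation x ≤ (V0 vb γ h1).valuation y := by
  by_cases hy : y = 0
  · rw [hy, map_zero] at h
    have : x = 0 := vb.zero_iff.1 (le_antisymm h zero_le)
    rw [this, hy]
  · have hy' : 0 < vb y := zero_lt_iff.2 (vb.ne_zero_iff.2 hy)
    have h2 : vb (x / y) ≤ 1 := by
      rw [map_div₀]
      exact div_le_one_of_le₀ h zero_le
    have h3 := ((V0 vb γ h1).valuation_le_one_iff (x / y)).2 (mem_V0_of_le h2)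
    rw [map_div₀] at h3
    have hy2 : 0 < (V0 vb γ h1).valuation y := zero_lt_iff.2 ((Valuation.ne_zero_iff _).2 hy)
    exact (div_le_one₀ hy2).1 h3

lemma V0_arch {vb : Valuation k Γ} {γ : Γ} (h0 : 0 < γ) (h1 : γ < 1)
    (hc : ∀ z : k, z ≠ 0 → ∃ n : ℕ, γ ^ n ≤ vb z) : MulArchimedean (V0 vb γ h1).ValueGroup := by
  refine ⟨fun a b hb => ?_⟩
  obtain ⟨x, rfl⟩ := (V0 vb γ h1).valuation_surjective a
  obtain ⟨y, rfl⟩ := (V0 vb γ h1).valuation_surjective b
  by_cases hx : x = 0
  · refine ⟨0, ?_⟩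
    rw [hx, map_zero]
    exact zero_le
  · have hy : y ∉ V0 vb γ h1 := by
      rw [← ValuationSubring.valuation_le_one_iff]
      exact not_le.2 hb
    rw [mem_V0] at hy
    push Not at hy
    obtain ⟨n, hn⟩ := hy
    obtain ⟨m, hm⟩ := hc x⁻¹ (inv_ne_zero hx)
    refine ⟨n * m, ?_⟩
    rw [← map_pow]
    apply V0_mono
    rw [map_pow]
    have hγ : γ ≠ 0 := h0.ne'
    have hx0 : vb x ≠ 0 := (Valuation.ne_zero_iff _).2 hx
    have h2 : vb x ≤ (γ⁻¹) ^ m := by
      rw [map_inv₀] at hm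
      rw [inv_pow]
      exact (le_inv_comm₀ (pow_pos h0 m) (zero_lt_iff.2 hx0)).1 hm
    have h3 : γ⁻¹ ≤ vb y ^ n := by
      rw [inv_le_iff_one_le_mul₀ h0, mul_comm]
      exact hn.le
    calc vb x ≤ (γ⁻¹) ^ m := h2
      _ ≤ (vb y ^ n) ^ m := by gcongr
      _ = vb y ^ (n * m) := (pow_mul _ _ _).symm

/-- the real valuation -/
lemma exists_real (vb : Valuation k Γ) {γ : Γ} (h0 : 0 < γ) (h1 : γ < 1)
    (hc : ∀ z : k, z ≠ 0 → ∃ n : ℕ, γ ^ n ≤ vb z) :
    ∃ vr : Valuation k ℝ≥0, (∀ x y, vb x ≤ vb y → vr x ≤ vr y) ∧ ∀ x, vb x ≤ γ → vr x < 1 := by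
  have := V0_arch h0 h1 hc
  obtain ⟨f, hf⟩ := arch_embed (V0 vb γ h1).ValueGroup
  refine ⟨(V0 vb γ h1).valuation.map f hf.monotone, fun x y h => ?_, fun x h => ?_⟩
  · exact hf.monotone (V0_mono h)
  · have h2 : (V0 vb γ h1).valuation x < 1 := by
      by_contra hcon
      push Not at hcon
      have hx : x ≠ 0 := by
        rintro rfl
        rw [map_zero] at hcon
        exact absurd hcon (not_le.2 zero_lt_one)
      have h3 : x⁻¹ ∈ V0 vb γ h1 := by
        rw [← ValuationSubring.valuation_le_one_iff, map_inv₀]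
        exact inv_le_one_of_one_le₀ hcon
      have h4 := h3 2
      have hx0 : 0 < vb x := zero_lt_iff.2 ((Valuation.ne_zero_iff _).2 hx)
      have h5 : γ⁻¹ ≤ vb x⁻¹ := by
        rw [map_inv₀]
        exact inv_anti₀ hx0 h
      have h6 : γ⁻¹ ≤ γ * vb x⁻¹ ^ 2 := by
        calc γ⁻¹ = γ * (γ⁻¹) ^ 2 := by field_simp
          _ ≤ γ * vb x⁻¹ ^ 2 := by gcongr
      have h7 : 1 < γ⁻¹ := (one_lt_inv₀ h0).2 h1
      exact absurd (h6.trans h4) (not_le.2 h7)
    have h3 := hf h2
    rw [map_one] at h3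
    exact h3

end rank

/-! ## Extension to the completion -/

section ext

variable {k : Type} [Field k] {F : Type} [Field F] {Γ : Type} [LinearOrderedCommGroupWithZero Γ]
  {Λ : Type} [LinearOrderedCommGroupWithZero Λ]
  {vb : Valuation k Γ} {vr : Valuation k Λ} {N : Valuation F Λ} {e : k →+* F}

/-- `k` is dense in `F`, and `vr` is coarser than `vb` -/
structure Ex (vb : Valuation k Γ) (vr : Valuation k Λ) (N : Valuation F Λ) (e : k →+* F) :
    Prop where
  he : ∀ x, N (e x) = vr x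
  hn : ∀ y, y ≠ 0 → ∃ x, N (y - e x) < N y
  hm : ∀ x y, vb x ≤ vb y → vr x ≤ vr y

lemma Ex.lt (h : Ex vb vr N e) {x y : k} (hxy : vr x < vr y) : vb x < vb y := by
  by_contra hcon
  exact absurd (h.hm y x (not_lt.1 hcon)) (not_le.2 hxy)

lemma ap_val {y : F} {z : k} (h : N (y - e z) < N y) : N (e z) = N y := by
  have e1 : e z = y - (y - e z) := by ring
  rw [e1]
  exact Valuation.map_sub_eq_of_lt_left _ h

lemma Ex.ap_uniq (h : Ex vb vr N e) {y : F} {z z' : k} (hz : N (y - e z) < N y)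
    (hz' : N (y - e z') < N y) : vb z = vb z' := by
  have h1 : vr (z - z') < vr z := by
    rw [← h.he, ← h.he, ap_val hz]
    have e1 : e (z - z') = (y - e z') - (y - e z) := by
      rw [map_sub]
      ring
    rw [e1]
    exact N.map_sub_lt hz' hz
  have h2 := h.lt h1
  have e2 : z' = z - (z - z') := by ring
  rw [e2]
  exact (Valuation.map_sub_eq_of_lt_left _ h2).symm

open Classical in
/-- the extension of `vb` to `F` -/
noncomputable def wf (h : Ex vb vr N e) (y : F) : Γ :=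
  if hy : y = 0 then 0 else vb (h.hn y hy).choose

lemma wf_zero (h : Ex vb vr N e) : wf h 0 = 0 := by
  unfold wf
  rw [dif_pos rfl]

lemma ne_zero_of_ap {y : F} {z : k} (hz : N (y - e z) < N y) : y ≠ 0 := by
  rintro rfl
  rw [map_zero] at hz
  exact absurd hz (not_lt.2 zero_le)

lemma wf_eq (h : Ex vb vr N e) {y : F} {z : k} (hz : N (y - e z) < N y) : wf h y = vb z := by
  have hy : y ≠ 0 := ne_zero_of_ap hz
  unfold wf
  rw [dif_neg hy]
  exact h.ap_uniq (h.hn y hy).choose_spec hz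

lemma wf_emb (h : Ex vb vr N e) (z : k) : wf h (e z) = vb z := by
  by_cases hz : z = 0
  · rw [hz, map_zero, map_zero, wf_zero]
  · refine wf_eq h ?_
    rw [sub_self, map_zero, h.he]
    exact zero_lt_iff.2 ((Valuation.ne_zero_iff _).2 hz)

lemma wf_lt (h : Ex vb vr N e) {y y' : F} (hyy : N y < N y') : wf h y < wf h y' := by
  have hy' : y' ≠ 0 := by
    rintro rfl
    rw [map_zero] at hyy
    exact absurd hyy (not_lt.2 zero_le)
  obtain ⟨z', hz'⟩ := h.hn y' hy'
  rw [wf_eq h hz']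
  by_cases hy : y = 0
  · rw [hy, wf_zero]
    apply zero_lt_iff.2
    apply (Valuation.ne_zero_iff _).2
    rintro rfl
    rw [map_zero, sub_zero] at hz'
    exact lt_irrefl _ hz'
  · obtain ⟨z, hz⟩ := h.hn y hy
    rw [wf_eq h hz]
    apply h.lt
    rw [← h.he, ← h.he, ap_val hz, ap_val hz']
    exact hyy

lemma wf_mul (h : Ex vb vr N e) (y y' : F) : wf h (y * y') = wf h y * wf h y' := by
  by_cases hy : y = 0
  · rw [hy, zero_mul, wf_zero, zero_mul]
  by_cases hy' : y' = 0
  · rw [hy', mul_zero, wf_zero, mul_zero]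
  obtain ⟨z, hz⟩ := h.hn y hy
  obtain ⟨z', hz'⟩ := h.hn y' hy'
  have h0 : 0 < N y := zero_lt_iff.2 ((Valuation.ne_zero_iff _).2 hy)
  have h0' : 0 < N y' := zero_lt_iff.2 ((Valuation.ne_zero_iff _).2 hy')
  rw [wf_eq h hz, wf_eq h hz', ← map_mul]
  refine wf_eq h ?_
  have e1 : y * y' - e (z * z') = (y - e z) * y' + e z * (y' - e z') := by
    rw [map_mul]
    ring
  rw [e1]
  refine N.map_add_lt ?_ ?_
  · rw [map_mul, map_mul]
    exact mul_lt_mul_of_pos_right hz h0'
  · rw [map_mul, map_mul, ap_val hz]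
    exact mul_lt_mul_of_pos_left hz' h0

lemma wf_add (h : Ex vb vr N e) (y y' : F) : wf h (y + y') ≤ max (wf h y) (wf h y') := by
  by_cases hy : y = 0
  · rw [hy, zero_add]
    exact le_max_right _ _
  by_cases hy' : y' = 0
  · rw [hy', add_zero]
    exact le_max_left _ _
  rcases lt_or_ge (N (y + y')) (N y) with h1 | h1
  · exact (wf_lt h h1).le.trans (le_max_left _ _)
  rcases lt_or_ge (N (y + y')) (N y') with h2 | h2
  · exact (wf_lt h h2).le.trans (le_max_right _ _)
  obtain ⟨z, hz⟩ := h.hn y hy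
  obtain ⟨z', hz'⟩ := h.hn y' hy'
  have h3 : N ((y + y') - e (z + z')) < N (y + y') := by
    have e1 : (y + y') - e (z + z') = (y - e z) + (y' - e z') := by
      rw [map_add]
      ring
    rw [e1]
    exact N.map_add_lt (hz.trans_le h1) (hz'.trans_le h2)
  rw [wf_eq h h3, wf_eq h hz, wf_eq h hz']
  exact vb.map_add _ _

/-- the extension as a valuation -/
noncomputable def wV (h : Ex vb vr N e) : Valuation F Γ where
  toFun := wf h
  map_zero' := wf_zero h
  map_one' := by
    have := wf_emb h 1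
    rwa [map_one, map_one] at this
  map_mul' := wf_mul h
  map_add_le_max' := wf_add h

lemma wV_emb (h : Ex vb vr N e) (z : k) : wV h (e z) = vb z := wf_emb h z

lemma wV_near (h : Ex vb vr N e) (y : F) (hy : y ≠ 0) : ∃ z : k, wV h (y - e z) < wV h y := by
  obtain ⟨z, hz⟩ := h.hn y hy
  exact ⟨z, wf_lt h hz⟩

end ext

/-! ## The residue field of the ring of the elements of size at most a power of `γ⁻¹` -/

section residue

variable {K : Type} [Field K] {Γ : Type} [LinearOrderedCommGroupWithZero Γ]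

/-- the overring -/
def O1 (v : Valuation K Γ) (γ : Γ) (h1 : γ ≤ 1) : ValuationSubring K where
  carrier := {x | ∃ n : ℕ, γ ^ n * v x ≤ 1}
  mul_mem' := by
    rintro x y ⟨n, hn⟩ ⟨m, hm⟩
    refine ⟨n + m, ?_⟩
    calc γ ^ (n + m) * v (x * y) = (γ ^ n * v x) * (γ ^ m * v y) := by
          rw [map_mul, pow_add]
          exact mul_mul_mul_comm _ _ _ _
      _ ≤ 1 * 1 := by gcongr
      _ = 1 := one_mul 1
  one_mem' := ⟨0, by rw [map_one, pow_zero, one_mul]⟩
  add_mem' := by
    rintro x y ⟨n, hn⟩ ⟨m, hm⟩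
    refine ⟨n + m, ?_⟩
    have hx : γ ^ (n + m) * v x ≤ 1 := by
      calc γ ^ (n + m) * v x = γ ^ m * (γ ^ n * v x) := by
            rw [pow_add, mul_comm (γ ^ n), mul_assoc]
        _ ≤ 1 * 1 := by
            gcongr
            exact pow_le_one₀ zero_le h1
        _ = 1 := one_mul 1
    have hy : γ ^ (n + m) * v y ≤ 1 := by
      calc γ ^ (n + m) * v y = γ ^ n * (γ ^ m * v y) := by
            rw [pow_add, mul_assoc]
        _ ≤ 1 * 1 := by
            gcongr
            exact pow_le_one₀ zero_le h1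
        _ = 1 := one_mul 1
    rcases le_total (v x) (v y) with h | h
    · refine le_trans ?_ hy
      have := (v.map_add x y).trans (max_le h le_rfl)
      gcongr
    · refine le_trans ?_ hx
      have := (v.map_add x y).trans (max_le le_rfl h)
      gcongr
  zero_mem' := ⟨0, by rw [map_zero, mul_zero]; exact zero_le_one⟩
  neg_mem' := by
    rintro x ⟨n, hn⟩
    exact ⟨n, by rwa [Valuation.map_neg]⟩
  mem_or_inv_mem' := by
    intro x
    by_cases hx : v x ≤ 1
    · exact Or.inl ⟨0, by rwa [pow_zero, one_mul]⟩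
    · right
      push Not at hx
      refine ⟨0, ?_⟩
      rw [pow_zero, one_mul, map_inv₀]
      exact inv_le_one_of_one_le₀ hx.le

variable {v : Valuation K Γ} {γ : Γ} {h1 : γ ≤ 1}

lemma mem_O1 {x : K} : x ∈ O1 v γ h1 ↔ ∃ n : ℕ, γ ^ n * v x ≤ 1 := Iff.rfl

lemma mem_O1_of_le {x : K} (hx : v x ≤ 1) : x ∈ O1 v γ h1 := ⟨0, by rwa [pow_zero, one_mul]⟩

/-- the residue map -/
noncomputable abbrev rs (v : Valuation K Γ) (γ : Γ) (h1 : γ ≤ 1) :
    O1 v γ h1 →+* IsLocalRing.ResidueField (O1 v γ h1) := IsLocalRing.residue _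

lemma rs_ne_iff (x : O1 v γ h1) : rs v γ h1 x ≠ 0 ↔ (x : K) ≠ 0 ∧ ∃ n : ℕ, γ ^ n ≤ v x := by
  rw [rs, IsLocalRing.residue_ne_zero_iff_isUnit]
  constructor
  · intro hx
    obtain ⟨u, rfl⟩ := hx
    have h2 : ((u : O1 v γ h1) : K) * (((u⁻¹ : (O1 v γ h1)ˣ) : O1 v γ h1) : K) = 1 := by
      have := congrArg (fun t : O1 v γ h1 => (t : K)) u.mul_inv
      exact this
    have hne : ((u : O1 v γ h1) : K) ≠ 0 := left_ne_zero_of_mul_eq_one h2
    refine ⟨hne, ?_⟩
    obtain ⟨n, hn⟩ := ((u⁻¹ : (O1 v γ h1)ˣ) : O1 v γ h1).2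
    refine ⟨n, ?_⟩
    have h3 : v ((u : O1 v γ h1) : K) * v (((u⁻¹ : (O1 v γ h1)ˣ) : O1 v γ h1) : K) = 1 := by
      rw [← map_mul, h2, map_one]
    calc γ ^ n = v ((u : O1 v γ h1) : K) *
          (γ ^ n * v (((u⁻¹ : (O1 v γ h1)ˣ) : O1 v γ h1) : K)) := by
          rw [mul_left_comm, h3, mul_one]
      _ ≤ v ((u : O1 v γ h1) : K) * 1 := by gcongr
      _ = _ := mul_one _
  · rintro ⟨hne, n, hn⟩
    have hx0 : v (x : K) ≠ 0 := (Valuation.ne_zero_iff _).2 hne
    have h2 : (x : K)⁻¹ ∈ O1 v γ h1 := by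
      refine ⟨n, ?_⟩
      rw [map_inv₀]
      calc γ ^ n * (v (x : K))⁻¹ ≤ v (x : K) * (v (x : K))⁻¹ := by gcongr
        _ = 1 := mul_inv_cancel₀ hx0
    refine IsUnit.of_mul_eq_one ⟨(x : K)⁻¹, h2⟩ ?_
    apply Subtype.ext
    exact mul_inv_cancel₀ hne

lemma rs_val {x y : O1 v γ h1} (hx : rs v γ h1 x ≠ 0) (hxy : rs v γ h1 x = rs v γ h1 y) :
    v (x : K) = v (y : K) := by
  obtain ⟨hx0, n, hn⟩ := (rs_ne_iff x).1 hx
  have h2 : rs v γ h1 (x - y) = 0 := by rw [map_sub, hxy, sub_self]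
  have h3 : v ((x : K) - y) < v (x : K) := by
    by_cases h4 : (x : K) - y = 0
    · rw [h4, map_zero]
      exact zero_lt_iff.2 ((Valuation.ne_zero_iff _).2 hx0)
    · by_contra h5
      push Not at h5
      exact (rs_ne_iff (x - y)).2 ⟨h4, n, hn.trans h5⟩ h2
  have e1 : (y : K) = x - (x - y) := by ring
  rw [e1]
  exact (Valuation.map_sub_eq_of_lt_left _ h3).symm

open Classical in
/-- the valuation of the residue field -/
noncomputable def vbf (v : Valuation K Γ) (γ : Γ) (h1 : γ ≤ 1)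
    (z : IsLocalRing.ResidueField (O1 v γ h1)) : Γ :=
  if z = 0 then 0 else v ((IsLocalRing.residue_surjective z).choose : O1 v γ h1)

lemma vbf_zero : vbf v γ h1 0 = 0 := by
  unfold vbf
  rw [if_pos rfl]

lemma vbf_rs (x : O1 v γ h1) (hx : rs v γ h1 x ≠ 0) : vbf v γ h1 (rs v γ h1 x) = v (x : K) := by
  unfold vbf
  rw [if_neg hx]
  have h2 := (IsLocalRing.residue_surjective (rs v γ h1 x)).choose_spec
  exact rs_val (by rw [h2]; exact hx) h2

/-- the valuation of the residue field -/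
noncomputable def vb (v : Valuation K Γ) (γ : Γ) (h1 : γ ≤ 1) :
    Valuation (IsLocalRing.ResidueField (O1 v γ h1)) Γ where
  toFun := vbf v γ h1
  map_zero' := vbf_zero
  map_one' := by
    have h2 : rs v γ h1 1 ≠ 0 := by
      rw [map_one]
      exact one_ne_zero
    have h3 := vbf_rs (1 : O1 v γ h1) h2
    rw [map_one] at h3
    rw [h3]
    exact map_one v
  map_mul' := by
    intro z z'
    by_cases hz : z = 0
    · rw [hz, zero_mul, vbf_zero, zero_mul]
    by_cases hz' : z' = 0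
    · rw [hz', mul_zero, vbf_zero, mul_zero]
    obtain ⟨x, rfl⟩ := IsLocalRing.residue_surjective z
    obtain ⟨x', rfl⟩ := IsLocalRing.residue_surjective z'
    have h2 : rs v γ h1 (x * x') ≠ 0 := by
      rw [map_mul]
      exact mul_ne_zero hz hz'
    have h3 := vbf_rs (x * x') h2
    rw [map_mul] at h3
    rw [h3, vbf_rs x hz, vbf_rs x' hz', ← map_mul]
    rfl
  map_add_le_max' := by
    intro z z'
    by_cases hz : z = 0
    · rw [hz, zero_add]
      exact le_max_right _ _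
    by_cases hz' : z' = 0
    · rw [hz', add_zero]
      exact le_max_left _ _
    by_cases hzz : z + z' = 0
    · rw [hzz, vbf_zero]
      exact zero_le
    obtain ⟨x, rfl⟩ := IsLocalRing.residue_surjective z
    obtain ⟨x', rfl⟩ := IsLocalRing.residue_surjective z'
    have h2 : rs v γ h1 (x + x') ≠ 0 := by
      rw [map_add]
      exact hzz
    have h3 := vbf_rs (x + x') h2
    rw [map_add] at h3
    rw [h3, vbf_rs x hz, vbf_rs x' hz']
    exact v.map_add _ _

lemma vb_rs (x : O1 v γ h1) (hx : rs v γ h1 x ≠ 0) : vb v γ h1 (rs v γ h1 x) = v (x : K) :=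
  vbf_rs x hx

end residue

end Pool.Agent.N616.NH.PL_

namespace Pool.Agent.N616.NH

open Pool.Agent.W882.Nip3 Pool.Agent.TH686.NF NNReal PL_
open Pool.Agent.Results.MP_3554b5_lc.UnramifiedNorms (ValuedPlace toPlace)

/-- (PL) the place of rank one near `δ` -/
theorem PL : S_PL := by
  intro K _ O δ hδ0 hδ1
  set v := O.valuation with hv
  set γ : O.ValueGroup := v δ with hγ
  have h0 : 0 < γ := zero_lt_iff.2 ((Valuation.ne_zero_iff _).2 hδ0)
  have h1 : γ ≤ 1 := hδ1.le
  have hδv : rs v γ h1 ⟨δ, mem_O1_of_le h1⟩ ≠ 0 :=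
    (rs_ne_iff _).2 ⟨hδ0, 1, by rw [pow_one]⟩
  obtain ⟨vr, hvr1, hvr2⟩ := exists_real (vb v γ h1) h0 hδ1 (by
    intro z hz
    obtain ⟨x, rfl⟩ := IsLocalRing.residue_surjective z
    obtain ⟨-, n, hn⟩ := (rs_ne_iff x).1 hz
    exact ⟨n, by rw [vb_rs x hz]; exact hn⟩)
  have hEx : Ex (vb v γ h1) vr (NormedField.valuation (K := Cp vr)) (emb vr) :=
    ⟨val_emb vr, near vr, hvr1⟩
  set z0 := rs v γ h1 ⟨δ, mem_O1_of_le h1⟩ with hz0
  have hz0' : vr z0 < 1 := hvr2 z0 (by rw [vb_rs _ hδv])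
  have hbig : ∃ a, 1 < vr a := by
    refine ⟨z0⁻¹, ?_⟩
    rw [map_inv₀]
    exact (one_lt_inv₀ (zero_lt_iff.2 ((Valuation.ne_zero_iff _).2 hδv))).2 hz0'
  let VP : ValuedPlace K :=
    { O := O1 v γ h1
      κ := IsLocalRing.ResidueField (O1 v γ h1)
      field := inferInstance
      π := rs v γ h1
      surjective := IsLocalRing.residue_surjective
      v := vr }
  let P : Place K := toPlace VP hbig
  have hres : ∀ x : O1 v γ h1, P.res x = emb vr (rs v γ h1 x) := fun _ => rfl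
  refine ⟨P, wV hEx, ⟨?_, ?_, ?_⟩, ?_, ?_⟩
  · intro x hx
    exact mem_O1_of_le (h1 := h1) ((O.valuation_le_one_iff x).2 hx)
  · intro x hx
    have h2 : rs v γ h1 x ≠ 0 := by
      intro h3
      apply hx
      have h4 : emb vr (rs v γ h1 x) = 0 := by rw [h3, map_zero]
      exact h4
    have h5 : wV hEx (emb vr (rs v γ h1 x)) = O.valuation (x : K) := by
      rw [wV_emb, vb_rs x h2]
    exact h5
  · intro y hy
    obtain ⟨z, hz⟩ := wV_near hEx y hy
    obtain ⟨x, rfl⟩ := IsLocalRing.residue_surjective z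
    exact ⟨x, hz⟩
  · intro x hx
    have hx1 : x ∈ O1 v γ h1 := mem_O1_of_le (hx.trans h1)
    refine ⟨hx1, ?_⟩
    have h2 : ‖emb vr (rs v γ h1 ⟨x, hx1⟩)‖ < 1 := by
      rw [norm_emb]
      have h3 : vr (rs v γ h1 ⟨x, hx1⟩) < 1 := by
        apply hvr2
        by_cases h4 : rs v γ h1 ⟨x, hx1⟩ = 0
        · rw [h4, map_zero]
          exact zero_le
        · rw [vb_rs _ h4]
          exact hx
      exact_mod_cast h3
    exact h2
  · intro x hx hx1
    have hx2 : x ∈ O1 v γ h1 := mem_O1_of_le hx1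
    have hxne : x ≠ 0 := by
      rintro rfl
      rw [map_zero] at hx
      exact absurd hx (not_le.2 h0)
    refine ⟨hx2, ?_⟩
    have h2 : rs v γ h1 ⟨x, hx2⟩ ≠ 0 := (rs_ne_iff _).2 ⟨hxne, 1, by rw [pow_one]; exact hx⟩
    intro h3
    apply h2
    have h4 : emb vr (rs v γ h1 ⟨x, hx2⟩) = 0 := h3
    exact (map_eq_zero _).1 h4

end Pool.Agent.N616.NH
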