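import Pool.Agent.N616.NH.FR1
import Pool.Agent.N616.NH.PL

set_option autoImplicit false

/-! Project NH: the Artin-Schreier pattern for infinitely ramified valuation rings, by an
ultrapower. -/

namespace Pool.Agent.N616.NH

open FirstOrder Pool.Agent.W882.Nip3 Filter

namespace FR_

section germ

variable {K : Type} [Field K]

/-- the ultrapower -/
abbrev G (K : Type) : Type := Germ ((hyperfilter ℕ : Ultrafilter ℕ) : Filter ℕ) K

/-- the valuation ring of the ultrapower -/
def VG (O : ValuationSubring K) : ValuationSubring (G K) where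
  carrier := {x | Germ.LiftPred (· ∈ O) x}
  mul_mem' := by
    intro x y
    induction x using Germ.inductionOn with | _ f =>
    induction y using Germ.inductionOn with | _ g =>
    intro (hf : ∀ᶠ n in _, f n ∈ O) (hg : ∀ᶠ n in _, g n ∈ O)
    show ∀ᶠ n in _, f n * g n ∈ O
    filter_upwards [hf, hg] with n h1 h2 using O.mul_mem _ _ h1 h2
  one_mem' := by
    show ∀ᶠ _ in _, (1 : K) ∈ O
    exact Eventually.of_forall fun _ => O.one_mem
  add_mem' := by
    intro x y
    induction x using Germ.inductionOn with | _ f =>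
    induction y using Germ.inductionOn with | _ g =>
    intro (hf : ∀ᶠ n in _, f n ∈ O) (hg : ∀ᶠ n in _, g n ∈ O)
    show ∀ᶠ n in _, f n + g n ∈ O
    filter_upwards [hf, hg] with n h1 h2 using O.add_mem _ _ h1 h2
  zero_mem' := by
    show ∀ᶠ _ in _, (0 : K) ∈ O
    exact Eventually.of_forall fun _ => O.zero_mem
  neg_mem' := by
    intro x
    induction x using Germ.inductionOn with | _ f =>
    intro (hf : ∀ᶠ n in _, f n ∈ O)
    show ∀ᶠ n in _, -f n ∈ O
    filter_upwards [hf] with n h1 using O.neg_mem _ h1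
  mem_or_inv_mem' := by
    intro x
    induction x using Germ.inductionOn with | _ f =>
    show (∀ᶠ n in _, f n ∈ O) ∨ (∀ᶠ n in _, (f n)⁻¹ ∈ O)
    rw [← Ultrafilter.eventually_or]
    exact Eventually.of_forall fun n => O.mem_or_inv_mem _

variable (O : ValuationSubring K)

theorem val_le (f g : ℕ → K) : (VG O).valuation (f : G K) ≤ (VG O).valuation (g : G K) ↔
    ∀ᶠ n in (hyperfilter ℕ : Filter ℕ), O.valuation (f n) ≤ O.valuation (g n) := by
  classical
  rw [ValuationSubring.valuation_le_iff]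
  constructor
  · rintro ⟨⟨a, ha⟩, h⟩
    revert ha h
    induction a using Germ.inductionOn with | _ k =>
    intro (ha : ∀ᶠ n in _, k n ∈ O) h
    have h' : ((fun n => k n * g n : ℕ → K) : G K) = (f : G K) := h
    rw [Germ.coe_eq] at h'
    filter_upwards [ha, h'] with n h1 h2
    rw [ValuationSubring.valuation_le_iff]
    exact ⟨⟨k n, h1⟩, h2⟩
  · intro h
    let k : ℕ → K := fun n => if h : ∃ a : O, (a : K) * g n = f n then (h.choose : O) else 0
    have hk : ∀ᶠ n in (hyperfilter ℕ : Filter ℕ), k n ∈ O := by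
      refine Eventually.of_forall fun n => ?_
      simp only [k]
      split_ifs with h1
      · exact h1.choose.2
      · exact O.zero_mem
    refine ⟨⟨(k : G K), hk⟩, ?_⟩
    show ((fun n => k n * g n : ℕ → K) : G K) = (f : G K)
    rw [Germ.coe_eq]
    filter_upwards [h] with n h1
    rw [ValuationSubring.valuation_le_iff] at h1
    simp only [k]
    rw [dif_pos h1]
    exact h1.choose_spec

theorem val_lt (f g : ℕ → K) : (VG O).valuation (f : G K) < (VG O).valuation (g : G K) ↔
    ∀ᶠ n in (hyperfilter ℕ : Filter ℕ), O.valuation (f n) < O.valuation (g n) := by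
  rw [← not_le, val_le, ← Ultrafilter.eventually_not]
  simp only [not_le]

theorem val_lt_one (f : ℕ → K) : (VG O).valuation (f : G K) < 1 ↔
    ∀ᶠ n in (hyperfilter ℕ : Filter ℕ), O.valuation (f n) < 1 := by
  have h := val_lt O f (fun _ => 1)
  simp only [map_one] at h
  rw [← h]
  have : ((fun _ => 1 : ℕ → K) : G K) = 1 := rfl
  rw [this, map_one]

theorem AS_iff (p : ℕ) (f : ℕ → K) : AS (VG O) p (f : G K) ↔
    ∀ᶠ n in (hyperfilter ℕ : Filter ℕ), AS O p (f n) := by
  classical
  constructor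
  · rintro ⟨y, hy⟩
    revert hy
    induction y using Germ.inductionOn with | _ g =>
    intro hy
    have h1 : (f : G K) - ((g : G K) ^ p - g) = ((fun n => f n - (g n ^ p - g n) : ℕ → K) : G K) :=
      rfl
    rw [h1, val_lt_one] at hy
    filter_upwards [hy] with n hn using ⟨g n, hn⟩
  · intro h
    let g : ℕ → K := fun n => if h : AS O p (f n) then h.choose else 0
    refine ⟨(g : G K), ?_⟩
    have h1 : (f : G K) - ((g : G K) ^ p - g) = ((fun n => f n - (g n ^ p - g n) : ℕ → K) : G K) :=
      rfl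
    rw [h1, val_lt_one]
    filter_upwards [h] with n hn
    simp only [g]
    rw [dif_pos hn]
    exact hn.choose_spec

end germ

/-- the residue field of the coarsening -/
theorem residue_O1 {F : Type} [Field F] (V : ValuationSubring F) (p : ℕ) (hp : p.Prime) (t : F)
    (ht0 : t ≠ 0) (ht1 : V.valuation t < 1)
    (hpt : ∀ N : ℕ, V.valuation (p : F) < V.valuation t ^ N) :
    ∃ V1 : ValuationSubring F, V ≤ V1 ∧ CharP (IsLocalRing.ResidueField V1) p ∧
      Infinite (IsLocalRing.ResidueField V1) := by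
  have hvt : V.valuation t ≠ 0 := (Valuation.ne_zero_iff _).2 ht0
  refine ⟨PL_.O1 V.valuation (V.valuation t) ht1.le, fun x hx =>
    PL_.mem_O1_of_le ((V.valuation_le_one_iff x).2 hx), ?_, ?_⟩
  · refine (CharP.charP_iff_prime_eq_zero hp).2 ?_
    rw [← map_natCast (IsLocalRing.residue (PL_.O1 V.valuation (V.valuation t) ht1.le))]
    by_contra h
    obtain ⟨-, n, hn⟩ := (PL_.rs_ne_iff _).1 h
    have h1 : (((p : PL_.O1 V.valuation (V.valuation t) ht1.le)) : F) = (p : F) := by simp
    rw [h1] at hn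
    exact absurd (hpt n) (not_lt.2 hn)
  · have hmem : t ∈ PL_.O1 V.valuation (V.valuation t) ht1.le := PL_.mem_O1_of_le ht1.le
    have h1 : PL_.rs V.valuation (V.valuation t) ht1.le ⟨t, hmem⟩ ≠ 0 :=
      (PL_.rs_ne_iff _).2 ⟨ht0, 1, by rw [pow_one]⟩
    have h2 := PL_.vb_rs _ h1
    refine Infinite.of_injective
      (fun n : ℕ => PL_.rs V.valuation (V.valuation t) ht1.le ⟨t, hmem⟩ ^ n) fun m n hmn => ?_
    have h3 := congrArg (PL_.vb V.valuation (V.valuation t) ht1.le) hmn
    simp only [map_pow] at h3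
    rw [h2] at h3
    exact (pow_right_strictAnti₀ (zero_lt_iff.2 hvt) ht1).injective h3

/-- the pattern for infinitely ramified valuation rings -/
theorem patternB {K : Type} [Field K] (O : ValuationSubring K) (p : ℕ) [hp : Fact p.Prime] (a : K)
    (ha : a ∈ O) (hna : ¬ AS O p a)
    (hram : ∀ N : ℕ, ∃ t : K, O.valuation t < 1 ∧ O.valuation (p : K) < O.valuation t ^ N) (N : ℕ) :
    ∃ u : K, ∀ U : Finset (Fin N), ∃ x : K, ∀ i : Fin N, AS O p (u ^ (i : ℕ) * x) ↔ i ∉ U := by
  classical
  choose t ht1 ht2 using hram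
  have ht0 : ∀ n, 1 ≤ n → t n ≠ 0 := by
    intro n hn h
    have := ht2 n
    rw [h, map_zero, zero_pow (by omega)] at this
    exact not_lt_zero this
  have hlarge : ∀ m : ℕ, ∀ᶠ n in (hyperfilter ℕ : Filter ℕ), m ≤ n := by
    intro m
    exact (Nat.hyperfilter_le_atTop (eventually_ge_atTop m) : _)
  have h0 : (t : G K) ≠ 0 := by
    intro h
    have h' : (t : G K) = ((fun _ => 0 : ℕ → K) : G K) := h
    rw [Germ.coe_eq] at h'
    obtain ⟨n, h1, h2⟩ := (h'.and (hlarge 1)).exists
    exact ht0 n h2 h1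
  have h1 : (VG O).valuation (t : G K) < 1 := (val_lt_one O t).2 (Eventually.of_forall ht1)
  have h2 : ∀ N : ℕ, (VG O).valuation ((p : ℕ) : G K) < (VG O).valuation (t : G K) ^ N := by
    intro N
    rw [← map_pow]
    have h3 : ((t : G K) ^ N) = ((fun n => t n ^ N : ℕ → K) : G K) := rfl
    have h4 : ((p : ℕ) : G K) = ((fun _ => (p : K) : ℕ → K) : G K) := rfl
    rw [h3, h4, val_lt]
    filter_upwards [hlarge N] with n hn
    rw [map_pow]
    exact (ht2 n).trans_le (pow_le_pow_of_le_one zero_le (ht1 n).le hn)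
  obtain ⟨V1, hle, hch, hinf⟩ := residue_O1 (VG O) p hp.out (t : G K) h0 h1 h2
  have ha' : ((fun _ => a : ℕ → K) : G K) ∈ VG O := Eventually.of_forall fun _ => ha
  have hna' : ¬ AS (VG O) p ((fun _ => a : ℕ → K) : G K) := by
    rw [AS_iff]
    intro h
    obtain ⟨n, hn⟩ := h.exists
    exact hna hn
  obtain ⟨u, hu⟩ := patternA (VG O) V1 hle p _ ha' hna' N
  choose x hx using hu
  obtain ⟨f, rfl⟩ : ∃ f : ℕ → K, (f : G K) = u := by
    induction u using Germ.inductionOn with | _ f => exact ⟨f, rfl⟩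
  have hg : ∀ U : Finset (Fin N), ∃ g : ℕ → K, (g : G K) = x U := by
    intro U
    generalize x U = z
    induction z using Germ.inductionOn with | _ g => exact ⟨g, rfl⟩
  choose g hg using hg
  have hall : ∀ᶠ n in (hyperfilter ℕ : Filter ℕ), ∀ U : Finset (Fin N), ∀ i : Fin N,
      AS O p (f n ^ (i : ℕ) * g U n) ↔ i ∉ U := by
    rw [eventually_all]
    intro U
    rw [eventually_all]
    intro i
    have h3 := hx U i
    rw [← hg U] at h3
    have h4 : (f : G K) ^ (i : ℕ) * (g U : G K) =
        ((fun n => f n ^ (i : ℕ) * g U n : ℕ → K) : G K) := rfl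
    rw [h4, AS_iff] at h3
    by_cases hi : i ∈ U
    · have h5 : ¬ ∀ᶠ n in (hyperfilter ℕ : Filter ℕ), AS O p (f n ^ (i : ℕ) * g U n) := fun h =>
        h3.1 h hi
      rw [← Ultrafilter.eventually_not] at h5
      filter_upwards [h5] with n hn
      exact ⟨fun h => absurd h hn, fun h => absurd hi h⟩
    · filter_upwards [h3.2 hi] with n hn
      exact ⟨fun _ => hi, fun _ => hn⟩
  obtain ⟨n, hn⟩ := hall.exists
  exact ⟨f n, fun U => ⟨g U n, fun i => hn U i⟩⟩

end FR_

end Pool.Agent.N616.NH
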