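import Pool.Agent.N616.NH.FR2

set_option autoImplicit false

/-! Project NH: definable valuation rings of mixed characteristic on `NIP_n` fields have residue
fields closed under Artin-Schreier extensions or are finitely ramified. -/

namespace Pool.Agent.N616.NH

open FirstOrder Pool.Agent.W882.Nip3 DJ_

namespace FR_

theorem no_pattern (K : Type) [Field K] [FirstOrder.Ring.CompatibleRing K] (n : ℕ)
    (hK : NIPnField n K) (O : ValuationSubring K) (hO : Dfb O) (p : ℕ) :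
    ¬ ∀ N : ℕ, ∃ u : K, ∀ U : Finset (Fin N), ∃ x : K, ∀ i : Fin N,
      AS O p (u ^ (i : ℕ) * x) ↔ i ∉ U := by
  classical
  intro hpat
  have hDO : D K (fun v : Fin 1 → K => v 0 ∈ O) := by
    refine D_congr (fun v => ?_) ((DFB K K).2 O hO)
    constructor
    · rintro ⟨y, hy, h⟩
      rw [← h]
      exact hy
    · intro h
      exact ⟨v 0, h, rfl⟩
  have hM : D K (fun v : Fin 1 → K => O.valuation (v 0) < 1) := by
    have h1 : D K (fun v : Fin 1 ⊕ Fin 1 → K => v (Sum.inr 0) ∈ O ∧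
        MvPolynomial.eval v (MvPolynomial.X (Sum.inl 0) * MvPolynomial.X (Sum.inr 0) - 1 :
          MvPolynomial (Fin 1 ⊕ Fin 1) K) = 0) :=
      D_and DFA (D_mem DFA hDO _) (D_poly DFB _)
    refine D_congr (fun v => ?_) (D_and DFA hDO (D_not DFA (D_ex1 DFA h1)))
    simp only [map_sub, map_mul, map_one, MvPolynomial.eval_X, Sum.elim_inr, Sum.elim_inl,
      sub_eq_zero]
    constructor
    · rintro ⟨h2, h3⟩
      exact (NP_.val_lt_one_iff O _ h2).2 h3
    · intro h
      have h2 : v 0 ∈ O := (O.valuation_le_one_iff _).1 h.le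
      exact ⟨h2, (NP_.val_lt_one_iff O _ h2).1 h⟩
  have hq : D K (fun v : Fin 1 ⊕ Fin n → K =>
      AS O p ((∏ k, v (Sum.inr k)) * v (Sum.inl 0))) := by
    have h1 : D K (fun v : ((Fin 1 ⊕ Fin n) ⊕ Fin 1) ⊕ Fin 1 → K => MvPolynomial.eval v
        (MvPolynomial.X (Sum.inr 0) -
          ((∏ k : Fin n, MvPolynomial.X (Sum.inl (Sum.inl (Sum.inr k)))) *
            MvPolynomial.X (Sum.inl (Sum.inl (Sum.inl 0))) -
          (MvPolynomial.X (Sum.inl (Sum.inr 0)) ^ p - MvPolynomial.X (Sum.inl (Sum.inr 0)))) :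
          MvPolynomial (((Fin 1 ⊕ Fin n) ⊕ Fin 1) ⊕ Fin 1) K) = 0) := D_poly DFB _
    have h2 : D K (fun v : ((Fin 1 ⊕ Fin n) ⊕ Fin 1) ⊕ Fin 1 → K =>
        O.valuation (v (Sum.inr 0)) < 1) := D_re DFA (fun _ : Fin 1 => Sum.inr 0) hM
    refine D_congr (fun v => ?_) (D_ex1 DFA (D_ex1 DFA (D_and DFA h1 h2)))
    simp only [map_sub, map_mul, map_prod, map_pow, MvPolynomial.eval_X, Sum.elim_inr,
      Sum.elim_inl, sub_eq_zero]
    constructor
    · rintro ⟨y, w, rfl, hw⟩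
      exact ⟨y, hw⟩
    · rintro ⟨y, hy⟩
      exact ⟨y, _, rfl, hy⟩
  refine NP_.nipnL K n hK K _ hq fun m => ?_
  obtain ⟨u, hu⟩ := hpat (m ^ n)
  let E : (Fin n → Fin m) → Fin (m ^ n) := fun i => ⟨NP_.ex n m i, NP_.ex_lt n m i⟩
  have hE : Function.Injective E := fun i j h => NP_.ex_inj n m (congrArg Fin.val h)
  refine ⟨fun k i => u ^ ((i : ℕ) * m ^ (k : ℕ)), fun T => ?_⟩
  let U : Finset (Fin (m ^ n)) := Finset.univ.filter fun e => ∃ i, i ∉ T ∧ E i = e
  obtain ⟨x, hx⟩ := hu U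
  refine ⟨x, fun i => ?_⟩
  have hU : E i ∈ U ↔ i ∉ T := by
    simp only [U, Finset.mem_filter, Finset.mem_univ, true_and]
    constructor
    · rintro ⟨j, hj, hij⟩
      rwa [← hE hij]
    · intro h
      exact ⟨i, h, rfl⟩
  have hprod : ∏ k : Fin n, u ^ (((i k : Fin m) : ℕ) * m ^ (k : ℕ)) =
      u ^ ((E i : Fin (m ^ n)) : ℕ) := by
    rw [Finset.prod_pow_eq_pow_sum]
    rfl
  simp only [Sum.elim_inl, Sum.elim_inr]
  rw [hprod, hx (E i), hU, not_not]

theorem res_or_ram (K : Type) [Field K] [FirstOrder.Ring.CompatibleRing K] (n : ℕ)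
    (hK : NIPnField n K) (O : ValuationSubring K) (hO : Dfb O) (p : ℕ) [hp : Fact p.Prime]
    [CharP (IsLocalRing.ResidueField O) p] :
    (∀ a : IsLocalRing.ResidueField O, ∃ y, y ^ p - y = a) ∨
    (Finite (IsLocalRing.ResidueField O) ∧
      ∃ N : ℕ, ∀ t : K, O.valuation t < 1 → O.valuation t ^ N ≤ O.valuation (p : K)) := by
  classical
  by_cases hAS : ∀ a : IsLocalRing.ResidueField O, ∃ y, y ^ p - y = a
  · exact Or.inl hAS
  right
  push Not at hAS
  obtain ⟨a₀, ha₀⟩ := hAS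
  obtain ⟨a, rfl⟩ := IsLocalRing.residue_surjective a₀
  have hna : ¬ AS O p (a : K) := by
    rintro ⟨y, hy⟩
    have h1 : (a : K) - (y ^ p - y) ∈ O := (O.valuation_le_one_iff _).1 hy.le
    have h2 : y ^ p - y ∈ O := by
      have h3 := sub_mem a.2 h1
      rwa [sub_sub_cancel] at h3
    have h3 : y ∈ O := NP_.mem_of_pow_sub O hp.out.two_le h2
    apply ha₀ (IsLocalRing.residue O ⟨y, h3⟩)
    have h4 : IsLocalRing.residue O (a - (⟨y, h3⟩ ^ p - ⟨y, h3⟩)) = 0 := by
      rw [IsLocalRing.residue_eq_zero_iff, ValuationSubring.valuation_lt_one_iff]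
      exact hy
    rw [map_sub, map_sub, map_pow, sub_eq_zero] at h4
    exact h4.symm
  constructor
  · by_contra hinf
    rw [not_finite_iff_infinite] at hinf
    exact no_pattern K n hK O hO p fun N => patternA O O le_rfl p a a.2 hna N
  · by_contra hcon
    push Not at hcon
    exact no_pattern K n hK O hO p fun N => patternB O p a a.2 hna hcon N

end FR_

end Pool.Agent.N616.NH
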