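import Pool.Agent.N616.NH.Stm

set_option autoImplicit false

/-! Project NH: on a NIP field of characteristic `p` every definable valuation ring is henselian
(assembly). -/

namespace Pool.Agent.N616.NH

open FirstOrder Polynomial Pool.Agent.W882.Nip3

/-- Finite extensions of infinite NIP fields of characteristic `p` are Artin-Schreier closed. -/
theorem as_closed (hKSW : S_KSW) (hDFA : S_DFA) (hDFB : S_DFB) (hNIPL : S_NIPL)
    (K : Type) [Field K] [FirstOrder.Ring.CompatibleRing K] (p : ℕ) [Fact p.Prime] [CharP K p]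
    (hinf : Infinite K) (hK : NIPField K) (L : Type) [Field L] [Algebra K L]
    [FiniteDimensional K L] (a : L) : ∃ x : L, x ^ p - x = a := by
  classical
  by_contra hcon
  push Not at hcon
  have hchar : CharP L p := charP_of_injective_algebraMap (algebraMap K L).injective p
  have hinfL : Infinite L := Infinite.of_injective _ (algebraMap K L).injective
  -- the relation is definable
  let S : Set (Fin 2 → L) := {v | ∃ w : Fin 1 → L, (Sum.elim v w : Fin 2 ⊕ Fin 1 → L) ∈
    {u : Fin 2 ⊕ Fin 1 → L | MvPolynomial.eval u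
      (MvPolynomial.X (Sum.inl 0) * MvPolynomial.X (Sum.inl 1) -
        (MvPolynomial.X (Sum.inr 0) ^ p - MvPolynomial.X (Sum.inr 0)) :
          MvPolynomial (Fin 2 ⊕ Fin 1) L) = 0}}
  have hS : DfL K L S := (hDFA K L).2.2.2 (Fin 2) (Fin 1) _ ((hDFB K L).1 (Fin 2 ⊕ Fin 1) _)
  have hmem : ∀ x y : L, ![x, y] ∈ S ↔ ∃ z : L, x * y = z ^ p - z := by
    intro x y
    constructor
    · rintro ⟨w, hw⟩
      refine ⟨w 0, ?_⟩
      simp only [Set.mem_ofPred_eq, map_sub, map_mul, map_pow, MvPolynomial.eval_X, Sum.elim_inl,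
        Sum.elim_inr, Matrix.cons_val_zero, Matrix.cons_val_one] at hw
      exact sub_eq_zero.1 hw
    · rintro ⟨z, hz⟩
      refine ⟨fun _ => z, ?_⟩
      simp only [Set.mem_ofPred_eq, map_sub, map_mul, map_pow, MvPolynomial.eval_X, Sum.elim_inl,
        Sum.elim_inr, Matrix.cons_val_zero, Matrix.cons_val_one]
      exact sub_eq_zero.2 hz
  obtain ⟨n, hn⟩ := hNIPL K hK L S hS
  obtain ⟨c, b, hcb⟩ := hKSW L p a n
  choose x hx using hcb
  obtain ⟨i, T, hiT⟩ := hn c (fun T => ∑ j ∈ Tᶜ, b j)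
  apply hiT
  rw [hmem]
  have hsum : c i * ∑ j ∈ Tᶜ, b j - (if i ∈ T then 0 else a) =
      (∑ j ∈ Tᶜ, x i j) ^ p - ∑ j ∈ Tᶜ, x i j := by
    have h1 : (∑ j ∈ Tᶜ, x i j) ^ p = ∑ j ∈ Tᶜ, x i j ^ p := by
      have := map_sum (frobenius L p) (fun j => x i j) Tᶜ
      simpa only [frobenius_def] using this
    rw [h1, ← Finset.sum_sub_distrib]
    have h2 : ∀ j ∈ Tᶜ, x i j ^ p - x i j = c i * b j - (if i = j then a else 0) := fun j _ =>
      (hx i j).symm
    rw [Finset.sum_congr rfl h2, Finset.sum_sub_distrib, Finset.mul_sum, Finset.sum_ite_eq]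
    congr 1
    by_cases h : i ∈ T
    · rw [if_pos h, if_neg (by simpa using h)]
    · rw [if_neg h, if_pos (by simpa using h)]
  constructor
  · rintro ⟨z, hz⟩
    by_contra hi
    rw [if_neg hi, hz] at hsum
    apply hcon (z - ∑ j ∈ Tᶜ, x i j)
    have h3 : (z - ∑ j ∈ Tᶜ, x i j) ^ p = z ^ p - (∑ j ∈ Tᶜ, x i j) ^ p := sub_pow_char z _
    rw [h3]
    linear_combination hsum
  · intro hi
    rw [if_pos hi, sub_zero] at hsum
    exact ⟨_, hsum⟩

theorem int_closed {K : Type} [Field K] (O : ValuationSubring K) (L : Type) [Field L] [Algebra K L]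
    (p : ℕ) (hp : 2 ≤ p) (y : L) (hy : y ^ p - y ∈ RI O L) : y ∈ RI O L := by
  let _ : Algebra O L := ((algebraMap K L).comp O.subtype).toAlgebra
  have h1 : IsIntegral O (y ^ p - y) := hy
  let C := integralClosure O L
  let c : C := ⟨y ^ p - y, h1⟩
  have h2 : IsIntegral C y := by
    refine ⟨X ^ p - X - Polynomial.C c, ?_, ?_⟩
    · have h3 : (X ^ p - X - Polynomial.C c : C[X]) = X ^ p - (X + Polynomial.C c) := by ring
      rw [h3]
      refine monic_X_pow_sub ?_
      refine (degree_X_add_C c).le.trans_lt ?_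
      exact_mod_cast hp
    · rw [eval₂_sub, eval₂_sub, eval₂_pow, eval₂_X, eval₂_C]
      show y ^ p - y - (y ^ p - y) = 0
      ring
  have h3 : IsIntegral O y := isIntegral_trans (A := C) y h2
  exact h3

theorem hp_of (hKSW : S_KSW) (hDFA : S_DFA) (hDFB : S_DFB) (hNIPL : S_NIPL) (hFIN : S_FIN)
    (hHEN : S_HEN) (hJOH : S_JOH) (hDJ : S_DJ) : S_HP := by
  intro K _ _ p _ _ hinf hK O hO
  refine hHEN K O ?_
  intro L _ _ _
  have hchar : CharP L p := charP_of_injective_algebraMap (algebraMap K L).injective p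
  refine hJOH L p (RI O L) (as_closed hKSW hDFA hDFB hNIPL K p hinf hK L)
    (int_closed O L p (Fact.out : p.Prime).two_le) (hFIN K O L) ?_
  exact hNIPL K hK L _ (hDJ K O hO L p)

end Pool.Agent.N616.NH
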