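import Pool.Agent.N616.NH.Stm

set_option autoImplicit false

/-!
# Project NH: Johnson's argument
-/

namespace Pool.Agent.N616.NH

namespace JOH_

open Polynomial

variable {R : Type} [CommRing R] (p : ℕ) [hp : Fact p.Prime] [CharP R p]

/-- the Artin–Schreier map -/
def wp : R →+ R where
  toFun y := y ^ p - y
  map_zero' := by rw [zero_pow hp.out.ne_zero, sub_zero]
  map_add' x y := by rw [add_pow_char]; ring

lemma wp_apply (y : R) : wp p y = y ^ p - y := rfl

variable (R) in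
/-- the Jacobson radical -/
abbrev JJ : AddSubgroup R := (Jac R).toAddSubgroup

lemma mem_JJ {x : R} : x ∈ JJ R ↔ x ∈ Jac R := Iff.rfl

variable (R) in
/-- the image of the Jacobson radical -/
def WJ : AddSubgroup R := (JJ R).map (wp p)

lemma wp_mem {y : R} (hy : y ∈ Jac R) : wp p y ∈ Jac R :=
  sub_mem (Ideal.pow_mem_of_mem _ hy p hp.out.pos) hy

lemma WJ_le : WJ R p ≤ JJ R := by
  rintro _ ⟨y, hy, rfl⟩
  exact wp_mem p hy

lemma JJ_eq : JJ R = ⨅ M : MaximalSpectrum R, M.asIdeal.toAddSubgroup := by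
  ext x
  rw [mem_JJ, AddSubgroup.mem_iInf]
  unfold Jac Ideal.jacobson
  rw [Submodule.mem_sInf]
  constructor
  · intro h M
    exact h M.asIdeal ⟨bot_le, M.isMaximal⟩
  · rintro h M ⟨-, hM⟩
    exact h ⟨M, hM⟩

lemma relJ [Finite (MaximalSpectrum R)] (Y : AddSubgroup R) (hY : ∀ y ∈ Y, y ^ p - y ∈ Jac R) :
    (JJ R).relIndex Y ≠ 0 := by
  rw [JJ_eq]
  apply AddSubgroup.relIndex_iInf_ne_zero
  intro M
  have hM := M.isMaximal
  let _ : Field (R ⧸ M.asIdeal) := Ideal.Quotient.field M.asIdeal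
  have e : M.asIdeal.toAddSubgroup = (⊥ : AddSubgroup (R ⧸ M.asIdeal)).comap
      (Ideal.Quotient.mk M.asIdeal).toAddMonoidHom := by
    ext x
    rw [AddSubgroup.mem_comap, AddSubgroup.mem_bot]
    exact (Ideal.Quotient.eq_zero_iff_mem).symm
  rw [e, AddSubgroup.relIndex_comap, AddSubgroup.relIndex_bot_left]
  have hne : (X ^ p - X : (R ⧸ M.asIdeal)[X]) ≠ 0 :=
    FiniteField.X_pow_card_sub_X_ne_zero _ hp.out.one_lt
  have hsub : ((Y.map (Ideal.Quotient.mk M.asIdeal).toAddMonoidHom : AddSubgroup _) :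
      Set (R ⧸ M.asIdeal)) ⊆ {t | IsRoot (X ^ p - X : (R ⧸ M.asIdeal)[X]) t} := by
    rintro _ ⟨y, hy, rfl⟩
    have h1 : y ^ p - y ∈ M.asIdeal := by
      have h2 := hY y hy
      rw [← mem_JJ, JJ_eq, AddSubgroup.mem_iInf] at h2
      exact h2 M
    rw [Set.mem_setOf_eq, IsRoot.def, eval_sub, eval_pow, eval_X]
    have h3 := (Ideal.Quotient.eq_zero_iff_mem (I := M.asIdeal)).2 h1
    rw [map_sub, map_pow] at h3
    exact h3
  have hfin : Finite (Y.map (Ideal.Quotient.mk M.asIdeal).toAddMonoidHom) :=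
    ((Polynomial.finite_setOf_isRoot hne).subset hsub)
  exact Nat.card_pos.ne'

lemma relW [Finite (MaximalSpectrum R)] (hs : Function.Surjective (wp p : R →+ R)) :
    (WJ R p).relIndex (JJ R) ≠ 0 := by
  have h1 : ((JJ R).comap (wp p)).map (wp p) = JJ R :=
    AddSubgroup.map_comap_eq_self_of_surjective hs _
  have h2 : JJ R ≤ (WJ R p).comap (wp p) := AddSubgroup.map_le_iff_le_comap.1 le_rfl
  have h3 : (JJ R).relIndex ((JJ R).comap (wp p)) ≠ 0 := relJ p _ fun y hy => hy
  have h4 : (WJ R p).relIndex (((JJ R).comap (wp p)).map (wp p)) ≠ 0 := by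
    rw [← AddSubgroup.relIndex_comap]
    intro h0
    have h5 := AddSubgroup.relIndex_dvd_of_le_left ((JJ R).comap (wp p)) h2
    rw [h0, zero_dvd_iff] at h5
    exact h3 h5
  rwa [h1] at h4

/-- the set of the `x` with `r * x ∈ ℘(J)` -/
def Hr (r : R) : AddSubgroup R := (WJ R p).comap (AddMonoidHom.mulLeft r)

lemma mem_Hr {r x : R} : x ∈ Hr p r ↔ r * x ∈ WJ R p := Iff.rfl

lemma relH (hW : (WJ R p).relIndex (JJ R) ≠ 0) (r : R) :
    (Hr p r).relIndex (JJ R) ≠ 0 ∧ (Hr p r).relIndex (JJ R) ≤ (WJ R p).relIndex (JJ R) := by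
  unfold Hr
  rw [AddSubgroup.relIndex_comap]
  have hle : (JJ R).map (AddMonoidHom.mulLeft r) ≤ JJ R := by
    rintro _ ⟨y, hy, rfl⟩
    exact Ideal.mul_mem_left _ r hy
  refine ⟨?_, AddSubgroup.relIndex_le_of_le_right hle hW⟩
  intro h0
  have h := AddSubgroup.relIndex_ne_zero_trans (H := WJ R p) (K := JJ R)
    (L := (JJ R).map (AddMonoidHom.mulLeft r)) hW (by
      rw [AddSubgroup.relIndex_eq_one.2 hle]; exact one_ne_zero)
  exact h h0

/-- finite intersections -/
def DD (S : Finset R) : AddSubgroup R := JJ R ⊓ ⨅ r ∈ S, Hr p r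

lemma mem_DD {S : Finset R} {x : R} : x ∈ DD p S ↔ x ∈ Jac R ∧ ∀ r ∈ S, r * x ∈ WJ R p := by
  unfold DD
  rw [AddSubgroup.mem_inf, AddSubgroup.mem_iInf]
  simp only [AddSubgroup.mem_iInf, mem_Hr, mem_JJ]

lemma DD_anti {S S' : Finset R} (h : S ⊆ S') : DD p S' ≤ DD p S := fun x hx => by
  rw [mem_DD] at hx ⊢
  exact ⟨hx.1, fun r hr => hx.2 r (h hr)⟩

lemma relD [DecidableEq R] (hW : (WJ R p).relIndex (JJ R) ≠ 0) (S : Finset R) :
    (DD p S).relIndex (JJ R) ≠ 0 ∧
      (DD p S).relIndex (JJ R) ≤ (WJ R p).relIndex (JJ R) ^ S.card := by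
  induction S using Finset.induction_on with
  | empty =>
    have e : DD p (∅ : Finset R) = JJ R := by
      ext x
      rw [mem_DD]
      simp [mem_JJ]
    rw [e, AddSubgroup.relIndex_eq_one.2 le_rfl]
    simp
  | insert r S hr ih =>
    have e : DD p (insert r S) = Hr p r ⊓ DD p S := by
      ext x
      rw [AddSubgroup.mem_inf, mem_DD, mem_DD, mem_Hr]
      constructor
      · rintro ⟨h1, h2⟩
        exact ⟨h2 r (Finset.mem_insert_self _ _), h1, fun s hs => h2 s (Finset.mem_insert_of_mem hs)⟩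
      · rintro ⟨h1, h2, h3⟩
        refine ⟨h2, fun s hs => ?_⟩
        rcases Finset.mem_insert.1 hs with rfl | hs
        · exact h1
        · exact h3 s hs
    obtain ⟨h1, h2⟩ := relH p hW r
    rw [e, Finset.card_insert_of_notMem hr, pow_succ']
    exact ⟨AddSubgroup.relIndex_inf_ne_zero h1 ih.1,
      AddSubgroup.relIndex_inf_le.trans (Nat.mul_le_mul h2 ih.2)⟩

/-- irredundant families are short -/
lemma red [DecidableEq R] (n : ℕ)
    (hn : ∀ (c : Fin n → R) (b : Finset (Fin n) → R), ∃ (i : Fin n) (T : Finset (Fin n)),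
      ¬ ((b T ∈ Jac R ∧ c i * b T ∈ WJ R p) ↔ i ∈ T)) :
    ∀ (m : ℕ) (S : Finset R), S.card ≤ m → ∃ S' : Finset R, S'.card ≤ n ∧ DD p S' = DD p S := by
  intro m
  induction m with
  | zero => intro S hS; exact ⟨S, by omega, rfl⟩
  | succ m ih =>
    intro S hS
    by_cases hSn : S.card ≤ n
    · exact ⟨S, hSn, rfl⟩
    push Not at hSn
    by_cases hex : ∃ r ∈ S, DD p (S.erase r) = DD p S
    · obtain ⟨r, hr, he⟩ := hex
      obtain ⟨S', h1, h2⟩ := ih (S.erase r) (by rw [Finset.card_erase_of_mem hr]; omega)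
      exact ⟨S', h1, h2.trans he⟩
    exfalso
    push Not at hex
    have hx : ∀ r : R, ∃ x : R, r ∈ S → (x ∈ Jac R ∧ (∀ s ∈ S, s ≠ r → s * x ∈ WJ R p) ∧
        r * x ∉ WJ R p) := by
      intro r
      by_cases hr : r ∈ S
      · have hlt : ¬ DD p (S.erase r) ≤ DD p S := fun h =>
          hex r hr (le_antisymm h (DD_anti p (Finset.erase_subset _ _)))
        obtain ⟨x, hx1, hx2⟩ := Set.not_subset.1 hlt
        refine ⟨x, fun _ => ?_⟩
        rw [SetLike.mem_coe, mem_DD] at hx1 hx2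
        refine ⟨hx1.1, fun s hs hsr => hx1.2 s (Finset.mem_erase.2 ⟨hsr, hs⟩), fun h => ?_⟩
        apply hx2
        refine ⟨hx1.1, fun s hs => ?_⟩
        by_cases hsr : s = r
        · rw [hsr]; exact h
        · exact hx1.2 s (Finset.mem_erase.2 ⟨hsr, hs⟩)
      · exact ⟨0, fun h => absurd h hr⟩
    choose x hx using hx
    let c : Fin n → R := fun i => (S.equivFin.symm (Fin.castLE hSn.le i) : R)
    have hcS : ∀ i, c i ∈ S := fun i => (S.equivFin.symm (Fin.castLE hSn.le i)).2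
    have hci : Function.Injective c := by
      intro i j h
      exact Fin.castLE_injective hSn.le (S.equivFin.symm.injective (Subtype.ext h))
    obtain ⟨i, T, hiT⟩ := hn c (fun T => ∑ j ∈ Tᶜ, x (c j))
    apply hiT
    have hJ : ∑ j ∈ Tᶜ, x (c j) ∈ Jac R := sum_mem fun j _ => (hx (c j) (hcS j)).1
    have hoff : ∀ U : Finset (Fin n), i ∉ U → c i * ∑ j ∈ U, x (c j) ∈ WJ R p := by
      intro U hU
      rw [Finset.mul_sum]
      refine sum_mem fun j hj => ?_
      refine (hx (c j) (hcS j)).2.1 (c i) (hcS i) fun h => ?_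
      rw [hci h] at hU
      exact hU hj
    constructor
    · rintro ⟨-, h⟩
      by_contra hi
      have hi' : i ∈ Tᶜ := Finset.mem_compl.2 hi
      rw [← Finset.add_sum_erase _ _ hi', mul_add] at h
      have h2 := (WJ R p).sub_mem h (hoff (Tᶜ.erase i) (Finset.notMem_erase _ _))
      rw [add_sub_cancel_right] at h2
      exact (hx (c i) (hcS i)).2.2 h2
    · intro hi
      exact ⟨hJ, hoff _ (by rw [Finset.mem_compl, not_not]; exact hi)⟩

lemma main [IsDomain R] [Finite (MaximalSpectrum R)] (hs : Function.Surjective (wp p : R →+ R))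
    (n : ℕ)
    (hn : ∀ (c : Fin n → R) (b : Finset (Fin n) → R), ∃ (i : Fin n) (T : Finset (Fin n)),
      ¬ ((b T ∈ Jac R ∧ c i * b T ∈ WJ R p) ↔ i ∈ T)) (e : R) (he : e ^ 2 - e ∈ Jac R) :
    e ∈ Jac R ∨ 1 - e ∈ Jac R := by
  classical
  by_contra hcon
  push Not at hcon
  obtain ⟨he1, he2⟩ := hcon
  have hW := relW p hs
  set q := (WJ R p).relIndex (JJ R) with hq
  have hq1 : 1 ≤ q := Nat.one_le_iff_ne_zero.2 hW
  have hbd : ∀ S : Finset R, (DD p S).relIndex (JJ R) ≠ 0 ∧ (DD p S).relIndex (JJ R) ≤ q ^ n := by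
    intro S
    obtain ⟨S', h1, h2⟩ := red p n hn S.card S le_rfl
    rw [← h2]
    obtain ⟨h3, h4⟩ := relD p hW S'
    exact ⟨h3, h4.trans (Nat.pow_le_pow_right hq1 h1)⟩
  obtain ⟨S, hS⟩ : ∃ S : Finset R, ∀ S' : Finset R,
      (DD p S').relIndex (JJ R) ≤ (DD p S).relIndex (JJ R) := by
    have hbdd : BddAbove (Set.range fun S : Finset R => (DD p S).relIndex (JJ R)) :=
      ⟨q ^ n, by rintro _ ⟨S, rfl⟩; exact (hbd S).2⟩
    obtain ⟨S, hS⟩ := Nat.sSup_mem (Set.range_nonempty
      (fun S : Finset R => (DD p S).relIndex (JJ R))) hbdd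
    refine ⟨S, fun S' => ?_⟩
    have h1 := le_csSup hbdd ⟨S', rfl⟩
    rw [← hS] at h1
    exact h1
  have hall : ∀ r : R, DD p S ≤ DD p (insert r S) := by
    intro r
    have h1 := AddSubgroup.relIndex_mul_relIndex (DD p (insert r S)) (DD p S) (JJ R)
      (DD_anti p (Finset.subset_insert _ _)) (fun x hx => ((mem_DD p).1 hx).1)
    have h2 := hS (insert r S)
    rw [← h1] at h2
    have h3 := (hbd S).1
    have h4 := (hbd (insert r S)).1
    rw [← h1] at h4
    have h5 : (DD p (insert r S)).relIndex (DD p S) = 1 := by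
      have h6 : (DD p (insert r S)).relIndex (DD p S) ≠ 0 := fun h => h4 (by rw [h, zero_mul])
      have h7 : (DD p (insert r S)).relIndex (DD p S) ≤ 1 := by
        by_contra hgt
        push Not at hgt
        have h8 : 2 * (DD p S).relIndex (JJ R) ≤
            (DD p (insert r S)).relIndex (DD p S) * (DD p S).relIndex (JJ R) :=
          Nat.mul_le_mul_right _ hgt
        have h9 := Nat.pos_of_ne_zero h3
        omega
      omega
    exact AddSubgroup.relIndex_eq_one.1 h5
  have hmem : ∀ y ∈ DD p S, ∀ r : R, r * y ∈ WJ R p := fun y hy r =>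
    ((mem_DD p).1 (hall r hy)).2 r (Finset.mem_insert_self _ _)
  -- `x = e ^ p - e` is in `J`, not in `℘(J)`
  have hmax : ∀ M : Ideal R, M.IsMaximal → Jac R ≤ M := fun M hM =>
    sInf_le ⟨bot_le, hM⟩
  have hxJ : wp p e ∈ Jac R := by
    rw [wp_apply, ← mem_JJ, JJ_eq, AddSubgroup.mem_iInf]
    intro M
    have hM := M.isMaximal
    have hM' := hM.isPrime
    have h1 : e ^ 2 - e ∈ M.asIdeal := hmax M.asIdeal hM he
    have h2 : e * (e - 1) ∈ M.asIdeal := by
      have : e * (e - 1) = e ^ 2 - e := by ring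
      rw [this]; exact h1
    show e ^ p - e ∈ M.asIdeal
    rcases hM'.mem_or_mem h2 with h3 | h3
    · exact sub_mem (Ideal.pow_mem_of_mem _ h3 p hp.out.pos) h3
    · have h4 : e ^ p - e = (e - 1) ^ p - (e - 1) := by
        rw [sub_pow_char, one_pow]
        ring
      rw [h4]
      exact sub_mem (Ideal.pow_mem_of_mem _ h3 p hp.out.pos) h3
  have hxW : wp p e ∉ WJ R p := by
    rintro ⟨y, hy, hye⟩
    have hyJ : y ∈ Jac R := hy
    have h1 : (e - y) ^ p = e - y := by
      rw [sub_pow_char]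
      rw [wp_apply, wp_apply] at hye
      linear_combination -hye
    rw [← mem_JJ, JJ_eq, AddSubgroup.mem_iInf] at he1 he2
    push Not at he1 he2
    obtain ⟨M, hM1⟩ := he1
    obtain ⟨M', hM2⟩ := he2
    have hM1' : e ∉ M.asIdeal := hM1
    have hM2' : 1 - e ∉ M'.asIdeal := hM2
    have hMm := M.isMaximal
    have hMm' := M'.isMaximal
    have hyM : y ∈ M.asIdeal := hmax _ hMm hyJ
    have hyM' : y ∈ M'.asIdeal := hmax _ hMm' hyJ
    -- `e ∈ M'`
    have h2 : e ∈ M'.asIdeal := by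
      have h3 : e * (1 - e) ∈ M'.asIdeal := by
        have : e * (1 - e) = -(e ^ 2 - e) := by ring
        rw [this]
        exact neg_mem (hmax _ hMm' he)
      exact (hMm'.isPrime.mem_or_mem h3).resolve_right hM2'
    have h4 : e - y ∈ M'.asIdeal := sub_mem h2 hyM'
    have h5 : (e - y) * ((e - y) ^ (p - 1) - 1) = 0 := by
      have h6 : (e - y) ^ p = (e - y) ^ (p - 1) * (e - y) := by
        rw [← pow_succ, Nat.sub_add_cancel hp.out.pos]
      rw [mul_sub, mul_one, mul_comm, ← h6, h1, sub_self]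
    rcases mul_eq_zero.1 h5 with h6 | h6
    · apply hM1'
      rw [sub_eq_zero] at h6
      rw [h6]
      exact hyM
    · apply hMm'.ne_top
      rw [Ideal.eq_top_iff_one]
      have h7 : (e - y) ^ (p - 1) ∈ M'.asIdeal :=
        Ideal.pow_mem_of_mem _ h4 _ (Nat.sub_pos_of_lt hp.out.one_lt)
      rw [sub_eq_zero] at h6
      rwa [h6] at h7
  have hxD : wp p e ∉ DD p S := fun h => hxW (by
    have := hmem _ h 1
    rwa [one_mul] at this)
  -- the ideal of the `r` with `r * x ∈ J₁`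
  let A : Ideal R :=
    { carrier := {r | r * wp p e ∈ DD p S}
      add_mem' := by
        intro a b ha hb
        show (a + b) * wp p e ∈ DD p S
        rw [add_mul]
        exact add_mem ha hb
      zero_mem' := by
        show (0 : R) * wp p e ∈ DD p S
        rw [zero_mul]
        exact zero_mem _
      smul_mem' := by
        intro s a ha
        show s * a * wp p e ∈ DD p S
        rw [mem_DD]
        have h1 : s * a * wp p e = s * (a * wp p e) := by ring
        rw [h1]
        have ha' : a * wp p e ∈ DD p S := ha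
        refine ⟨Ideal.mul_mem_left _ _ ((mem_DD p).1 ha').1, fun r _ => ?_⟩
        have h2 : r * (s * (a * wp p e)) = (r * s) * (a * wp p e) := by ring
        rw [h2]
        exact hmem _ ha' _ }
  have hA : A ≠ ⊤ := by
    intro h
    rw [Ideal.eq_top_iff_one] at h
    have h1 : (1 : R) * wp p e ∈ DD p S := h
    rw [one_mul] at h1
    exact hxD h1
  have hAi : A.toAddSubgroup.index ≠ 0 := by
    have e1 : A.toAddSubgroup = (DD p S).comap (AddMonoidHom.mulRight (wp p e)) := by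
      ext r
      rfl
    rw [← AddSubgroup.relIndex_top_right, e1, AddSubgroup.relIndex_comap]
    have hle : (⊤ : AddSubgroup R).map (AddMonoidHom.mulRight (wp p e)) ≤ JJ R := by
      rintro _ ⟨y, -, rfl⟩
      exact Ideal.mul_mem_left _ y hxJ
    exact AddSubgroup.relIndex_ne_zero_trans (H := DD p S) (K := JJ R) (hbd S).1 (by
      rw [AddSubgroup.relIndex_eq_one.2 hle]; exact one_ne_zero)
  obtain ⟨M, hM, hAM⟩ := Ideal.exists_le_maximal A hA
  have hfA : Finite (R ⧸ A) := by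
    have h1 : A.toAddSubgroup.FiniteIndex := ⟨hAi⟩
    have h2 : Finite (R ⧸ A.toAddSubgroup) := AddSubgroup.finite_quotient_of_finiteIndex
    exact h2
  have hfM : Finite (R ⧸ M) := Finite.of_surjective _ (Ideal.Quotient.factor_surjective hAM)
  have hsM : Function.Surjective (fun c : R ⧸ M => c ^ p - c) := by
    intro c
    obtain ⟨r, rfl⟩ := Ideal.Quotient.mk_surjective c
    obtain ⟨y, hy⟩ := hs r
    refine ⟨Ideal.Quotient.mk M y, ?_⟩
    rw [← hy, wp_apply, map_sub, map_pow]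
  have hiM := Finite.injective_iff_surjective.2 hsM
  have h01 : (0 : R ⧸ M) = 1 := by
    apply hiM
    simp only [one_pow, sub_self, zero_pow hp.out.ne_zero]
  have hnt : Nontrivial (R ⧸ M) := Ideal.Quotient.nontrivial_iff.2 hM.ne_top
  exact zero_ne_one h01

end JOH_

open JOH_ in
theorem JOH : S_JOH := by
  intro L _ p _ _ R hAS hint hfin ⟨n, hn⟩ e he
  have hch : CharP R p := (R.subtype).charP R.subtype_injective p
  refine JOH_.main p ?_ n ?_ e he
  · intro r
    obtain ⟨x, hx⟩ := hAS (r : L)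
    refine ⟨⟨x, hint x (by rw [hx]; exact r.2)⟩, ?_⟩
    apply Subtype.ext
    exact hx
  · intro c b
    obtain ⟨i, T, hiT⟩ := hn (fun i => (c i : L)) (fun T => (b T : L))
    refine ⟨i, T, fun h => hiT ?_⟩
    rw [← h]
    constructor
    · rintro ⟨hr, hx, y, h1, h2, h3⟩
      exact ⟨h1, y, h2, h3.symm⟩
    · rintro ⟨h1, y, h2, h3⟩
      exact ⟨(c i).2, (b T).2, y, h1, h2, h3.symm⟩

end Pool.Agent.N616.NH
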