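import Pool.Agent.N616.NH.Stm

/-!
# The pairing `L × L → L / ℘(L)` is independent (Kaplan, Scanlon, Wagner)
-/

set_option autoImplicit false

namespace Pool.Agent.N616.NH.KSW_

open Finset

section

variable {L : Type} [Field L] (p : ℕ) [Fact p.Prime] [CharP L p]

/-- the subfield `L ^ (p ^ k)` -/
def S (L : Type) [Field L] (p : ℕ) [Fact p.Prime] [CharP L p] (k : ℕ) : Subfield L :=
  (iterateFrobenius L p k).fieldRange

theorem mem_S {k : ℕ} {x : L} : x ∈ S L p k ↔ ∃ y : L, y ^ p ^ k = x := by
  rw [S, RingHom.mem_fieldRange]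
  simp only [iterateFrobenius_def]

theorem exists_root {k : ℕ} {x : L} (hx : x ∈ S L p (k + 1)) : ∃ ρ ∈ S L p k, ρ ^ p = x := by
  obtain ⟨y, rfl⟩ := (mem_S p).1 hx
  exact ⟨y ^ p ^ k, (mem_S p).2 ⟨y, rfl⟩, by rw [← pow_mul, pow_succ]⟩

theorem pow_inj {x y : L} (h : x ^ p = y ^ p) : x = y :=
  frobenius_inj L p (by rw [frobenius_def, frobenius_def, h])

open Classical in
/-- a `p`-th root -/
noncomputable def rt (x : L) : L := if h : ∃ ρ : L, ρ ^ p = x then h.choose else 0

theorem rt_pow (ρ : L) : rt p (ρ ^ p) = ρ := by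
  have h : ∃ r : L, r ^ p = ρ ^ p := ⟨ρ, rfl⟩
  rw [rt, dif_pos h]
  exact pow_inj p h.choose_spec

theorem mem_prime {z : L} [Algebra (ZMod p) L] (h : z ^ p = z) : ∃ c : ℕ, (c : L) = z := by
  classical
  have h1 : 1 < p := (Fact.out : p.Prime).one_lt
  let P : Polynomial L := Polynomial.X ^ p - Polynomial.X
  have hP : P ≠ 0 := FiniteField.X_pow_card_sub_X_ne_zero L h1
  have hdeg : P.natDegree = p := FiniteField.X_pow_card_sub_X_natDegree_eq L h1
  let T : Finset L := (Finset.univ : Finset (ZMod p)).image (algebraMap (ZMod p) L)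
  have hT : T.card = p := by
    rw [Finset.card_image_of_injective _ (algebraMap (ZMod p) L).injective, Finset.card_univ,
      ZMod.card]
  have hsub : T ⊆ P.roots.toFinset := by
    intro x hx
    obtain ⟨c, -, rfl⟩ := Finset.mem_image.1 hx
    rw [Multiset.mem_toFinset, Polynomial.mem_roots hP]
    simp only [P, Polynomial.IsRoot.def, Polynomial.eval_sub, Polynomial.eval_pow,
      Polynomial.eval_X]
    rw [← map_pow, ZMod.pow_card, sub_self]
  have hcard : P.roots.toFinset.card ≤ T.card := by
    rw [hT]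
    calc P.roots.toFinset.card ≤ P.natDegree :=
          (Multiset.toFinset_card_le _).trans (Polynomial.card_roots' P)
      _ = p := hdeg
  have heq := Finset.eq_of_subset_of_card_le hsub hcard
  have hz : z ∈ P.roots.toFinset := by
    rw [Multiset.mem_toFinset, Polynomial.mem_roots hP]
    simp only [P, Polynomial.IsRoot.def, Polynomial.eval_sub, Polynomial.eval_pow,
      Polynomial.eval_X]
    rw [h, sub_self]
  rw [← heq] at hz
  obtain ⟨c, -, hc⟩ := Finset.mem_image.1 hz
  refine ⟨c.val, ?_⟩
  rw [← hc, ← map_natCast (algebraMap (ZMod p) L), ZMod.natCast_zmod_val]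

/-- the main lemma -/
theorem main_lemma [Algebra (ZMod p) L] {ι : Type} [DecidableEq ι] (m : ℕ) (c : ι → L)
    (hc : ∀ i, c i ∈ S L p m) (hl : LinearIndependent (ZMod p) c) (s : Finset ι) :
    s.card ≤ m → ∃ β D : L → L,
      (∀ i ∈ s, ∀ z, ∃ x, c i * β z = x ^ p - x) ∧
      (∀ x ∈ S L p m, D x ∈ S L p (m - s.card)) ∧
      (∀ x ∈ S L p m, ∀ x' ∈ S L p m, D (x + x') = D x + D x') ∧
      (∀ x ∈ S L p m, ∀ z, ∃ y, x * β z - D x * z = y ^ p - y) ∧
      (∀ x ∈ S L p m, D x = 0 → x ∈ Submodule.span (ZMod p) (c '' (s : Set ι))) := by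
  have hp0 : p ≠ 0 := (Fact.out : p.Prime).ne_zero
  induction s using Finset.induction_on with
  | empty =>
    intro _
    refine ⟨id, id, by simp, ?_, fun _ _ _ _ => rfl, ?_, ?_⟩
    · intro x hx; simpa using hx
    · intro x _ z
      exact ⟨0, by simp [zero_pow hp0]⟩
    · intro x _ hx
      have : x = 0 := hx
      rw [this]; exact Submodule.zero_mem _
  | insert a s ha ih =>
    intro hcard
    rw [Finset.card_insert_of_notMem ha] at hcard
    obtain ⟨β, D, h1, h2, h3, h4, h5⟩ := ih (by omega)
    have hE0 : D (c a) ≠ 0 := by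
      intro h0
      exact hl.notMem_span_image (show a ∉ (s : Set ι) by simpa using ha) (h5 _ (hc a) h0)
    have hroot : ∀ x ∈ S L p m, ∃ ρ ∈ S L p (m - (s.card + 1)), ρ ^ p = D x / D (c a) := by
      intro x hx
      apply exists_root
      have : m - (s.card + 1) + 1 = m - s.card := by omega
      rw [this]
      exact (S L p _).div_mem (h2 x hx) (h2 _ (hc a))
    have hD0 : D 0 = 0 := by
      have := h3 0 (S L p m).zero_mem 0 (S L p m).zero_mem
      rw [add_zero] at this
      exact left_eq_add.1 this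
    have hDn : ∀ n : ℕ, D (n * c a) = n * D (c a) := by
      intro n
      induction n with
      | zero => simp [hD0]
      | succ n ihn =>
        have hm : (n : L) * c a ∈ S L p m := (S L p m).mul_mem (natCast_mem _ n) (hc a)
        rw [Nat.cast_succ, add_mul, one_mul, h3 _ hm _ (hc a), ihn, add_mul, one_mul]
    refine ⟨fun u => β ((u ^ p - u) / D (c a)), fun x => rt p (D x / D (c a)) - D x / D (c a),
      ?_, ?_, ?_, ?_, ?_⟩
    · intro i hi u
      rcases Finset.mem_insert.1 hi with h | h
      · subst h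
        obtain ⟨y, hy⟩ := h4 _ (hc i) ((u ^ p - u) / D (c i))
        refine ⟨y + u, ?_⟩
        rw [mul_div_cancel₀ _ hE0] at hy
        rw [add_pow_char]
        linear_combination hy
      · exact h1 i h _
    · intro x hx
      obtain ⟨ρ, hρ, hρ2⟩ := hroot x hx
      rw [Finset.card_insert_of_notMem ha]
      show rt p (D x / D (c a)) - D x / D (c a) ∈ _
      rw [← hρ2, rt_pow]
      exact (S L p _).sub_mem hρ ((S L p _).pow_mem hρ p)
    · intro x hx x' hx'
      obtain ⟨ρ, hρ, hρ2⟩ := hroot x hx
      obtain ⟨ρ', hρ', hρ2'⟩ := hroot x' hx'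
      show rt p (D (x + x') / D (c a)) - D (x + x') / D (c a) = _
      rw [h3 x hx x' hx', add_div, ← hρ2, ← hρ2', ← add_pow_char, rt_pow]
      show _ = rt p (D x / D (c a)) - D x / D (c a) + (rt p (D x' / D (c a)) - D x' / D (c a))
      rw [← hρ2, ← hρ2', rt_pow, rt_pow, add_pow_char]
      ring
    · intro x hx u
      obtain ⟨ρ, hρ, hρ2⟩ := hroot x hx
      obtain ⟨y, hy⟩ := h4 x hx ((u ^ p - u) / D (c a))
      refine ⟨y + ρ * u, ?_⟩
      show x * β ((u ^ p - u) / D (c a)) - (rt p (D x / D (c a)) - D x / D (c a)) * u = _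
      have hDx : D x = ρ ^ p * D (c a) := by rw [hρ2, div_mul_cancel₀ _ hE0]
      have hy2 : x * β ((u ^ p - u) / D (c a)) - ρ ^ p * (u ^ p - u) = y ^ p - y := by
        rw [← hy, hDx, mul_assoc, mul_div_cancel₀ _ hE0]
      rw [← hρ2, rt_pow, add_pow_char, mul_pow]
      linear_combination hy2
    · intro x hx h0
      obtain ⟨ρ, hρ, hρ2⟩ := hroot x hx
      have h6 : rt p (D x / D (c a)) - D x / D (c a) = 0 := h0
      rw [← hρ2, rt_pow, sub_eq_zero] at h6
      obtain ⟨n, hn⟩ := mem_prime p h6.symm
      have hDx : D x = n * D (c a) := by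
        rw [hn, h6, hρ2, div_mul_cancel₀ _ hE0]
      have hm : (n : L) * c a ∈ S L p m := (S L p m).mul_mem (natCast_mem _ n) (hc a)
      have hx' : x - n * c a ∈ S L p m := (S L p m).sub_mem hx hm
      have h7 : D (x - n * c a) = 0 := by
        have := h3 _ hx' _ hm
        rw [sub_add_cancel, hDn, hDx] at this
        exact left_eq_add.1 (by rw [add_comm]; exact this)
      have h8 := h5 _ hx' h7
      have h9 : x = (x - n * c a) + n * c a := by ring
      rw [h9]
      refine Submodule.add_mem _ (Submodule.span_mono (Set.image_mono (by simp)) h8) ?_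
      have : (n : L) * c a = (n : ZMod p) • c a := by
        rw [Algebra.smul_def, map_natCast]
      rw [this]
      exact Submodule.smul_mem _ _ (Submodule.subset_span ⟨a, by simp, rfl⟩)

end

end Pool.Agent.N616.NH.KSW_

namespace Pool.Agent.N616.NH

open KSW_ in
theorem KSW : S_KSW := by
  intro L _ p _ _ _ a n
  classical
  letI : Algebra (ZMod p) L := ZMod.algebra L p
  -- a linearly independent family
  obtain ⟨d, hd⟩ : ∃ d : Fin n → L, LinearIndependent (ZMod p) d := by
    let b := Module.Basis.ofVectorSpace (ZMod p) L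
    have hinf : Infinite (Module.Basis.ofVectorSpaceIndex (ZMod p) L) := by
      by_contra hfin
      rw [not_infinite_iff_finite] at hfin
      have hL : Finite L := by
        have := Fintype.ofFinite (Module.Basis.ofVectorSpaceIndex (ZMod p) L)
        exact Finite.of_equiv _ b.equivFun.toEquiv.symm
      exact hL.not_infinite ‹Infinite L›
    let e : Fin n → Module.Basis.ofVectorSpaceIndex (ZMod p) L :=
      fun i => Infinite.natEmbedding _ (i : ℕ)
    refine ⟨fun i => b (e i), b.linearIndependent.comp e ?_⟩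
    intro i j hij
    exact Fin.ext ((Infinite.natEmbedding _).injective hij)
  let φ : L →ₗ[ZMod p] L := (iterateFrobenius L p n).toAddMonoidHom.toZModLinearMap p
  have hφ : ∀ x, φ x = x ^ p ^ n := fun x => by
    show iterateFrobenius L p n x = _
    rw [iterateFrobenius_def]
  let c : Fin n → L := fun i => φ (d i)
  have hc : ∀ i, c i ∈ S L p n := fun i => (mem_S p).2 ⟨d i, (hφ _).symm⟩
  have hl : LinearIndependent (ZMod p) c := by
    refine hd.map' φ (LinearMap.ker_eq_bot.2 ?_)
    exact (iterateFrobenius L p n).injective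
  have key : ∀ j : Fin n, ∃ b : L, ∀ i, ∃ x : L,
      c i * b - (if i = j then a else 0) = x ^ p - x := by
    intro j
    obtain ⟨β, D, h1, h2, h3, h4, h5⟩ := main_lemma p n c hc hl (Finset.univ.erase j)
      (by
        have := Finset.card_le_univ (Finset.univ.erase j)
        rwa [Fintype.card_fin] at this)
    have hDj : D (c j) ≠ 0 := by
      intro h0
      refine hl.notMem_span_image (s := ((Finset.univ.erase j : Finset (Fin n)) : Set (Fin n)))
        (by simp) (h5 _ (hc j) h0)
    refine ⟨β (a / D (c j)), fun i => ?_⟩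
    by_cases hij : i = j
    · subst hij
      rw [if_pos rfl]
      obtain ⟨y, hy⟩ := h4 _ (hc i) (a / D (c i))
      rw [mul_div_cancel₀ _ hDj] at hy
      exact ⟨y, hy⟩
    · rw [if_neg hij, sub_zero]
      exact h1 i (Finset.mem_erase.2 ⟨hij, Finset.mem_univ i⟩) _
  choose b hb using key
  exact ⟨c, b, fun i j => hb j i⟩

end Pool.Agent.N616.NH
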