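import Pool.Agent.N616.NH.NP2
import Pool.Agent.N616.NH.BND

set_option autoImplicit false

/-! Project NH: on a `NIP_n` field of characteristic `p` definable semilocal rings have no nontrivial
idempotents modulo their Jacobson radicals, and definable valuation rings are comparable. -/

namespace Pool.Agent.N616.NH

open FirstOrder Pool.Agent.W882.Nip3 DJ_ JOH_

namespace NP_

/-- the relation `JS` is definable for definable subrings -/
theorem D_JS (K : Type) [Field K] [FirstOrder.Ring.CompatibleRing K] (L : Type) [Field L]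
    [Algebra K L] [FiniteDimensional K L] (p : ℕ) (R : Subring L)
    (hR : D K (fun v : Fin 1 → L => v 0 ∈ R)) : D K (fun v : Fin 2 → L => JS p R (v 0) (v 1)) := by
  have hA := DFA
  have hB := DFB
  -- the Jacobson radical
  have hJ : D K (fun v : Fin 1 → L => AJ R (v 0)) := by
    have h1 : D K (fun v : (Fin 1 ⊕ Fin 1) ⊕ Fin 1 → L => v (Sum.inr 0) ∈ R ∧
        MvPolynomial.eval v ((MvPolynomial.X (Sum.inl (Sum.inl 0)) *
          MvPolynomial.X (Sum.inl (Sum.inr 0)) + 1) * MvPolynomial.X (Sum.inr 0) - 1) = 0) :=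
      D_and hA (D_mem hA hR _) (D_poly hB _)
    have h2 : D K (fun v : Fin 1 ⊕ Fin 1 → L => v (Sum.inr 0) ∈ R →
        ∃ s : L, s ∈ R ∧ (v (Sum.inl 0) * v (Sum.inr 0) + 1) * s - 1 = 0) := by
      refine D_imp hA (D_mem hA hR _) (D_congr (fun v => ?_) (D_ex1 hA h1))
      simp only [map_add, map_sub, map_one, MvPolynomial.eval_X, map_mul, Sum.elim_inl,
        Sum.elim_inr]
    refine D_congr (fun v => ?_) (D_and hA hR (D_all1 hA h2))
    rw [mem_AJ]
    simp only [Sum.elim_inl, Sum.elim_inr]
  -- the relation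
  have h1 : D K (fun v : Fin 2 ⊕ Fin 1 → L => AJ R (v (Sum.inr 0)) ∧
      MvPolynomial.eval v (MvPolynomial.X (Sum.inl 0) * MvPolynomial.X (Sum.inl 1) -
        (MvPolynomial.X (Sum.inr 0) ^ p - MvPolynomial.X (Sum.inr 0))) = 0) :=
    D_and hA (D_mem hA hJ _) (D_poly hB _)
  refine D_congr (fun v => ?_) (D_and hA (D_mem hA hR 0) (D_and hA (D_mem hA hJ 1) (D_ex1 hA h1)))
  rw [JS_iff]
  simp only [map_sub, map_pow, MvPolynomial.eval_X, map_mul, Sum.elim_inl, Sum.elim_inr]

/-- A definable subring of a finite extension of a `NIP_n` field of characteristic `p` with finitely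
many maximal ideals which is closed under the roots of Artin-Schreier polynomials has no nontrivial
idempotent modulo its Jacobson radical. -/
theorem no_idem (K : Type) [Field K] [FirstOrder.Ring.CompatibleRing K] (p : ℕ)
    [hpp : Fact p.Prime] [CharP K p] (hinf : Infinite K) (n : ℕ) (hK : NIPnField n K) (L : Type)
    [Field L] [Algebra K L] [FiniteDimensional K L] (R : Subring L)
    (hR : D K (fun v : Fin 1 → L => v 0 ∈ R)) (hfin : Finite (MaximalSpectrum R))
    (hcl : ∀ y : L, y ^ p - y ∈ R → y ∈ R) (e : R) (he : e ^ 2 - e ∈ Jac R) :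
    e ∈ Jac R ∨ 1 - e ∈ Jac R := by
  classical
  by_contra hcon
  push Not at hcon
  have hchar : CharP L p := charP_of_injective_algebraMap (algebraMap K L).injective p
  have hch : CharP R p := (R.subtype).charP R.subtype_injective p
  have hAS := as_closed_n DFA DFB K p hinf n hK L
  have hs : Function.Surjective (wp p : R →+ R) := by
    intro r
    obtain ⟨x, hx⟩ := hAS (r : L)
    refine ⟨⟨x, hcl x (by rw [hx]; exact r.2)⟩, ?_⟩
    apply Subtype.ext
    exact hx
  obtain ⟨X, hX⟩ := pattern p hs he hcon.1 hcon.2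
  -- the relation is definable
  have hDJ : D K (fun v : Fin 2 → L => JS p R (v 0) (v 1)) := D_JS K L p R hR
  have hq : D K (fun v : Fin 1 ⊕ Fin n → L => ∃ u ∈ X,
      JS p R 1 ((∏ k, v (Sum.inr k)) * v (Sum.inl 0) - (u : L))) := by
    have h1 : ∀ u : R, D K (fun v : Fin 1 ⊕ Fin n → L =>
        JS p R 1 ((∏ k, v (Sum.inr k)) * v (Sum.inl 0) - (u : L))) := by
      intro u
      have h2 : D K (fun v : (Fin 1 ⊕ Fin n) ⊕ Fin 1 → L => MvPolynomial.eval v
          (MvPolynomial.X (Sum.inr 0) - ((∏ k : Fin n, MvPolynomial.X (Sum.inl (Sum.inr k))) *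
            MvPolynomial.X (Sum.inl (Sum.inl 0)) - MvPolynomial.C (u : L)) :
            MvPolynomial ((Fin 1 ⊕ Fin n) ⊕ Fin 1) L) = 0) := D_poly DFB _
      have h3 : D K (fun v : Fin 1 → L => JS p R 1 (v 0)) := by
        have h4 : D K (fun v : Fin 1 ⊕ Fin 1 → L => MvPolynomial.eval v
          (MvPolynomial.X (Sum.inr 0) - 1 : MvPolynomial (Fin 1 ⊕ Fin 1) L) = 0) := D_poly DFB _
        have h5 : D K (fun v : Fin 1 ⊕ Fin 1 → L => JS p R (v (Sum.inr 0)) (v (Sum.inl 0))) :=
          D_re DFA (fun k : Fin 2 => if k = 0 then Sum.inr 0 else Sum.inl 0) hDJ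
        refine D_congr (fun v => ?_) (D_ex1 DFA (D_and DFA h4 h5))
        simp only [map_sub, map_one, MvPolynomial.eval_X, Sum.elim_inr, Sum.elim_inl, sub_eq_zero]
        constructor
        · rintro ⟨w, rfl, hw⟩
          exact hw
        · intro hw
          exact ⟨1, rfl, hw⟩
      have h6 : D K (fun v : (Fin 1 ⊕ Fin n) ⊕ Fin 1 → L => JS p R 1 (v (Sum.inr 0))) :=
        D_re DFA (fun _ : Fin 1 => Sum.inr 0) h3
      refine D_congr (fun v => ?_) (D_ex1 DFA (D_and DFA h2 h6))
      simp only [map_sub, map_mul, map_prod, MvPolynomial.eval_X, MvPolynomial.eval_C, Sum.elim_inr,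
        Sum.elim_inl, sub_eq_zero]
      constructor
      · rintro ⟨w, rfl, hw⟩
        exact hw
      · intro hw
        exact ⟨_, rfl, hw⟩
    have h7 : D K (fun v : Fin 1 ⊕ Fin n → L => ∀ u : X,
        ¬ JS p R 1 ((∏ k, v (Sum.inr k)) * v (Sum.inl 0) - ((u : R) : L))) :=
      D_forall DFA DFB fun u => D_not DFA (h1 u)
    refine D_congr (fun v => ?_) (D_not DFA h7)
    push Not
    constructor
    · rintro ⟨u, hu⟩
      exact ⟨u, u.2, hu⟩
    · rintro ⟨u, hu, hv⟩
      exact ⟨⟨u, hu⟩, hv⟩
  refine nipnL K n hK L _ hq fun m => ?_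
  obtain ⟨r, hr⟩ := hX (m ^ n)
  let E : (Fin n → Fin m) → Fin (m ^ n) := fun i => ⟨ex n m i, ex_lt n m i⟩
  have hE : Function.Injective E := fun i j h => ex_inj n m (congrArg Fin.val h)
  refine ⟨fun k i => ((r ^ ((i : ℕ) * m ^ (k : ℕ)) : R) : L), fun T => ?_⟩
  let U : Finset (Fin (m ^ n)) := Finset.univ.filter fun e => ∃ i, i ∈ T ∧ E i = e
  obtain ⟨x, -, hx⟩ := hr U
  refine ⟨(x : L), fun i => ?_⟩
  have hU : E i ∈ U ↔ i ∈ T := by
    simp only [U, Finset.mem_filter, Finset.mem_univ, true_and]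
    constructor
    · rintro ⟨j, hj, hij⟩
      rwa [← hE hij]
    · intro h
      exact ⟨i, h, rfl⟩
  have hprod : ∏ k : Fin n, ((r ^ (((i k : Fin m) : ℕ) * m ^ (k : ℕ)) : R) : L) =
      ((r ^ ((E i : Fin (m ^ n)) : ℕ) : R) : L) := by
    have h9 := map_prod R.subtype (fun k : Fin n => r ^ (((i k : Fin m) : ℕ) * m ^ (k : ℕ)))
      Finset.univ
    rw [Finset.prod_pow_eq_pow_sum] at h9
    exact h9.symm
  simp only [Sum.elim_inl, Sum.elim_inr]
  rw [hprod, ← hU, ← hx (E i)]
  have h8 : ∀ u : R, ((r ^ ((E i : Fin (m ^ n)) : ℕ) : R) : L) * (x : L) - (u : L) =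
      ((r ^ ((E i : Fin (m ^ n)) : ℕ) * x - u : R) : L) := fun u => by push_cast; rfl
  simp only [h8, JS_one]

section comp

variable {K : Type} [Field K]

theorem val_lt_one_iff (O : ValuationSubring K) (x : K) (hx : x ∈ O) :
    O.valuation x < 1 ↔ ¬ ∃ z ∈ O, x * z = 1 := by
  constructor
  · rintro h ⟨z, hz, h1⟩
    have h2 : O.valuation x * O.valuation z = 1 := by rw [← map_mul, h1, map_one]
    have h3 := (O.valuation_le_one_iff z).2 hz
    have h4 : O.valuation x * O.valuation z < 1 :=
      mul_lt_one_of_lt_of_le h h3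
    exact absurd h2 h4.ne
  · intro h
    refine lt_of_le_of_ne ((O.valuation_le_one_iff x).2 hx) fun h1 => h ⟨x⁻¹, ?_, ?_⟩
    · rw [← O.valuation_le_one_iff, map_inv₀, h1, inv_one]
    · refine mul_inv_cancel₀ ?_
      rintro rfl
      rw [map_zero] at h1
      exact zero_ne_one h1

/-- the intersection of two valuation rings -/
abbrev RR (O O' : ValuationSubring K) : Subring K := O.toSubring ⊓ O'.toSubring

theorem isUnit_RR (O O' : ValuationSubring K) (x : RR O O') (h : O.valuation (x : K) = 1)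
    (h' : O'.valuation (x : K) = 1) : IsUnit x := by
  have hx0 : (x : K) ≠ 0 := by
    intro h0
    rw [h0, map_zero] at h
    exact zero_ne_one h
  refine isUnit_iff_exists_inv.2 ⟨⟨(x : K)⁻¹, ?_, ?_⟩, Subtype.ext (mul_inv_cancel₀ hx0)⟩
  · show (x : K)⁻¹ ∈ O
    rw [← O.valuation_le_one_iff, map_inv₀, h, inv_one]
  · show (x : K)⁻¹ ∈ O'
    rw [← O'.valuation_le_one_iff, map_inv₀, h', inv_one]

theorem val_of_isUnit (O O' : ValuationSubring K) (x : RR O O') (h : IsUnit x) :
    O.valuation (x : K) = 1 ∧ O'.valuation (x : K) = 1 := by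
  obtain ⟨y, hy⟩ := isUnit_iff_exists_inv.1 h
  have hy' : (x : K) * (y : K) = 1 := congrArg Subtype.val hy
  constructor
  · by_contra h1
    have h2 : O.valuation (x : K) < 1 :=
      lt_of_le_of_ne ((O.valuation_le_one_iff _).2 x.2.1) h1
    exact (val_lt_one_iff O _ x.2.1).1 h2 ⟨y, y.2.1, hy'⟩
  · by_contra h1
    have h2 : O'.valuation (x : K) < 1 :=
      lt_of_le_of_ne ((O'.valuation_le_one_iff _).2 x.2.2) h1
    exact (val_lt_one_iff O' _ x.2.2).1 h2 ⟨y, y.2.2, hy'⟩

theorem finite_RR (O O' : ValuationSubring K) : Finite (MaximalSpectrum (RR O O')) := by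
  classical
  let m : Ideal (RR O O') :=
    { carrier := {x | O.valuation (x : K) < 1}
      add_mem' := fun {a b} ha hb => (O.valuation.map_add _ _).trans_lt (max_lt ha hb)
      zero_mem' := by
        show O.valuation ((0 : RR O O') : K) < 1
        rw [ZeroMemClass.coe_zero, map_zero]
        exact zero_lt_one
      smul_mem' := fun c x hx => by
        show O.valuation ((c • x : RR O O') : K) < 1
        rw [smul_eq_mul, MulMemClass.coe_mul, map_mul]
        exact mul_lt_one_of_nonneg_of_lt_one_right ((O.valuation_le_one_iff _).2 c.2.1) zero_le hx }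
  let m' : Ideal (RR O O') :=
    { carrier := {x | O'.valuation (x : K) < 1}
      add_mem' := fun {a b} ha hb => (O'.valuation.map_add _ _).trans_lt (max_lt ha hb)
      zero_mem' := by
        show O'.valuation ((0 : RR O O') : K) < 1
        rw [ZeroMemClass.coe_zero, map_zero]
        exact zero_lt_one
      smul_mem' := fun c x hx => by
        show O'.valuation ((c • x : RR O O') : K) < 1
        rw [smul_eq_mul, MulMemClass.coe_mul, map_mul]
        exact mul_lt_one_of_nonneg_of_lt_one_right ((O'.valuation_le_one_iff _).2 c.2.2) zero_le hx }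
  have hm1 : (1 : RR O O') ∉ m := by
    intro h
    have h1 : O.valuation ((1 : RR O O') : K) < 1 := h
    rw [OneMemClass.coe_one, map_one] at h1
    exact lt_irrefl _ h1
  have hm1' : (1 : RR O O') ∉ m' := by
    intro h
    have h1 : O'.valuation ((1 : RR O O') : K) < 1 := h
    rw [OneMemClass.coe_one, map_one] at h1
    exact lt_irrefl _ h1
  have key : ∀ M : MaximalSpectrum (RR O O'), M.asIdeal = m ∨ M.asIdeal = m' := by
    intro M
    have hM := M.isMaximal
    have h1 : (M.asIdeal : Set (RR O O')) ⊆ (m : Set (RR O O')) ∪ (m' : Set (RR O O')) := by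
      intro x hx
      by_contra h2
      rw [Set.mem_union, not_or] at h2
      have h3 : O.valuation (x : K) = 1 :=
        le_antisymm ((O.valuation_le_one_iff _).2 x.2.1) (not_lt.1 h2.1)
      have h4 : O'.valuation (x : K) = 1 :=
        le_antisymm ((O'.valuation_le_one_iff _).2 x.2.2) (not_lt.1 h2.2)
      exact hM.ne_top (Ideal.eq_top_of_isUnit_mem _ hx (isUnit_RR O O' x h3 h4))
    rcases (Ideal.subset_union (I := M.asIdeal) (J := m) (K := m')).1 h1 with h2 | h2
    · exact Or.inl (hM.eq_of_le (fun h => hm1 (by rw [h]; trivial)) h2)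
    · exact Or.inr (hM.eq_of_le (fun h => hm1' (by rw [h]; trivial)) h2)
  refine Finite.of_injective (β := Bool) (fun M => decide (M.asIdeal = m)) ?_
  intro M N hMN
  apply MaximalSpectrum.ext
  have hMN' : (M.asIdeal = m) ↔ (N.asIdeal = m) := decide_eq_decide.1 hMN
  by_cases h : M.asIdeal = m
  · rw [h, hMN'.1 h]
  · rw [(key M).resolve_left h, (key N).resolve_left fun h' => h (hMN'.2 h')]

theorem mem_of_pow_sub (O : ValuationSubring K) {p : ℕ} (hp : 2 ≤ p) {y : K}
    (h : y ^ p - y ∈ O) : y ∈ O := by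
  by_contra hy
  have h1 : 1 < O.valuation y := by
    rw [← not_le, O.valuation_le_one_iff]
    exact hy
  have h2 : O.valuation y < O.valuation (y ^ p) := by
    rw [map_pow]
    exact lt_self_pow₀ h1 (by omega)
  have h3 : O.valuation (y ^ p - y) = O.valuation (y ^ p) := by
    exact Valuation.map_sub_eq_of_lt_left _ h2
  rw [← O.valuation_le_one_iff, h3] at h
  exact absurd (h1.trans h2) (not_lt.2 h)

end comp

/-- On an infinite `NIP_n` field of characteristic `p` any two definable valuation rings are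
comparable. -/
theorem comp_n (K : Type) [Field K] [FirstOrder.Ring.CompatibleRing K] (p : ℕ)
    [hpp : Fact p.Prime] [CharP K p] (hinf : Infinite K) (n : ℕ) (hK : NIPnField n K)
    (O O' : ValuationSubring K) (hO : Dfb O) (hO' : Dfb O') : O ≤ O' ∨ O' ≤ O := by
  by_contra hcon
  push Not at hcon
  obtain ⟨x, hx0, hx1, hx2⟩ := BND_.exists_sep O O' hcon.1 hcon.2
  have hD : ∀ O : ValuationSubring K, Dfb O → D K (fun v : Fin 1 → K => v 0 ∈ O) := by
    intro O hO
    refine D_congr (fun v => ?_) ((DFB K K).2 O hO)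
    constructor
    · rintro ⟨y, hy, h⟩
      rw [← h]
      exact hy
    · intro h
      exact ⟨v 0, h, rfl⟩
  have hR : D K (fun v : Fin 1 → K => v 0 ∈ RR O O') := D_and DFA (hD O hO) (hD O' hO')
  have hcl : ∀ y : K, y ^ p - y ∈ RR O O' → y ∈ RR O O' := fun y hy =>
    ⟨mem_of_pow_sub O hpp.out.two_le hy.1, mem_of_pow_sub O' hpp.out.two_le hy.2⟩
  -- the idempotent
  have h1x : O.valuation (1 + x) = 1 :=
    (Valuation.map_add_eq_of_lt_left _ (by rwa [map_one])).trans (map_one _)
  have h1x' : O'.valuation (1 + x) = O'.valuation x :=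
    Valuation.map_add_eq_of_lt_right _ (by rwa [map_one])
  have hx1' : 1 + x ≠ 0 := by
    intro h
    rw [h, map_zero] at h1x
    exact zero_ne_one h1x
  have hvx' : O'.valuation x ≠ 0 := (Valuation.ne_zero_iff _).2 hx0
  have he1 : O.valuation (x / (1 + x)) < 1 := by rw [map_div₀, h1x, div_one]; exact hx1
  have he2 : O'.valuation (x / (1 + x)) = 1 := by rw [map_div₀, h1x', div_self hvx']
  let e : RR O O' := ⟨x / (1 + x), (O.valuation_le_one_iff _).1 he1.le,
    (O'.valuation_le_one_iff _).1 he2.le⟩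
  have h1e : ((1 - e : RR O O') : K) = (1 + x)⁻¹ := by
    show 1 - x / (1 + x) = (1 + x)⁻¹
    field_simp
    ring
  have he3 : O.valuation ((1 - e : RR O O') : K) = 1 := by
    rw [h1e, map_inv₀, h1x, inv_one]
  have he4 : O'.valuation ((1 - e : RR O O') : K) < 1 := by
    rw [h1e, map_inv₀, h1x']
    exact inv_lt_one_of_one_lt₀ hx2
  have he : e ^ 2 - e ∈ Jac (RR O O') := by
    rw [Ideal.mem_jacobson_bot]
    intro r
    have h0 : e ^ 2 - e = -(e * (1 - e)) := by ring
    have h1 : O.valuation ((e ^ 2 - e : RR O O') : K) < 1 := by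
      rw [h0, NegMemClass.coe_neg, Valuation.map_neg, MulMemClass.coe_mul, map_mul, he3, mul_one]
      exact he1
    have h2 : O'.valuation ((e ^ 2 - e : RR O O') : K) < 1 := by
      rw [h0, NegMemClass.coe_neg, Valuation.map_neg, MulMemClass.coe_mul, map_mul]
      have : O'.valuation (e : K) = 1 := he2
      rw [this, one_mul]
      exact he4
    apply isUnit_RR
    · rw [AddMemClass.coe_add, MulMemClass.coe_mul, OneMemClass.coe_one]
      have h3 : O.valuation (((e ^ 2 - e : RR O O') : K) * r) < 1 := by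
        rw [map_mul]
        exact mul_lt_one_of_lt_of_le h1 ((O.valuation_le_one_iff _).2 r.2.1)
      exact (Valuation.map_add_eq_of_lt_right _ (by rwa [map_one])).trans (map_one _)
    · rw [AddMemClass.coe_add, MulMemClass.coe_mul, OneMemClass.coe_one]
      have h3 : O'.valuation (((e ^ 2 - e : RR O O') : K) * r) < 1 := by
        rw [map_mul]
        exact mul_lt_one_of_lt_of_le h2 ((O'.valuation_le_one_iff _).2 r.2.2)
      exact (Valuation.map_add_eq_of_lt_right _ (by rwa [map_one])).trans (map_one _)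
  rcases no_idem K p hinf n hK K (RR O O') hR (finite_RR O O') hcl e he with h | h
  · rw [Ideal.mem_jacobson_bot] at h
    have h1 := h (-1)
    have h2 : e * (-1) + 1 = 1 - e := by ring
    rw [h2] at h1
    exact he4.ne (val_of_isUnit O O' _ h1).2
  · rw [Ideal.mem_jacobson_bot] at h
    have h1 := h (-1)
    have h2 : (1 - e) * (-1) + 1 = e := by ring
    rw [h2] at h1
    exact he1.ne (val_of_isUnit O O' _ h1).1

end NP_

end Pool.Agent.N616.NH
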