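import Pool.Agent.N616.NH.Stm2

set_option autoImplicit false

/-! Project NH: non-tameness of the second type without a condition on the residue
characteristic. -/

namespace Pool.Agent.N616.NH

open Pool.Agent.W882.Nip3 Pool.Agent.Results.MP_3554b5_lc.UnramifiedNorms NNReal

section

variable {K : Type} [Field K]

/-- Non-tame of the second type: `ℓ` is a prime number, the values of `t₁` and `t₂` are independent
modulo `ℓ`, and congruent to arbitrarily small positive values modulo `ℓ`. -/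
structure NT2' (O : ValuationSubring K) (ℓ : ℕ) (t₁ t₂ : K) : Prop where
  prime : ℓ.Prime
  nd : ∀ y : K, O.valuation t₁ ≠ O.valuation y ^ ℓ
  indep : ∀ (y : K) (i : ℕ), O.valuation t₂ ≠ O.valuation y ^ ℓ * O.valuation t₁ ^ i
  small₁ : SmallMod O ℓ t₁
  small₂ : SmallMod O ℓ t₂

/-- Non-tame up to `D`. -/
def NT' (D : ℕ) (O : ValuationSubring K) : Prop :=
  (∃ d ≤ D, ∃ t : K, NT1 O d t) ∨ ∃ ℓ ≤ D, ∃ t₁ t₂ : K, NT2' O ℓ t₁ t₂

end

/-- N3: norms from the extension by a root of `X ^ ℓ - X - a⁻¹` in characteristic `ℓ`. -/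
def S_N3 : Prop :=
  ∀ (F : Type) [Field F] (Γ₀ : Type) [LinearOrderedCommGroupWithZero Γ₀] (w : Valuation F Γ₀)
    (ℓ : ℕ), ℓ.Prime → (ℓ : F) = 0 → ∀ a b : F, w a < 1 → (∀ c : F, w a ≠ w c ^ ℓ) →
      (∀ (c : F) (i : ℕ), w b ≠ w c ^ ℓ * w a ^ i) → ∀ D : ℕ, ℓ ≤ D → ¬ DimLeOneUpTo F D

/-- BND': bounded number of pairwise incomparable non-tame valuation rings. -/
def S_BND' : Prop :=
  ∀ (K : Type) [Field K] [FirstOrder.Ring.CompatibleRing K],
    (NIPField K ∨ (∃ n, NIPnField n K) ∨ NTP2Field K) → ∀ D : ℕ, ∃ N : ℕ,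
      ∀ (K' : Type) [Field K'] [FirstOrder.Ring.CompatibleRing K'],
        FirstOrder.Language.ring.ElementarilyEquivalent K K' →
        ∀ O : Fin N → ValuationSubring K', (∀ i, NT' D (O i)) → ∃ i j, i ≠ j ∧ O i ≤ O j

/-- DEF2': non-tame valuation rings of type 2 are definable. -/
def S_DEF2' : Prop :=
  ∀ (K : Type) [Field K] [FirstOrder.Ring.CompatibleRing K],
    (NIPField K ∨ (∃ n, NIPnField n K) ∨ NTP2Field K) →
      ∀ (O : ValuationSubring K) (ℓ : ℕ) (t₁ t₂ : K), NT2' O ℓ t₁ t₂ → Dfb O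

/-- VP': the valuation ring of a valued place which is not tame is non-tame. -/
def S_VP' : Prop :=
  ∀ (K : Type) [Field K] (P : ValuedPlace K) (D : ℕ), ¬ P.TameUpTo D → NT' D (vring P)

end Pool.Agent.N616.NH
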