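import Pool.Agent.N616.NH.VP
import Pool.Agent.N616.NH.Stm3

set_option autoImplicit false

/-! Project NH: the valuation ring of a valued place which is not tame is non-tame. -/

namespace Pool.Agent.N616.NH

open Pool.Agent.W882.Nip3 Pool.Agent.TH686.NF
open Pool.Agent.Results.MP_3554b5_lc.UnramifiedNorms NNReal VP_

theorem vp' : S_VP' := by
  intro K _ P D hP
  unfold ValuedPlace.TameUpTo at hP
  push Not at hP
  obtain ⟨d, hd1, hdD, hd⟩ := hP
  have hpow : ∀ (y : K) (n : ℕ) (hn : n ≠ 0) (h : y ^ n ∈ P.O) (h0 : P.π ⟨y ^ n, h⟩ ≠ 0),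
      ∃ hy : y ∈ P.O, P.π ⟨y, hy⟩ ≠ 0 ∧ P.π ⟨y ^ n, h⟩ = P.π ⟨y, hy⟩ ^ n := by
    intro y n hn h h0
    have hy := mem_of_pow P hn h
    have h1 := pi_pow P hy n h
    refine ⟨hy, fun h2 => h0 ?_, h1⟩
    rw [h1, h2, zero_pow hn]
  by_cases h1 : P.Divisible d ∨ ¬ P.HasExtension d
  · obtain ⟨h2, h3, h4⟩ := hd h1
    right
    have hdense : Dense (lg P.v : Set ℝ) := dense_of_not_cyclicMod h2.ne_zero (by
      rintro ⟨a, ha, hb⟩
      exact h4 ⟨a, ha, hb⟩)
    unfold ValuedPlace.CyclicMod at h4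
    push Not at h4
    obtain ⟨a, ha⟩ := h4 1 one_ne_zero
    have ha0 : a ≠ 0 := by
      rintro rfl
      apply ha 0 0
      rw [map_zero, zero_pow h2.ne_zero, zero_mul]
    obtain ⟨b, hb⟩ := h4 a ha0
    have hb0 : b ≠ 0 := by
      rintro rfl
      apply hb 0 0
      rw [map_zero, zero_pow h2.ne_zero, zero_mul]
    have hv : ∃ e : P.κ, e ≠ 0 ∧ P.v e < 1 := by
      have hne : P.v a ≠ 1 := by
        intro h
        apply ha 1 0
        rw [h, map_one, one_pow, one_mul, pow_zero]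
      rcases lt_or_gt_of_ne hne with h | h
      · exact ⟨a, ha0, h⟩
      · refine ⟨a⁻¹, inv_ne_zero ha0, ?_⟩
        rw [map_inv₀]
        exact inv_lt_one_of_one_lt₀ h
    obtain ⟨⟨t₁, ht₁⟩, rfl⟩ := P.surjective a
    obtain ⟨⟨t₂, ht₂⟩, rfl⟩ := P.surjective b
    refine ⟨d, hdD, t₁, t₂, ⟨h2, ?_, ?_, ?_, ?_⟩⟩
    · intro y hy
      rw [← map_pow] at hy
      obtain ⟨hx, hx0, hxv⟩ := val_eq P ht₁ ha0 hy
      obtain ⟨hy', -, hy''⟩ := hpow y d h2.ne_zero hx hx0
      apply ha (P.π ⟨y, hy'⟩) 0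
      rw [pow_zero, mul_one, ← map_pow, ← hy'']
      exact hxv
    · intro y i hy
      rw [← map_pow, ← map_pow, ← map_mul] at hy
      obtain ⟨hx, hx0, hxv⟩ := val_eq P ht₂ hb0 hy
      obtain ⟨hti, hti'⟩ := inv_of_ne P ht₁ ha0
      have ht₁0 : t₁ ≠ 0 := by
        rintro rfl
        apply ha0
        have : (⟨0, ht₁⟩ : P.O) = 0 := rfl
        rw [this, map_zero]
      have hyO : y ^ d ∈ P.O := by
        have h5 := P.O.mul_mem _ _ hx (P.O.toSubring.pow_mem hti i)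
        rwa [mul_assoc, ← mul_pow, mul_inv_cancel₀ ht₁0, one_pow, mul_one] at h5
      have hpi : P.π ⟨y ^ d * t₁ ^ i, hx⟩ = P.π ⟨y ^ d, hyO⟩ * P.π ⟨t₁, ht₁⟩ ^ i := by
        rw [← map_pow, ← map_mul]
        rfl
      have h0 : P.π ⟨y ^ d, hyO⟩ ≠ 0 := by
        intro h
        apply hx0
        rw [hpi, h, zero_mul]
      obtain ⟨hy', -, hy''⟩ := hpow y d h2.ne_zero hyO h0
      apply hb (P.π ⟨y, hy'⟩) i
      rw [hxv, hpi, map_mul, hy'', map_pow, map_pow]
    · exact smallMod_of P h2.ne_zero ht₁ hv (fun e he he1 =>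
        exists_between hdense ha0 he he1 h2.one_le) ha0
    · exact smallMod_of P h2.ne_zero ht₂ hv (fun e he he1 =>
        exists_between hdense hb0 he he1 h2.one_le) hb0
  · push Not at h1
    left
    obtain ⟨h2, h3⟩ := h1
    unfold ValuedPlace.Divisible at h2
    push Not at h2
    obtain ⟨a, ha⟩ := h2
    have hd2 : 2 ≤ d := by
      by_contra hcon
      have : d = 1 := by omega
      subst this
      exact ha a (pow_one _).symm
    obtain ⟨a', ha'0, ha', hsm⟩ := small_one hd2 ha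
    have hv : ∃ e : P.κ, e ≠ 0 ∧ P.v e < 1 := by
      have hne : P.v a' ≠ 1 := by
        intro h
        apply ha' 1
        rw [h, map_one, one_pow]
      rcases lt_or_gt_of_ne hne with h | h
      · exact ⟨a', ha'0, h⟩
      · refine ⟨a'⁻¹, inv_ne_zero ha'0, ?_⟩
        rw [map_inv₀]
        exact inv_lt_one_of_one_lt₀ h
    obtain ⟨⟨t, ht⟩, rfl⟩ := P.surjective a'
    refine ⟨d, hdD, t, ⟨hd2, ?_, ?_, resExt_of P h3⟩⟩
    · intro y hy
      rw [← map_pow] at hy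
      obtain ⟨hx, hx0, hxv⟩ := val_eq P ht ha'0 hy
      obtain ⟨hy', -, hy''⟩ := hpow y d (by omega) hx hx0
      apply ha' (P.π ⟨y, hy'⟩)
      rw [← map_pow, ← hy'']
      exact hxv
    · exact smallMod_of P (by omega) ht hv hsm ha'0

end Pool.Agent.N616.NH
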