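import Pool.Agent.N616.NH.DEF1
import Pool.Agent.N616.NH.DEF2b
import Pool.Agent.N616.NH.BND
import Pool.Agent.N616.NH.BND2
import Pool.Agent.N616.NH.VP2
import Pool.Agent.N616.NH.NP3

set_option autoImplicit false

/-! Project NH: assembly. -/

namespace Pool.Agent.N616.NH

open FirstOrder Pool.Agent.W882.Nip3
open Pool.Agent.Results.MP_3554b5_lc.UnramifiedNorms

theorem nt'_of_nt {K : Type} [Field K] {D : ℕ} {O : ValuationSubring K} (h : NT D O) : NT' D O := by
  rcases h with h | ⟨l, hl, t₁, t₂, h⟩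
  · exact Or.inl h
  · exact Or.inr ⟨l, hl, t₁, t₂, h.prime, h.nd, h.indep, h.small₁, h.small₂⟩

theorem bnd_of_bnd' (h : S_BND') : S_BND := by
  intro K _ _ hK D
  obtain ⟨N, hN⟩ := h K hK D
  exact ⟨N, fun K' _ _ he O hO => hN K' he O fun i => nt'_of_nt (hO i)⟩

/-- non-tame valuation rings are definable -/
theorem dfb_of_nt' (h : S_BND') (K : Type) [Field K] [FirstOrder.Ring.CompatibleRing K]
    (hK : NIPField K ∨ (∃ n, NIPnField n K) ∨ NTP2Field K) {D : ℕ} {O : ValuationSubring K}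
    (hO : NT' D O) : Dfb O := by
  rcases hO with ⟨d, _, t, ht⟩ | ⟨l, _, t₁, t₂, ht⟩
  · exact DEF1 (bnd_of_bnd' h) K hK O d t ht
  · exact DEF2' h K hK O l t₁ t₂ ht

theorem ne_top_of_nt' {K : Type} [Field K] {D : ℕ} {O : ValuationSubring K} (hO : NT' D O) :
    O ≠ ⊤ ∧ Infinite K := by
  obtain ⟨e, he0, he1⟩ := BND2_.exists_small hO
  constructor
  · rintro rfl
    have h1 : e⁻¹ ∈ (⊤ : ValuationSubring K) := trivial
    rw [← ValuationSubring.valuation_le_one_iff, map_inv₀] at h1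
    exact absurd ((one_lt_inv₀ (zero_lt_iff.2 ((map_ne_zero _).2 he0))).2 he1) (not_lt.2 h1)
  · refine Infinite.of_injective (fun n : ℕ => e ^ n) fun m n hmn => ?_
    have h1 : O.valuation e ^ m = O.valuation e ^ n := by
      rw [← map_pow, ← map_pow]
      exact congrArg _ hmn
    exact (pow_right_strictAnti₀ (zero_lt_iff.2 ((map_ne_zero _).2 he0)) he1).injective h1

end Pool.Agent.N616.NH
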