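import Pool.Agent.N616.NH.Stm5

set_option autoImplicit false

/-! Project NH: valuations of algebraic extensions of the field of rational numbers. -/

namespace Pool.Agent.N616.NH

open NNReal Polynomial

namespace QAL_

variable {K : Type} [Field K] [Algebra ℚ K] (v : Valuation K ℝ≥0)

/-- a power of the value of an algebraic element is the value of a rational number -/
theorem pow_rat [Algebra.IsAlgebraic ℚ K] (b : K) (hb : b ≠ 0) :
    ∃ (n : ℕ) (c : ℚ), 0 < n ∧ c ≠ 0 ∧ v b ^ n = v (algebraMap ℚ K c) := by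
  obtain ⟨P, hP0, hP⟩ := Algebra.IsAlgebraic.isAlgebraic (R := ℚ) b
  have hne : P.support.Nonempty := by
    rw [Finset.nonempty_iff_ne_empty, Ne, Polynomial.support_eq_empty]
    exact hP0
  have hc : ∀ i ∈ P.support, algebraMap ℚ K (P.coeff i) ≠ 0 := by
    intro i hi
    rw [Ne, map_eq_zero]
    exact mem_support_iff.1 hi
  have ht : ∀ i ∈ P.support, v (algebraMap ℚ K (P.coeff i) * b ^ i) ≠ 0 := by
    intro i hi
    rw [Ne, map_eq_zero]
    exact mul_ne_zero (hc i hi) (pow_ne_zero _ hb)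
  obtain ⟨k, hk, hmax⟩ := P.support.exists_max_image (fun i => v (algebraMap ℚ K (P.coeff i) * b ^ i)) hne
  have h1 : ∃ i ∈ P.support, i ≠ k ∧
      v (algebraMap ℚ K (P.coeff i) * b ^ i) = v (algebraMap ℚ K (P.coeff k) * b ^ k) := by
    by_contra hcon
    push Not at hcon
    have h2 : v (∑ i ∈ P.support.erase k, algebraMap ℚ K (P.coeff i) * b ^ i) <
        v (algebraMap ℚ K (P.coeff k) * b ^ k) := by
      apply v.map_sum_lt (ht k hk)
      intro i hi
      have hi' := Finset.mem_of_mem_erase hi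
      exact lt_of_le_of_ne (hmax i hi') (hcon i hi' (Finset.ne_of_mem_erase hi))
    have h3 : aeval b P = ∑ i ∈ P.support, algebraMap ℚ K (P.coeff i) * b ^ i := by
      rw [aeval_eq_sum_range' (Nat.lt_succ_self _), ← Finset.sum_subset (s₁ := P.support)]
      · exact Finset.sum_congr rfl fun i _ => by rw [Algebra.smul_def]
      · intro i hi
        rw [Finset.mem_range]
        exact Nat.lt_succ_of_le (le_natDegree_of_mem_supp i hi)
      · intro i _ hi
        rw [notMem_support_iff.1 hi, zero_smul]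
    rw [hP, ← Finset.add_sum_erase _ _ hk] at h3
    have h4 := v.map_add_eq_of_lt_left h2
    rw [← h3, map_zero] at h4
    exact ht k hk h4.symm
  obtain ⟨i, hi, hik, hv⟩ := h1
  have key : ∀ i j : ℕ, i ∈ P.support → j ∈ P.support → i < j →
      v (algebraMap ℚ K (P.coeff i) * b ^ i) = v (algebraMap ℚ K (P.coeff j) * b ^ j) →
      ∃ (n : ℕ) (c : ℚ), 0 < n ∧ c ≠ 0 ∧ v b ^ n = v (algebraMap ℚ K c) := by
    intro i j hi hj hij h
    refine ⟨j - i, P.coeff i / P.coeff j, by omega,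
      div_ne_zero (mem_support_iff.1 hi) (mem_support_iff.1 hj), ?_⟩
    have h5 : b ^ j = b ^ i * b ^ (j - i) := by rw [← pow_add]; congr 1; omega
    rw [h5, map_mul, map_mul, map_mul, map_pow, map_pow] at h
    have h6 : v b ^ i ≠ 0 := pow_ne_zero _ ((v.ne_zero_iff).2 hb)
    have h7 : v (algebraMap ℚ K (P.coeff j)) ≠ 0 := (v.ne_zero_iff).2 (hc j hj)
    rw [map_div₀, map_div₀, eq_div_iff h7]
    apply mul_right_cancel₀ h6
    rw [h]
    ring
  rcases lt_or_gt_of_ne hik with h | h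
  · exact key i k hi hk h hv
  · exact key k i hk hi h hv.symm

omit [Algebra ℚ K] in
theorem nat_le_one (n : ℕ) : v (n : K) ≤ 1 := by
  induction n with
  | zero => simp
  | succ n ih =>
    rw [Nat.cast_succ]
    exact (v.map_add _ _).trans (max_le ih (by rw [map_one]))

omit [Algebra ℚ K] in
theorem int_le_one (n : ℤ) : v (n : K) ≤ 1 := by
  rcases Int.natAbs_eq n with h | h
  · rw [h, Int.cast_natCast]
    exact nat_le_one v _
  · rw [h, Int.cast_neg, Int.cast_natCast, Valuation.map_neg]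
    exact nat_le_one v _

/-- the residue characteristic -/
theorem exists_prime (c : ℚ) (hc0 : c ≠ 0) (hc : v (algebraMap ℚ K c) < 1) :
    ∃ p : ℕ, p.Prime ∧ v (p : K) < 1 := by
  have : CharZero K := algebraRat.charZero K
  have h1 : v ((c.num : ℤ) : K) < 1 := by
    have h2 : algebraMap ℚ K c * ((c.den : ℕ) : K) = ((c.num : ℤ) : K) := by
      have h3 : (c : ℚ) * (c.den : ℚ) = (c.num : ℚ) := Rat.mul_den_eq_num c
      have h4 := congrArg (algebraMap ℚ K) h3
      rw [map_mul, map_natCast, map_intCast] at h4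
      exact h4
    rw [← h2, map_mul]
    calc v (algebraMap ℚ K c) * v ((c.den : ℕ) : K) ≤ v (algebraMap ℚ K c) * 1 :=
          mul_le_mul_right (nat_le_one v _) _
      _ < 1 := by rwa [mul_one]
  have h2 : ∃ n : ℕ, 0 < n ∧ v (n : K) < 1 := by
    refine ⟨c.num.natAbs, Int.natAbs_pos.2 (Rat.num_ne_zero.2 hc0), ?_⟩
    rcases Int.natAbs_eq c.num with h | h
    · rw [h, Int.cast_natCast] at h1
      exact h1
    · rw [h, Int.cast_neg, Int.cast_natCast, Valuation.map_neg] at h1
      exact h1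
  classical
  obtain ⟨h3, h4⟩ := Nat.find_spec h2
  set n := Nat.find h2 with hn
  have hmin : ∀ m : ℕ, 0 < m → m < n → v (m : K) = 1 := by
    intro m hm hmn
    have h5 := Nat.find_min h2 hmn
    push Not at h5
    exact le_antisymm (nat_le_one v m) (h5 hm)
  refine ⟨n, ?_, h4⟩
  rw [Nat.prime_def]
  constructor
  · rcases Nat.lt_or_ge 1 n with h | h
    · exact h
    · have h5 : n = 1 := by omega
      rw [h5, Nat.cast_one, map_one] at h4
      exact absurd h4 (lt_irrefl _)
  · intro m hm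
    by_contra hcon
    push Not at hcon
    obtain ⟨k, hk⟩ := hm
    have hm0 : 0 < m := Nat.pos_of_ne_zero fun h => by rw [h, zero_mul] at hk; omega
    have hk0 : 0 < k := Nat.pos_of_ne_zero fun h => by rw [h, mul_zero] at hk; omega
    have hmn : m < n := by
      apply lt_of_le_of_ne _ hcon.2
      rw [hk]
      exact Nat.le_mul_of_pos_right _ hk0
    have hkn : k < n := by
      have : 1 < m := lt_of_le_of_ne hm0 (Ne.symm hcon.1)
      rw [hk]
      exact lt_mul_of_one_lt_left hk0 this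
    have h5 : v (n : K) = 1 := by
      rw [hk, Nat.cast_mul, map_mul, hmin m hm0 hmn, hmin k hk0 hkn, one_mul]
    rw [h5] at h4
    exact lt_irrefl _ h4

/-- integers prime to `p` have the value `1` -/
theorem unit_int {p : ℕ} (hp : p.Prime) (hvp : v (p : K) < 1) (a : ℤ) (ha : ¬ (p : ℤ) ∣ a) :
    v (a : K) = 1 := by
  refine le_antisymm (int_le_one v a) ?_
  by_contra hcon
  push Not at hcon
  have h1 : IsCoprime (p : ℤ) a := (Int.isCoprime_iff_gcd_eq_one).2 (by
    have := (Int.prime_iff_natAbs_prime.2 (by simpa using hp) : Prime (p : ℤ))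
    exact Int.isCoprime_iff_gcd_eq_one.1 ((Prime.coprime_iff_not_dvd this).2 ha))
  obtain ⟨u, w, h⟩ := h1
  have h2 : ((u : ℤ) : K) * ((p : ℕ) : K) + ((w : ℤ) : K) * ((a : ℤ) : K) = 1 := by
    have := congrArg (Int.cast (R := K)) h
    push_cast at this
    exact this
  have h3 : v (((u : ℤ) : K) * ((p : ℕ) : K) + ((w : ℤ) : K) * ((a : ℤ) : K)) < 1 := by
    apply v.map_add_lt
    · rw [map_mul]
      calc v ((u : ℤ) : K) * v ((p : ℕ) : K) ≤ 1 * v ((p : ℕ) : K) :=
            mul_le_mul_left (int_le_one v _) _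
        _ < 1 := by rwa [one_mul]
    · rw [map_mul]
      calc v ((w : ℤ) : K) * v ((a : ℤ) : K) ≤ 1 * v ((a : ℤ) : K) :=
            mul_le_mul_left (int_le_one v _) _
        _ < 1 := by rwa [one_mul]
  rw [h2, map_one] at h3
  exact lt_irrefl _ h3

theorem int_val {p : ℕ} (hp : p.Prime) (hvp : v (p : K) < 1) (a : ℤ) (ha : a ≠ 0) :
    ∃ k : ℕ, v (a : K) = v (p : K) ^ k := by
  have hfin : FiniteMultiplicity (p : ℤ) a := by
    rw [Int.finiteMultiplicity_iff]
    refine ⟨?_, ha⟩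
    rw [Int.natAbs_natCast]
    exact hp.ne_one
  obtain ⟨c, hc1, hc2⟩ := hfin.exists_eq_pow_mul_and_not_dvd
  refine ⟨multiplicity (p : ℤ) a, ?_⟩
  have h1 := congrArg (Int.cast (R := K)) hc1
  rw [h1, Int.cast_mul, Int.cast_pow, Int.cast_natCast, map_mul, map_pow, unit_int v hp hvp c hc2,
    mul_one]

theorem rat_val {p : ℕ} (hp : p.Prime) (hvp : v (p : K) < 1) (c : ℚ) (hc : c ≠ 0) :
    ∃ s : ℤ, v (algebraMap ℚ K c) = v (p : K) ^ s := by
  have : CharZero K := algebraRat.charZero K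
  obtain ⟨k, hk⟩ := int_val v hp hvp c.num (Rat.num_ne_zero.2 hc)
  obtain ⟨l, hl⟩ := int_val v hp hvp (c.den : ℤ) (by exact_mod_cast c.den_nz)
  have hp0 : v (p : K) ≠ 0 := (v.ne_zero_iff).2 (by exact_mod_cast hp.ne_zero)
  refine ⟨(k : ℤ) - l, ?_⟩
  rw [zpow_sub₀ hp0, zpow_natCast, zpow_natCast, ← hk, ← hl, ← map_div₀]
  congr 1
  have h3 : (c : ℚ) = (c.num : ℚ) / ((c.den : ℤ) : ℚ) := by
    rw [Int.cast_natCast]
    exact (Rat.num_div_den c).symm
  calc algebraMap ℚ K c = algebraMap ℚ K ((c.num : ℚ) / ((c.den : ℤ) : ℚ)) := by rw [← h3]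
    _ = _ := by rw [map_div₀, map_intCast, map_intCast]

omit [Algebra ℚ K] in
/-- elements of value less than one are in the maximal ideal -/
theorem residue_eq_zero (x : v.valuationSubring) (hx : v (x : K) < 1) :
    IsLocalRing.residue v.valuationSubring x = 0 := by
  rw [IsLocalRing.residue_eq_zero_iff, IsLocalRing.mem_maximalIdeal, mem_nonunits_iff]
  intro hu
  obtain ⟨y, hy⟩ := hu.exists_right_inv
  have h1 : (x : K) * (y : K) = 1 := by
    have := congrArg (Subtype.val) hy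
    exact this
  have h2 : v (y : K) ≤ 1 := (v.mem_valuationSubring_iff _).1 y.2
  have h3 : v (x : K) * v (y : K) = 1 := by rw [← map_mul, h1, map_one]
  have h4 : v (x : K) * v (y : K) < 1 := by
    calc v (x : K) * v (y : K) ≤ v (x : K) * 1 := mul_le_mul_right h2 _
      _ < 1 := by rwa [mul_one]
  rw [h3] at h4
  exact lt_irrefl _ h4

omit [Algebra ℚ K] in
theorem charP_residue {p : ℕ} (hp : p.Prime) (hvp : v (p : K) < 1) :
    CharP (IsLocalRing.ResidueField v.valuationSubring) p := by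
  rw [CharP.charP_iff_prime_eq_zero hp]
  have h1 := residue_eq_zero v ((p : ℕ) : v.valuationSubring) (by simpa using hvp)
  rw [map_natCast] at h1
  exact h1

/-- elements algebraic over the prime field -/
theorem pow_of_algebraic {κ : Type} [Field κ] {p : ℕ} [hp : Fact p.Prime] [CharP κ p] [Algebra (ZMod p) κ]
    (a : κ) (ha : IsAlgebraic (ZMod p) a) : ∃ m : ℕ, 0 < m ∧ a ^ p ^ m = a := by
  have hint : IsIntegral (ZMod p) a := ha.isIntegral
  have : FiniteDimensional (ZMod p) (IntermediateField.adjoin (ZMod p) {a}) :=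
    IntermediateField.adjoin.finiteDimensional hint
  have : Finite (IntermediateField.adjoin (ZMod p) {a}) := Module.finite_of_finite (ZMod p)
  let _ := Fintype.ofFinite (IntermediateField.adjoin (ZMod p) {a})
  have : CharP (IntermediateField.adjoin (ZMod p) {a}) p := by
    exact charP_of_injective_algebraMap (algebraMap (ZMod p) _).injective p
  obtain ⟨n, _, hn⟩ := FiniteField.card (IntermediateField.adjoin (ZMod p) {a}) p
  refine ⟨n, n.2, ?_⟩
  have h1 := FiniteField.pow_card (⟨a, IntermediateField.mem_adjoin_simple_self (ZMod p) a⟩ :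
    IntermediateField.adjoin (ZMod p) {a})
  rw [hn] at h1
  exact congrArg Subtype.val h1

theorem residue_pow [Algebra.IsAlgebraic ℚ K] {p : ℕ} (hp : p.Prime)
    [CharP (IsLocalRing.ResidueField v.valuationSubring) p]
    (a : IsLocalRing.ResidueField v.valuationSubring) : ∃ m : ℕ, 0 < m ∧ a ^ p ^ m = a := by
  have : Fact p.Prime := ⟨hp⟩
  let _ : Algebra (ZMod p) (IsLocalRing.ResidueField v.valuationSubring) := ZMod.algebra _ p
  apply pow_of_algebraic
  obtain ⟨z, rfl⟩ := IsLocalRing.residue_surjective a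
  have h1 : IsAlgebraic ℤ (z : K) :=
    (IsFractionRing.isAlgebraic_iff ℤ ℚ K).2 (Algebra.IsAlgebraic.isAlgebraic _)
  obtain ⟨g, hg0, hg⟩ := h1
  have : CharZero K := algebraRat.charZero K
  have hg' := aeval_primPart_eq_zero hg0 hg
  have hgp := g.isPrimitive_primPart
  set f := g.primPart with hf
  have h2 : eval₂ (Int.castRingHom v.valuationSubring) z f = 0 := by
    have h3 : (algebraMap v.valuationSubring K) (eval₂ (Int.castRingHom v.valuationSubring) z f) = 0 := by
      rw [hom_eval₂, RingHom.eq_intCast' ((algebraMap v.valuationSubring K).comp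
        (Int.castRingHom v.valuationSubring))]
      rw [aeval_def] at hg'
      have e : algebraMap ℤ K = Int.castRingHom K := RingHom.eq_intCast' _
      rw [e] at hg'
      exact hg'
    exact (map_eq_zero_iff (algebraMap v.valuationSubring K) Subtype.val_injective).1 h3
  have h3 : eval₂ (Int.castRingHom (IsLocalRing.ResidueField v.valuationSubring))
      (IsLocalRing.residue v.valuationSubring z) f = 0 := by
    have h4 := congrArg (IsLocalRing.residue v.valuationSubring) h2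
    rw [hom_eval₂, map_zero, RingHom.eq_intCast' ((IsLocalRing.residue v.valuationSubring).comp
        (Int.castRingHom v.valuationSubring))] at h4
    exact h4
  refine ⟨f.map (Int.castRingHom (ZMod p)), ?_, ?_⟩
  · intro h4
    have h5 : C (p : ℤ) ∣ f := by
      rw [C_dvd_iff_dvd_coeff]
      intro i
      have h6 := congrArg (fun q => coeff q i) h4
      simp only [coeff_map, coeff_zero] at h6
      rw [← ZMod.intCast_zmod_eq_zero_iff_dvd]
      exact h6
    have h6 := hgp _ h5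
    rw [Int.isUnit_iff] at h6
    have := hp.two_le
    omega
  · rw [aeval_def, eval₂_map, RingHom.eq_intCast' ((algebraMap (ZMod p)
      (IsLocalRing.ResidueField v.valuationSubring)).comp (Int.castRingHom (ZMod p)))]
    exact h3

/-- the value group modulo `d`-th powers is cyclic -/
theorem cyc [Algebra.IsAlgebraic ℚ K] {p : ℕ} (hp : p.Prime) (hvp : v (p : K) < 1) (d : ℕ)
    (hd : d.Prime) : ∃ a : K, a ≠ 0 ∧ ∀ b : K, ∃ (c : K) (i : ℕ), v b = v c ^ d * v a ^ i := by
  have : CharZero K := algebraRat.charZero K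
  by_cases hall : ∀ b : K, ∃ c : K, v b = v c ^ d
  · refine ⟨1, one_ne_zero, fun b => ?_⟩
    obtain ⟨c, hc⟩ := hall b
    exact ⟨c, 0, by rw [hc, pow_zero, mul_one]⟩
  push Not at hall
  obtain ⟨a, ha⟩ := hall
  have ha0 : a ≠ 0 := by
    rintro rfl
    exact ha 0 (by rw [map_zero, zero_pow hd.ne_zero])
  refine ⟨a, ha0, fun b => ?_⟩
  by_cases hb0 : b = 0
  · exact ⟨0, 0, by rw [hb0, map_zero, zero_pow hd.ne_zero, zero_mul]⟩
  have hva : v a ≠ 0 := (v.ne_zero_iff).2 ha0
  have hvb : v b ≠ 0 := (v.ne_zero_iff).2 hb0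
  have hp0 : v (p : K) ≠ 0 := (v.ne_zero_iff).2 (by exact_mod_cast hp.ne_zero)
  obtain ⟨n1, c1, hn1, hc1, h1⟩ := pow_rat v a ha0
  obtain ⟨n2, c2, hn2, hc2, h2⟩ := pow_rat v b hb0
  obtain ⟨s1, hs1⟩ := rat_val v hp hvp c1 hc1
  obtain ⟨s2, hs2⟩ := rat_val v hp hvp c2 hc2
  rw [hs1] at h1
  rw [hs2] at h2
  have hs10 : s1 ≠ 0 := by
    rintro rfl
    rw [zpow_zero] at h1
    have h3 : v a = 1 := (pow_eq_one_iff_of_nonneg (zero_le) hn1.ne').1 h1
    exact ha 1 (by rw [h3, map_one, one_pow])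
  have h3 : v b ^ ((n2 : ℤ) * s1) = v a ^ ((n1 : ℤ) * s2) := by
    rw [zpow_mul, zpow_natCast, h2, zpow_mul, zpow_natCast, h1, ← zpow_mul, ← zpow_mul, mul_comm]
  set N := (n2 : ℤ) * s1 with hN
  set M := (n1 : ℤ) * s2 with hM
  have hN0 : N ≠ 0 := mul_ne_zero (by exact_mod_cast hn2.ne') hs10
  -- divide by the gcd
  obtain ⟨g, N', M', hg, hcop, hN', hM'⟩ : ∃ (g : ℕ) (N' M' : ℤ), 0 < g ∧ IsCoprime N' M' ∧
      N = N' * g ∧ M = M' * g := by
    have hgpos : 0 < Int.gcd N M := Int.gcd_pos_of_ne_zero_left _ hN0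
    obtain ⟨N', M', hc, e1, e2⟩ := Int.exists_gcd_one hgpos
    exact ⟨Int.gcd N M, N', M', hgpos, Int.isCoprime_iff_gcd_eq_one.2 hc, e1, e2⟩
  have h4 : v b ^ N' = v a ^ M' := by
    have h5 : (v b ^ N') ^ g = (v a ^ M') ^ g := by
      rw [← zpow_natCast, ← zpow_natCast, ← zpow_mul, ← zpow_mul, ← hN', ← hM', h3]
    exact (pow_left_inj₀ (zero_le) (zero_le) hg.ne').1 h5
  have hdp : Prime (d : ℤ) := Nat.prime_iff_prime_int.1 hd
  have hnd : ¬ (d : ℤ) ∣ N' := by
    rintro ⟨k, hk⟩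
    have hnM : ¬ (d : ℤ) ∣ M' := by
      intro hdM
      have := hcop.isUnit_of_dvd' ⟨k, hk⟩ hdM
      exact hdp.not_isUnit this
    obtain ⟨w, u, hwu⟩ := (Prime.coprime_iff_not_dvd hdp).2 hnM
    apply ha (b ^ (k * u) * a ^ w)
    rw [map_mul, map_zpow₀, map_zpow₀, mul_pow, ← zpow_natCast, ← zpow_natCast, ← zpow_mul,
      ← zpow_mul]
    have e1 : v b ^ (k * u * (d : ℤ)) = v a ^ (M' * u) := by
      rw [zpow_mul (v a), ← h4, ← zpow_mul, hk]
      congr 1
      ring
    rw [e1, ← zpow_add₀ hva]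
    have e2 : M' * u + w * (d : ℤ) = 1 := by linarith
    rw [e2, zpow_one]
  obtain ⟨w, u, hwu⟩ := (Prime.coprime_iff_not_dvd hdp).2 hnd
  refine ⟨b ^ w * a ^ (M' * u / d), (M' * u % d).toNat, ?_⟩
  have hd0 : (d : ℤ) ≠ 0 := by exact_mod_cast hd.ne_zero
  have e0 : (((M' * u % d).toNat : ℕ) : ℤ) = M' * u % d := Int.toNat_of_nonneg (Int.emod_nonneg _ hd0)
  rw [map_mul, map_zpow₀, map_zpow₀, mul_pow, ← zpow_natCast, ← zpow_natCast, ← zpow_natCast,
    ← zpow_mul, ← zpow_mul, e0, mul_assoc, ← zpow_add₀ hva]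
  have e1 : M' * u / d * (d : ℤ) + M' * u % d = M' * u := Int.ediv_mul_add_emod _ _
  rw [e1, zpow_mul (v a), ← h4, ← zpow_mul, ← zpow_add₀ hvb]
  have e2 : w * (d : ℤ) + N' * u = 1 := by linarith
  rw [e2, zpow_one]

end QAL_

open QAL_ in
theorem QAL : S_QAL := by
  intro K _ _ _ v ⟨e, he0, he⟩
  obtain ⟨n, c, hn, hc0, h⟩ := pow_rat v e he0
  have hc : v (algebraMap ℚ K c) < 1 := by
    rw [← h]
    exact pow_lt_one₀ (zero_le) he hn.ne'
  obtain ⟨p, hp, hvp⟩ := exists_prime v c hc0 hc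
  have hchar := charP_residue v hp hvp
  exact ⟨p, hp, hvp, hchar, fun a => residue_pow v hp a, fun d hd => cyc v hp hvp d hd⟩

end Pool.Agent.N616.NH
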