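import Pool.Agent.N616.NH.Main
import Pool.Agent.N616.NH.AL2
import Pool.Agent.N616.NH.QAL

set_option autoImplicit false

/-! Project NH: assembly for positive residue characteristic. -/

namespace Pool.Agent.N616.NH

open FirstOrder Pool.Agent.W882.Nip3 NNReal
open Pool.Agent.Results.MP_3554b5_lc.UnramifiedNorms

/-- the residue field is closed under Artin-Schreier extensions, and algebraically closed if it is
algebraic over the prime field, or it is finite and the valuation is finitely ramified -/
theorem res_main (K : Type) [Field K] [FirstOrder.Ring.CompatibleRing K] (n : ℕ)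
    (hK : NIPnField n K) (O : ValuationSubring K) (hO : Dfb O) (p : ℕ) (hp : p.Prime)
    [CharP (IsLocalRing.ResidueField O) p] :
    ((∀ a : IsLocalRing.ResidueField O, ∃ y, y ^ p - y = a) ∧
      ((∀ a : IsLocalRing.ResidueField O, ∃ m : ℕ, 0 < m ∧ a ^ p ^ m = a) →
        IsAlgClosed (IsLocalRing.ResidueField O))) ∨
    (Finite (IsLocalRing.ResidueField O) ∧
      ∃ N : ℕ, ∀ t : K, O.valuation t < 1 → ∃ z ∈ O, t ^ N = z * p) := by
  have : Fact p.Prime := ⟨hp⟩
  rcases FR_.res_or_ram K n hK O hO p with h | ⟨h, N, hN⟩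
  · exact Or.inl ⟨h, fun halg => AL_.alg_closed K n hK O hO p halg h⟩
  · refine Or.inr ⟨h, N, fun t ht => ?_⟩
    have h1 := hN t ht
    rw [← map_pow, ValuationSubring.valuation_le_iff] at h1
    obtain ⟨z, hz⟩ := h1
    exact ⟨z, z.2, hz.symm⟩

theorem vring_ofValuation {K : Type} [Field K] (v : Valuation K ℝ≥0) :
    vring (ofValuation v) = v.valuationSubring := by
  ext x
  constructor
  · rintro ⟨h, h1⟩
    exact h1
  · intro h
    exact ⟨trivial, h⟩

theorem finrank_one (k L : Type) [Field k] [IsAlgClosed k] [Field L] [Algebra k L]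
    (h : 1 ≤ Module.finrank k L) : Module.finrank k L = 1 := by
  have hfin : FiniteDimensional k L := Module.finite_of_finrank_pos (by omega)
  have hbij := IsAlgClosed.algebraMap_bijective_of_isIntegral (k := k) (K := L)
  exact (LinearEquiv.ofBijective (Algebra.linearMap k L) hbij).finrank_eq.symm.trans
    (Module.finrank_self _)

/-- valuations of algebraic extensions of the field of rational numbers -/
theorem alg_rat (K : Type) [Field K] [Algebra ℚ K] [Algebra.IsAlgebraic ℚ K]
    (v : Valuation K ℝ≥0) (D : ℕ) (hv : ¬ (ofValuation v).TameUpTo D)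
    (hres : ∀ (p : ℕ), p.Prime → CharP (IsLocalRing.ResidueField v.valuationSubring) p →
      ((∀ a : IsLocalRing.ResidueField v.valuationSubring, ∃ m : ℕ, 0 < m ∧ a ^ p ^ m = a) →
        IsAlgClosed (IsLocalRing.ResidueField v.valuationSubring)) ∨
      (Finite (IsLocalRing.ResidueField v.valuationSubring) ∧
        ∃ N : ℕ, ∀ t : K, v.valuationSubring.valuation t < 1 →
          ∃ z ∈ v.valuationSubring, t ^ N = z * p)) :
    ∃ p : ℕ, p.Prime ∧ v (p : K) < 1 ∧ Finite (IsLocalRing.ResidueField v.valuationSubring) ∧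
      ∃ N : ℕ, ∀ t : K, v t < 1 → v t ^ N ≤ v (p : K) := by
  -- nontrivial
  have hnt : ∃ e : K, e ≠ 0 ∧ v e < 1 := by
    have hNT := vp' K (ofValuation v) D hv
    obtain ⟨e, he0, he1⟩ := BND2_.exists_small hNT
    rw [vring_ofValuation] at he1
    refine ⟨e, he0, ?_⟩
    by_contra h
    rw [not_lt] at h
    have h1 : e⁻¹ ∈ v.valuationSubring := by
      show v e⁻¹ ≤ 1
      rw [map_inv₀]
      exact inv_le_one_of_one_le₀ h
    rw [← ValuationSubring.valuation_le_one_iff, map_inv₀] at h1
    exact absurd ((one_lt_inv₀ (zero_lt_iff.2 ((map_ne_zero _).2 he0))).2 he1) (not_lt.2 h1)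
  obtain ⟨p, hp, hvp, hch, halg, hcyc⟩ := QAL K v hnt
  refine ⟨p, hp, hvp, ?_⟩
  rcases hres p hp hch with h | ⟨h, N, hN⟩
  · exfalso
    have hcl := h halg
    apply hv
    intro d hd1 hdD
    constructor
    · by_cases hd : d = 1
      · left
        rw [hd]
        intro a
        exact ⟨a, (pow_one _).symm⟩
      · right
        rintro ⟨L, _, _, hsep, hL⟩
        have hcl' : IsAlgClosed (IsLocalRing.ResidueField (ofValuation v).v.valuationSubring) := hcl
        apply hd
        rw [← hL]
        exact finrank_one _ L (by rw [hL]; exact hd1)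
    · intro hdp _
      exact hcyc d hdp
  · refine ⟨h, N, fun t ht => ?_⟩
    have ht' : v.valuationSubring.valuation t < 1 := by
      by_contra h1
      rw [not_lt] at h1
      by_cases ht0 : t = 0
      · rw [ht0, map_zero] at h1
        exact absurd h1 (not_le.2 zero_lt_one)
      have h2 : t⁻¹ ∈ v.valuationSubring := by
        rw [← ValuationSubring.valuation_le_one_iff, map_inv₀]
        exact inv_le_one_of_one_le₀ h1
      have h3 : v t⁻¹ ≤ 1 := h2
      rw [map_inv₀] at h3
      exact absurd ((one_lt_inv₀ (zero_lt_iff.2 ((map_ne_zero _).2 ht0))).2 ht) (not_lt.2 h3)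
    obtain ⟨z, hz, h1⟩ := hN t ht'
    rw [← map_pow, h1, map_mul]
    have h2 : v z ≤ 1 := hz
    exact mul_le_of_le_one_left' h2

end Pool.Agent.N616.NH
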