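import Pool.Agent.N616.NH.Stm
import Pool.Agent.TH686.NF.Transfer

set_option autoImplicit false

/-!
# Project NH, part N1: norms from the unramified extension, arbitrary value groups
-/

namespace Pool.Agent.N616.NH

open Polynomial Pool.Agent.W882.Nip3

namespace N1_

variable {K : Type} [Field K] {O : ValuationSubring K} {P : Place K}
  {w : Valuation P.F O.ValueGroup}

theorem res_le (h : PD O P w) (x : O) : w (P.res ⟨x, h.le x x.2⟩) ≤ 1 := by
  by_cases h0 : P.res ⟨x, h.le x x.2⟩ = 0
  · rw [h0, map_zero]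
    exact zero_le_one
  · rw [h.val _ h0]
    exact O.valuation_le_one x

/-- the map between the valuation rings -/
def kk (h : PD O P w) : O →+* w.valuationSubring where
  toFun x := ⟨P.res ⟨x, h.le x x.2⟩, res_le h x⟩
  map_one' := Subtype.ext (map_one P.res)
  map_mul' x y := Subtype.ext
    (map_mul P.res ⟨(x : K), h.le x x.2⟩ ⟨(y : K), h.le y y.2⟩)
  map_zero' := Subtype.ext (map_zero P.res)
  map_add' x y := Subtype.ext
    (map_add P.res ⟨(x : K), h.le x x.2⟩ ⟨(y : K), h.le y y.2⟩)

theorem kk_val (h : PD O P w) (x : O) :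
    ((kk h x : w.valuationSubring) : P.F) = P.res ⟨x, h.le x x.2⟩ := rfl

instance kk_local (h : PD O P w) : IsLocalHom (kk h) where
  map_nonunit x hx := by
    rw [Pool.Agent.TH686.NF.isUnit_iff, kk_val] at hx
    have h0 : P.res ⟨x, h.le x x.2⟩ ≠ 0 := by
      intro h0
      rw [h0, map_zero] at hx
      exact zero_ne_one hx
    rw [h.val _ h0] at hx
    exact (O.valuation_eq_one_iff x).2 hx

theorem near_val (h : PD O P w) {y : P.F} (hy : y ≠ 0) :
    ∃ x : P.O, P.res x ≠ 0 ∧ w (y - P.res x) < w y ∧ O.valuation (x : K) = w y := by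
  obtain ⟨x, hx⟩ := h.near y hy
  have h1 : w (P.res x) = w y := by
    have e1 : P.res x = y - (y - P.res x) := by ring
    rw [e1]
    exact Valuation.map_sub_eq_of_lt_left _ hx
  have h0 : P.res x ≠ 0 := by
    intro h0
    rw [h0, map_zero] at h1
    exact hy (w.zero_iff.1 h1.symm)
  exact ⟨x, h0, hx, by rw [← h.val x h0, h1]⟩

theorem res_bij (h : PD O P w) : Function.Bijective (IsLocalRing.ResidueField.map (kk h)) := by
  refine ⟨RingHom.injective _, ?_⟩
  intro y
  obtain ⟨y, rfl⟩ := IsLocalRing.residue_surjective y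
  by_cases hy : w (y : P.F) < 1
  · refine ⟨0, ?_⟩
    rw [map_zero]
    symm
    rw [IsLocalRing.residue_eq_zero_iff, IsLocalRing.mem_maximalIdeal]
    intro hu
    rw [Pool.Agent.TH686.NF.isUnit_iff] at hu
    exact hy.ne hu
  · have h1 : w (y : P.F) = 1 := le_antisymm y.2 (not_lt.1 hy)
    have hy0 : (y : P.F) ≠ 0 := by
      intro h0
      rw [h0, map_zero] at h1
      exact zero_ne_one h1
    obtain ⟨x, -, hx, hxv⟩ := near_val h hy0
    rw [h1] at hx hxv
    have hxO : (x : K) ∈ O := (O.valuation_le_one_iff _).1 hxv.le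
    refine ⟨IsLocalRing.residue _ ⟨x, hxO⟩, ?_⟩
    rw [IsLocalRing.ResidueField.map_residue]
    symm
    rw [← sub_eq_zero, ← map_sub, IsLocalRing.residue_eq_zero_iff, IsLocalRing.mem_maximalIdeal]
    intro hu
    rw [Pool.Agent.TH686.NF.isUnit_iff] at hu
    exact hx.ne hu

end N1_

open N1_ in
theorem N1 : S_N1 := by
  intro K _ O P w h d s hs hs0 hdiv hd hext D hD
  obtain ⟨L, _, _, hsepL, hL⟩ := hext
  have hfin : FiniteDimensional (IsLocalRing.ResidueField O) L :=
    FiniteDimensional.of_finrank_pos (by omega)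
  obtain ⟨α, hα⟩ := Field.exists_primitive_element (IsLocalRing.ResidueField O) L
  obtain ⟨q, hq⟩ : ∃ q, q = minpoly (IsLocalRing.ResidueField O) α := ⟨_, rfl⟩
  have hint : IsIntegral (IsLocalRing.ResidueField O) α := Algebra.IsIntegral.isIntegral α
  have hm : q.Monic := by rw [hq]; exact minpoly.monic hint
  have hi : Irreducible q := by rw [hq]; exact minpoly.irreducible hint
  have hsp : q.Separable := by rw [hq]; exact Algebra.IsSeparable.isSeparable _ α
  have hdeg : q.natDegree = d := by
    rw [← hL, ← IntermediateField.finrank_top', ← hα, hq]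
    exact (IntermediateField.adjoin.finrank hint).symm
  have hl : q ∈ lifts (IsLocalRing.residue O) := by
    rw [lifts_iff_coeff_lifts]
    intro n
    exact IsLocalRing.residue_surjective _
  obtain ⟨f, hf1, hf2, hf3⟩ := lifts_and_natDegree_eq_and_monic hl hm
  have h1 : (f.map (kk h)).map (IsLocalRing.residue _) =
      (f.map (IsLocalRing.residue _)).map (IsLocalRing.ResidueField.map (kk h)) := by
    rw [Polynomial.map_map, Polynomial.map_map]
    congr 1
  have ht1 : Irreducible ((f.map (kk h)).map (IsLocalRing.residue _)) := by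
    rw [h1, hf1]
    have h2 : q.map (IsLocalRing.ResidueField.map (kk h)) =
        Polynomial.mapEquiv (RingEquiv.ofBijective _ (res_bij h)) q := rfl
    rw [h2]
    exact (MulEquiv.irreducible_iff
      (Polynomial.mapEquiv (RingEquiv.ofBijective _ (res_bij h)))).2 hi
  have ht2 : ((f.map (kk h)).map (IsLocalRing.residue _)).Separable := by
    rw [h1, hf1]
    exact hsp.map
  have hgd : (f.map (kk h)).natDegree = d := by
    rw [hf3.natDegree_map, hf2, hdeg]
  refine Pool.Agent.TH686.NF.not_dimLe w _ (hf3.map _) ht1 ht2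
    (a := P.res ⟨s, hs⟩) hs0 ?_ (by omega) (by rw [hgd]; exact hD)
  intro c hc
  rw [hgd] at hc
  by_cases hc0 : c = 0
  · rw [hc0, map_zero, zero_pow (by omega)] at hc
    exact hs0 (w.zero_iff.1 hc)
  · obtain ⟨x, -, -, hx⟩ := near_val h hc0
    apply hdiv x
    rw [hx, ← hc, h.val _ hs0]

end Pool.Agent.N616.NH
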