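import Pool.Agent.N616.NH.Stm
import Pool.Agent.TH686.NF.Unram

/-!
# Project NH, module N2: norms from `F(a^(1/ℓ))` for a valuation of arbitrary rank
-/

set_option autoImplicit false

namespace Pool.Agent.N616.NH.N2_

open Polynomial Pool.Agent.W882.Nip3 Pool.Agent.TH686.NF

/-- the matrix of the multiplication by `∑ c i α ^ i` for `α ^ ℓ = a` -/
def mat {F : Type} [Field F] {ℓ : ℕ} [NeZero ℓ] (a : F) (c : Fin ℓ → F) : Matrix (Fin ℓ) (Fin ℓ) F :=
  fun k j => if j ≤ k then c (k - j) else a * c (k - j)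

theorem val_sub {ℓ : ℕ} [NeZero ℓ] (k j : Fin ℓ) :
    ((k - j : Fin ℓ) : ℕ) = if j ≤ k then (k : ℕ) - j else (k : ℕ) + ℓ - j := by
  have hk := k.isLt
  have hj := j.isLt
  split_ifs with h
  · exact Fin.sub_val_of_le h
  · rw [not_le] at h
    rw [Fin.coe_sub_iff_lt.2 h]
    omega

/-- the recursion for the remainders of `Y * X ^ j` -/
theorem coeff_rem {F : Type} [Field F] {ℓ : ℕ} (hℓ : 0 < ℓ) (a : F) (P : F[X])
    (hP : P.degree < (X ^ ℓ - C a).degree) (k : ℕ) (hk : k < ℓ) :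
    ((P * X) %ₘ (X ^ ℓ - C a)).coeff k =
      if k = 0 then a * P.coeff (ℓ - 1) else P.coeff (k - 1) := by
  have hm : (X ^ ℓ - C a).Monic := monic_X_pow_sub_C a hℓ.ne'
  have hdeg : (X ^ ℓ - C a).degree = (ℓ : WithBot ℕ) := degree_X_pow_sub_C hℓ a
  have hPl : ∀ n, ℓ ≤ n → P.coeff n = 0 := by
    intro n hn
    refine coeff_eq_zero_of_degree_lt (lt_of_lt_of_le hP ?_)
    rw [hdeg]
    exact_mod_cast hn
  have h := (div_modByMonic_unique (f := P * X) (g := X ^ ℓ - C a) (C (P.coeff (ℓ - 1)))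
    (P * X - C (P.coeff (ℓ - 1)) * (X ^ ℓ - C a)) hm ⟨by ring, ?_⟩).2
  · rw [h]
    rw [coeff_sub, coeff_C_mul, coeff_sub, coeff_X_pow, if_neg hk.ne, coeff_C]
    split_ifs with h0
    · subst h0
      simp
      ring
    · obtain ⟨k, rfl⟩ := Nat.exists_eq_succ_of_ne_zero h0
      simp
  · rw [hdeg, degree_lt_iff_coeff_zero]
    intro n hn
    obtain ⟨n, rfl⟩ := Nat.exists_eq_succ_of_ne_zero (n := n) (by omega)
    rw [coeff_sub, coeff_C_mul, coeff_sub, coeff_X_pow, coeff_C, if_neg (Nat.succ_ne_zero n),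
      Polynomial.coeff_mul_X]
    split_ifs with h1
    · rw [← h1]
      simp
    · rw [hPl n (by omega)]
      simp

theorem mulMat_eq {F : Type} [Field F] {ℓ : ℕ} [NeZero ℓ] (a : F) (Y : F[X])
    (hY : Y.degree < (X ^ ℓ - C a).degree) :
    mulMat (X ^ ℓ - C a) Y ℓ = mat a (fun i => Y.coeff i) := by
  have hℓ : 0 < ℓ := Nat.pos_of_ne_zero (NeZero.ne ℓ)
  have hm : (X ^ ℓ - C a).Monic := monic_X_pow_sub_C a hℓ.ne'
  have key : ∀ j : ℕ, j < ℓ → ∀ k : ℕ, k < ℓ → ((Y * X ^ j) %ₘ (X ^ ℓ - C a)).coeff k =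
      if j ≤ k then Y.coeff (k - j) else a * Y.coeff (k + ℓ - j) := by
    intro j
    induction j with
    | zero =>
      intro _ k _
      rw [pow_zero, mul_one, (modByMonic_eq_self_iff hm).2 hY]
      simp
    | succ j ih =>
      intro hj k hk
      have h1 : (Y * X ^ (j + 1)) %ₘ (X ^ ℓ - C a) =
          (((Y * X ^ j) %ₘ (X ^ ℓ - C a)) * X) %ₘ (X ^ ℓ - C a) := by
        refine modByMonic_eq_of_dvd_sub hm ?_
        rw [pow_succ, ← mul_assoc, ← sub_mul, modByMonic_eq_sub_mul_div, sub_sub_cancel]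
        exact dvd_mul_of_dvd_left (dvd_mul_right _ _) _
      rw [h1, coeff_rem hℓ a _ (degree_modByMonic_lt _ hm) k hk]
      split_ifs with h2 h3 h4
      · omega
      · subst h2
        rw [ih (by omega) (ℓ - 1) (by omega), if_pos (by omega)]
        congr 2
        omega
      · rw [ih (by omega) (k - 1) (by omega), if_pos (by omega)]
        congr 1
        omega
      · rw [ih (by omega) (k - 1) (by omega), if_neg (by omega)]
        congr 2
        omega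
  ext k j
  have h := key j j.isLt k k.isLt
  unfold mulMat mat
  rw [h]
  have h2 := val_sub k j
  by_cases hjk : j ≤ k
  · rw [if_pos hjk] at h2 ⊢
    rw [if_pos (Fin.le_def.1 hjk), ← h2]
  · rw [if_neg hjk] at h2 ⊢
    rw [if_neg (fun h => hjk (Fin.le_def.2 h)), ← h2]

section val

variable {F : Type} [Field F] {Γ₀ : Type} [LinearOrderedCommGroupWithZero Γ₀] (w : Valuation F Γ₀)

/-- the `ℓ`-th power of the value of an entry -/
theorem val_entry {ℓ : ℕ} [NeZero ℓ] (a : F) (c : Fin ℓ → F) (k j : Fin ℓ) :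
    w (mat a c k j) ^ ℓ * w a ^ (k : ℕ) =
      w (c (k - j)) ^ ℓ * w a ^ ((k - j : Fin ℓ) : ℕ) * w a ^ (j : ℕ) := by
  have h := val_sub k j
  have hj := j.isLt
  have hk := k.isLt
  unfold mat
  by_cases hjk : j ≤ k
  · rw [if_pos hjk] at h ⊢
    rw [h, mul_assoc, ← pow_add]
    congr 2
    have := Fin.le_def.1 hjk
    omega
  · rw [if_neg hjk] at h ⊢
    rw [h, map_mul, mul_pow, mul_assoc (w (c (k - j)) ^ ℓ), ← pow_add, mul_comm (w a ^ ℓ), mul_assoc,
      ← pow_add]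
    congr 2
    omega

theorem val_term {ℓ : ℕ} [NeZero ℓ] (a : F) (ha : w a ≠ 0) (c : Fin ℓ → F)
    (σ : Equiv.Perm (Fin ℓ)) :
    w (∏ j, mat a c (σ j) j) ^ ℓ =
      ∏ j, (w (c (σ j - j)) ^ ℓ * w a ^ ((σ j - j : Fin ℓ) : ℕ)) := by
  have h1 : (∏ j : Fin ℓ, w a ^ ((σ j : Fin ℓ) : ℕ)) = ∏ j : Fin ℓ, w a ^ (j : ℕ) :=
    Equiv.prod_comp σ fun j : Fin ℓ => w a ^ (j : ℕ)
  have h2 : (∏ j : Fin ℓ, w a ^ (j : ℕ)) ≠ 0 :=
    Finset.prod_ne_zero_iff.2 fun j _ => pow_ne_zero _ ha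
  apply mul_right_cancel₀ h2
  conv_lhs => rw [← h1]
  rw [map_prod, ← Finset.prod_pow, ← Finset.prod_mul_distrib, ← Finset.prod_mul_distrib]
  exact Finset.prod_congr rfl fun j _ => val_entry w a c (σ j) j

theorem val_det {ℓ : ℕ} [NeZero ℓ] (a : F) (ha : w a ≠ 0) (c : Fin ℓ → F) (m : Fin ℓ)
    (hm : ∀ i, i ≠ m → w (c i) ^ ℓ * w a ^ (i : ℕ) < w (c m) ^ ℓ * w a ^ (m : ℕ)) :
    w (mat a c).det = w (c m) ^ ℓ * w a ^ (m : ℕ) := by
  classical
  have hℓ : ℓ ≠ 0 := NeZero.ne ℓ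
  set W : Fin ℓ → Γ₀ := fun i => w (c i) ^ ℓ * w a ^ (i : ℕ) with hW
  have hle : ∀ i, W i ≤ W m := by
    intro i
    by_cases h : i = m
    · rw [h]
    · exact (hm i h).le
  have hterm : ∀ σ : Equiv.Perm (Fin ℓ), w (∏ j, mat a c (σ j) j) ^ ℓ = ∏ j, W (σ j - j) :=
    fun σ => val_term w a ha c σ
  set σ₀ : Equiv.Perm (Fin ℓ) := Equiv.addRight m with hσ₀
  have h0 : w (∏ j, mat a c (σ₀ j) j) = W m := by
    have h1 := hterm σ₀
    have h2 : ∀ j : Fin ℓ, σ₀ j - j = m := by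
      intro j
      simp [hσ₀]
    simp only [h2] at h1
    rw [Finset.prod_const, Finset.card_univ, Fintype.card_fin] at h1
    exact (pow_left_inj₀ zero_le zero_le hℓ).1 h1
  have hlt : ∀ σ : Equiv.Perm (Fin ℓ), σ ≠ σ₀ → w (∏ j, mat a c (σ j) j) < W m := by
    intro σ hσ
    obtain ⟨j₀, hj₀⟩ : ∃ j₀, σ j₀ - j₀ ≠ m := by
      by_contra hcon
      push Not at hcon
      apply hσ
      ext j
      have := hcon j
      rw [sub_eq_iff_eq_add, add_comm] at this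
      rw [this]
      rfl
    refine lt_of_pow_lt_pow_left₀ ℓ zero_le ?_
    rw [hterm σ, ← Finset.prod_erase_mul _ _ (Finset.mem_univ j₀)]
    have h3 : (∏ j ∈ Finset.univ.erase j₀, W (σ j - j)) ≤ W m ^ (ℓ - 1) := by
      have h4 := Finset.prod_le_pow_card (Finset.univ.erase j₀) (fun j => W (σ j - j)) (W m)
        fun j _ => hle _
      rwa [Finset.card_erase_of_mem (Finset.mem_univ j₀), Finset.card_univ, Fintype.card_fin] at h4
    have h5 : 0 < W m := lt_of_le_of_lt zero_le (hm _ hj₀)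
    calc (∏ j ∈ Finset.univ.erase j₀, W (σ j - j)) * W (σ j₀ - j₀)
        ≤ W m ^ (ℓ - 1) * W (σ j₀ - j₀) := by gcongr
      _ < W m ^ (ℓ - 1) * W m := by
        apply mul_lt_mul_of_pos_left (hm _ hj₀)
        exact pow_pos h5 _
      _ = W m ^ ℓ := by
        rw [← pow_succ]
        congr 1
        omega
  have hsign : ∀ σ : Equiv.Perm (Fin ℓ), w (((Equiv.Perm.sign σ : ℤˣ) : ℤ) : F) = 1 := by
    intro σ
    rcases Int.units_eq_one_or (Equiv.Perm.sign σ) with h | h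
    · rw [h]
      simp
    · rw [h]
      simp
  rw [Matrix.det_apply']
  rw [Valuation.map_sum_eq_of_lt (j := σ₀) w (Finset.mem_univ σ₀) ?_]
  · rw [map_mul, hsign, one_mul, h0]
  · intro σ hσ
    rw [map_mul, map_mul, hsign, hsign, one_mul, one_mul, h0]
    refine hlt σ ?_
    intro h
    simp [h] at hσ

/-- a value that is an `ℓ`-th power up to small exponents is an `ℓ`-th power -/
theorem coprime_pow' {ℓ : ℕ} (hℓ : ℓ.Prime) {a : F} (ha0 : w a ≠ 0) {n : ℕ} (hn0 : 0 < n)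
    (hn : n < ℓ) {c : F} (h : w a ^ n = w c ^ ℓ) : ∃ e : F, w a = w e ^ ℓ := by
  have hcop : Nat.Coprime n ℓ := by
    rw [Nat.coprime_comm]
    exact (Nat.Prime.coprime_iff_not_dvd hℓ).2 (Nat.not_dvd_of_pos_of_lt hn0 hn)
  have hb := Nat.gcd_eq_gcd_ab n ℓ
  rw [hcop.gcd_eq_one] at hb
  set u := Nat.gcdA n ℓ
  set v := Nat.gcdB n ℓ
  refine ⟨c ^ u * a ^ v, ?_⟩
  calc w a = w a ^ (1 : ℤ) := (zpow_one _).symm
    _ = w a ^ ((n : ℤ) * u + ℓ * v) := by rw [← hb]; rfl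
    _ = (w a ^ n) ^ u * (w a ^ ℓ) ^ v := by
      rw [zpow_add₀ ha0, zpow_mul, zpow_mul, zpow_natCast, zpow_natCast]
    _ = (w c ^ ℓ) ^ u * (w a ^ ℓ) ^ v := by rw [h]
    _ = w (c ^ u * a ^ v) ^ ℓ := by
      rw [map_mul, map_zpow₀, map_zpow₀, mul_pow, ← zpow_natCast, ← zpow_natCast,
        ← zpow_natCast, ← zpow_natCast, ← zpow_mul, ← zpow_mul, ← zpow_mul, ← zpow_mul,
        mul_comm u, mul_comm v]

end val

end Pool.Agent.N616.NH.N2_

namespace Pool.Agent.N616.NH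

open Polynomial Pool.Agent.W882.Nip3 Pool.Agent.TH686.NF N2_

theorem N2 : S_N2 := by
  intro F _ Γ₀ _ w ℓ hℓ hchar a b ha hb D hD H
  have : NeZero ℓ := ⟨hℓ.ne_zero⟩
  have hwa : w a ≠ 0 := by
    intro h
    apply ha 0
    rw [h, map_zero, zero_pow hℓ.ne_zero]
  have ha0 : a ≠ 0 := (Valuation.ne_zero_iff w).1 hwa
  have hirr : Irreducible (X ^ ℓ - C a) := by
    refine X_pow_sub_C_irreducible_of_prime hℓ (fun c hc => ha c ?_)
    rw [← hc, map_pow]
  have hsep : (X ^ ℓ - C a).Separable := separable_X_pow_sub_C a hchar ha0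
  have hm : (X ^ ℓ - C a).Monic := monic_X_pow_sub_C a hℓ.ne_zero
  have hdeg : (X ^ ℓ - C a).natDegree = ℓ := natDegree_X_pow_sub_C
  let _ : Fact (Irreducible (X ^ ℓ - C a)) := ⟨hirr⟩
  have h1 : FiniteDimensional F (AdjoinRoot (X ^ ℓ - C a)) := hm.finite_adjoinRoot
  have h2 : Algebra.IsSeparable F (AdjoinRoot (X ^ ℓ - C a)) := isSeparable_adjoinRoot hirr hsep
  have hfr : Module.finrank F (AdjoinRoot (X ^ ℓ - C a)) = ℓ := by
    rw [Module.finrank_eq_card_basis (AdjoinRoot.powerBasisAux' hm), Fintype.card_fin, hdeg]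
  obtain ⟨z, hz⟩ := H F inferInstance inferInstance
    (by rw [Module.finrank_self]; exact hℓ.one_lt.le.trans hD)
    (AdjoinRoot (X ^ ℓ - C a)) h1 h2 (by rw [hfr]; exact hD) b
  have hwb : w b ≠ 0 := by
    intro h
    apply hb 0 0
    rw [h, map_zero, zero_pow hℓ.ne_zero, zero_mul]
  have hb0 : b ≠ 0 := (Valuation.ne_zero_iff w).1 hwb
  obtain ⟨Y0, rfl⟩ := AdjoinRoot.mk_surjective z
  set Y := Y0 %ₘ (X ^ ℓ - C a) with hY
  have hmk : AdjoinRoot.mk (X ^ ℓ - C a) Y0 = AdjoinRoot.mk (X ^ ℓ - C a) Y := by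
    rw [AdjoinRoot.mk_eq_mk, hY, modByMonic_eq_sub_mul_div, sub_sub_cancel]
    exact dvd_mul_right _ _
  have hYd : Y.degree < (X ^ ℓ - C a).degree := degree_modByMonic_lt _ hm
  have hdet : Algebra.norm F (AdjoinRoot.mk (X ^ ℓ - C a) Y) =
      (mat a (fun i : Fin ℓ => Y.coeff i)).det := by
    rw [← mulMat_eq a Y hYd, norm_mk hm, hdeg]
  rw [hmk, hdet] at hz
  set c : Fin ℓ → F := fun i => Y.coeff i with hc
  obtain ⟨m, -, hmax⟩ := (Finset.univ : Finset (Fin ℓ)).exists_max_image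
    (fun i => w (c i) ^ ℓ * w a ^ (i : ℕ)) ⟨0, Finset.mem_univ _⟩
  have hcm : w (c m) ≠ 0 := by
    intro h
    apply hb0
    have hc0 : ∀ i, c i = 0 := by
      intro i
      have h3 := hmax i (Finset.mem_univ i)
      rw [h, zero_pow hℓ.ne_zero, zero_mul] at h3
      have h4 := le_antisymm h3 zero_le
      rcases mul_eq_zero.1 h4 with h5 | h5
      · exact (Valuation.zero_iff w).1 (pow_eq_zero_iff hℓ.ne_zero |>.1 h5)
      · exact absurd h5 (pow_ne_zero _ hwa)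
    rw [← hz]
    have h6 : mat a c = 0 := by
      ext k j
      simp [mat, hc0]
    rw [h6]
    exact Matrix.det_zero
  have hlt : ∀ i, i ≠ m → w (c i) ^ ℓ * w a ^ (i : ℕ) < w (c m) ^ ℓ * w a ^ (m : ℕ) := by
    intro i him
    refine lt_of_le_of_ne (hmax i (Finset.mem_univ i)) (fun heq => ?_)
    have hci : w (c i) ≠ 0 := by
      intro h
      rw [h, zero_pow hℓ.ne_zero, zero_mul] at heq
      exact (mul_ne_zero (pow_ne_zero _ hcm) (pow_ne_zero _ hwa)) heq.symm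
    have key : ∀ p q : Fin ℓ, p < q → w (c p) ≠ 0 → w (c q) ≠ 0 →
        w (c p) ^ ℓ * w a ^ (p : ℕ) = w (c q) ^ ℓ * w a ^ (q : ℕ) → False := by
      intro p q hpq hp0 hq0 h8
      have hpq' : (p : ℕ) < q := hpq
      have hq' := q.isLt
      have h9 : w a ^ ((q : ℕ) - p) = w (c p / c q) ^ ℓ := by
        rw [map_div₀, div_pow, eq_div_iff (pow_ne_zero _ hq0)]
        have h10 : w a ^ (q : ℕ) = w a ^ ((q : ℕ) - p) * w a ^ (p : ℕ) := by
          rw [← pow_add]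
          congr 1
          omega
        rw [h10] at h8
        apply mul_right_cancel₀ (pow_ne_zero (p : ℕ) hwa)
        rw [h8]
        rw [mul_comm (w a ^ ((q : ℕ) - p)), mul_assoc]
      obtain ⟨e, he⟩ := coprime_pow' w hℓ hwa (n := (q : ℕ) - p) (by omega) (by omega) h9
      exact ha e he
    rcases lt_or_gt_of_ne him with h | h
    · exact key i m h hci hcm heq
    · exact key m i h hcm hci heq.symm
  apply hb (c m) m
  rw [← hz]
  exact val_det w a hwa c m hlt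

end Pool.Agent.N616.NH
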