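import Pool.Agent.N616.NH.Stm3
import Pool.Agent.N616.NH.N2
import Pool.Agent.W290.WA.Irr0

/-!
# Project NH, module N3: norms from the extension by a root of `X ^ ℓ - X - a⁻¹` in characteristic `ℓ`
-/

set_option autoImplicit false

namespace Pool.Agent.N616.NH.N3_

open Polynomial Pool.Agent.W882.Nip3 Pool.Agent.TH686.NF
open Pool.Agent.N616.NH.N2_ (mat val_entry coprime_pow' val_sub)

section pol

variable {F : Type} [Field F] {ℓ : ℕ}

/-- the polynomial `X ^ ℓ - X - A` -/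
noncomputable abbrev AS (ℓ : ℕ) (A : F) : F[X] := X ^ ℓ - X - C A

theorem as_eq (A : F) : AS ℓ A = X ^ ℓ - (X + C A) := by
  unfold AS
  ring

theorem as_monic (hℓ : 1 < ℓ) (A : F) : (AS ℓ A).Monic := by
  rw [as_eq]
  apply monic_X_pow_sub
  rw [degree_X_add_C]
  exact_mod_cast hℓ

theorem as_degree (hℓ : 1 < ℓ) (A : F) : (AS ℓ A).degree = (ℓ : WithBot ℕ) := by
  rw [as_eq, degree_sub_eq_left_of_degree_lt, degree_X_pow]
  rw [degree_X_add_C, degree_X_pow]
  exact_mod_cast hℓ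

theorem as_natDegree (hℓ : 1 < ℓ) (A : F) : (AS ℓ A).natDegree = ℓ :=
  natDegree_eq_of_degree_eq_some (as_degree hℓ A)

/-- the recursion for the remainders of `Y * X ^ j` -/
theorem coeff_rem (hℓ : 1 < ℓ) (A : F) (P : F[X]) (hP : P.degree < (AS ℓ A).degree) (k : ℕ)
    (hk : k < ℓ) : ((P * X) %ₘ AS ℓ A).coeff k =
      (if k = 0 then A * P.coeff (ℓ - 1) else P.coeff (k - 1)) +
        (if k = 1 then P.coeff (ℓ - 1) else 0) := by
  have hm := as_monic hℓ A
  have hdeg := as_degree hℓ A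
  have hPl : ∀ n, ℓ ≤ n → P.coeff n = 0 := by
    intro n hn
    refine coeff_eq_zero_of_degree_lt (lt_of_lt_of_le hP ?_)
    rw [hdeg]
    exact_mod_cast hn
  have h := (div_modByMonic_unique (f := P * X) (g := AS ℓ A) (C (P.coeff (ℓ - 1)))
    (P * X - C (P.coeff (ℓ - 1)) * AS ℓ A) hm ⟨by ring, ?_⟩).2
  · rw [h]
    unfold AS
    rw [coeff_sub, coeff_C_mul, coeff_sub, coeff_sub, coeff_X_pow, if_neg hk.ne, coeff_C, coeff_X]
    by_cases h0 : k = 0
    · subst h0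
      simp
      ring
    · obtain ⟨k, rfl⟩ := Nat.exists_eq_succ_of_ne_zero h0
      by_cases h1 : k = 0
      · subst h1
        simp
      · have h2 : ¬ (1 = k + 1) := by omega
        have h3 : ¬ (k + 1 = 1) := by omega
        simp [h2, h3]
  · rw [hdeg, degree_lt_iff_coeff_zero]
    intro n hn
    obtain ⟨n, rfl⟩ := Nat.exists_eq_succ_of_ne_zero (n := n) (by omega)
    unfold AS
    have h3 : ¬ (1 = n.succ) := by omega
    rw [coeff_sub, coeff_C_mul, coeff_sub, coeff_sub, coeff_X_pow, coeff_C,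
      if_neg (Nat.succ_ne_zero n), Polynomial.coeff_mul_X, coeff_X, if_neg h3]
    by_cases h1 : n.succ = ℓ
    · have h4 : ℓ - 1 = n := by omega
      rw [if_pos h1, h4]
      ring
    · rw [if_neg h1, hPl n (by omega)]
      ring

/-- the entries for `X ^ ℓ - A` -/
def ent (Y : F[X]) (A : F) (ℓ j k : ℕ) : F :=
  if j ≤ k then Y.coeff (k - j) else A * Y.coeff (k + ℓ - j)

theorem ent_mat [NeZero ℓ] (Y : F[X]) (A : F) (k j : Fin ℓ) :
    mat A (fun i => Y.coeff i) k j = ent Y A ℓ j k := by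
  unfold mat ent
  have h2 := val_sub k j
  by_cases hjk : j ≤ k
  · rw [if_pos hjk] at h2 ⊢
    rw [if_pos (Fin.le_def.1 hjk), ← h2]
  · rw [if_neg hjk] at h2 ⊢
    rw [if_neg (fun h => hjk (Fin.le_def.2 h)), ← h2]

/-- the recursion for the entries -/
theorem ent_succ (Y : F[X]) (A : F) (j k : ℕ) (hj : j + 1 < ℓ) (hk : k < ℓ) :
    ent Y A ℓ (j + 1) k = if k = 0 then A * ent Y A ℓ j (ℓ - 1) else ent Y A ℓ j (k - 1) := by
  unfold ent
  split_ifs with h1 h2 h3 h4 h5 h6 h7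
  all_goals first | omega | rfl | (congr 1; omega) | (congr 2; omega) | skip

theorem rem_succ (hℓ : 1 < ℓ) (A : F) (Y : F[X]) (j k : ℕ) (hk : k < ℓ) :
    ((Y * X ^ (j + 1)) %ₘ AS ℓ A).coeff k =
      (if k = 0 then A * ((Y * X ^ j) %ₘ AS ℓ A).coeff (ℓ - 1)
        else ((Y * X ^ j) %ₘ AS ℓ A).coeff (k - 1)) +
        (if k = 1 then ((Y * X ^ j) %ₘ AS ℓ A).coeff (ℓ - 1) else 0) := by
  have hm := as_monic hℓ A
  have h1 : (Y * X ^ (j + 1)) %ₘ AS ℓ A = (((Y * X ^ j) %ₘ AS ℓ A) * X) %ₘ AS ℓ A := by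
    refine modByMonic_eq_of_dvd_sub hm ?_
    rw [pow_succ, ← mul_assoc, ← sub_mul, modByMonic_eq_sub_mul_div, sub_sub_cancel]
    exact dvd_mul_of_dvd_left (dvd_mul_right _ _) _
  rw [h1, coeff_rem hℓ A _ (degree_modByMonic_lt _ hm) k hk]

end pol

section val

variable {F : Type} [Field F] {Γ₀ : Type} [LinearOrderedCommGroupWithZero Γ₀] (w : Valuation F Γ₀)

/-- bounds for the `ℓ`-th power of the value of a sum -/
theorem pow_add_lt {ℓ : ℕ} (x y : F) (u v : Γ₀) (hx : w x ^ ℓ * u < v) (hy : w y ^ ℓ * u < v) :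
    w (x + y) ^ ℓ * u < v := by
  rcases le_total (w x) (w y) with h | h
  · refine lt_of_le_of_lt ?_ hy
    have : w (x + y) ≤ w y := (w.map_add x y).trans (max_le h le_rfl)
    gcongr
  · refine lt_of_le_of_lt ?_ hx
    have : w (x + y) ≤ w x := (w.map_add x y).trans (max_le le_rfl h)
    gcongr

theorem pow_add_le {ℓ : ℕ} (x y : F) (u v : Γ₀) (hx : w x ^ ℓ * u ≤ v) (hy : w y ^ ℓ * u ≤ v) :
    w (x + y) ^ ℓ * u ≤ v := by
  rcases le_total (w x) (w y) with h | h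
  · refine le_trans ?_ hy
    have : w (x + y) ≤ w y := (w.map_add x y).trans (max_le h le_rfl)
    gcongr
  · refine le_trans ?_ hx
    have : w (x + y) ≤ w x := (w.map_add x y).trans (max_le le_rfl h)
    gcongr

/-- the values of the entries for `X ^ ℓ - A` -/
theorem ent_le {ℓ : ℕ} (Y : F[X]) (A : F) (V : Γ₀)
    (hmax : ∀ i, i < ℓ → w (Y.coeff i) ^ ℓ * w A ^ i ≤ V) (j k : ℕ) (hj : j < ℓ) (hk : k < ℓ) :
    w (ent Y A ℓ j k) ^ ℓ * w A ^ k ≤ V * w A ^ j := by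
  unfold ent
  by_cases hjk : j ≤ k
  · rw [if_pos hjk]
    have e : w A ^ k = w A ^ (k - j) * w A ^ j := by rw [← pow_add]; congr 1; omega
    rw [e, ← mul_assoc]
    have := hmax (k - j) (by omega)
    gcongr
  · rw [if_neg hjk]
    have e : w (A * Y.coeff (k + ℓ - j)) ^ ℓ * w A ^ k =
        w (Y.coeff (k + ℓ - j)) ^ ℓ * w A ^ (k + ℓ - j) * w A ^ j := by
      rw [map_mul, mul_pow, mul_comm (w A ^ ℓ), mul_assoc, ← pow_add, mul_assoc, ← pow_add]
      congr 2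
      omega
    rw [e]
    have := hmax (k + ℓ - j) (by omega)
    gcongr

/-- the difference of the entries is small -/
theorem diff_lt {ℓ : ℕ} (hℓ : 1 < ℓ) (Y : F[X]) (A : F) (hA : 1 < w A)
    (hY : Y.degree < (AS ℓ A).degree) (V : Γ₀) (hV : 0 < V)
    (hmax : ∀ i, i < ℓ → w (Y.coeff i) ^ ℓ * w A ^ i ≤ V) (j : ℕ) (hj : j < ℓ) :
    ∀ k, k < ℓ → w (((Y * X ^ j) %ₘ AS ℓ A).coeff k - ent Y A ℓ j k) ^ ℓ * w A ^ k <
      V * w A ^ j := by
  have hm := as_monic hℓ A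
  have hA0 : 0 < w A := lt_trans zero_lt_one hA
  induction j with
  | zero =>
    intro k hk
    rw [pow_zero, mul_one, (modByMonic_eq_self_iff hm).2 hY]
    unfold ent
    rw [if_pos (Nat.zero_le k), Nat.sub_zero, sub_self, map_zero, zero_pow (by omega), zero_mul,
      pow_zero, mul_one]
    exact hV
  | succ j ih =>
    intro k hk
    have ih' := ih (by omega)
    have hE : ∀ k, k < ℓ → w (((Y * X ^ j) %ₘ AS ℓ A).coeff k) ^ ℓ * w A ^ k ≤ V * w A ^ j := by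
      intro k hk
      have e : ((Y * X ^ j) %ₘ AS ℓ A).coeff k =
          (((Y * X ^ j) %ₘ AS ℓ A).coeff k - ent Y A ℓ j k) + ent Y A ℓ j k := by ring
      rw [e]
      exact pow_add_le w _ _ _ _ (ih' k hk).le (ent_le w Y A V hmax j k (by omega) hk)
    rw [rem_succ hℓ A Y j k hk, ent_succ Y A j k hj hk]
    have hstep : V * w A ^ (j + 1) = w A * (V * w A ^ j) := by
      rw [pow_succ]
      ac_rfl
    rw [hstep]
    by_cases h0 : k = 0
    · subst h0
      rw [if_pos rfl, if_pos rfl, if_neg (by omega), add_zero, ← mul_sub, map_mul, mul_pow,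
        pow_zero, mul_one]
      have h1 := ih' (ℓ - 1) (by omega)
      have e : w A ^ ℓ = w A * w A ^ (ℓ - 1) := by
        rw [← pow_succ']
        congr 1
        omega
      rw [e, mul_assoc, mul_comm (w A ^ (ℓ - 1))]
      exact mul_lt_mul_of_pos_left h1 hA0
    · rw [if_neg h0, if_neg h0]
      have hshift : ∀ x : F, w x ^ ℓ * w A ^ k = w A * (w x ^ ℓ * w A ^ (k - 1)) := by
        intro x
        have e : w A ^ k = w A ^ (k - 1) * w A := by
          rw [← pow_succ]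
          congr 1
          omega
        rw [e]
        ac_rfl
      have h1 : w (((Y * X ^ j) %ₘ AS ℓ A).coeff (k - 1) - ent Y A ℓ j (k - 1)) ^ ℓ * w A ^ k <
          w A * (V * w A ^ j) := by
        rw [hshift]
        exact mul_lt_mul_of_pos_left (ih' (k - 1) (by omega)) hA0
      by_cases hk1 : k = 1
      · rw [if_pos hk1]
        have e : ((Y * X ^ j) %ₘ AS ℓ A).coeff (k - 1) + ((Y * X ^ j) %ₘ AS ℓ A).coeff (ℓ - 1) -
            ent Y A ℓ j (k - 1) =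
            (((Y * X ^ j) %ₘ AS ℓ A).coeff (k - 1) - ent Y A ℓ j (k - 1)) +
              ((Y * X ^ j) %ₘ AS ℓ A).coeff (ℓ - 1) := by ring
        rw [e]
        refine pow_add_lt w _ _ _ _ h1 ?_
        have h2 := hE (ℓ - 1) (by omega)
        have h3 : w A ^ k ≤ w A ^ (ℓ - 1) := pow_le_pow_right₀ hA.le (by omega)
        have h4 : V * w A ^ j < w A * (V * w A ^ j) := by
          have h5 : 0 < V * w A ^ j := mul_pos hV (pow_pos hA0 j)
          calc V * w A ^ j = 1 * (V * w A ^ j) := (one_mul _).symm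
            _ < w A * (V * w A ^ j) := mul_lt_mul_of_pos_right hA h5
        refine lt_of_le_of_lt ?_ h4
        refine le_trans ?_ h2
        gcongr
      · rw [if_neg hk1, add_zero]
        exact h1

/-- the value of a determinant with a dominating cyclic permutation -/
theorem val_det' {ℓ : ℕ} [NeZero ℓ] (A : F) (hA : w A ≠ 0) (M : Matrix (Fin ℓ) (Fin ℓ) F)
    (m : Fin ℓ) (V : Γ₀) (hV : 0 < V)
    (h1 : ∀ k j, k - j = m → w (M k j) ^ ℓ * w A ^ (k : ℕ) = V * w A ^ (j : ℕ))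
    (h2 : ∀ k j, k - j ≠ m → w (M k j) ^ ℓ * w A ^ (k : ℕ) < V * w A ^ (j : ℕ)) :
    w M.det = V := by
  classical
  have hℓ : ℓ ≠ 0 := NeZero.ne ℓ
  have hP : ∀ j : Fin ℓ, 0 < w A ^ (j : ℕ) := fun j => pow_pos (zero_lt_iff.2 hA) _
  have hle : ∀ k j, w (M k j) ^ ℓ * w A ^ (k : ℕ) ≤ V * w A ^ (j : ℕ) := by
    intro k j
    by_cases h : k - j = m
    · exact (h1 k j h).le
    · exact (h2 k j h).le
  have hterm : ∀ σ : Equiv.Perm (Fin ℓ), w (∏ j, M (σ j) j) ^ ℓ * ∏ j : Fin ℓ, w A ^ (j : ℕ) =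
      ∏ j, (w (M (σ j) j) ^ ℓ * w A ^ ((σ j : Fin ℓ) : ℕ)) := by
    intro σ
    have e : (∏ j : Fin ℓ, w A ^ ((σ j : Fin ℓ) : ℕ)) = ∏ j : Fin ℓ, w A ^ (j : ℕ) :=
      Equiv.prod_comp σ fun j : Fin ℓ => w A ^ (j : ℕ)
    rw [← e, map_prod, ← Finset.prod_pow, ← Finset.prod_mul_distrib]
  have hprod : (0 : Γ₀) < ∏ j : Fin ℓ, w A ^ (j : ℕ) :=
    zero_lt_iff.2 (Finset.prod_ne_zero_iff.2 fun j _ => (hP j).ne')
  have hVl : ∏ j : Fin ℓ, (V * w A ^ (j : ℕ)) = V ^ ℓ * ∏ j : Fin ℓ, w A ^ (j : ℕ) := by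
    rw [Finset.prod_mul_distrib, Finset.prod_const, Finset.card_univ, Fintype.card_fin]
  set σ₀ : Equiv.Perm (Fin ℓ) := Equiv.addRight m with hσ₀
  have h0 : w (∏ j, M (σ₀ j) j) = V := by
    have h3 := hterm σ₀
    have h4 : ∀ j : Fin ℓ, w (M (σ₀ j) j) ^ ℓ * w A ^ ((σ₀ j : Fin ℓ) : ℕ) = V * w A ^ (j : ℕ) := by
      intro j
      apply h1
      simp [hσ₀]
    rw [Finset.prod_congr rfl (fun j _ => h4 j), hVl] at h3
    have h5 := mul_right_cancel₀ hprod.ne' h3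
    exact (pow_left_inj₀ zero_le zero_le hℓ).1 h5
  have hlt : ∀ σ : Equiv.Perm (Fin ℓ), σ ≠ σ₀ → w (∏ j, M (σ j) j) < V := by
    intro σ hσ
    obtain ⟨j₀, hj₀⟩ : ∃ j₀, σ j₀ - j₀ ≠ m := by
      by_contra hcon
      push Not at hcon
      apply hσ
      ext j
      have := hcon j
      rw [sub_eq_iff_eq_add, add_comm] at this
      rw [this]
      rfl
    refine lt_of_pow_lt_pow_left₀ ℓ zero_le ?_
    refine lt_of_mul_lt_mul_right (a := ∏ j : Fin ℓ, w A ^ (j : ℕ)) ?_ zero_le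
    rw [hterm σ, ← hVl]
    rw [← Finset.prod_erase_mul _ _ (Finset.mem_univ j₀),
      ← Finset.prod_erase_mul Finset.univ (fun j : Fin ℓ => V * w A ^ (j : ℕ)) (Finset.mem_univ j₀)]
    have h3 : (∏ j ∈ Finset.univ.erase j₀, (w (M (σ j) j) ^ ℓ * w A ^ ((σ j : Fin ℓ) : ℕ))) ≤
        ∏ j ∈ Finset.univ.erase j₀, (V * w A ^ (j : ℕ)) :=
      Finset.prod_le_prod (fun _ _ => zero_le) fun j _ => hle (σ j) j
    have h4 : (0 : Γ₀) < ∏ j ∈ Finset.univ.erase j₀, (V * w A ^ (j : ℕ)) :=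
      zero_lt_iff.2 (Finset.prod_ne_zero_iff.2 fun j _ => (mul_pos hV (hP j)).ne')
    calc (∏ j ∈ Finset.univ.erase j₀, (w (M (σ j) j) ^ ℓ * w A ^ ((σ j : Fin ℓ) : ℕ))) *
          (w (M (σ j₀) j₀) ^ ℓ * w A ^ ((σ j₀ : Fin ℓ) : ℕ))
        ≤ (∏ j ∈ Finset.univ.erase j₀, (V * w A ^ (j : ℕ))) *
          (w (M (σ j₀) j₀) ^ ℓ * w A ^ ((σ j₀ : Fin ℓ) : ℕ)) := by gcongr
      _ < (∏ j ∈ Finset.univ.erase j₀, (V * w A ^ (j : ℕ))) * (V * w A ^ (j₀ : ℕ)) :=
        mul_lt_mul_of_pos_left (h2 _ _ hj₀) h4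
  have hsign : ∀ σ : Equiv.Perm (Fin ℓ), w (((Equiv.Perm.sign σ : ℤˣ) : ℤ) : F) = 1 := by
    intro σ
    rcases Int.units_eq_one_or (Equiv.Perm.sign σ) with h | h
    · rw [h]
      simp
    · rw [h]
      simp
  rw [Matrix.det_apply']
  rw [Valuation.map_sum_eq_of_lt (j := σ₀) w (Finset.mem_univ σ₀) ?_]
  · rw [map_mul, hsign, one_mul, h0]
  · intro σ hσ
    rw [map_mul, map_mul, hsign, hsign, one_mul, one_mul, h0]
    refine hlt σ ?_
    intro h
    simp [h] at hσ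

end val

end Pool.Agent.N616.NH.N3_

namespace Pool.Agent.N616.NH

open Polynomial Pool.Agent.W882.Nip3 Pool.Agent.TH686.NF N2_ N3_

theorem N3 : S_N3 := by
  intro F _ Γ₀ _ w ℓ hℓ hchar a b hwa1 ha hb D hD H
  have : NeZero ℓ := ⟨hℓ.ne_zero⟩
  have : Fact ℓ.Prime := ⟨hℓ⟩
  have hcp : CharP F ℓ := (CharP.charP_iff_prime_eq_zero hℓ).2 hchar
  have h1ℓ : 1 < ℓ := hℓ.one_lt
  have hwa : w a ≠ 0 := by
    intro h
    apply ha 0
    rw [h, map_zero, zero_pow hℓ.ne_zero]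
  have ha0 : a ≠ 0 := (Valuation.ne_zero_iff w).1 hwa
  set A : F := a⁻¹ with hA
  have hwA : w A = (w a)⁻¹ := map_inv₀ w a
  have hA1 : 1 < w A := by
    rw [hwA]
    exact (one_lt_inv₀ (zero_lt_iff.2 hwa)).2 hwa1
  have hwA0 : w A ≠ 0 := (lt_trans zero_lt_one hA1).ne'
  have hAnd : ∀ c : F, w A ≠ w c ^ ℓ := by
    intro c hc
    apply ha c⁻¹
    rw [map_inv₀, inv_pow, ← hc, hwA, inv_inv]
  have hroot : ∀ x : F, x ^ ℓ - x ≠ A := by
    intro x hx
    have h2 := congrArg w hx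
    rcases le_or_gt (w x) 1 with h | h
    · have h3 : w (x ^ ℓ - x) ≤ 1 := by
        refine (w.map_sub _ _).trans (max_le ?_ h)
        rw [map_pow]
        exact pow_le_one' h ℓ
      rw [h2] at h3
      exact absurd hA1 (not_lt.2 h3)
    · have h3 : w x < w (x ^ ℓ) := by
        rw [map_pow]
        calc w x = w x ^ 1 := (pow_one _).symm
          _ < w x ^ ℓ := pow_lt_pow_right₀ h h1ℓ
      have h4 : w (x ^ ℓ - x) = w (x ^ ℓ) := w.map_sub_eq_of_lt_left h3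
      rw [h4, map_pow] at h2
      exact hAnd x h2.symm
  have hirr : Irreducible (AS ℓ A) := Pool.Agent.W290.WA.irr ℓ F A hroot
  have hsep : (AS ℓ A).Separable := by
    rw [separable_def]
    have hd : derivative (AS ℓ A) = -1 := by
      unfold AS
      rw [derivative_sub, derivative_sub, derivative_X_pow, derivative_X, derivative_C, hchar]
      simp
    rw [hd]
    exact isCoprime_one_right.neg_right
  have hm : (AS ℓ A).Monic := as_monic h1ℓ A
  have hdeg : (AS ℓ A).natDegree = ℓ := as_natDegree h1ℓ A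
  let _ : Fact (Irreducible (AS ℓ A)) := ⟨hirr⟩
  have h1 : FiniteDimensional F (AdjoinRoot (AS ℓ A)) := hm.finite_adjoinRoot
  have h2 : Algebra.IsSeparable F (AdjoinRoot (AS ℓ A)) := isSeparable_adjoinRoot hirr hsep
  have hfr : Module.finrank F (AdjoinRoot (AS ℓ A)) = ℓ := by
    rw [Module.finrank_eq_card_basis (AdjoinRoot.powerBasisAux' hm), Fintype.card_fin, hdeg]
  obtain ⟨z, hz⟩ := H F inferInstance inferInstance
    (by rw [Module.finrank_self]; exact hℓ.one_lt.le.trans hD)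
    (AdjoinRoot (AS ℓ A)) h1 h2 (by rw [hfr]; exact hD) b
  have hwb : w b ≠ 0 := by
    intro h
    apply hb 0 0
    rw [h, map_zero, zero_pow hℓ.ne_zero, zero_mul]
  have hb0 : b ≠ 0 := (Valuation.ne_zero_iff w).1 hwb
  obtain ⟨Y0, rfl⟩ := AdjoinRoot.mk_surjective z
  set Y := Y0 %ₘ (AS ℓ A) with hY
  have hmk : AdjoinRoot.mk (AS ℓ A) Y0 = AdjoinRoot.mk (AS ℓ A) Y := by
    rw [AdjoinRoot.mk_eq_mk, hY, modByMonic_eq_sub_mul_div, sub_sub_cancel]
    exact dvd_mul_right _ _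
  have hYd : Y.degree < (AS ℓ A).degree := degree_modByMonic_lt _ hm
  have hdet : Algebra.norm F (AdjoinRoot.mk (AS ℓ A) Y) = (mulMat (AS ℓ A) Y ℓ).det := by
    rw [norm_mk hm, hdeg]
  rw [hmk] at hz
  set c : Fin ℓ → F := fun i => Y.coeff i with hc
  obtain ⟨m, -, hmax⟩ := (Finset.univ : Finset (Fin ℓ)).exists_max_image
    (fun i => w (c i) ^ ℓ * w A ^ (i : ℕ)) ⟨0, Finset.mem_univ _⟩
  have hcm : w (c m) ≠ 0 := by
    intro h
    apply hb0
    have hc0 : ∀ i, c i = 0 := by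
      intro i
      have h3 := hmax i (Finset.mem_univ i)
      rw [h, zero_pow hℓ.ne_zero, zero_mul] at h3
      have h4 := le_antisymm h3 zero_le
      rcases mul_eq_zero.1 h4 with h5 | h5
      · exact (Valuation.zero_iff w).1 (pow_eq_zero_iff hℓ.ne_zero |>.1 h5)
      · exact absurd h5 (pow_ne_zero _ hwA0)
    have hY0 : Y = 0 := by
      ext n
      rw [coeff_zero]
      rcases lt_or_ge n ℓ with hn | hn
      · exact hc0 ⟨n, hn⟩
      · refine coeff_eq_zero_of_degree_lt (lt_of_lt_of_le hYd ?_)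
        rw [as_degree h1ℓ A]
        exact_mod_cast hn
    rw [← hz, hY0, map_zero, Algebra.norm_zero]
  have hlt : ∀ i, i ≠ m → w (c i) ^ ℓ * w A ^ (i : ℕ) < w (c m) ^ ℓ * w A ^ (m : ℕ) := by
    intro i him
    refine lt_of_le_of_ne (hmax i (Finset.mem_univ i)) (fun heq => ?_)
    have hci : w (c i) ≠ 0 := by
      intro h
      rw [h, zero_pow hℓ.ne_zero, zero_mul] at heq
      exact (mul_ne_zero (pow_ne_zero _ hcm) (pow_ne_zero _ hwA0)) heq.symm
    have key : ∀ p q : Fin ℓ, p < q → w (c p) ≠ 0 → w (c q) ≠ 0 →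
        w (c p) ^ ℓ * w A ^ (p : ℕ) = w (c q) ^ ℓ * w A ^ (q : ℕ) → False := by
      intro p q hpq hp0 hq0 h8
      have hpq' : (p : ℕ) < q := hpq
      have hq' := q.isLt
      have h9 : w A ^ ((q : ℕ) - p) = w (c p / c q) ^ ℓ := by
        rw [map_div₀, div_pow, eq_div_iff (pow_ne_zero _ hq0)]
        have h10 : w A ^ (q : ℕ) = w A ^ ((q : ℕ) - p) * w A ^ (p : ℕ) := by
          rw [← pow_add]
          congr 1
          omega
        rw [h10] at h8
        apply mul_right_cancel₀ (pow_ne_zero (p : ℕ) hwA0)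
        rw [h8]
        rw [mul_comm (w A ^ ((q : ℕ) - p)), mul_assoc]
      obtain ⟨e, he⟩ := coprime_pow' w hℓ hwA0 (n := (q : ℕ) - p) (by omega) (by omega) h9
      exact hAnd e he
    rcases lt_or_gt_of_ne him with h | h
    · exact key i m h hci hcm heq
    · exact key m i h hcm hci heq.symm
  set V : Γ₀ := w (c m) ^ ℓ * w A ^ (m : ℕ) with hVdef
  have hV : 0 < V := zero_lt_iff.2 (mul_ne_zero (pow_ne_zero _ hcm) (pow_ne_zero _ hwA0))
  have hmaxN : ∀ i, i < ℓ → w (Y.coeff i) ^ ℓ * w A ^ i ≤ V := fun i hi =>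
    hmax ⟨i, hi⟩ (Finset.mem_univ _)
  have hdiff : ∀ k j : Fin ℓ, w (mulMat (AS ℓ A) Y ℓ k j - mat A c k j) ^ ℓ * w A ^ (k : ℕ) <
      V * w A ^ (j : ℕ) := by
    intro k j
    rw [ent_mat]
    exact diff_lt w h1ℓ Y A hA1 hYd V hV hmaxN j j.isLt k k.isLt
  have hval : w (mulMat (AS ℓ A) Y ℓ).det = V := by
    refine val_det' w A hwA0 _ m V hV ?_ ?_
    · intro k j hkj
      have e := val_entry w A c k j
      rw [hkj] at e
      have h3 := hdiff k j
      rw [← hVdef] at e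
      rw [← e] at h3
      have h4 : w (mulMat (AS ℓ A) Y ℓ k j - mat A c k j) < w (mat A c k j) := by
        have h5 := lt_of_mul_lt_mul_right h3 zero_le
        exact lt_of_pow_lt_pow_left₀ ℓ zero_le h5
      have h5 : w (mulMat (AS ℓ A) Y ℓ k j) = w (mat A c k j) := by
        have e2 : mulMat (AS ℓ A) Y ℓ k j =
            (mulMat (AS ℓ A) Y ℓ k j - mat A c k j) + mat A c k j := by ring
        rw [e2]
        exact w.map_add_eq_of_lt_right h4
      rw [h5]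
      exact e
    · intro k j hkj
      have e := val_entry w A c k j
      have h3 := hlt (k - j) hkj
      have h4 : w (mat A c k j) ^ ℓ * w A ^ (k : ℕ) < V * w A ^ (j : ℕ) := by
        rw [e]
        exact mul_lt_mul_of_pos_right h3 (pow_pos (zero_lt_iff.2 hwA0) _)
      have e2 : mulMat (AS ℓ A) Y ℓ k j =
          (mulMat (AS ℓ A) Y ℓ k j - mat A c k j) + mat A c k j := by ring
      rw [e2]
      exact pow_add_lt w _ _ _ _ (hdiff k j) h4
  -- the contradiction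
  rw [hdet] at hz
  rw [hz] at hval
  apply hb (c m * A ^ (m : ℕ)) ((ℓ - 1) * m)
  rw [hval, hVdef, map_mul, mul_pow, map_pow, ← pow_mul]
  have e1 : (m : ℕ) * ℓ = m + (ℓ - 1) * m := by
    obtain ⟨l, rfl⟩ : ∃ l, ℓ = l + 1 := ⟨ℓ - 1, by omega⟩
    rw [Nat.add_sub_cancel]
    ring
  have e2 : w A * w a = 1 := by rw [hwA, inv_mul_cancel₀ hwa]
  rw [e1, pow_add, mul_assoc, mul_assoc, ← mul_pow, e2, one_pow, mul_one]

end Pool.Agent.N616.NH
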