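import Pool.Agent.N616.NH.Stm

/-!
# Project NH: NIPL

NIP for definable relations of finite extensions.
-/

set_option autoImplicit false

namespace Pool.Agent.N616.NH

open FirstOrder Pool.Agent.W882.Nip3

namespace NIPL_

/-- the element with the coordinates of `z` is `z` -/
theorem co_repr (K : Type) [Field K] (L : Type) [Field L] [Algebra K L]
    [FiniteDimensional K L] (z : L) : co K L (fun j => (Module.finBasis K L).repr z j) = z :=
  (Module.finBasis K L).sum_repr z

/-- the change of variables -/
def g (n p : ℕ) : (Fin 2 × Fin n) ⊕ Fin p → Fin n ⊕ Fin (n + p) :=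
  Sum.elim (fun ij => if ij.1 = 0 then Sum.inl ij.2 else Sum.inr (Fin.castAdd p ij.2))
    (fun q => Sum.inr (Fin.natAdd n q))

end NIPL_

open NIPL_ in
/-- NIPL -/
theorem NIPL : S_NIPL := by
  intro K _ _ hK L _ _ _ S hS
  obtain ⟨p, ψ, c₀, hψ⟩ := hS
  obtain ⟨N, hN⟩ := hK (Module.finrank K L) (Module.finrank K L + p)
    (ψ.relabel (g (Module.finrank K L) p))
  refine ⟨N, fun c b => ?_⟩
  obtain ⟨i, J, h⟩ := hN (fun i j => (Module.finBasis K L).repr (c i) j)
    (fun J => Fin.append (fun j => (Module.finBasis K L).repr (b J) j) c₀)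
  refine ⟨i, J, fun h' => h ?_⟩
  rw [← h', Language.Formula.realize_relabel]
  have e : (Sum.elim (fun j => (Module.finBasis K L).repr (c i) j)
      (Fin.append (fun j => (Module.finBasis K L).repr (b J) j) c₀)) ∘ (g (Module.finrank K L) p) =
      Sum.elim (fun ij : Fin 2 × Fin (Module.finrank K L) =>
        (Module.finBasis K L).repr (![c i, b J] ij.1) ij.2) c₀ := by
    funext x
    rcases x with ⟨a, j⟩ | q
    · fin_cases a
      · simp [g]
      · simp [g]
    · simp [g]
  rw [e, ← hψ]
  have e2 : (fun i' => co K L fun j => (Module.finBasis K L).repr (![c i, b J] i') j) =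
      ![c i, b J] := by
    funext i'
    exact co_repr K L _
  show (fun i' => co K L fun j => (Module.finBasis K L).repr (![c i, b J] i') j) ∈ S ↔ _
  rw [e2]

end Pool.Agent.N616.NH
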