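import Pool.Agent.N616.NH.NIPL
import Pool.Agent.N616.NH.KSW
import Pool.Agent.N616.NH.DJ

set_option autoImplicit false

/-! Project NH: the `n`-independence property for definable relations of finite extensions, and
Artin-Schreier closedness of finite extensions of `NIP_n` fields (Hempel). -/

namespace Pool.Agent.N616.NH

open FirstOrder Pool.Agent.W882.Nip3 DJ_

namespace NP_

/-- the change of variables -/
def g (n d p : ℕ) : ((Fin 1 ⊕ Fin n) × Fin d) ⊕ Fin p → Fin (d + p) ⊕ (Fin n × Fin d) :=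
  Sum.elim (fun ij => Sum.elim (fun _ => Sum.inl (Fin.castAdd p ij.2))
    (fun k => Sum.inr (k, ij.2)) ij.1) (fun q => Sum.inl (Fin.natAdd d q))

theorem nipnL (K : Type) [Field K] [FirstOrder.Ring.CompatibleRing K] (n : ℕ)
    (hK : NIPnField n K) (L : Type) [Field L] [Algebra K L] [FiniteDimensional K L]
    (q : (Fin 1 ⊕ Fin n → L) → Prop) (hq : D K q) :
    ¬ ∀ m : ℕ, ∃ b : Fin n → Fin m → L, ∀ T : Set (Fin n → Fin m), ∃ a : L,
      ∀ i : Fin n → Fin m, (q (Sum.elim (fun _ => a) (fun k => b k (i k))) ↔ i ∈ T) := by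
  intro h
  obtain ⟨p, ψ, c₀, hψ⟩ := hq
  refine hK (Module.finrank K L + p) (Module.finrank K L)
    (ψ.relabel (g n (Module.finrank K L) p)) fun m => ?_
  obtain ⟨b, hb⟩ := h m
  refine ⟨fun k i j => (Module.finBasis K L).repr (b k i) j, fun T => ?_⟩
  obtain ⟨a, ha⟩ := hb T
  refine ⟨Fin.append (fun j => (Module.finBasis K L).repr a j) c₀, fun i => ?_⟩
  rw [← ha i, Language.Formula.realize_relabel]
  have e : (Sum.elim (Fin.append (fun j => (Module.finBasis K L).repr a j) c₀)
      (fun jl : Fin n × Fin (Module.finrank K L) =>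
        (Module.finBasis K L).repr (b jl.1 (i jl.1)) jl.2)) ∘ (g n (Module.finrank K L) p) =
      Sum.elim (fun ij : (Fin 1 ⊕ Fin n) × Fin (Module.finrank K L) =>
        (Module.finBasis K L).repr ((Sum.elim (fun _ => a) (fun k => b k (i k)) :
          Fin 1 ⊕ Fin n → L) ij.1) ij.2) c₀ := by
    funext x
    rcases x with ⟨a | k, j⟩ | q
    · simp [g]
    · simp [g]
    · simp [g]
  rw [e, ← hψ]
  have e2 : (fun i' => co K L fun j => (Module.finBasis K L).repr ((Sum.elim (fun _ => a)
      (fun k => b k (i k)) : Fin 1 ⊕ Fin n → L) i') j) =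
      Sum.elim (fun _ => a) (fun k => b k (i k)) := by
    funext i'
    exact NIPL_.co_repr K L _
  show q (fun i' => co K L fun j => (Module.finBasis K L).repr ((Sum.elim (fun _ => a)
      (fun k => b k (i k)) : Fin 1 ⊕ Fin n → L) i') j) ↔ _
  rw [e2]

/-- the exponent -/
def ex (n m : ℕ) (i : Fin n → Fin m) : ℕ := ∑ k : Fin n, (i k : ℕ) * m ^ (k : ℕ)

theorem ex_lt (n m : ℕ) (i : Fin n → Fin m) : ex n m i < m ^ n := (finFunctionFinEquiv i).2

theorem ex_inj (n m : ℕ) : Function.Injective (ex n m) := by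
  intro i j h
  apply finFunctionFinEquiv.injective
  apply Fin.ext
  exact h

/-- an element with linearly independent powers -/
theorem exists_indep {L : Type} [Field L] (p : ℕ) [Fact p.Prime] [Algebra (ZMod p) L]
    [Infinite L] (N : ℕ) : ∃ t : L, LinearIndependent (ZMod p) (fun e : Fin N => t ^ (e : ℕ)) := by
  classical
  by_contra hcon
  push Not at hcon
  -- every element is a root of one of finitely many polynomials
  have h1 : ∀ t : L, ∃ c : Fin N → ZMod p, c ≠ 0 ∧ ∑ e, c e • t ^ (e : ℕ) = 0 := by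
    intro t
    have h2 := hcon t
    rw [Fintype.linearIndependent_iff] at h2
    push Not at h2
    obtain ⟨c, hc, i, hi⟩ := h2
    exact ⟨c, fun h => hi (by rw [h]; rfl), hc⟩
  let P : (Fin N → ZMod p) → Polynomial L := fun c =>
    ∑ e, Polynomial.C (algebraMap (ZMod p) L (c e)) * Polynomial.X ^ (e : ℕ)
  have hP : ∀ c, c ≠ 0 → P c ≠ 0 := by
    intro c hc h
    apply hc
    funext e
    have h3 := congrArg (fun f => Polynomial.coeff f (e : ℕ)) h
    simp only [P, Polynomial.finsetSum_coeff, Polynomial.coeff_C_mul, Polynomial.coeff_X_pow,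
      mul_ite, mul_one, mul_zero, Polynomial.coeff_zero] at h3
    rw [Finset.sum_eq_single e] at h3
    · rw [if_pos rfl] at h3
      exact (algebraMap (ZMod p) L).injective (by rw [h3, Pi.zero_apply, map_zero])
    · intro b _ hb
      rw [if_neg]
      intro h4
      exact hb (Fin.ext h4.symm)
    · intro h4
      exact absurd (Finset.mem_univ e) h4
  have hfin : (Set.univ : Set L).Finite := by
    have h4 : (Set.univ : Set L) ⊆ ⋃ c : Fin N → ZMod p, ((P c).roots.toFinset : Set L) := by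
      intro t _
      obtain ⟨c, hc, h5⟩ := h1 t
      rw [Set.mem_iUnion]
      refine ⟨c, ?_⟩
      rw [Finset.mem_coe, Multiset.mem_toFinset, Polynomial.mem_roots (hP c hc),
        Polynomial.IsRoot.def, ← h5]
      simp only [P, Polynomial.eval_finsetSum, Polynomial.eval_mul, Polynomial.eval_C,
        Polynomial.eval_pow, Polynomial.eval_X, Algebra.smul_def]
    exact (Set.finite_iUnion fun c => (P c).roots.toFinset.finite_toSet).subset h4
  exact Set.infinite_univ hfin

/-- dual families for powers of one element -/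
theorem dual {L : Type} [Field L] (p : ℕ) [Fact p.Prime] [CharP L p] [Infinite L] (a : L) (N : ℕ) :
    ∃ u : L, ∃ b : Fin N → L, ∀ i j : Fin N, ∃ x : L,
      u ^ (i : ℕ) * b j - (if i = j then a else 0) = x ^ p - x := by
  classical
  let _ : Algebra (ZMod p) L := ZMod.algebra L p
  obtain ⟨t, ht⟩ := exists_indep (L := L) p N
  let φ : L →ₗ[ZMod p] L := (iterateFrobenius L p N).toAddMonoidHom.toZModLinearMap p
  have hφ : ∀ x, φ x = x ^ p ^ N := fun x => by
    show iterateFrobenius L p N x = _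
    rw [iterateFrobenius_def]
  let c : Fin N → L := fun i => (t ^ p ^ N) ^ (i : ℕ)
  have hcφ : c = φ ∘ (fun e : Fin N => t ^ (e : ℕ)) := by
    funext i
    show (t ^ p ^ N) ^ (i : ℕ) = φ (t ^ (i : ℕ))
    rw [hφ, ← pow_mul, ← pow_mul, mul_comm]
  have hc : ∀ i, c i ∈ KSW_.S L p N := fun i => (KSW_.mem_S p).2 ⟨t ^ (i : ℕ), by
    show (t ^ (i : ℕ)) ^ p ^ N = (t ^ p ^ N) ^ (i : ℕ)
    rw [← pow_mul, ← pow_mul, mul_comm]⟩
  have hl : LinearIndependent (ZMod p) c := by
    rw [hcφ]
    refine ht.map' φ (LinearMap.ker_eq_bot.2 ?_)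
    exact (iterateFrobenius L p N).injective
  refine ⟨t ^ p ^ N, ?_⟩
  have key : ∀ j : Fin N, ∃ b : L, ∀ i, ∃ x : L,
      c i * b - (if i = j then a else 0) = x ^ p - x := by
    intro j
    obtain ⟨β, D, h1, h2, h3, h4, h5⟩ := KSW_.main_lemma p N c hc hl (Finset.univ.erase j)
      (by
        have := Finset.card_le_univ (Finset.univ.erase j)
        rwa [Fintype.card_fin] at this)
    have hDj : D (c j) ≠ 0 := by
      intro h0
      refine hl.notMem_span_image (s := ((Finset.univ.erase j : Finset (Fin N)) : Set (Fin N)))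
        (by simp) (h5 _ (hc j) h0)
    refine ⟨β (a / D (c j)), fun i => ?_⟩
    by_cases hij : i = j
    · subst hij
      rw [if_pos rfl]
      obtain ⟨y, hy⟩ := h4 _ (hc i) (a / D (c i))
      rw [mul_div_cancel₀ _ hDj] at hy
      exact ⟨y, hy⟩
    · rw [if_neg hij, sub_zero]
      exact h1 i (Finset.mem_erase.2 ⟨hij, Finset.mem_univ i⟩) _
  choose b hb using key
  exact ⟨b, fun i j => hb j i⟩

/-- Finite extensions of infinite `NIP_n` fields of characteristic `p` are Artin-Schreier
closed. -/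
theorem as_closed_n (hDFA : S_DFA) (hDFB : S_DFB)
    (K : Type) [Field K] [FirstOrder.Ring.CompatibleRing K] (p : ℕ) [Fact p.Prime] [CharP K p]
    (hinf : Infinite K) (n : ℕ) (hK : NIPnField n K) (L : Type) [Field L] [Algebra K L]
    [FiniteDimensional K L] (a : L) : ∃ x : L, x ^ p - x = a := by
  classical
  by_contra hcon
  push Not at hcon
  have hchar : CharP L p := charP_of_injective_algebraMap (algebraMap K L).injective p
  have hinfL : Infinite L := Infinite.of_injective _ (algebraMap K L).injective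
  have hq : D K (fun v : Fin 1 ⊕ Fin n → L => ∃ z : L,
      v (Sum.inl 0) * ∏ k, v (Sum.inr k) = z ^ p - z) := by
    refine D_congr (fun v => ?_) (D_ex1 hDFA (D_poly hDFB (MvPolynomial.X (Sum.inl (Sum.inl 0)) *
      ∏ k : Fin n, MvPolynomial.X (Sum.inl (Sum.inr k)) -
        (MvPolynomial.X (Sum.inr 0) ^ p - MvPolynomial.X (Sum.inr 0)) :
          MvPolynomial ((Fin 1 ⊕ Fin n) ⊕ Fin 1) L)))
    simp only [map_sub, map_mul, map_prod, map_pow, MvPolynomial.eval_X, Sum.elim_inl,
      Sum.elim_inr, sub_eq_zero]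
  refine nipnL K n hK L _ hq fun m => ?_
  obtain ⟨u, b, hb⟩ := dual (L := L) p a (m ^ n)
  choose x hx using hb
  let E : (Fin n → Fin m) → Fin (m ^ n) := fun i => ⟨ex n m i, ex_lt n m i⟩
  have hE : Function.Injective E := fun i j h => ex_inj n m (congrArg Fin.val h)
  refine ⟨fun k i => u ^ ((i : ℕ) * m ^ (k : ℕ)), fun T => ?_⟩
  let U : Finset (Fin (m ^ n)) := Finset.univ.filter fun e => ∃ i, i ∉ T ∧ E i = e
  refine ⟨∑ j ∈ U, b j, fun i => ?_⟩
  have hprod : ∏ k : Fin n, u ^ (((i k : Fin m) : ℕ) * m ^ (k : ℕ)) = u ^ ((E i : Fin (m ^ n)) : ℕ) := by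
    rw [Finset.prod_pow_eq_pow_sum]
    rfl
  simp only [Sum.elim_inl, Sum.elim_inr]
  rw [hprod]
  have hU : E i ∈ U ↔ i ∉ T := by
    simp only [U, Finset.mem_filter, Finset.mem_univ, true_and]
    constructor
    · rintro ⟨j, hj, hij⟩
      rwa [← hE hij]
    · intro h
      exact ⟨i, h, rfl⟩
  have hsum : (∑ j ∈ U, b j) * u ^ ((E i : Fin (m ^ n)) : ℕ) - (if i ∈ T then 0 else a) =
      (∑ j ∈ U, x (E i) j) ^ p - ∑ j ∈ U, x (E i) j := by
    have h1 : (∑ j ∈ U, x (E i) j) ^ p = ∑ j ∈ U, x (E i) j ^ p := by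
      have := map_sum (frobenius L p) (fun j => x (E i) j) U
      simpa only [frobenius_def] using this
    rw [h1, ← Finset.sum_sub_distrib]
    have h2 : ∀ j ∈ U, x (E i) j ^ p - x (E i) j =
        u ^ ((E i : Fin (m ^ n)) : ℕ) * b j - (if E i = j then a else 0) := fun j _ =>
      (hx (E i) j).symm
    rw [Finset.sum_congr rfl h2, Finset.sum_sub_distrib, ← Finset.mul_sum, Finset.sum_ite_eq,
      mul_comm]
    congr 1
    by_cases h : i ∈ T
    · rw [if_pos h, if_neg (by rw [hU]; simpa using h)]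
    · rw [if_neg h, if_pos (by rw [hU]; exact h)]
  constructor
  · rintro ⟨z, hz⟩
    by_contra hi
    rw [if_neg hi, hz] at hsum
    apply hcon (z - ∑ j ∈ U, x (E i) j)
    have h3 : (z - ∑ j ∈ U, x (E i) j) ^ p = z ^ p - (∑ j ∈ U, x (E i) j) ^ p := sub_pow_char z _
    rw [h3]
    linear_combination hsum
  · intro hi
    rw [if_pos hi, sub_zero] at hsum
    exact ⟨_, hsum⟩

end NP_

end Pool.Agent.N616.NH
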