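import Pool.Agent.N616.NH.NP1
import Pool.Agent.N616.NH.JOH
import Pool.Agent.N616.NH.HP
import Pool.Agent.N616.NH.FIN
import Pool.Agent.N616.NH.HEN
import Pool.Agent.N616.NH.DFA
import Pool.Agent.N616.NH.DFB

set_option autoImplicit false

/-! Project NH: on a `NIP_n` field of characteristic `p` every definable valuation ring is henselian
(Johnson, Chernikov and Hempel). -/

namespace Pool.Agent.N616.NH

open FirstOrder Pool.Agent.W882.Nip3 DJ_ JOH_

namespace NP_

section alg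

variable {R : Type} [CommRing R] (p : ℕ) [hp : Fact p.Prime] [CharP R p]

theorem wp_mem_J {e : R} (he : e ^ 2 - e ∈ Jac R) : wp p e ∈ Jac R := by
  rw [wp_apply, ← mem_JJ, JJ_eq, AddSubgroup.mem_iInf]
  intro M
  have hM := M.isMaximal
  have hM' := hM.isPrime
  have hmax : Jac R ≤ M.asIdeal := sInf_le ⟨bot_le, hM⟩
  have h1 : e ^ 2 - e ∈ M.asIdeal := hmax he
  have h2 : e * (e - 1) ∈ M.asIdeal := by
    have : e * (e - 1) = e ^ 2 - e := by ring
    rw [this]; exact h1
  show e ^ p - e ∈ M.asIdeal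
  rcases hM'.mem_or_mem h2 with h3 | h3
  · exact sub_mem (Ideal.pow_mem_of_mem _ h3 p hp.out.pos) h3
  · have h4 : e ^ p - e = (e - 1) ^ p - (e - 1) := by
      rw [sub_pow_char, one_pow]
      ring
    rw [h4]
    exact sub_mem (Ideal.pow_mem_of_mem _ h3 p hp.out.pos) h3

theorem wp_notMem_W [IsDomain R] {e : R} (he : e ^ 2 - e ∈ Jac R) (he1 : e ∉ Jac R)
    (he2 : 1 - e ∉ Jac R) : wp p e ∉ WJ R p := by
  have hmax : ∀ M : Ideal R, M.IsMaximal → Jac R ≤ M := fun M hM => sInf_le ⟨bot_le, hM⟩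
  rintro ⟨y, hy, hye⟩
  have hyJ : y ∈ Jac R := hy
  have h1 : (e - y) ^ p = e - y := by
    rw [sub_pow_char]
    rw [wp_apply, wp_apply] at hye
    linear_combination -hye
  rw [← mem_JJ, JJ_eq, AddSubgroup.mem_iInf] at he1 he2
  push Not at he1 he2
  obtain ⟨M, hM1⟩ := he1
  obtain ⟨M', hM2⟩ := he2
  have hM1' : e ∉ M.asIdeal := hM1
  have hM2' : 1 - e ∉ M'.asIdeal := hM2
  have hMm := M.isMaximal
  have hMm' := M'.isMaximal
  have hyM : y ∈ M.asIdeal := hmax _ hMm hyJ
  have hyM' : y ∈ M'.asIdeal := hmax _ hMm' hyJ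
  have h2 : e ∈ M'.asIdeal := by
    have h3 : e * (1 - e) ∈ M'.asIdeal := by
      have : e * (1 - e) = -(e ^ 2 - e) := by ring
      rw [this]
      exact neg_mem (hmax _ hMm' he)
    exact (hMm'.isPrime.mem_or_mem h3).resolve_right hM2'
  have h4 : e - y ∈ M'.asIdeal := sub_mem h2 hyM'
  have h5 : (e - y) * ((e - y) ^ (p - 1) - 1) = 0 := by
    have h6 : (e - y) ^ p = (e - y) ^ (p - 1) * (e - y) := by
      rw [← pow_succ, Nat.sub_add_cancel hp.out.pos]
    rw [mul_sub, mul_one, mul_comm, ← h6, h1, sub_self]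
  rcases mul_eq_zero.1 h5 with h6 | h6
  · apply hM1'
    rw [sub_eq_zero] at h6
    rw [h6]
    exact hyM
  · apply hMm'.ne_top
    rw [Ideal.eq_top_iff_one]
    have h7 : (e - y) ^ (p - 1) ∈ M'.asIdeal :=
      Ideal.pow_mem_of_mem _ h4 _ (Nat.sub_pos_of_lt hp.out.one_lt)
    rw [sub_eq_zero] at h6
    rwa [h6] at h7

/-- residue fields are infinite -/
theorem infinite_quot (hs : Function.Surjective (wp p : R →+ R)) (M : Ideal R) (hM : M.IsMaximal) :
    Infinite (R ⧸ M) := by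
  by_contra hfin
  rw [not_infinite_iff_finite] at hfin
  have hsM : Function.Surjective (fun c : R ⧸ M => c ^ p - c) := by
    intro c
    obtain ⟨r, rfl⟩ := Ideal.Quotient.mk_surjective c
    obtain ⟨y, hy⟩ := hs r
    refine ⟨Ideal.Quotient.mk M y, ?_⟩
    rw [← hy, wp_apply, map_sub, map_pow]
  have hiM := Finite.injective_iff_surjective.2 hsM
  have h01 : (0 : R ⧸ M) = 1 := by
    apply hiM
    simp only [one_pow, sub_self, zero_pow hp.out.ne_zero]
  have hnt : Nontrivial (R ⧸ M) := Ideal.Quotient.nontrivial_iff.2 hM.ne_top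
  exact zero_ne_one h01

/-- an element all of whose nontrivial polynomial expressions of small degree are units -/
theorem exists_unit_poly [Finite (MaximalSpectrum R)] (hs : Function.Surjective (wp p : R →+ R))
    (N : ℕ) : ∃ r : R, ∀ a : Fin N → ZMod p, a ≠ 0 → IsUnit (∑ k, ((a k).val : R) * r ^ (k : ℕ)) := by
  classical
  have hq : ∀ M : MaximalSpectrum R, ∃ t : R ⧸ M.asIdeal, ∀ a : Fin N → ZMod p, a ≠ 0 →
      ∑ k, ((a k).val : R ⧸ M.asIdeal) * t ^ (k : ℕ) ≠ 0 := by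
    intro M
    have hM := M.isMaximal
    let _ : Field (R ⧸ M.asIdeal) := Ideal.Quotient.field M.asIdeal
    have hinf := infinite_quot p hs M.asIdeal hM
    have hch : CharP (R ⧸ M.asIdeal) p := by
      refine (CharP.charP_iff_prime_eq_zero hp.out).2 ?_
      rw [← map_natCast (Ideal.Quotient.mk M.asIdeal), CharP.cast_eq_zero, map_zero]
    let _ : Algebra (ZMod p) (R ⧸ M.asIdeal) := ZMod.algebra _ p
    obtain ⟨t, ht⟩ := exists_indep (L := R ⧸ M.asIdeal) p N
    refine ⟨t, fun a ha h => ha ?_⟩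
    rw [Fintype.linearIndependent_iff] at ht
    funext k
    refine ht a ?_ k
    rw [← h]
    refine Finset.sum_congr rfl fun k _ => ?_
    rw [Algebra.smul_def]
    congr 1
    rw [← map_natCast (algebraMap (ZMod p) (R ⧸ M.asIdeal)), ZMod.natCast_zmod_val]
  choose t ht using hq
  have hcop : Pairwise (Function.onFun IsCoprime fun M : MaximalSpectrum R => M.asIdeal) := by
    intro M M' hne
    exact Ideal.isCoprime_of_isMaximal (ne := fun h => hne (MaximalSpectrum.ext h))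
  obtain ⟨r, hr⟩ := Ideal.pi_quotient_surjective hcop t
  refine ⟨r, fun a ha => ?_⟩
  by_contra hu
  obtain ⟨M, hM, hmem⟩ := exists_max_ideal_of_mem_nonunits (a := ∑ k, ((a k).val : R) * r ^ (k : ℕ)) hu
  have h1 := ht ⟨M, hM⟩ a ha
  apply h1
  have h2 := (Ideal.Quotient.eq_zero_iff_mem).2 hmem
  rw [map_sum] at h2
  rw [← h2]
  refine Finset.sum_congr rfl fun k _ => ?_
  rw [map_mul, map_natCast, map_pow]
  congr 2
  exact (hr ⟨M, hM⟩).symm

theorem exists_hom' (Q : Type) [AddCommGroup Q] (p : ℕ) [Fact p.Prime] [Module (ZMod p) Q]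
    (x₀ : Q) (hx₀ : x₀ ≠ 0) : ∃ f : Q →+ ZMod p, f x₀ ≠ 0 := by
  by_contra hcon
  push Not at hcon
  have h1 : ∀ f : Module.Dual (ZMod p) Q, f x₀ = 0 := fun f => hcon f.toAddMonoidHom
  exact hx₀ ((Module.forall_dual_apply_eq_zero_iff (ZMod p) _).1 h1)

theorem exists_hom (Q : Type) [AddCommGroup Q] (p : ℕ) [Fact p.Prime] (hpQ : ∀ x : Q, p • x = 0)
    (x₀ : Q) (hx₀ : x₀ ≠ 0) : ∃ f : Q →+ ZMod p, f x₀ ≠ 0 :=
  @exists_hom' Q _ p _ (AddCommGroup.zmodModule hpQ) x₀ hx₀

/-- a functional -/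
theorem exists_functional [IsDomain R] [Finite (MaximalSpectrum R)]
    (hs : Function.Surjective (wp p : R →+ R)) {e : R} (he : e ^ 2 - e ∈ Jac R) (he1 : e ∉ Jac R)
    (he2 : 1 - e ∉ Jac R) : ∃ lam : JJ R →+ ZMod p, lam ⟨wp p e, wp_mem_J p he⟩ ≠ 0 ∧
      ∃ X : Finset R, ∀ z : JJ R, lam z = 0 ↔ ∃ u ∈ X, (z : R) - u ∈ WJ R p := by
  classical
  let W : AddSubgroup (JJ R) := (WJ R p).addSubgroupOf (JJ R)
  have hfi : W.FiniteIndex := ⟨relW p hs⟩
  let Q := JJ R ⧸ W
  have hfin : Finite Q := AddSubgroup.finite_quotient_of_finiteIndex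
  have hpQ : ∀ x : Q, p • x = 0 := by
    intro x
    obtain ⟨z, rfl⟩ := QuotientAddGroup.mk_surjective x
    rw [← QuotientAddGroup.mk_nsmul]
    have : p • z = 0 := Subtype.ext (by
      show p • (z : R) = 0
      rw [nsmul_eq_mul, CharP.cast_eq_zero, zero_mul])
    rw [this]
    rfl
  let x₀ : JJ R := ⟨wp p e, wp_mem_J p he⟩
  have hx₀ : (QuotientAddGroup.mk x₀ : Q) ≠ 0 := by
    intro h
    rw [QuotientAddGroup.eq_zero_iff] at h
    exact wp_notMem_W p he he1 he2 h
  obtain ⟨f, hf⟩ := exists_hom Q p hpQ _ hx₀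
  let lam : JJ R →+ ZMod p := f.comp (QuotientAddGroup.mk' W)
  refine ⟨lam, hf, ?_⟩
  let rep : Q → JJ R := fun c => (QuotientAddGroup.mk_surjective c).choose
  have hrep : ∀ c, (QuotientAddGroup.mk (rep c) : Q) = c := fun c =>
    (QuotientAddGroup.mk_surjective c).choose_spec
  have := Fintype.ofFinite Q
  refine ⟨(Finset.univ.filter fun c : Q => f c = 0).image fun c => (rep c : R), fun z => ?_⟩
  constructor
  · intro hz
    have hz' : f (QuotientAddGroup.mk z : Q) = 0 := hz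
    refine ⟨rep (QuotientAddGroup.mk z : Q), Finset.mem_image.2
      ⟨QuotientAddGroup.mk z, Finset.mem_filter.2 ⟨Finset.mem_univ _, hz'⟩, rfl⟩, ?_⟩
    have h1 : (QuotientAddGroup.mk (z - rep (QuotientAddGroup.mk z : Q)) : Q) = 0 := by
      rw [QuotientAddGroup.mk_sub, hrep, sub_self]
    rw [QuotientAddGroup.eq_zero_iff] at h1
    exact h1
  · rintro ⟨u, hu, hzu⟩
    obtain ⟨c, hc, rfl⟩ := Finset.mem_image.1 hu
    have h1 : z - rep c ∈ W := hzu
    have h2 : (QuotientAddGroup.mk z : Q) = c := by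
      rw [← QuotientAddGroup.eq_zero_iff, QuotientAddGroup.mk_sub, hrep, sub_eq_zero] at h1
      exact h1
    show f (QuotientAddGroup.mk z : Q) = 0
    rw [h2]
    exact (Finset.mem_filter.1 hc).2

/-- the independence pattern -/
theorem pattern [IsDomain R] [Finite (MaximalSpectrum R)]
    (hs : Function.Surjective (wp p : R →+ R)) {e : R} (he : e ^ 2 - e ∈ Jac R) (he1 : e ∉ Jac R)
    (he2 : 1 - e ∉ Jac R) : ∃ X : Finset R, ∀ N : ℕ, ∃ r : R, ∀ T : Finset (Fin N), ∃ x ∈ Jac R,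
      ∀ k : Fin N, (∃ u ∈ X, r ^ (k : ℕ) * x - u ∈ WJ R p) ↔ k ∈ T := by
  classical
  obtain ⟨lam, hlam, X, hX⟩ := exists_functional p hs he he1 he2
  refine ⟨X, fun N => ?_⟩
  obtain ⟨r, hr⟩ := exists_unit_poly p hs N
  refine ⟨r, ?_⟩
  have hmem : ∀ (s : R) (x : JJ R), s * (x : R) ∈ JJ R := fun s x => Ideal.mul_mem_left _ s x.2
  let Φ : JJ R →+ (Fin N → ZMod p) :=
    { toFun := fun x k => lam ⟨r ^ (k : ℕ) * x, hmem _ x⟩
      map_zero' := by
        funext k
        have : (⟨r ^ (k : ℕ) * ((0 : JJ R) : R), hmem _ 0⟩ : JJ R) = 0 := Subtype.ext (mul_zero _)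
        rw [this, map_zero]
        rfl
      map_add' := by
        intro x y
        funext k
        have : (⟨r ^ (k : ℕ) * ((x + y : JJ R) : R), hmem _ _⟩ : JJ R) =
            ⟨r ^ (k : ℕ) * (x : R), hmem _ x⟩ + ⟨r ^ (k : ℕ) * (y : R), hmem _ y⟩ :=
          Subtype.ext (mul_add _ _ _)
        rw [this, map_add]
        rfl }
  have hsurj : Function.Surjective Φ := by
    by_contra hns
    have hlt : AddSubgroup.toZModSubmodule p Φ.range < ⊤ := by
      rw [lt_top_iff_ne_top]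
      intro h
      apply hns
      intro v
      have : v ∈ AddSubgroup.toZModSubmodule p Φ.range := by
        rw [h]
        trivial
      exact this
    obtain ⟨g, hg0, hg⟩ := Submodule.exists_le_ker_of_lt_top _ hlt
    let a : Fin N → ZMod p := fun k => g (Pi.single k 1)
    have hga : ∀ v, g v = ∑ k, a k * v k := by
      intro v
      conv_lhs => rw [← Finset.univ_sum_single v]
      rw [map_sum]
      refine Finset.sum_congr rfl fun k _ => ?_
      have : (Pi.single k (v k) : Fin N → ZMod p) = v k • Pi.single k 1 := by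
        rw [← Pi.single_smul, smul_eq_mul, mul_one]
      rw [this, map_smul, smul_eq_mul, mul_comm]
    have ha : a ≠ 0 := by
      intro h
      apply hg0
      ext v
      simp only [LinearMap.coe_comp, LinearMap.coe_single, Function.comp_apply, LinearMap.zero_apply]
      exact congrFun h v
    obtain ⟨w, hw⟩ := (hr a ha).exists_right_inv
    -- evaluate at `w * (e ^ p - e)`
    let x₀ : JJ R := ⟨wp p e, wp_mem_J p he⟩
    have h1 : g (Φ ⟨w * x₀, hmem _ _⟩) = 0 := by
      have : Φ ⟨w * x₀, hmem _ _⟩ ∈ AddSubgroup.toZModSubmodule p Φ.range := ⟨_, rfl⟩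
      exact hg this
    rw [hga] at h1
    apply hlam
    have h2 : (⟨wp p e, wp_mem_J p he⟩ : JJ R) =
        ∑ k, (a k).val • (⟨r ^ (k : ℕ) * (w * (x₀ : R)), hmem _ ⟨w * x₀, hmem _ _⟩⟩ : JJ R) := by
      apply Subtype.ext
      rw [AddSubgroup.val_finsetSum]
      have h3 : ∀ k ∈ (Finset.univ : Finset (Fin N)), (((a k).val •
          (⟨r ^ (k : ℕ) * (w * (x₀ : R)), hmem _ ⟨w * x₀, hmem _ _⟩⟩ : JJ R) : JJ R) : R) =
          ((a k).val : R) * r ^ (k : ℕ) * (w * (x₀ : R)) := by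
        intro k _
        rw [AddSubgroup.coe_nsmul, nsmul_eq_mul, mul_assoc]
      rw [Finset.sum_congr rfl h3, ← Finset.sum_mul, ← mul_assoc, hw, one_mul]
    rw [h2, map_sum, ← h1]
    refine Finset.sum_congr rfl fun k _ => ?_
    rw [map_nsmul, nsmul_eq_mul, ZMod.natCast_zmod_val]
    rfl
  intro T
  obtain ⟨x, hx⟩ := hsurj (fun k => if k ∈ T then 0 else 1)
  refine ⟨x, x.2, fun k => ?_⟩
  have h1 := hX ⟨r ^ (k : ℕ) * x, hmem _ x⟩
  have h2 : lam ⟨r ^ (k : ℕ) * x, hmem _ x⟩ = if k ∈ T then 0 else 1 := congrFun hx k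
  rw [h2] at h1
  rw [← h1]
  by_cases hk : k ∈ T
  · simp [hk]
  · simp [hk]

end alg

theorem JS_one {L : Type} [Field L] (p : ℕ) [Fact p.Prime] (R : Subring L) [CharP R p] (z : R) :
    JS p R 1 z ↔ z ∈ WJ R p := by
  constructor
  · rintro ⟨hr, hx, y, h1, h2, h3⟩
    refine ⟨y, h2, ?_⟩
    have : (⟨1, hr⟩ : R) = 1 := rfl
    rw [this, one_mul] at h3
    rw [wp_apply, ← h3]
  · rintro ⟨y, hy, hyz⟩
    refine ⟨R.one_mem, z.2, y, ?_, hy, ?_⟩
    · have : z ∈ Jac R := by rw [← hyz]; exact wp_mem p hy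
      exact this
    · have : (⟨1, R.one_mem⟩ : R) = 1 := rfl
      rw [this, one_mul]
      exact hyz.symm

/-- On an infinite `NIP_n` field of characteristic `p` every definable valuation ring is
henselian. -/
theorem hp_n (K : Type) [Field K] [FirstOrder.Ring.CompatibleRing K] (p : ℕ) [hpp : Fact p.Prime]
    [CharP K p] (hinf : Infinite K) (n : ℕ) (hK : NIPnField n K) (O : ValuationSubring K)
    (hO : Dfb O) : HenselianLocalRing O := by
  classical
  refine HEN K O ?_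
  intro L _ _ _ e he
  by_contra hcon
  push Not at hcon
  have hchar : CharP L p := charP_of_injective_algebraMap (algebraMap K L).injective p
  have hfin := FIN K O L
  set R := RI O L with hR
  have hch : CharP R p := (R.subtype).charP R.subtype_injective p
  have hAS := as_closed_n DFA DFB K p hinf n hK L
  have hs : Function.Surjective (wp p : R →+ R) := by
    intro r
    obtain ⟨x, hx⟩ := hAS (r : L)
    refine ⟨⟨x, int_closed O L p hpp.out.two_le x (by rw [hx]; exact r.2)⟩, ?_⟩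
    apply Subtype.ext
    exact hx
  obtain ⟨X, hX⟩ := pattern p hs he hcon.1 hcon.2
  -- the relation is definable
  have hDJ : D K (fun v : Fin 2 → L => JS p R (v 0) (v 1)) := DJ DFA DFB K O hO L p
  have hq : D K (fun v : Fin 1 ⊕ Fin n → L => ∃ u ∈ X,
      JS p R 1 ((∏ k, v (Sum.inr k)) * v (Sum.inl 0) - (u : L))) := by
    have h1 : ∀ u : R, D K (fun v : Fin 1 ⊕ Fin n → L =>
        JS p R 1 ((∏ k, v (Sum.inr k)) * v (Sum.inl 0) - (u : L))) := by
      intro u
      have h2 : D K (fun v : (Fin 1 ⊕ Fin n) ⊕ Fin 1 → L => MvPolynomial.eval v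
          (MvPolynomial.X (Sum.inr 0) - ((∏ k : Fin n, MvPolynomial.X (Sum.inl (Sum.inr k))) *
            MvPolynomial.X (Sum.inl (Sum.inl 0)) - MvPolynomial.C (u : L)) :
            MvPolynomial ((Fin 1 ⊕ Fin n) ⊕ Fin 1) L) = 0) := D_poly DFB _
      have h3 : D K (fun v : Fin 1 → L => JS p R 1 (v 0)) := by
        have h4 : D K (fun v : Fin 1 ⊕ Fin 1 → L => MvPolynomial.eval v
          (MvPolynomial.X (Sum.inr 0) - 1 : MvPolynomial (Fin 1 ⊕ Fin 1) L) = 0) := D_poly DFB _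
        have h5 : D K (fun v : Fin 1 ⊕ Fin 1 → L => JS p R (v (Sum.inr 0)) (v (Sum.inl 0))) :=
          D_re DFA (fun k : Fin 2 => if k = 0 then Sum.inr 0 else Sum.inl 0) hDJ
        refine D_congr (fun v => ?_) (D_ex1 DFA (D_and DFA h4 h5))
        simp only [map_sub, map_one, MvPolynomial.eval_X, Sum.elim_inr, Sum.elim_inl, sub_eq_zero]
        constructor
        · rintro ⟨w, rfl, hw⟩
          exact hw
        · intro hw
          exact ⟨1, rfl, hw⟩
      have h6 : D K (fun v : (Fin 1 ⊕ Fin n) ⊕ Fin 1 → L => JS p R 1 (v (Sum.inr 0))) :=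
        D_re DFA (fun _ : Fin 1 => Sum.inr 0) h3
      refine D_congr (fun v => ?_) (D_ex1 DFA (D_and DFA h2 h6))
      simp only [map_sub, map_mul, map_prod, MvPolynomial.eval_X, MvPolynomial.eval_C, Sum.elim_inr,
        Sum.elim_inl, sub_eq_zero]
      constructor
      · rintro ⟨w, rfl, hw⟩
        exact hw
      · intro hw
        exact ⟨_, rfl, hw⟩
    have h7 : D K (fun v : Fin 1 ⊕ Fin n → L => ∀ u : X,
        ¬ JS p R 1 ((∏ k, v (Sum.inr k)) * v (Sum.inl 0) - ((u : R) : L))) :=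
      D_forall DFA DFB fun u => D_not DFA (h1 u)
    refine D_congr (fun v => ?_) (D_not DFA h7)
    push Not
    constructor
    · rintro ⟨u, hu⟩
      exact ⟨u, u.2, hu⟩
    · rintro ⟨u, hu, hv⟩
      exact ⟨⟨u, hu⟩, hv⟩
  refine nipnL K n hK L _ hq fun m => ?_
  obtain ⟨r, hr⟩ := hX (m ^ n)
  let E : (Fin n → Fin m) → Fin (m ^ n) := fun i => ⟨ex n m i, ex_lt n m i⟩
  have hE : Function.Injective E := fun i j h => ex_inj n m (congrArg Fin.val h)
  refine ⟨fun k i => ((r ^ ((i : ℕ) * m ^ (k : ℕ)) : R) : L), fun T => ?_⟩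
  let U : Finset (Fin (m ^ n)) := Finset.univ.filter fun e => ∃ i, i ∈ T ∧ E i = e
  obtain ⟨x, -, hx⟩ := hr U
  refine ⟨(x : L), fun i => ?_⟩
  have hU : E i ∈ U ↔ i ∈ T := by
    simp only [U, Finset.mem_filter, Finset.mem_univ, true_and]
    constructor
    · rintro ⟨j, hj, hij⟩
      rwa [← hE hij]
    · intro h
      exact ⟨i, h, rfl⟩
  have hprod : ∏ k : Fin n, ((r ^ (((i k : Fin m) : ℕ) * m ^ (k : ℕ)) : R) : L) =
      ((r ^ ((E i : Fin (m ^ n)) : ℕ) : R) : L) := by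
    have h9 := map_prod R.subtype (fun k : Fin n => r ^ (((i k : Fin m) : ℕ) * m ^ (k : ℕ))) Finset.univ
    rw [Finset.prod_pow_eq_pow_sum] at h9
    exact h9.symm
  simp only [Sum.elim_inl, Sum.elim_inr]
  rw [hprod, ← hU, ← hx (E i)]
  have h8 : ∀ u : R, ((r ^ ((E i : Fin (m ^ n)) : ℕ) : R) : L) * (x : L) - (u : L) =
      ((r ^ ((E i : Fin (m ^ n)) : ℕ) * x - u : R) : L) := fun u => by push_cast; rfl
  simp only [h8, JS_one]

end NP_

end Pool.Agent.N616.NH
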