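import Pool.Agent.N616.NH.Stm6
import Pool.Agent.TH686.NF.Unram

set_option autoImplicit false

/-!
# Project NH (helper616), part RX1 (subtask 3253), by helper87: separable extensions of the residue
field lift to the residue fields of the coarsenings
-/

namespace Pool.Agent.N616.NH

open Polynomial

namespace RX1_

variable {K : Type} [Field K] {O A : ValuationSubring K}

/-- the map from `O` to the residue field of the coarsening -/
noncomputable def ph (h : O ≤ A) : O →+* IsLocalRing.ResidueField A :=
  (IsLocalRing.residue A).comp (ValuationSubring.inclusion O A h)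

theorem ph_apply (h : O ≤ A) (x : O) : ph h x = IsLocalRing.residue A ⟨(x : K), h x.2⟩ := rfl

/-- the valuation ring of the residue field -/
noncomputable def VV (h : O ≤ A) : ValuationSubring (IsLocalRing.ResidueField A) :=
  { (ph h).range with
    mem_or_inv_mem' := by
      intro z
      obtain ⟨a, rfl⟩ := IsLocalRing.residue_surjective z
      by_cases ha : IsLocalRing.residue A a = 0
      · left
        rw [ha]
        exact (ph h).range.zero_mem
      · have ha0 : (a : K) ≠ 0 := by
          intro h0
          apply ha
          have : a = 0 := Subtype.ext h0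
          rw [this, map_zero]
        have hu : IsUnit a := by
          by_contra hu
          exact ha ((IsLocalRing.residue_eq_zero_iff a).2 ((IsLocalRing.mem_maximalIdeal a).2 hu))
        rcases O.mem_or_inv_mem (a : K) with h1 | h1
        · left
          exact ⟨⟨(a : K), h1⟩, rfl⟩
        · right
          refine ⟨⟨(a : K)⁻¹, h1⟩, ?_⟩
          rw [ph_apply]
          refine eq_inv_of_mul_eq_one_left ?_
          rw [← map_mul]
          have : (⟨(a : K)⁻¹, h h1⟩ : A) * a = 1 := Subtype.ext (inv_mul_cancel₀ ha0)
          rw [this, map_one] }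

theorem ph_mem (h : O ≤ A) (x : O) : ph h x ∈ VV h := ⟨x, rfl⟩

/-- the map onto the valuation ring -/
noncomputable def rr (h : O ≤ A) : O →+* VV h := (ph h).codRestrict (VV h) (ph_mem h)

theorem rr_surj (h : O ≤ A) : Function.Surjective (rr h) := by
  rintro ⟨_, x, rfl⟩
  exact ⟨x, rfl⟩

theorem rr_ker (h : O ≤ A) : RingHom.ker (rr h) ≤ RingHom.ker (IsLocalRing.residue O) := by
  intro x hx
  rw [RingHom.mem_ker] at hx ⊢
  have h1 : ph h x = 0 := congrArg Subtype.val hx
  rw [ph_apply, IsLocalRing.residue_eq_zero_iff, IsLocalRing.mem_maximalIdeal] at h1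
  rw [IsLocalRing.residue_eq_zero_iff, IsLocalRing.mem_maximalIdeal]
  intro hu
  exact h1 (hu.map (ValuationSubring.inclusion O A h))

/-- the residue map of the valuation ring -/
noncomputable def ss (h : O ≤ A) : VV h →+* IsLocalRing.ResidueField O :=
  (rr h).liftOfSurjective (rr_surj h) ⟨IsLocalRing.residue O, rr_ker h⟩

theorem ss_comp (h : O ≤ A) : (ss h).comp (rr h) = IsLocalRing.residue O :=
  RingHom.liftOfSurjective_comp (rr h) (rr_surj h) ⟨IsLocalRing.residue O, rr_ker h⟩

theorem alg_comp (h : O ≤ A) :
    (algebraMap (VV h) (IsLocalRing.ResidueField A)).comp (rr h) = ph h := rfl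

end RX1_

open RX1_ in
theorem RX1 : S_RX1 := by
  intro K _ O A h d hd hext
  obtain ⟨L, _, _, hsepL, hL⟩ := hext
  have hfin : FiniteDimensional (IsLocalRing.ResidueField O) L :=
    FiniteDimensional.of_finrank_pos (by omega)
  obtain ⟨α, hα⟩ := Field.exists_primitive_element (IsLocalRing.ResidueField O) L
  obtain ⟨q, hq⟩ : ∃ q, q = minpoly (IsLocalRing.ResidueField O) α := ⟨_, rfl⟩
  have hint : IsIntegral (IsLocalRing.ResidueField O) α := Algebra.IsIntegral.isIntegral α
  have hm : q.Monic := by rw [hq]; exact minpoly.monic hint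
  have hi : Irreducible q := by rw [hq]; exact minpoly.irreducible hint
  have hsp : q.Separable := by rw [hq]; exact Algebra.IsSeparable.isSeparable _ α
  have hdeg : q.natDegree = d := by
    rw [← hL, ← IntermediateField.finrank_top', ← hα, hq]
    exact (IntermediateField.adjoin.finrank hint).symm
  have hl : q ∈ lifts (IsLocalRing.residue O) := by
    rw [lifts_iff_coeff_lifts]
    intro n
    exact IsLocalRing.residue_surjective _
  obtain ⟨f, hf1, hf2, hf3⟩ := lifts_and_natDegree_eq_and_monic hl hm
  -- the polynomial over the valuation ring of the residue field of `A`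
  have hV1 : (f.map (rr h)).map (ss h) = q := by
    rw [Polynomial.map_map, ss_comp, hf1]
  have hV2 : (f.map (rr h)).Monic := hf3.map _
  have hV3 : Irreducible (f.map (rr h)) :=
    hV2.irreducible_of_irreducible_map (ss h) _ (by rw [hV1]; exact hi)
  have hA1 : (f.map (rr h)).map (algebraMap (VV h) (IsLocalRing.ResidueField A)) =
      f.map (ph h) := by
    rw [Polynomial.map_map, alg_comp]
  have hA2 : Irreducible (f.map (ph h)) := by
    rw [← hA1]
    exact (hV2.irreducible_iff_irreducible_map_fraction_map
      (K := IsLocalRing.ResidueField A)).1 hV3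
  have hA3 : (f.map (ph h)).Separable := by
    rw [Polynomial.separable_iff_derivative_ne_zero hA2]
    intro h0
    rw [← hA1, derivative_map] at h0
    have hinj : Function.Injective (algebraMap (VV h) (IsLocalRing.ResidueField A)) :=
      Subtype.val_injective
    have h1 := (Polynomial.map_eq_zero_iff hinj).1 h0
    refine (Polynomial.separable_iff_derivative_ne_zero hi).1 hsp ?_
    rw [← hV1, derivative_map, h1, Polynomial.map_zero]
  have hA4 : (f.map (ph h)).natDegree = d := by
    rw [hf3.natDegree_map, hf2, hdeg]
  haveI : Fact (Irreducible (f.map (ph h))) := ⟨hA2⟩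
  refine ⟨AdjoinRoot (f.map (ph h)), inferInstance, inferInstance,
    Pool.Agent.TH686.NF.isSeparable_adjoinRoot hA2 hA3, ?_⟩
  rw [(AdjoinRoot.powerBasis hA2.ne_zero).finrank, AdjoinRoot.powerBasis_dim, hA4]

end Pool.Agent.N616.NH
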