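import Pool.Agent.N616.NH.Stm6
import Pool.Agent.TH686.NF.Unram
import Pool.Agent.W290.WA.Irr0

/-!
# Project NH, module RX2: extensions of degree `ℓ` of the residue fields of coarsenings
-/

set_option autoImplicit false

namespace Pool.Agent.N616.NH.RX2_

open Polynomial Pool.Agent.TH686.NF

section val

variable {K : Type} [Field K] {O A : ValuationSubring K}

/-- nonunits of a coarsening are smaller than units -/
theorem lt_of_unit (hOA : O ≤ A) {z u : K} (hz : A.valuation z < 1) (hu : A.valuation u = 1) :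
    O.valuation z < O.valuation u := by
  by_contra h
  rw [not_lt] at h
  have hu0 : u ≠ 0 := by
    rintro rfl
    simp at hu
  have hz0 : z ≠ 0 := by
    rintro rfl
    rw [map_zero] at h
    exact hu0 ((Valuation.zero_iff _).1 (le_antisymm h zero_le))
  have h1 : O.valuation (u / z) ≤ 1 := by
    rw [map_div₀]
    exact div_le_one_of_le₀ h zero_le
  have h2 : u / z ∈ A := hOA ((ValuationSubring.valuation_le_one_iff O _).1 h1)
  have h3 := (ValuationSubring.valuation_le_one_iff A _).2 h2
  have h4 : A.valuation u = A.valuation (u / z) * A.valuation z := by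
    rw [← map_mul, div_mul_cancel₀ u hz0]
  rw [hu] at h4
  have h5 : A.valuation (u / z) * A.valuation z ≤ 1 * A.valuation z := by gcongr
  rw [one_mul, ← h4] at h5
  exact absurd hz (not_lt.2 h5)

theorem res_eq_iff (x y : A) : IsLocalRing.residue A x = IsLocalRing.residue A y ↔
    A.valuation ((x : K) - y) < 1 := by
  rw [← sub_eq_zero, ← map_sub, IsLocalRing.residue_eq_zero_iff,
    ValuationSubring.valuation_lt_one_iff]
  rfl

end val

section ext

variable {F : Type} [Field F]

/-- extensions generated by a root of a separable irreducible monic polynomial -/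
theorem ext_of_poly {ℓ : ℕ} (G : F[X]) (hm : G.Monic) (hdeg : G.natDegree = ℓ)
    (hirr : Irreducible G) (hsep : G.Separable) :
    ∃ (L : Type) (_ : Field L) (_ : Algebra F L),
      Algebra.IsSeparable F L ∧ Module.finrank F L = ℓ := by
  let _ : Fact (Irreducible G) := ⟨hirr⟩
  refine ⟨AdjoinRoot G, inferInstance, inferInstance, isSeparable_adjoinRoot hirr hsep, ?_⟩
  rw [Module.finrank_eq_card_basis (AdjoinRoot.powerBasisAux' hm), Fintype.card_fin, hdeg]

theorem ext_kummer {ℓ : ℕ} (hℓ : ℓ.Prime) (hchar : (ℓ : F) ≠ 0) (a : F)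
    (ha : ∀ c : F, c ^ ℓ ≠ a) :
    ∃ (L : Type) (_ : Field L) (_ : Algebra F L),
      Algebra.IsSeparable F L ∧ Module.finrank F L = ℓ := by
  have ha0 : a ≠ 0 := by
    rintro rfl
    exact ha 0 (zero_pow hℓ.ne_zero)
  exact ext_of_poly (X ^ ℓ - C a) (monic_X_pow_sub_C a hℓ.ne_zero) natDegree_X_pow_sub_C
    (X_pow_sub_C_irreducible_of_prime hℓ ha) (separable_X_pow_sub_C a hchar ha0)

theorem ext_as {ℓ : ℕ} (hℓ : ℓ.Prime) (hchar : (ℓ : F) = 0) (a : F)
    (ha : ∀ c : F, c ^ ℓ - c ≠ a) :
    ∃ (L : Type) (_ : Field L) (_ : Algebra F L),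
      Algebra.IsSeparable F L ∧ Module.finrank F L = ℓ := by
  have : Fact ℓ.Prime := ⟨hℓ⟩
  have hc : CharP F ℓ := (CharP.charP_iff_prime_eq_zero hℓ).2 hchar
  have hirr := Pool.Agent.W290.WA.irr ℓ F a ha
  have hd : (X ^ ℓ - X - C a : F[X]).natDegree = ℓ := by
    rw [natDegree_sub_C, FiniteField.X_pow_card_sub_X_natDegree_eq F hℓ.one_lt]
  have hm : (X ^ ℓ - X - C a : F[X]).Monic := by
    have h1 : (X ^ ℓ - X - C a : F[X]) = X ^ ℓ - (X + C a) := by ring
    rw [h1]
    apply monic_X_pow_sub
    rw [degree_X_add_C]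
    exact_mod_cast hℓ.one_lt
  refine ext_of_poly _ hm hd hirr ?_
  have hder : derivative (X ^ ℓ - X - C a : F[X]) = -1 := by
    rw [derivative_sub, derivative_sub, derivative_X_pow, derivative_X, derivative_C, hchar]
    simp
  rw [separable_def, hder]
  exact IsCoprime.neg_right isCoprime_one_right

end ext

end Pool.Agent.N616.NH.RX2_

namespace Pool.Agent.N616.NH

open RX2_

/-- RX2: residue fields of coarsenings with a unit whose value for `O` is not divisible by `ℓ`. -/
theorem RX2 : S_RX2 := by
  intro K _ O A hOA ℓ hℓ s hs hn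
  have key : ∀ (s : K) (y : A), A.valuation s = 1 → ∀ x : K, (x ∈ A) →
      A.valuation (x - s) < 1 → O.valuation x = O.valuation s := by
    intro s y hs x _ h
    exact Valuation.map_eq_of_sub_lt _ (lt_of_unit hOA h hs)
  have hmem : ∀ s : K, A.valuation s = 1 → s ∈ A := fun s hs =>
    (ValuationSubring.valuation_le_one_iff A s).1 hs.le
  by_cases hchar : ((ℓ : ℕ) : IsLocalRing.ResidueField A) = 0
  · -- characteristic `ℓ`
    have main : ∀ s : K, A.valuation s = 1 → 1 < O.valuation s →
        (∀ y : K, O.valuation s ≠ O.valuation y ^ ℓ) → ResExt ℓ A := by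
      intro s hs h1 hn
      refine ext_as hℓ hchar (IsLocalRing.residue A ⟨s, hmem s hs⟩) (fun c hc => ?_)
      obtain ⟨y, rfl⟩ := IsLocalRing.residue_surjective c
      rw [← map_pow, ← map_sub, res_eq_iff] at hc
      have h2 := key s y hs _ (y ^ ℓ - y).2 hc
      have h3 : ((y ^ ℓ - y : A) : K) = (y : K) ^ ℓ - y := by push_cast; rfl
      rw [h3] at h2
      have hy : 1 < O.valuation (y : K) := by
        by_contra h
        rw [not_lt] at h
        have h4 : O.valuation ((y : K) ^ ℓ - y) ≤ 1 := by
          refine (Valuation.map_sub _ _ _).trans (max_le ?_ h)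
          rw [map_pow]
          exact pow_le_one' h ℓ
        rw [h2] at h4
        exact absurd h1 (not_lt.2 h4)
      have h5 : O.valuation (y : K) < O.valuation ((y : K) ^ ℓ) := by
        rw [map_pow]
        exact lt_self_pow₀ hy hℓ.one_lt
      have h6 : O.valuation ((y : K) ^ ℓ - y) = O.valuation ((y : K) ^ ℓ) :=
        Valuation.map_sub_eq_of_lt_left _ h5
      apply hn y
      rw [← h2, h6, map_pow]
    have hs1 : O.valuation s ≠ 1 := by
      intro h
      apply hn 1
      rw [h, map_one, one_pow]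
    rcases lt_or_gt_of_ne hs1 with h | h
    · refine main s⁻¹ (by rw [map_inv₀, hs, inv_one]) ?_ ?_
      · rw [map_inv₀]
        refine (one_lt_inv₀ ?_).2 h
        rw [zero_lt_iff]
        intro h0
        apply hn 0
        rw [h0, map_zero, zero_pow hℓ.ne_zero]
      · intro y hy
        apply hn y⁻¹
        rw [map_inv₀, inv_pow, ← hy, map_inv₀, inv_inv]
    · exact main s hs h hn
  · refine ext_kummer hℓ hchar (IsLocalRing.residue A ⟨s, hmem s hs⟩) (fun c hc => ?_)
    obtain ⟨y, rfl⟩ := IsLocalRing.residue_surjective c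
    rw [← map_pow, res_eq_iff] at hc
    have h2 := key s y hs _ (y ^ ℓ).2 hc
    apply hn y
    rw [← h2, ← map_pow]
    push_cast
    rfl

end Pool.Agent.N616.NH
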