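import Pool.Agent.N616.NH.Stm
import Pool.Agent.Results.MP_3554b5_lc.UnramifiedNorms

set_option autoImplicit false

/-! Project NH: valued places. -/

namespace Pool.Agent.N616.NH

open Pool.Agent.W882.Nip3 Pool.Agent.Results.MP_3554b5_lc.UnramifiedNorms NNReal

/-- The valuation ring of `K` given by a valued place (the composite of the valuation ring `P.O` and
of the valuation of its residue field). -/
def vring {K : Type} [Field K] (P : ValuedPlace K) : ValuationSubring K where
  carrier := {x | ∃ h : x ∈ P.O, P.v (P.π ⟨x, h⟩) ≤ 1}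
  mul_mem' := by
    rintro x y ⟨hx, h1⟩ ⟨hy, h2⟩
    refine ⟨P.O.mul_mem _ _ hx hy, ?_⟩
    have : (⟨x * y, P.O.mul_mem _ _ hx hy⟩ : P.O) = ⟨x, hx⟩ * ⟨y, hy⟩ := rfl
    rw [this, map_mul, map_mul]
    exact mul_le_one' h1 h2
  one_mem' := ⟨P.O.one_mem, by
    have : (⟨1, P.O.one_mem⟩ : P.O) = 1 := rfl
    rw [this, map_one, map_one]⟩
  add_mem' := by
    rintro x y ⟨hx, h1⟩ ⟨hy, h2⟩
    refine ⟨P.O.add_mem _ _ hx hy, ?_⟩
    have : (⟨x + y, P.O.add_mem _ _ hx hy⟩ : P.O) = ⟨x, hx⟩ + ⟨y, hy⟩ := rfl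
    rw [this, map_add]
    exact (P.v.map_add _ _).trans (max_le h1 h2)
  zero_mem' := ⟨P.O.zero_mem, by
    have : (⟨0, P.O.zero_mem⟩ : P.O) = 0 := rfl
    rw [this, map_zero, map_zero]
    exact zero_le_one⟩
  neg_mem' := by
    rintro x ⟨hx, h1⟩
    refine ⟨P.O.neg_mem _ hx, ?_⟩
    have : (⟨-x, P.O.neg_mem _ hx⟩ : P.O) = -⟨x, hx⟩ := rfl
    rw [this, map_neg, Valuation.map_neg]
    exact h1
  mem_or_inv_mem' := by
    intro x
    by_cases hx0 : x = 0
    · left
      rw [hx0]
      exact ⟨P.O.zero_mem, by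
        have : (⟨0, P.O.zero_mem⟩ : P.O) = 0 := rfl
        rw [this, map_zero, map_zero]
        exact zero_le_one⟩
    by_cases hx : x ∈ P.O
    · by_cases h1 : P.v (P.π ⟨x, hx⟩) ≤ 1
      · exact Or.inl ⟨hx, h1⟩
      · right
        have h2 : P.π ⟨x, hx⟩ ≠ 0 := by
          intro h
          rw [h, map_zero] at h1
          exact h1 zero_le_one
        have hu := isUnit_of_ne P.O P.π P.surjective _ h2
        obtain ⟨u, hu⟩ := hu
        have hinv : x⁻¹ = (((u⁻¹ : P.Oˣ) : P.O) : K) := by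
          symm
          apply eq_inv_of_mul_eq_one_left
          have h3 := congrArg Subtype.val (Units.inv_mul u)
          rw [hu] at h3
          exact h3
        refine ⟨by rw [hinv]; exact ((u⁻¹ : P.Oˣ) : P.O).2, ?_⟩
        have h4 : (⟨x⁻¹, by rw [hinv]; exact ((u⁻¹ : P.Oˣ) : P.O).2⟩ : P.O) = ((u⁻¹ : P.Oˣ) : P.O) :=
          Subtype.ext hinv
        rw [h4]
        have h5 : P.π ((u⁻¹ : P.Oˣ) : P.O) * P.π ⟨x, hx⟩ = 1 := by
          rw [← hu, ← map_mul, Units.inv_mul, map_one]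
        have h6 : P.v (P.π ((u⁻¹ : P.Oˣ) : P.O)) * P.v (P.π ⟨x, hx⟩) = 1 := by
          rw [← map_mul, h5, map_one]
        by_contra h7
        rw [not_le] at h1 h7
        have := one_lt_mul'' h7 h1
        rw [h6] at this
        exact lt_irrefl _ this
    · right
      have hxi : x⁻¹ ∈ P.O := (P.O.mem_or_inv_mem x).resolve_left hx
      refine ⟨hxi, ?_⟩
      have h1 : P.π ⟨x⁻¹, hxi⟩ = 0 := by
        by_contra h2
        obtain ⟨u, hu⟩ := isUnit_of_ne P.O P.π P.surjective _ h2
        apply hx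
        have hinv : x = (((u⁻¹ : P.Oˣ) : P.O) : K) := by
          rw [← inv_inv x]
          symm
          apply eq_inv_of_mul_eq_one_left
          have h3 := congrArg Subtype.val (Units.inv_mul u)
          rw [hu] at h3
          exact h3
        rw [hinv]
        exact ((u⁻¹ : P.Oˣ) : P.O).2
      rw [h1, map_zero]
      exact zero_le_one

/-- VP: the valuation ring of a valued place which is not tame is non-tame, in positive
characteristic. -/
def S_VP : Prop :=
  ∀ (K : Type) [Field K] (p : ℕ) [Fact p.Prime] [CharP K p] (P : ValuedPlace K) (D : ℕ),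
    ¬ P.TameUpTo D → NT D (vring P)

end Pool.Agent.N616.NH
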