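import Mathlib

set_option autoImplicit false

/-! Project NH: valuations of algebraic extensions of the rational numbers. -/

namespace Pool.Agent.N616.NH

open NNReal

/-- QAL: nontrivial valuations of algebraic extensions of the field of rational numbers. -/
def S_QAL : Prop :=
  ∀ (K : Type) [Field K] [Algebra ℚ K] [Algebra.IsAlgebraic ℚ K] (v : Valuation K ℝ≥0),
    (∃ e : K, e ≠ 0 ∧ v e < 1) → ∃ p : ℕ, p.Prime ∧ v (p : K) < 1 ∧
      CharP (IsLocalRing.ResidueField v.valuationSubring) p ∧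
      (∀ a : IsLocalRing.ResidueField v.valuationSubring, ∃ m : ℕ, 0 < m ∧ a ^ p ^ m = a) ∧
      ∀ d : ℕ, d.Prime → ∃ a : K, a ≠ 0 ∧ ∀ b : K, ∃ (c : K) (i : ℕ), v b = v c ^ d * v a ^ i

end Pool.Agent.N616.NH
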