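import Pool.Agent.N616.NH.Stm3

set_option autoImplicit false

/-! Project NH: coarsenings of non-tame valuation rings. -/

namespace Pool.Agent.N616.NH

/-- `O` is not tame up to `D` (no condition on small values): for some `d` with `2 ≤ d ≤ D` the value
group is not `d`-divisible and the residue field has a separable extension of degree `d`, or for some
prime number `ℓ ≤ D` the value group is not cyclic modulo `ℓ`. -/
def NotTame {K : Type} [Field K] (D : ℕ) (O : ValuationSubring K) : Prop :=
  (∃ d, 2 ≤ d ∧ d ≤ D ∧ (∃ t : K, ∀ y : K, O.valuation t ≠ O.valuation y ^ d) ∧ ResExt d O) ∨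
  ∃ ℓ, ℓ.Prime ∧ ℓ ≤ D ∧ ¬ ∃ a : K, a ≠ 0 ∧ ∀ b : K, ∃ (c : K) (i : ℕ),
    O.valuation b = O.valuation c ^ ℓ * O.valuation a ^ i

/-- RX1: separable extensions of the residue field lift to the residue fields of the coarsenings. -/
def S_RX1 : Prop :=
  ∀ (K : Type) [Field K] (O A : ValuationSubring K), O ≤ A → ∀ d : ℕ, 2 ≤ d → ResExt d O →
    ResExt d A

/-- RX2: residue fields of coarsenings with a unit whose value for `O` is not divisible by `ℓ`. -/
def S_RX2 : Prop :=
  ∀ (K : Type) [Field K] (O A : ValuationSubring K), O ≤ A → ∀ ℓ : ℕ, ℓ.Prime → ∀ s : K,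
    A.valuation s = 1 → (∀ y : K, O.valuation s ≠ O.valuation y ^ ℓ) → ResExt ℓ A

/-- CO: a valuation ring which is not tame has a non-tame coarsening. -/
def S_CO : Prop :=
  ∀ (K : Type) [Field K] (D : ℕ) (O : ValuationSubring K), NotTame D O →
    ∃ A : ValuationSubring K, O ≤ A ∧ NT' D A

end Pool.Agent.N616.NH
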