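import Pool.Agent.N616.NH.Stm2

set_option autoImplicit false

/-! Project NH: the valuation ring of a valued place which is not tame is non-tame. -/

namespace Pool.Agent.N616.NH

open Pool.Agent.W882.Nip3 Pool.Agent.Results.MP_3554b5_lc.UnramifiedNorms NNReal

namespace VP_

section

variable {K : Type} [Field K] (P : ValuedPlace K)

theorem mem_vring {x : K} : x ∈ vring P ↔ ∃ h : x ∈ P.O, P.v (P.π ⟨x, h⟩) ≤ 1 := Iff.rfl

/-- an element with nonzero image is a unit -/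
theorem inv_of_ne {y : K} (hy : y ∈ P.O) (h : P.π ⟨y, hy⟩ ≠ 0) :
    ∃ h' : y⁻¹ ∈ P.O, P.π ⟨y⁻¹, h'⟩ = (P.π ⟨y, hy⟩)⁻¹ := by
  obtain ⟨u, hu⟩ := isUnit_of_ne P.O P.π P.surjective _ h
  have hinv : y⁻¹ = (((u⁻¹ : P.Oˣ) : P.O) : K) := by
    symm
    apply eq_inv_of_mul_eq_one_left
    have h3 := congrArg Subtype.val (Units.inv_mul u)
    rw [hu] at h3
    exact h3
  refine ⟨by rw [hinv]; exact ((u⁻¹ : P.Oˣ) : P.O).2, ?_⟩
  apply eq_inv_of_mul_eq_one_left
  have h4 : (⟨y⁻¹, by rw [hinv]; exact ((u⁻¹ : P.Oˣ) : P.O).2⟩ : P.O) = ((u⁻¹ : P.Oˣ) : P.O) :=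
    Subtype.ext hinv
  rw [h4, ← hu, ← map_mul, Units.inv_mul, map_one]

theorem val_le_iff {x y : K} (hx : x ∈ P.O) (hy : y ∈ P.O) (h : P.π ⟨y, hy⟩ ≠ 0) :
    (vring P).valuation x ≤ (vring P).valuation y ↔ P.v (P.π ⟨x, hx⟩) ≤ P.v (P.π ⟨y, hy⟩) := by
  have hy0 : y ≠ 0 := by
    rintro rfl
    apply h
    have : (⟨0, hy⟩ : P.O) = 0 := rfl
    rw [this, map_zero]
  obtain ⟨hi, hii⟩ := inv_of_ne P hy h
  have hvy : P.v (P.π ⟨y, hy⟩) ≠ 0 := (Valuation.ne_zero_iff _).2 h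
  have hvy' : (vring P).valuation y ≠ 0 := (Valuation.ne_zero_iff _).2 hy0
  have e1 : (vring P).valuation x ≤ (vring P).valuation y ↔ x * y⁻¹ ∈ vring P := by
    rw [← ValuationSubring.valuation_le_one_iff, map_mul, map_inv₀, ← div_eq_mul_inv,
      div_le_one₀ (zero_lt_iff.2 hvy')]
  rw [e1, mem_vring]
  have e2 : P.π ⟨x * y⁻¹, P.O.mul_mem _ _ hx hi⟩ = P.π ⟨x, hx⟩ * (P.π ⟨y, hy⟩)⁻¹ := by
    rw [← hii, ← map_mul]
    rfl
  constructor
  · rintro ⟨h1, h2⟩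
    rw [show P.π ⟨x * y⁻¹, h1⟩ = P.π ⟨x * y⁻¹, P.O.mul_mem _ _ hx hi⟩ from rfl, e2, map_mul,
      map_inv₀, ← div_eq_mul_inv, div_le_one₀ (zero_lt_iff.2 hvy)] at h2
    exact h2
  · intro h2
    refine ⟨P.O.mul_mem _ _ hx hi, ?_⟩
    rw [e2, map_mul, map_inv₀, ← div_eq_mul_inv, div_le_one₀ (zero_lt_iff.2 hvy)]
    exact h2

/-- smaller elements are in `P.O` -/
theorem mem_of_le {x y : K} (hy : y ∈ P.O) (h : (vring P).valuation x ≤ (vring P).valuation y) :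
    x ∈ P.O := by
  by_cases hy0 : y = 0
  · rw [hy0, map_zero, le_zero_iff, map_eq_zero] at h
    rw [h]
    exact P.O.zero_mem
  have hvy' : (vring P).valuation y ≠ 0 := (Valuation.ne_zero_iff _).2 hy0
  have e1 : x * y⁻¹ ∈ vring P := by
    rw [← ValuationSubring.valuation_le_one_iff, map_mul, map_inv₀, ← div_eq_mul_inv,
      div_le_one₀ (zero_lt_iff.2 hvy')]
    exact h
  obtain ⟨h1, -⟩ := (mem_vring P).1 e1
  have h2 := P.O.mul_mem _ _ h1 hy
  rwa [mul_assoc, inv_mul_cancel₀ hy0, mul_one] at h2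

/-- if `y` has nonzero image and `y ≤ x` then `x` has nonzero image -/
theorem ne_of_le {x y : K} (hx : x ∈ P.O) (hy : y ∈ P.O) (hy0 : P.π ⟨y, hy⟩ ≠ 0)
    (h : (vring P).valuation y ≤ (vring P).valuation x) : P.π ⟨x, hx⟩ ≠ 0 := by
  have hy00 : y ≠ 0 := by
    rintro rfl
    apply hy0
    have : (⟨0, hy⟩ : P.O) = 0 := rfl
    rw [this, map_zero]
  have hx0 : x ≠ 0 := by
    rintro rfl
    rw [map_zero, le_zero_iff, map_eq_zero] at h
    exact hy00 h
  have hvx' : (vring P).valuation x ≠ 0 := (Valuation.ne_zero_iff _).2 hx0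
  have e1 : y * x⁻¹ ∈ vring P := by
    rw [← ValuationSubring.valuation_le_one_iff, map_mul, map_inv₀, ← div_eq_mul_inv,
      div_le_one₀ (zero_lt_iff.2 hvx')]
    exact h
  obtain ⟨h1, -⟩ := (mem_vring P).1 e1
  intro h2
  apply hy0
  have e2 : (⟨y, hy⟩ : P.O) = ⟨y * x⁻¹, h1⟩ * ⟨x, hx⟩ := by
    apply Subtype.ext
    show y = y * x⁻¹ * x
    rw [mul_assoc, inv_mul_cancel₀ hx0, mul_one]
  rw [e2, map_mul, h2, mul_zero]

theorem val_eq {x y : K} (hy : y ∈ P.O) (hy0 : P.π ⟨y, hy⟩ ≠ 0)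
    (h : (vring P).valuation y = (vring P).valuation x) :
    ∃ hx : x ∈ P.O, P.π ⟨x, hx⟩ ≠ 0 ∧ P.v (P.π ⟨y, hy⟩) = P.v (P.π ⟨x, hx⟩) := by
  have hx := mem_of_le P hy h.ge
  have hx0 := ne_of_le P hx hy hy0 h.le
  exact ⟨hx, hx0, le_antisymm ((val_le_iff P hy hx hx0).1 h.le) ((val_le_iff P hx hy hy0).1 h.ge)⟩

theorem val_lt_iff {x : K} (hx : x ∈ P.O) :
    (vring P).valuation x < 1 ↔ P.v (P.π ⟨x, hx⟩) < 1 := by
  have h1 : P.π ⟨(1 : K), P.O.one_mem⟩ = 1 := map_one P.π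
  by_cases h0 : P.π ⟨x, hx⟩ = 0
  · rw [h0, map_zero]
    refine ⟨fun _ => zero_lt_one, fun _ => ?_⟩
    by_contra hcon
    rw [not_lt, ← map_one (vring P).valuation] at hcon
    exact ne_of_le P hx P.O.one_mem (by rw [h1]; exact one_ne_zero) hcon h0
  · have := val_le_iff P P.O.one_mem hx h0
    rw [map_one, h1, map_one] at this
    rw [← not_le, ← not_le, this]

theorem mem_of_pow {y : K} {n : ℕ} (hn : n ≠ 0) (h : y ^ n ∈ P.O) : y ∈ P.O := by
  rcases P.O.mem_or_inv_mem y with h1 | h1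
  · exact h1
  · rcases n with _ | n
    · exact absurd rfl hn
    · by_cases hy0 : y = 0
      · rw [hy0]
        exact P.O.zero_mem
      have h2 := P.O.mul_mem _ _ h (P.O.toSubring.pow_mem h1 n)
      rwa [pow_succ', mul_assoc, ← mul_pow, mul_inv_cancel₀ hy0, one_pow, mul_one] at h2

theorem pi_pow {y : K} (hy : y ∈ P.O) (n : ℕ) (h : y ^ n ∈ P.O) :
    P.π ⟨y ^ n, h⟩ = P.π ⟨y, hy⟩ ^ n := by
  rw [← map_pow]
  rfl

end

/-! real valuations -/

section real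

variable {κ : Type} [Field κ] (v : Valuation κ ℝ≥0)

/-- the logarithmic value group -/
noncomputable def lg : AddSubgroup ℝ where
  carrier := {r | ∃ x : κ, x ≠ 0 ∧ r = Real.log (v x)}
  add_mem' := by
    rintro _ _ ⟨x, hx, rfl⟩ ⟨y, hy, rfl⟩
    refine ⟨x * y, mul_ne_zero hx hy, ?_⟩
    rw [map_mul, NNReal.coe_mul, Real.log_mul]
    · exact_mod_cast (Valuation.ne_zero_iff v).2 hx
    · exact_mod_cast (Valuation.ne_zero_iff v).2 hy
  zero_mem' := ⟨1, one_ne_zero, by rw [map_one]; simp⟩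
  neg_mem' := by
    rintro _ ⟨x, hx, rfl⟩
    refine ⟨x⁻¹, inv_ne_zero hx, ?_⟩
    rw [map_inv₀, NNReal.coe_inv, Real.log_inv]

variable {v}

theorem vpos {x : κ} (hx : x ≠ 0) : (0 : ℝ) < v x := by
  have := (Valuation.ne_zero_iff v).2 hx
  exact_mod_cast pos_iff_ne_zero.2 this

theorem exists_between (hd : Dense (lg v : Set ℝ)) {a e : κ} (ha : a ≠ 0) (he : e ≠ 0)
    (he1 : v e < 1) {d : ℕ} (hd1 : 1 ≤ d) : ∃ y : κ, y ≠ 0 ∧ v e ≤ v (a * y ^ d) ∧ v (a * y ^ d) < 1 := by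
  have hle : Real.log (v e) < 0 := Real.log_neg (vpos he) (by exact_mod_cast he1)
  have hdpos : (0 : ℝ) < d := by exact_mod_cast hd1
  obtain ⟨r, ⟨x, hx, rfl⟩, h1, h2⟩ := hd.exists_between (show (Real.log (v e) - Real.log (v a)) / d <
    (0 - Real.log (v a)) / d by
      apply div_lt_div_of_pos_right _ hdpos
      linarith)
  rw [div_lt_iff₀ hdpos] at h1
  rw [lt_div_iff₀ hdpos] at h2
  have hlog : Real.log (v (a * x ^ d)) = Real.log (v a) + d * Real.log (v x) := by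
    rw [map_mul, map_pow, NNReal.coe_mul, NNReal.coe_pow, Real.log_mul (vpos ha).ne'
      (pow_ne_zero _ (vpos hx).ne'), Real.log_pow]
  have hne : a * x ^ d ≠ 0 := mul_ne_zero ha (pow_ne_zero _ hx)
  refine ⟨x, hx, ?_, ?_⟩
  · have : (v e : ℝ) ≤ v (a * x ^ d) := by
      rw [← Real.log_le_log_iff (vpos he) (vpos hne), hlog]
      linarith
    exact_mod_cast this
  · have : (v (a * x ^ d) : ℝ) < 1 := by
      rw [← Real.log_neg_iff (vpos hne), hlog]
      linarith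
    exact_mod_cast this

/-- if the group is generated by one element -/
theorem cyclic_gen {g : ℝ} (hg : lg v = AddSubgroup.closure {g}) :
    ∃ π : κ, π ≠ 0 ∧ v π ≤ 1 ∧ ∀ x : κ, x ≠ 0 → ∃ k : ℤ, v x = v π ^ k := by
  have key : ∀ x : κ, x ≠ 0 → ∃ k : ℤ, Real.log (v x) = k * g := by
    intro x hx
    have h1 : Real.log (v x) ∈ lg v := ⟨x, hx, rfl⟩
    rw [hg, AddSubgroup.mem_closure_singleton] at h1
    obtain ⟨k, hk⟩ := h1
    exact ⟨k, by rw [← hk, zsmul_eq_mul]⟩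
  have hmem : ∃ π : κ, π ≠ 0 ∧ Real.log (v π) = -|g| := by
    have h1 : -|g| ∈ lg v := by
      rw [hg, AddSubgroup.mem_closure_singleton]
      rcases abs_choice g with h | h
      · exact ⟨-1, by rw [h]; simp⟩
      · exact ⟨1, by rw [h]; simp⟩
    obtain ⟨x, hx, h2⟩ := h1
    exact ⟨x, hx, h2.symm⟩
  obtain ⟨π, hπ, hlog⟩ := hmem
  have key2 : ∀ x : κ, x ≠ 0 → ∃ k : ℤ, Real.log (v x) = k * Real.log (v π) := by
    intro x hx
    obtain ⟨k, hk⟩ := key x hx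
    rcases abs_choice g with h | h
    · exact ⟨-k, by rw [hk, hlog, h]; push_cast; ring⟩
    · exact ⟨k, by rw [hk, hlog, h]; ring⟩
  refine ⟨π, hπ, ?_, fun x hx => ?_⟩
  · have : (v π : ℝ) ≤ 1 := by
      rw [← Real.log_nonpos_iff (vpos hπ).le, hlog]
      exact neg_nonpos.2 (abs_nonneg g)
    exact_mod_cast this
  · obtain ⟨k, hk⟩ := key2 x hx
    refine ⟨k, ?_⟩
    have : (v x : ℝ) = (v π : ℝ) ^ k := by
      apply Real.log_injOn_pos (Set.mem_Ioi.2 (vpos hx)) (Set.mem_Ioi.2 (zpow_pos (vpos hπ) k))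
      rw [Real.log_zpow, hk]
    exact_mod_cast this

theorem small_one {d : ℕ} (hd2 : 2 ≤ d) {a : κ} (ha : ∀ c : κ, v a ≠ v c ^ d) :
    ∃ a' : κ, a' ≠ 0 ∧ (∀ c : κ, v a' ≠ v c ^ d) ∧ ∀ e : κ, e ≠ 0 → v e < 1 →
      ∃ y : κ, y ≠ 0 ∧ v e ≤ v (a' * y ^ d) ∧ v (a' * y ^ d) < 1 := by
  have ha0 : a ≠ 0 := by
    rintro rfl
    apply ha 0
    rw [map_zero, zero_pow (by omega)]
  rcases (lg v).dense_or_cyclic with h | ⟨g, hg⟩
  · exact ⟨a, ha0, ha, fun e he he1 => exists_between h ha0 he he1 (by omega)⟩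
  · obtain ⟨π, hπ, hπ1, hgen⟩ := cyclic_gen hg
    have hne1 : v π ≠ 1 := by
      intro h1
      obtain ⟨k, hk⟩ := hgen a ha0
      apply ha 1
      rw [hk, h1, one_zpow, map_one, one_pow]
    have hlt : v π < 1 := lt_of_le_of_ne hπ1 hne1
    have hvπ : v π ≠ 0 := (Valuation.ne_zero_iff v).2 hπ
    have hinj : ∀ j k : ℤ, v π ^ j = v π ^ k → j = k := by
      intro j k h
      exact zpow_right_injective₀ (pos_iff_ne_zero.2 hvπ) hne1 h
    refine ⟨π, hπ, fun c hc => ?_, fun e he he1 => ⟨1, one_ne_zero, ?_, ?_⟩⟩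
    · have hc0 : c ≠ 0 := by
        rintro rfl
        rw [map_zero, zero_pow (by omega)] at hc
        exact hvπ hc
      obtain ⟨k, hk⟩ := hgen c hc0
      have h1 : v π ^ (1 : ℤ) = v π ^ (k * (d : ℤ)) := by
        rw [zpow_one, zpow_mul, zpow_natCast, ← hk]
        exact hc
      have h2 := hinj _ _ h1
      have h3 : (d : ℤ) ∣ 1 := ⟨k, by rw [mul_comm]; exact h2⟩
      have h4 : d ∣ 1 := by exact_mod_cast h3
      have := Nat.dvd_one.1 h4
      omega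
    · rw [one_pow, mul_one]
      obtain ⟨k, hk⟩ := hgen e he
      rw [hk] at he1 ⊢
      have hk1 : 1 ≤ k := by
        by_contra hcon
        push Not at hcon
        have h5 : k ≤ 0 := by omega
        have : 1 ≤ v π ^ k := by
          obtain ⟨m, hm⟩ := Int.eq_ofNat_of_zero_le (neg_nonneg.2 h5)
          have h6 : k = -(m : ℤ) := by
            have : (m : ℤ) = -k := hm.symm
            omega
          rw [h6, zpow_neg, zpow_natCast]
          exact (one_le_inv₀ (pow_pos (pos_iff_ne_zero.2 hvπ) m)).2 (pow_le_one₀ zero_le hπ1)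
        exact absurd he1 (not_lt.2 this)
      calc v π ^ k ≤ v π ^ (1 : ℤ) := zpow_le_zpow_right_of_le_one₀ (pos_iff_ne_zero.2 hvπ) hπ1 hk1
        _ = v π := zpow_one _
    · rw [one_pow, mul_one]
      exact hlt

theorem dense_of_not_cyclicMod {ℓ : ℕ} (hℓ : ℓ ≠ 0)
    (h : ¬ ∃ a : κ, a ≠ 0 ∧ ∀ b : κ, ∃ (c : κ) (i : ℕ), v b = v c ^ ℓ * v a ^ i) :
    Dense (lg v : Set ℝ) := by
  rcases (lg v).dense_or_cyclic with h1 | ⟨g, hg⟩
  · exact h1
  · exfalso
    obtain ⟨π, hπ, hπ1, hgen⟩ := cyclic_gen hg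
    apply h
    refine ⟨π, hπ, fun b => ?_⟩
    by_cases hb : b = 0
    · exact ⟨0, 0, by rw [hb, map_zero, zero_pow hℓ, zero_mul]⟩
    · obtain ⟨k, hk⟩ := hgen b hb
      have hvπ : v π ≠ 0 := (Valuation.ne_zero_iff v).2 hπ
      refine ⟨π ^ (k / ℓ), (k % ℓ).toNat, ?_⟩
      have h2 : ((k % ℓ).toNat : ℤ) = k % ℓ :=
        Int.toNat_of_nonneg (Int.emod_nonneg _ (by exact_mod_cast hℓ))
      rw [hk, map_zpow₀, ← zpow_natCast (v π ^ (k / (ℓ : ℤ))), ← zpow_mul, ← zpow_natCast (v π), h2,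
        ← zpow_add₀ hvπ]
      congr 1
      have := Int.emod_add_mul_ediv k ℓ
      linarith [mul_comm (k / (ℓ : ℤ)) (ℓ : ℤ)]

end real

end VP_

open VP_

theorem smallMod_of {K : Type} [Field K] (P : ValuedPlace K) {d : ℕ} (hd : d ≠ 0) {t : K}
    (ht : t ∈ P.O) (hv : ∃ e : P.κ, e ≠ 0 ∧ P.v e < 1)
    (h : ∀ e : P.κ, e ≠ 0 → P.v e < 1 →
      ∃ y : P.κ, y ≠ 0 ∧ P.v e ≤ P.v (P.π ⟨t, ht⟩ * y ^ d) ∧ P.v (P.π ⟨t, ht⟩ * y ^ d) < 1)
    (ht0 : P.π ⟨t, ht⟩ ≠ 0) : SmallMod (vring P) d t := by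
  intro e he he1
  have heO : e ∈ vring P := by
    rw [← ValuationSubring.valuation_le_one_iff]
    exact he1.le
  obtain ⟨heP, -⟩ := (mem_vring P).1 heO
  -- an element with nonzero image between
  obtain ⟨e', he', hle, hlt⟩ : ∃ e' : P.κ, e' ≠ 0 ∧
      (∀ z : K, ∀ hz : z ∈ P.O, P.π ⟨z, hz⟩ ≠ 0 → P.v e' ≤ P.v (P.π ⟨z, hz⟩) →
        (vring P).valuation e ≤ (vring P).valuation z) ∧ P.v e' < 1 := by
    by_cases h0 : P.π ⟨e, heP⟩ = 0
    · obtain ⟨e', he', hv'⟩ := hv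
      refine ⟨e', he', fun z hz hz0 _ => ?_, hv'⟩
      rw [val_le_iff P heP hz hz0, h0, map_zero]
      exact zero_le
    · refine ⟨P.π ⟨e, heP⟩, h0, fun z hz hz0 hz1 => (val_le_iff P heP hz hz0).2 hz1, ?_⟩
      exact (val_lt_iff P heP).1 he1
  obtain ⟨y, hy0, hy1, hy2⟩ := h e' he' hlt
  obtain ⟨⟨z, hz⟩, rfl⟩ := P.surjective y
  have hmem : t * z ^ d ∈ P.O := P.O.mul_mem _ _ ht (P.O.toSubring.pow_mem hz d)
  have hpi : P.π ⟨t * z ^ d, hmem⟩ = P.π ⟨t, ht⟩ * P.π ⟨z, hz⟩ ^ d := by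
    rw [← map_pow, ← map_mul]
    rfl
  refine ⟨z, hle _ hmem ?_ (by rw [hpi]; exact hy1), (val_lt_iff P hmem).2 (by rw [hpi]; exact hy2)⟩
  rw [hpi]
  exact mul_ne_zero ht0 (pow_ne_zero _ hy0)

/-- the residue fields -/
theorem resExt_of {K : Type} [Field K] (P : ValuedPlace K) {d : ℕ} (h : P.HasExtension d) :
    ResExt d (vring P) := by
  let V := P.v.valuationSubring
  let f : vring P →+* V :=
    { toFun := fun x => ⟨P.π ⟨x, ((mem_vring P).1 x.2).1⟩, ((mem_vring P).1 x.2).2⟩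
      map_one' := Subtype.ext (map_one P.π)
      map_mul' := fun x y => Subtype.ext (by
        show P.π _ = P.π _ * P.π _
        rw [← map_mul]; rfl)
      map_zero' := Subtype.ext (map_zero P.π)
      map_add' := fun x y => Subtype.ext (by
        show P.π _ = P.π _ + P.π _
        rw [← map_add]; rfl) }
  have hsurj : Function.Surjective f := by
    rintro ⟨y, hy⟩
    obtain ⟨⟨x, hx⟩, rfl⟩ := P.surjective y
    exact ⟨⟨x, hx, hy⟩, rfl⟩
  have hloc : IsLocalHom f := IsLocalHom.of_surjective f hsurj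
  have hbij : Function.Bijective (IsLocalRing.ResidueField.map f) := by
    refine ⟨RingHom.injective _, fun y => ?_⟩
    obtain ⟨y, rfl⟩ := IsLocalRing.residue_surjective y
    obtain ⟨x, rfl⟩ := hsurj y
    exact ⟨IsLocalRing.residue _ x, IsLocalRing.ResidueField.map_residue _ _⟩
  let e := RingEquiv.ofBijective _ hbij
  obtain ⟨L, fL, aL, sL, hL⟩ := h
  let _ : Algebra (IsLocalRing.ResidueField (vring P)) L :=
    ((algebraMap (IsLocalRing.ResidueField V) L).comp (e : IsLocalRing.ResidueField (vring P) →+*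
      IsLocalRing.ResidueField V)).toAlgebra
  refine ⟨L, fL, inferInstance, ?_, ?_⟩
  · refine Algebra.IsSeparable.of_equiv_equiv e.symm (RingEquiv.refl L) ?_
    ext x
    show algebraMap (IsLocalRing.ResidueField V) L (e (e.symm x)) = _
    rw [RingEquiv.apply_symm_apply]
    rfl
  · rw [← hL]
    refine Algebra.finrank_eq_of_equiv_equiv e (RingEquiv.refl L) ?_
    ext x
    rfl

theorem vp : S_VP := by
  intro K _ p _ _ P D hP
  unfold ValuedPlace.TameUpTo at hP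
  push Not at hP
  obtain ⟨d, hd1, hdD, hd⟩ := hP
  have hpow : ∀ (y : K) (n : ℕ) (hn : n ≠ 0) (h : y ^ n ∈ P.O) (h0 : P.π ⟨y ^ n, h⟩ ≠ 0),
      ∃ hy : y ∈ P.O, P.π ⟨y, hy⟩ ≠ 0 ∧ P.π ⟨y ^ n, h⟩ = P.π ⟨y, hy⟩ ^ n := by
    intro y n hn h h0
    have hy := mem_of_pow P hn h
    have h1 := pi_pow P hy n h
    refine ⟨hy, fun h2 => h0 ?_, h1⟩
    rw [h1, h2, zero_pow hn]
  by_cases h1 : P.Divisible d ∨ ¬ P.HasExtension d
  · obtain ⟨h2, h3, h4⟩ := hd h1
    right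
    have hdense : Dense (lg P.v : Set ℝ) := dense_of_not_cyclicMod h2.ne_zero (by
      rintro ⟨a, ha, hb⟩
      exact h4 ⟨a, ha, hb⟩)
    unfold ValuedPlace.CyclicMod at h4
    push Not at h4
    obtain ⟨a, ha⟩ := h4 1 one_ne_zero
    have ha0 : a ≠ 0 := by
      rintro rfl
      apply ha 0 0
      rw [map_zero, zero_pow h2.ne_zero, zero_mul]
    obtain ⟨b, hb⟩ := h4 a ha0
    have hb0 : b ≠ 0 := by
      rintro rfl
      apply hb 0 0
      rw [map_zero, zero_pow h2.ne_zero, zero_mul]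
    have hv : ∃ e : P.κ, e ≠ 0 ∧ P.v e < 1 := by
      have hne : P.v a ≠ 1 := by
        intro h
        apply ha 1 0
        rw [h, map_one, one_pow, one_mul, pow_zero]
      rcases lt_or_gt_of_ne hne with h | h
      · exact ⟨a, ha0, h⟩
      · refine ⟨a⁻¹, inv_ne_zero ha0, ?_⟩
        rw [map_inv₀]
        exact inv_lt_one_of_one_lt₀ h
    obtain ⟨⟨t₁, ht₁⟩, rfl⟩ := P.surjective a
    obtain ⟨⟨t₂, ht₂⟩, rfl⟩ := P.surjective b
    refine ⟨d, hdD, t₁, t₂, ⟨h2, ?_, ?_, ?_, ?_, ?_⟩⟩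
    · -- the characteristic
      have hK : ((d : ℕ) : K) ≠ 0 := by
        intro h
        apply h3
        have h5 : ((d : ℕ) : P.O) = 0 := Subtype.ext (by push_cast; exact h)
        rw [← map_natCast P.π, h5, map_zero]
      have h6 : ((d : ℕ) : K) ^ (p - 1) = 1 := by
        have h7 : ((d : ℕ) : ZMod p) ≠ 0 := by
          intro h
          apply hK
          rw [← map_natCast (ZMod.castHom (dvd_refl p) K), h, map_zero]
        have h8 := ZMod.pow_card_sub_one_eq_one h7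
        rw [← map_natCast (ZMod.castHom (dvd_refl p) K), ← map_pow, h8, map_one]
      have h9 : (vring P).valuation ((d : ℕ) : K) ^ (p - 1) = 1 := by
        rw [← map_pow, h6, map_one]
      have hp1 : p - 1 ≠ 0 := by
        have := (Fact.out : p.Prime).two_le
        omega
      exact (pow_eq_one_iff.1 h9).resolve_right hp1
    · intro y hy
      rw [← map_pow] at hy
      obtain ⟨hx, hx0, hxv⟩ := val_eq P ht₁ ha0 hy
      obtain ⟨hy', -, hy''⟩ := hpow y d h2.ne_zero hx hx0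
      apply ha (P.π ⟨y, hy'⟩) 0
      rw [pow_zero, mul_one, ← map_pow, ← hy'']
      exact hxv
    · intro y i hy
      rw [← map_pow, ← map_pow, ← map_mul] at hy
      obtain ⟨hx, hx0, hxv⟩ := val_eq P ht₂ hb0 hy
      obtain ⟨hti, hti'⟩ := inv_of_ne P ht₁ ha0
      have ht₁0 : t₁ ≠ 0 := by
        rintro rfl
        apply ha0
        have : (⟨0, ht₁⟩ : P.O) = 0 := rfl
        rw [this, map_zero]
      have hyO : y ^ d ∈ P.O := by
        have h5 := P.O.mul_mem _ _ hx (P.O.toSubring.pow_mem hti i)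
        rwa [mul_assoc, ← mul_pow, mul_inv_cancel₀ ht₁0, one_pow, mul_one] at h5
      have hpi : P.π ⟨y ^ d * t₁ ^ i, hx⟩ = P.π ⟨y ^ d, hyO⟩ * P.π ⟨t₁, ht₁⟩ ^ i := by
        rw [← map_pow, ← map_mul]
        rfl
      have h0 : P.π ⟨y ^ d, hyO⟩ ≠ 0 := by
        intro h
        apply hx0
        rw [hpi, h, zero_mul]
      obtain ⟨hy', -, hy''⟩ := hpow y d h2.ne_zero hyO h0
      apply hb (P.π ⟨y, hy'⟩) i
      rw [hxv, hpi, map_mul, hy'', map_pow, map_pow]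
    · exact smallMod_of P h2.ne_zero ht₁ hv (fun e he he1 =>
        exists_between hdense ha0 he he1 h2.one_le) ha0
    · exact smallMod_of P h2.ne_zero ht₂ hv (fun e he he1 =>
        exists_between hdense hb0 he he1 h2.one_le) hb0
  · push Not at h1
    left
    obtain ⟨h2, h3⟩ := h1
    unfold ValuedPlace.Divisible at h2
    push Not at h2
    obtain ⟨a, ha⟩ := h2
    have hd2 : 2 ≤ d := by
      by_contra hcon
      have : d = 1 := by omega
      subst this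
      exact ha a (pow_one _).symm
    obtain ⟨a', ha'0, ha', hsm⟩ := small_one hd2 ha
    have hv : ∃ e : P.κ, e ≠ 0 ∧ P.v e < 1 := by
      have hne : P.v a' ≠ 1 := by
        intro h
        apply ha' 1
        rw [h, map_one, one_pow]
      rcases lt_or_gt_of_ne hne with h | h
      · exact ⟨a', ha'0, h⟩
      · refine ⟨a'⁻¹, inv_ne_zero ha'0, ?_⟩
        rw [map_inv₀]
        exact inv_lt_one_of_one_lt₀ h
    obtain ⟨⟨t, ht⟩, rfl⟩ := P.surjective a'
    refine ⟨d, hdD, t, ⟨hd2, ?_, ?_, resExt_of P h3⟩⟩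
    · intro y hy
      rw [← map_pow] at hy
      obtain ⟨hx, hx0, hxv⟩ := val_eq P ht ha'0 hy
      obtain ⟨hy', -, hy''⟩ := hpow y d (by omega) hx hx0
      apply ha' (P.π ⟨y, hy'⟩)
      rw [← map_pow, ← hy'']
      exact hxv
    · exact smallMod_of P (by omega) ht hv hsm ha'0

end Pool.Agent.N616.NH
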